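import Pool.Agent.Lib.MP_216314_pr.IC.T0

/-!
# The scales: definitions
-/

set_option autoImplicit false

noncomputable section

namespace DimLim

open Finset FKI FKP FKN

/-- The side of the boxes at the scale `j`: `2 ^ (- (1 + e) j)`, in units of the mesh `δ`. -/
def rj (e δ : ℝ) (j : ℕ) : ℕ := ⌊(2 : ℝ) ^ (-((1 + e) * j)) / δ⌋₊

/-- The radius of the annuli at the scale `j`: `2 ^ (-j) / 16`, in units of the mesh `δ`. -/
def lj (δ : ℝ) (j : ℕ) : ℕ := ⌊(2 : ℝ) ^ (-(j : ℝ)) / (16 * δ)⌋₊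

/-- The bad event at the scale `j`: an annulus with `m` traversals, or too many visited boxes. -/
def BadS (A B e η δ : ℝ) (m j : ℕ) (ω : Finset Edge) : Prop :=
  BadT ⌊A / δ⌋₊ ⌊B / δ⌋₊ (rj e δ j) (lj δ j) m ω ∨
    (2 : ℝ) ^ (η * j) * ((⌊A / δ⌋₊ : ℝ) / rj e δ j) ^ (7 / 4 : ℝ) < (Nb (rj e δ j) (Trc ⌊A / δ⌋₊ ⌊B / δ⌋₊ ω) : ℝ)

end DimLim
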