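import Pool.Agent.Lib.MP_216314_pr.IC.C0

/-!
C1 (medium, 2 theorems, only real numbers): the numbers at the scale `j`.

PROOF of `scale_nums`. Choose `j0` with `2 ^ (-(e j0)) ≤ 1 / 32` and `2 ^ (-j0) ≤ min A B / 2`, `δ0 = min A B / 2`, `c = 32 + 2 A + 2 B`. Write `x = 2 ^ (-((1 + e) j))`, `y = 2 ^ (-j)`, `x = y * 2 ^ (-(e j)) ≤ y / 32`, `δ ≤ x`. `1 ≤ rj ≤ x / δ`, `x / (2 δ) ≤ rj` (floor of a
number at least one). `y / (16 δ) ≥ 2 x / δ ≥ 2`, so `y / (32 δ) ≤ lj ≤ y / (16 δ)` and `rj ≤ x / δ ≤ y / (32 δ) ≤ lj`. `16 lj ≤ y / δ ≤ A / (2 δ) ≤ A / δ - 1 < ⌊A / δ⌋ + 0` (`δ < A / 2`). `⌊A / δ⌋ / rj ≤ (A / δ) / (x / (2 δ)) = 2 A / x = 2 A 2 ^ ((1 + e) j)`.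
`rj / lj ≤ (x / δ) / (y / (32 δ)) = 32 x / y = 32 * 2 ^ (-(e j))`. `2 δ (16 lj) ≤ 2 y`, `y = (2⁻¹) ^ j` (natural power).
`aspect`: for `δ < min A B / 2`: `A / (2 δ) ≤ ⌊A / δ⌋ ≤ A / δ`, the same for `B`; `K ≥ 2 A / B, 2 B / A`.
-/

set_option autoImplicit false

noncomputable section

namespace DimLim

open Finset FKI FKP FKN

/-- The floor of a number at least one is at least its half. -/
private theorem C1_half {t : ℝ} (ht : 1 ≤ t) : t / 2 ≤ (⌊t⌋₊ : ℝ) := by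
  have h1 : 1 ≤ ⌊t⌋₊ := (Nat.one_le_floor_iff t).2 ht
  have h2 : t < (⌊t⌋₊ : ℝ) + 1 := Nat.lt_floor_add_one t
  have h3 : (1 : ℝ) ≤ (⌊t⌋₊ : ℝ) := by exact_mod_cast h1
  linarith

theorem scale_nums {A B e : ℝ} (hA : 0 < A) (hB : 0 < B) (he : 0 < e) :
    ∃ (j0 : ℕ) (c δ0 : ℝ), 0 < c ∧ 0 < δ0 ∧ ∀ (j : ℕ) (δ : ℝ), j0 ≤ j → 0 < δ → δ < δ0 →
      δ ≤ (2 : ℝ) ^ (-((1 + e) * j)) →
      1 ≤ rj e δ j ∧ rj e δ j ≤ lj δ j ∧ 16 * lj δ j ≤ ⌊A / δ⌋₊ ∧ 16 * lj δ j ≤ ⌊B / δ⌋₊ ∧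
      (⌊A / δ⌋₊ : ℝ) / rj e δ j ≤ c * (2 : ℝ) ^ ((1 + e) * j) ∧ (⌊B / δ⌋₊ : ℝ) / rj e δ j ≤ c * (2 : ℝ) ^ ((1 + e) * j) ∧
      (rj e δ j : ℝ) / lj δ j ≤ c * (2 : ℝ) ^ (-(e * j)) ∧
      2 * δ * ((16 * lj δ j : ℕ) : ℝ) ≤ 2 * (2⁻¹ : ℝ) ^ j := by
  set m : ℝ := min A B with hm
  have hm0 : 0 < m := lt_min hA hB
  have hmA : m ≤ A := min_le_left _ _
  have hmB : m ≤ B := min_le_right _ _
  obtain ⟨n0, hn0⟩ := exists_pow_lt_of_lt_one (show 0 < m / 2 by linarith)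
    (show (2⁻¹ : ℝ) < 1 by norm_num)
  obtain ⟨n1, hn1⟩ := exists_nat_ge (5 / e)
  refine ⟨max n0 n1, 32 + 2 * A + 2 * B, m / 2, by positivity, by linarith, ?_⟩
  intro j δ hj hδ hδ0 hδx
  have hj0 : n0 ≤ j := (le_max_left _ _).trans hj
  have hj1 : n1 ≤ j := (le_max_right _ _).trans hj
  obtain ⟨x, hx⟩ : ∃ x : ℝ, x = (2 : ℝ) ^ (-((1 + e) * j)) := ⟨_, rfl⟩
  obtain ⟨y, hy⟩ : ∃ y : ℝ, y = (2 : ℝ) ^ (-(j : ℝ)) := ⟨_, rfl⟩
  obtain ⟨u, hu⟩ : ∃ u : ℝ, u = (2 : ℝ) ^ (-(e * j)) := ⟨_, rfl⟩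
  have hx0 : 0 < x := by rw [hx]; exact Real.rpow_pos_of_pos two_pos _
  have hy0 : 0 < y := by rw [hy]; exact Real.rpow_pos_of_pos two_pos _
  have hu0 : 0 < u := by rw [hu]; exact Real.rpow_pos_of_pos two_pos _
  have hxy : x = y * u := by
    rw [hx, hy, hu, ← Real.rpow_add two_pos]
    congr 1
    ring
  have hyp : y = (2⁻¹ : ℝ) ^ j := by
    rw [hy, Real.rpow_neg two_pos.le, Real.rpow_natCast, inv_pow]
  have hxi : (2 : ℝ) ^ ((1 + e) * j) = x⁻¹ := by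
    rw [hx, Real.rpow_neg two_pos.le, inv_inv]
  have hu32 : u ≤ 1 / 32 := by
    have h1 : (5 : ℝ) ≤ e * j := by
      have h2 : 5 / e ≤ (j : ℝ) := hn1.trans (Nat.cast_le.2 hj1)
      rw [div_le_iff₀ he] at h2
      linarith
    calc u ≤ (2 : ℝ) ^ (-(5 : ℝ)) := by
          rw [hu]
          exact Real.rpow_le_rpow_of_exponent_le one_le_two (by linarith)
      _ = 1 / 32 := by
          rw [Real.rpow_neg two_pos.le]
          norm_num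
  have hym : y ≤ m / 2 := by
    rw [hyp]
    exact (pow_le_pow_of_le_one (by norm_num) (by norm_num) hj0).trans hn0.le
  have hxy32 : 32 * x ≤ y := by
    rw [hxy]
    nlinarith
  rw [← hx] at hδx
  have hr : rj e δ j = ⌊x / δ⌋₊ := by rw [hx]; rfl
  have hl : lj δ j = ⌊y / (16 * δ)⌋₊ := by rw [hy]; rfl
  have hxd : 1 ≤ x / δ := (one_le_div hδ).2 hδx
  have hyd : 2 * (x / δ) ≤ y / (16 * δ) := by
    rw [← mul_div_assoc, div_le_div_iff₀ hδ (by positivity)]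
    nlinarith
  have hrl : (rj e δ j : ℝ) ≤ x / δ := by
    rw [hr]
    exact Nat.floor_le (by positivity)
  have hrg : x / δ / 2 ≤ (rj e δ j : ℝ) := by
    rw [hr]
    exact C1_half hxd
  have hll : (lj δ j : ℝ) ≤ y / (16 * δ) := by
    rw [hl]
    exact Nat.floor_le (by positivity)
  have hlg : y / (16 * δ) / 2 ≤ (lj δ j : ℝ) := by
    rw [hl]
    exact C1_half (by linarith)
  have hA1 : 1 ≤ A / δ := (one_le_div hδ).2 (by linarith)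
  have hB1 : 1 ≤ B / δ := (one_le_div hδ).2 (by linarith)
  have hl16 : ((16 * lj δ j : ℕ) : ℝ) ≤ y / δ := by
    push_cast
    have h1 : y / (16 * δ) = y / δ / 16 := by
      field_simp
    rw [h1] at hll
    linarith
  have hAB : ∀ D : ℝ, m ≤ D → 1 ≤ D / δ → 16 * lj δ j ≤ ⌊D / δ⌋₊ := by
    intro D hD h1
    have h2 : y / δ ≤ D / δ / 2 := by
      rw [div_div, div_le_div_iff₀ hδ (by positivity)]
      nlinarith
    have h3 : ((16 * lj δ j : ℕ) : ℝ) ≤ (⌊D / δ⌋₊ : ℝ) := (hl16.trans h2).trans (C1_half h1)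
    exact_mod_cast h3
  have hrpos : (0 : ℝ) < rj e δ j := by
    have h1 : 0 < x / δ / 2 := by positivity
    linarith
  have hlpos : (0 : ℝ) < lj δ j := by
    have h1 : 0 < y / (16 * δ) / 2 := by positivity
    linarith
  have hquo : ∀ D : ℝ, 0 ≤ D → 2 * D ≤ 32 + 2 * A + 2 * B →
      (⌊D / δ⌋₊ : ℝ) / rj e δ j ≤ (32 + 2 * A + 2 * B) * (2 : ℝ) ^ ((1 + e) * j) := by
    intro D hD hD2
    rw [hxi, div_le_iff₀ hrpos]
    have h1 : (⌊D / δ⌋₊ : ℝ) ≤ D / δ := Nat.floor_le (by positivity)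
    have h2 : D / δ = 2 * D * x⁻¹ * (x / δ / 2) := by
      field_simp
    calc (⌊D / δ⌋₊ : ℝ) ≤ 2 * D * x⁻¹ * (x / δ / 2) := by rw [← h2]; exact h1
      _ ≤ (32 + 2 * A + 2 * B) * x⁻¹ * (x / δ / 2) := by
          have h3 : 0 ≤ x⁻¹ * (x / δ / 2) := by positivity
          rw [mul_assoc, mul_assoc (32 + 2 * A + 2 * B)]
          exact mul_le_mul_of_nonneg_right hD2 h3
      _ ≤ (32 + 2 * A + 2 * B) * x⁻¹ * (rj e δ j : ℝ) :=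
          mul_le_mul_of_nonneg_left hrg (by positivity)
  refine ⟨?_, ?_, hAB A hmA hA1, hAB B hmB hB1, hquo A hA.le (by linarith), hquo B hB.le (by linarith),
    ?_, ?_⟩
  · rw [hr]
    exact (Nat.one_le_floor_iff _).2 hxd
  · have h1 : (rj e δ j : ℝ) ≤ lj δ j := by linarith
    exact_mod_cast h1
  · rw [← hu, div_le_iff₀ hlpos]
    have h1 : x / δ = 32 * u * (y / (16 * δ) / 2) := by
      rw [hxy]
      field_simp
      norm_num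
    calc (rj e δ j : ℝ) ≤ 32 * u * (y / (16 * δ) / 2) := by rw [← h1]; exact hrl
      _ ≤ (32 + 2 * A + 2 * B) * u * (y / (16 * δ) / 2) := by
          have h2 : 0 ≤ u * (y / (16 * δ) / 2) := by positivity
          rw [mul_assoc, mul_assoc (32 + 2 * A + 2 * B)]
          exact mul_le_mul_of_nonneg_right (by linarith) h2
      _ ≤ (32 + 2 * A + 2 * B) * u * (lj δ j : ℝ) := mul_le_mul_of_nonneg_left hlg (by positivity)
  · rw [← hyp]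
    calc 2 * δ * ((16 * lj δ j : ℕ) : ℝ) ≤ 2 * δ * (y / δ) :=
          mul_le_mul_of_nonneg_left hl16 (by positivity)
      _ = 2 * y := by
          field_simp

theorem aspect {A B : ℝ} (hA : 0 < A) (hB : 0 < B) : ∃ (K : ℕ) (δ0 : ℝ), 0 < δ0 ∧ ∀ δ : ℝ, 0 < δ → δ < δ0 →
    1 ≤ ⌊A / δ⌋₊ ∧ 1 ≤ ⌊B / δ⌋₊ ∧ ⌊A / δ⌋₊ ≤ K * ⌊B / δ⌋₊ ∧ ⌊B / δ⌋₊ ≤ K * ⌊A / δ⌋₊ := by
  set m : ℝ := min A B with hm
  have hm0 : 0 < m := lt_min hA hB
  have hmA : m ≤ A := min_le_left _ _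
  have hmB : m ≤ B := min_le_right _ _
  obtain ⟨K, hK⟩ := exists_nat_ge (2 * A / B + 2 * B / A)
  refine ⟨K, m / 2, by linarith, ?_⟩
  intro δ hδ hδ0
  have hA1 : 1 ≤ A / δ := (one_le_div hδ).2 (by linarith)
  have hB1 : 1 ≤ B / δ := (one_le_div hδ).2 (by linarith)
  have key : ∀ C D : ℝ, 0 < C → 0 < D → 1 ≤ D / δ → 2 * C / D ≤ K →
      ⌊C / δ⌋₊ ≤ K * ⌊D / δ⌋₊ := by
    intro C D hC hD h1 h2
    have h3 : (⌊C / δ⌋₊ : ℝ) ≤ C / δ := Nat.floor_le (by positivity)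
    have h4 : C / δ = 2 * C / D * (D / δ / 2) := by
      field_simp
    have h5 : 2 * C / D * (D / δ / 2) ≤ (K : ℝ) * ⌊D / δ⌋₊ :=
      mul_le_mul h2 (C1_half h1) (by positivity) (by positivity)
    have h6 : (⌊C / δ⌋₊ : ℝ) ≤ ((K * ⌊D / δ⌋₊ : ℕ) : ℝ) := by
      push_cast
      exact h3.trans (h4.le.trans h5)
    exact_mod_cast h6
  have hab : 0 < 2 * A / B := by positivity
  have hba : 0 < 2 * B / A := by positivity
  exact ⟨(Nat.one_le_floor_iff _).2 hA1, (Nat.one_le_floor_iff _).2 hB1,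
    key A B hA hB hB1 (by linarith), key B A hB hA hA1 (by linarith)⟩

end DimLim
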