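import Pool.Agent.Lib.MP_216314_pr.IC.T0
import Pool.Agent.Lib.MP_216314_pr.I.DimA

/-!
N2 (medium-): the probability that a box is visited.

PROOF. `gw k = (k + 1) ^ (-1/4)`, `gc P Q p q = gw p + gw (P - p) + gw q + gw (Q - q)` (I/DimA.lean). Let `P = a / ρ`, `Q = b / ρ`, and `n = min (min p (P - p)) (min q (Q - q))`. If `n = 0` then `gc ≥ gw 0 = 1` and `Pr ≤ 1`. If `1 ≤ n`:
`HypU Trc` with `m = ρ`, `d = ρ * n`, `v = (ρ * p, ρ * q)`: `d ≤ ρ p`, `ρ p + ρ n ≤ ρ P ≤ a` and so on; a vertex `w` with `bxi ρ w = (p, q)` has `sd v w ≤ ρ`; so `Pr ≤ C (ρ / (ρ n)) ^ (1/4) = C n ^ (-1/4) ≤ 2 C (n + 1) ^ (-1/4) = 2 C gw n ≤ 2 C gc P Q p q`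
(`n + 1 ≤ 2 n`, `2 ^ (1/4) ≤ 2`; `gw` of the index which is the minimum). Compare `cell_bound` (I/DimB.lean).
-/

set_option autoImplicit false

noncomputable section

namespace DimLim

open Finset FKI FKP FKN

private theorem N2_ratio {n : ℕ} (hn : 1 ≤ n) {x : ℝ} (hx0 : 0 ≤ x) (hx : x ≤ 16 / ((n : ℝ) + 1)) :
    x ^ (1 / 4 : ℝ) ≤ 2 * gw n := by
  have h16 : (16 : ℝ) ^ (1 / 4 : ℝ) = 2 := by
    rw [show (16 : ℝ) = 2 ^ (4 : ℝ) by norm_num, ← Real.rpow_mul (by norm_num)]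
    norm_num
  have h1 : (0 : ℝ) ≤ (n : ℝ) + 1 := by positivity
  have h2 : gw n = (((n : ℝ) + 1)⁻¹) ^ (1 / 4 : ℝ) := by
    unfold gw
    rw [Real.rpow_neg h1, Real.inv_rpow h1]
  rw [h2]
  calc x ^ (1 / 4 : ℝ) ≤ (16 / ((n : ℝ) + 1)) ^ (1 / 4 : ℝ) := Real.rpow_le_rpow hx0 hx (by norm_num)
    _ = (16 : ℝ) ^ (1 / 4 : ℝ) * (((n : ℝ) + 1)⁻¹) ^ (1 / 4 : ℝ) := by
        rw [div_eq_mul_inv, Real.mul_rpow (by norm_num) (inv_nonneg.2 h1)]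
    _ = 2 * (((n : ℝ) + 1)⁻¹) ^ (1 / 4 : ℝ) := by rw [h16]

private theorem N2_box {ρ : ℕ} (hρ : 1 ≤ ρ) {x : ℤ} {p : ℕ} (h : x / (ρ : ℤ) = (p : ℤ)) :
    (ρ : ℤ) * p - ρ ≤ x ∧ x ≤ (ρ : ℤ) * p + ρ := by
  have h0 : (0 : ℤ) < ρ := by exact_mod_cast hρ
  have h1 := Int.mul_ediv_add_emod x (ρ : ℤ)
  have h2 := Int.emod_nonneg x h0.ne'
  have h3 := Int.emod_lt_of_pos x h0
  rw [h] at h1
  constructor
  · linarith
  · linarith

theorem box_prob (hU : HypU Trc) (K : ℕ) : ∃ C : ℝ, 0 < C ∧ ∀ (a b ρ p q : ℕ), 1 ≤ ρ → ρ ≤ a → ρ ≤ b → a ≤ K * b →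
    b ≤ K * a → p ≤ a / ρ → q ≤ b / ρ →
    Pr (box 0 a 0 b) (fun ω => ∃ w ∈ Trc a b ω, bxi ρ w = ((p : ℤ), (q : ℤ))) ≤ C * gc (a / ρ) (b / ρ) p q := by
  obtain ⟨C, hC, hCU⟩ := hU K
  refine ⟨2 * C + 1, by linarith, ?_⟩
  intro a b ρ p q hρ hρa hρb hab hba hp hq
  obtain ⟨P, hP⟩ : ∃ P, P = a / ρ := ⟨_, rfl⟩
  obtain ⟨Q, hQ⟩ : ∃ Q, Q = b / ρ := ⟨_, rfl⟩
  rw [← hP] at hp ⊢
  rw [← hQ] at hq ⊢
  have hPa : ρ * P ≤ a := by
    rw [hP]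
    exact Nat.mul_div_le a ρ
  have hQb : ρ * Q ≤ b := by
    rw [hQ]
    exact Nat.mul_div_le b ρ
  have hg1 := gw_nonneg p
  have hg2 := gw_nonneg (P - p)
  have hg3 := gw_nonneg q
  have hg4 := gw_nonneg (Q - q)
  have hgc : gc P Q p q = gw p + gw (P - p) + gw q + gw (Q - q) := rfl
  obtain ⟨n, hn⟩ : ∃ n, n = min (min p (P - p)) (min q (Q - q)) := ⟨_, rfl⟩
  have hgd : gw n ≤ gc P Q p q := by
    rw [hgc]
    rcases min_choice (min p (P - p)) (min q (Q - q)) with h | h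
    · rcases min_choice p (P - p) with h' | h'
      · rw [h, h'] at hn
        rw [hn]
        linarith
      · rw [h, h'] at hn
        rw [hn]
        linarith
    · rcases min_choice q (Q - q) with h' | h'
      · rw [h, h'] at hn
        rw [hn]
        linarith
      · rw [h, h'] at hn
        rw [hn]
        linarith
  have hgn := gw_nonneg n
  rcases Nat.eq_zero_or_pos n with h0 | h0
  · refine (Pr_le_one _ _).trans ?_
    have h1 : gw n = 1 := by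
      rw [h0]
      unfold gw
      rw [Nat.cast_zero, zero_add, Real.one_rpow]
    rw [h1] at hgd
    nlinarith
  · have hnp : n ≤ p := by omega
    have hnP : n ≤ P - p := by omega
    have hnq : n ≤ q := by omega
    have hnQ : n ≤ Q - q := by omega
    have h1 : ρ * n ≤ ρ * p := Nat.mul_le_mul_left _ hnp
    have h2 : ρ * p + ρ * n ≤ a := by
      refine le_trans ?_ hPa
      rw [← mul_add]
      exact Nat.mul_le_mul_left _ (by omega)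
    have h3 : ρ * n ≤ ρ * q := Nat.mul_le_mul_left _ hnq
    have h4 : ρ * q + ρ * n ≤ b := by
      refine le_trans ?_ hQb
      rw [← mul_add]
      exact Nat.mul_le_mul_left _ (by omega)
    have h5 : ρ ≤ ρ * n := Nat.le_mul_of_pos_right _ h0
    have hPr := hCU a b ρ (ρ * n) (((ρ * p : ℕ) : ℤ), ((ρ * q : ℕ) : ℤ)) (hρ.trans hρa) (hρ.trans hρb) hab hba hρ h5
      (show ((ρ * n : ℕ) : ℤ) ≤ ((ρ * p : ℕ) : ℤ) by exact_mod_cast h1)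
      (show ((ρ * p : ℕ) : ℤ) + ((ρ * n : ℕ) : ℤ) ≤ (a : ℤ) by exact_mod_cast h2)
      (show ((ρ * n : ℕ) : ℤ) ≤ ((ρ * q : ℕ) : ℤ) by exact_mod_cast h3)
      (show ((ρ * q : ℕ) : ℤ) + ((ρ * n : ℕ) : ℤ) ≤ (b : ℤ) by exact_mod_cast h4)
    have hmono : Pr (box 0 a 0 b) (fun ω => ∃ w ∈ Trc a b ω, bxi ρ w = ((p : ℤ), (q : ℤ))) ≤
        Pr (box 0 a 0 b) (fun ω => ∃ w ∈ Trc a b ω, sd (((ρ * p : ℕ) : ℤ), ((ρ * q : ℕ) : ℤ)) w ≤ (ρ : ℤ)) := by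
      refine Pr_mono fun ω _ => ?_
      rintro ⟨w, hw, hbx⟩
      refine ⟨w, hw, sd_le.2 ?_⟩
      have h6 : w.1 / (ρ : ℤ) = (p : ℤ) := congrArg Prod.fst hbx
      have h7 : w.2 / (ρ : ℤ) = (q : ℤ) := congrArg Prod.snd hbx
      have h8 := N2_box hρ h6
      have h9 := N2_box hρ h7
      push_cast
      exact ⟨h8, h9⟩
    refine (hmono.trans hPr).trans ?_
    have hρ0 : (0 : ℝ) < ρ := by exact_mod_cast hρ
    have hn0 : (1 : ℝ) ≤ n := by exact_mod_cast h0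
    have hr : ((ρ : ℝ) / ((ρ * n : ℕ) : ℝ)) ^ (1 / 4 : ℝ) ≤ 2 * gw n := by
      refine N2_ratio h0 (by positivity) ?_
      push_cast
      rw [div_le_div_iff₀ (by positivity) (by positivity)]
      nlinarith
    calc C * ((ρ : ℝ) / ((ρ * n : ℕ) : ℝ)) ^ (1 / 4 : ℝ) ≤ C * (2 * gw n) := mul_le_mul_of_nonneg_left hr hC.le
      _ ≤ (2 * C + 1) * gw n := by nlinarith
      _ ≤ (2 * C + 1) * gc P Q p q := mul_le_mul_of_nonneg_left hgd (by linarith)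

end DimLim
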