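import Pool.Agent.Lib.MP_216314_pr.IC.N1
import Pool.Agent.Lib.MP_216314_pr.IC.N2

/-!
N3 (medium): few boxes are visited.

PROOF. `Nb ρ (Trc a b ω)` is the cardinality of `S ω = (Trc a b ω).image (bxi ρ)`, contained in `Q =` the image of `(p, q) ∈ range (a / ρ + 1) × range (b / ρ + 1)` under `((p : ℤ), (q : ℤ))` (`inBox_trc`, the floor of `w.1 / ρ`, `Int.ediv` of non-negative numbers; injective).
`markov_card` with `t = Λ (a / ρ) ^ (7/4)` (N1.lean): `Pr ≤ (∑ Pr (box visited)) / t`, `box_prob` (N2.lean): the sum is at most `C ∑ gc P Q p q ≤ 6 C T ^ (7/4)` (`sum_gc`, I/DimA.lean; its sum is over `Fin (P + 1) × Fin (Q + 1)`) with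
`T = 2 (K + 1) (a / ρ)` (real division), as `P + 1 ≤ 2 a / ρ` (`ρ ≤ a`) and `Q + 1 ≤ 2 b / ρ ≤ 2 K a / ρ`. So the constant is `6 C (2 (K + 1)) ^ (7/4)`.
-/

set_option autoImplicit false

noncomputable section

namespace DimLim

open Finset FKI FKP FKN

private def N3_Q (P Q : ℕ) : Finset V :=
  ((Finset.range (P + 1)) ×ˢ (Finset.range (Q + 1))).image (fun x : ℕ × ℕ => (((x.1 : ℕ) : ℤ), ((x.2 : ℕ) : ℤ)))

private theorem N3_inj : Function.Injective (fun x : ℕ × ℕ => ((((x.1 : ℕ) : ℤ), ((x.2 : ℕ) : ℤ)) : V)) := by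
  intro x y h
  have h1 : ((x.1 : ℕ) : ℤ) = ((y.1 : ℕ) : ℤ) := congrArg Prod.fst h
  have h2 : ((x.2 : ℕ) : ℤ) = ((y.2 : ℕ) : ℤ) := congrArg Prod.snd h
  exact Prod.ext (by exact_mod_cast h1) (by exact_mod_cast h2)

private theorem N3_sum (P Q : ℕ) (f : V → ℝ) : ∑ q ∈ N3_Q P Q, f q =
    ∑ i : Fin (P + 1) × Fin (Q + 1), f ((((i.1 : ℕ)) : ℤ), (((i.2 : ℕ)) : ℤ)) := by
  unfold N3_Q
  rw [Finset.sum_image (fun x _ y _ h => N3_inj h), Finset.sum_product, Fintype.sum_prod_type,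
    ← Fin.sum_univ_eq_sum_range (fun p => ∑ q ∈ Finset.range (Q + 1), f (((p : ℕ) : ℤ), ((q : ℕ) : ℤ))) (P + 1)]
  refine Finset.sum_congr rfl fun p _ => ?_
  rw [← Fin.sum_univ_eq_sum_range (fun q => f ((((p : Fin (P + 1)) : ℕ) : ℤ), ((q : ℕ) : ℤ))) (Q + 1)]

private theorem N3_div {w : ℤ} {a ρ : ℕ} (h0 : 0 ≤ w) (h1 : w ≤ a) :
    ∃ n : ℕ, n < a / ρ + 1 ∧ w / (ρ : ℤ) = (n : ℤ) := by
  obtain ⟨m, rfl⟩ := Int.eq_ofNat_of_zero_le h0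
  refine ⟨m / ρ, ?_, by push_cast; rfl⟩
  have h2 : m ≤ a := by exact_mod_cast h1
  have := Nat.div_le_div_right (c := ρ) h2
  omega

private theorem N3_sub (a b ρ : ℕ) (ω : Finset Edge) : (Trc a b ω).image (bxi ρ) ⊆ N3_Q (a / ρ) (b / ρ) := by
  intro q hq
  rw [Finset.mem_image] at hq
  obtain ⟨w, hw, rfl⟩ := hq
  obtain ⟨h1, h2, h3, h4⟩ := inBox_trc a b ω w hw
  obtain ⟨m, hm, hm1⟩ := N3_div (ρ := ρ) h1 h2
  obtain ⟨n, hn, hn1⟩ := N3_div (ρ := ρ) h3 h4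
  unfold N3_Q
  rw [Finset.mem_image]
  refine ⟨(m, n), ?_, ?_⟩
  · rw [Finset.mem_product, Finset.mem_range, Finset.mem_range]
    exact ⟨hm, hn⟩
  · unfold bxi
    rw [hm1, hn1]

private theorem N3_T {a ρ : ℕ} (h1 : 1 ≤ ρ) (h2 : ρ ≤ a) : (((a / ρ : ℕ) : ℝ)) + 1 ≤ 2 * ((a : ℝ) / ρ) := by
  have h3 : ((a / ρ : ℕ) : ℝ) ≤ (a : ℝ) / ρ := Nat.cast_div_le
  have h4 : (1 : ℝ) ≤ (a : ℝ) / ρ := by
    have h5 : (0 : ℝ) < ρ := by exact_mod_cast h1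
    rw [le_div_iff₀ h5, one_mul]
    exact_mod_cast h2
  linarith

theorem few_boxes (hU : HypU Trc) (K : ℕ) : ∃ C : ℝ, 0 < C ∧ ∀ (a b ρ : ℕ) (Λ : ℝ), 1 ≤ ρ → ρ ≤ a → ρ ≤ b → a ≤ K * b →
    b ≤ K * a → 0 < Λ →
    Pr (box 0 a 0 b) (fun ω => Λ * ((a : ℝ) / ρ) ^ (7 / 4 : ℝ) < (Nb ρ (Trc a b ω) : ℝ)) ≤ C / Λ := by
  obtain ⟨C, hC, hbox⟩ := box_prob hU K
  have hK : (0 : ℝ) < 2 * ((K : ℝ) + 1) := by positivity
  refine ⟨6 * C * (2 * ((K : ℝ) + 1)) ^ (7 / 4 : ℝ), by positivity, ?_⟩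
  intro a b ρ Λ h1 h2 h3 h4 h5 hΛ
  have hρ : (0 : ℝ) < ρ := by exact_mod_cast h1
  have ha : (0 : ℝ) < a := by exact_mod_cast (lt_of_lt_of_le h1 h2)
  have hx : (0 : ℝ) < (a : ℝ) / ρ := by positivity
  have hx1 : (0 : ℝ) < ((a : ℝ) / ρ) ^ (7 / 4 : ℝ) := Real.rpow_pos_of_pos hx _
  have ht : 0 < Λ * ((a : ℝ) / ρ) ^ (7 / 4 : ℝ) := mul_pos hΛ hx1
  have hm := markov_card (box 0 a 0 b) (fun ω => (Trc a b ω).image (bxi ρ)) (N3_Q (a / ρ) (b / ρ))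
    (fun ω _ => N3_sub a b ρ ω) ht
  have hP : (((a / ρ : ℕ) : ℝ)) + 1 ≤ 2 * ((K : ℝ) + 1) * ((a : ℝ) / ρ) := by
    have h6 := N3_T h1 h2
    have h7 : 0 ≤ (K : ℝ) * ((a : ℝ) / ρ) := by positivity
    nlinarith
  have hQ : (((b / ρ : ℕ) : ℝ)) + 1 ≤ 2 * ((K : ℝ) + 1) * ((a : ℝ) / ρ) := by
    have h6 := N3_T h1 h3
    have h7 : (b : ℝ) / ρ ≤ K * ((a : ℝ) / ρ) := by
      rw [← mul_div_assoc]
      refine div_le_div_of_nonneg_right ?_ hρ.le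
      exact_mod_cast h5
    nlinarith
  have hs := sum_gc hP hQ
  have hsum : ∑ q ∈ N3_Q (a / ρ) (b / ρ), Pr (box 0 a 0 b) (fun ω => q ∈ (Trc a b ω).image (bxi ρ)) ≤
      C * (6 * (2 * ((K : ℝ) + 1) * ((a : ℝ) / ρ)) ^ (7 / 4 : ℝ)) := by
    rw [N3_sum]
    refine le_trans ?_ (mul_le_mul_of_nonneg_left hs hC.le)
    rw [Finset.mul_sum]
    refine Finset.sum_le_sum fun i _ => ?_
    refine le_trans (Pr_mono fun ω _ hω => ?_) (hbox a b ρ (i.1 : ℕ) (i.2 : ℕ) h1 h2 h3 h4 h5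
      (Nat.le_of_lt_succ i.1.2) (Nat.le_of_lt_succ i.2.2))
    rw [Finset.mem_image] at hω
    obtain ⟨w, hw1, hw2⟩ := hω
    exact ⟨w, hw1, hw2⟩
  have hfin : (∑ q ∈ N3_Q (a / ρ) (b / ρ), Pr (box 0 a 0 b) (fun ω => q ∈ (Trc a b ω).image (bxi ρ))) /
      (Λ * ((a : ℝ) / ρ) ^ (7 / 4 : ℝ)) ≤ 6 * C * (2 * ((K : ℝ) + 1)) ^ (7 / 4 : ℝ) / Λ := by
    rw [div_le_div_iff₀ ht hΛ]
    refine le_trans (mul_le_mul_of_nonneg_right hsum hΛ.le) (le_of_eq ?_)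
    rw [Real.mul_rpow hK.le hx.le]
    ring
  exact le_trans hm hfin

end DimLim
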