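import Pool.Agent.Lib.MP_216314_pr.IC.N1

/-!
N4 (easy+): the union bound for the traversals.

PROOF. `HypT` for `K` gives `m`, `C`. `BadT` is the union of at most `(a / ρ + 1) (b / ρ + 1) ≤ 4 (a / ρ) (b / ρ)` (real division, `ρ ≤ l ≤ a, b`) events `Trav a b ω z ρ l m` with `z = (ρ q1, ρ q2)` in `[0,a] × [0,b]`, away from the corners: `pr_union` (N1.lean) with
`Q = range (a / ρ + 1) ×ˢ range (b / ρ + 1)` and the event `.. ∧ Trav ..` (the conditions on `(q1, q2)` do not depend on `ω`: if they fail the probability is `0`), `Pr_mono`.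
-/

set_option autoImplicit false

noncomputable section

namespace DimLim

open Finset FKI FKP FKN

private theorem N4_zero (E : Finset Edge) {A : Finset Edge → Prop} (h : ∀ ω, ¬ A ω) : Pr E A = 0 := by
  classical
  rw [pproba_eq, Finset.filter_eq_empty_iff.2 fun ω _ => h ω, Finset.card_empty, Nat.cast_zero, zero_div]

private theorem N4_cast {a ρ l : ℕ} (hρ : 1 ≤ ρ) (hρl : ρ ≤ l) (hla : 2 * l < a) :
    (((a / ρ + 1 : ℕ)) : ℝ) ≤ 2 * ((a : ℝ) / ρ) := by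
  have hρ0 : (0 : ℝ) < ρ := by exact_mod_cast hρ
  have h1 : ((a / ρ : ℕ) : ℝ) ≤ (a : ℝ) / ρ := Nat.cast_div_le
  have h2 : (1 : ℝ) ≤ (a : ℝ) / ρ := by
    rw [le_div_iff₀ hρ0, one_mul]
    have h3 : ρ ≤ a := by omega
    exact_mod_cast h3
  rw [Nat.cast_add, Nat.cast_one]
  linarith

theorem badT_le (hT : HypT) (K : ℕ) : ∃ (m : ℕ) (C : ℝ), 0 < C ∧ ∀ (a b ρ l : ℕ), 1 ≤ ρ → ρ ≤ l → 2 * l < a → 2 * l < b →
    Pr (box 0 a 0 b) (BadT a b ρ l m) ≤ C * (((a : ℝ) / ρ) * ((b : ℝ) / ρ)) * ((ρ : ℝ) / l) ^ K := by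
  obtain ⟨m, C, hC, h⟩ := hT K
  refine ⟨m, 4 * C, by positivity, ?_⟩
  intro a b ρ l hρ hρl hla hlb
  obtain ⟨A, hA⟩ : ∃ A : ℕ × ℕ → Finset Edge → Prop, ∀ q ω, A q ω ↔ ((ρ * q.1 ≤ a ∧ ρ * q.2 ≤ b ∧
      (l : ℤ) < sd ((ρ : ℤ) * q.1, (ρ : ℤ) * q.2) ((a : ℤ), 0) ∧
      (l : ℤ) < sd ((ρ : ℤ) * q.1, (ρ : ℤ) * q.2) (0, (b : ℤ))) ∧
      Trav a b ω ((ρ : ℤ) * q.1, (ρ : ℤ) * q.2) ρ l m) := ⟨_, fun _ _ => Iff.rfl⟩
  have h1 : Pr (box 0 a 0 b) (BadT a b ρ l m) ≤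
      Pr (box 0 a 0 b) (fun ω => ∃ q ∈ range (a / ρ + 1) ×ˢ range (b / ρ + 1), A q ω) := by
    refine Pr_mono fun ω _ hB => ?_
    obtain ⟨q1, q2, e1, e2, e3, e4, e5⟩ := hB
    refine ⟨(q1, q2), ?_, (hA _ _).2 ⟨⟨e1, e2, e3, e4⟩, e5⟩⟩
    rw [mem_product, mem_range, mem_range, Nat.lt_succ_iff, Nat.lt_succ_iff, Nat.le_div_iff_mul_le hρ,
      Nat.le_div_iff_mul_le hρ, mul_comm q1, mul_comm q2]
    exact ⟨e1, e2⟩
  have hnn : 0 ≤ C * ((ρ : ℝ) / l) ^ K := by positivity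
  have h2 : ∀ q ∈ range (a / ρ + 1) ×ˢ range (b / ρ + 1), Pr (box 0 a 0 b) (A q) ≤ C * ((ρ : ℝ) / l) ^ K := by
    intro q _
    by_cases hq : ρ * q.1 ≤ a ∧ ρ * q.2 ≤ b ∧ (l : ℤ) < sd ((ρ : ℤ) * q.1, (ρ : ℤ) * q.2) ((a : ℤ), 0) ∧
        (l : ℤ) < sd ((ρ : ℤ) * q.1, (ρ : ℤ) * q.2) (0, (b : ℤ))
    · have h3 : Pr (box 0 a 0 b) (A q) ≤
          Pr (box 0 a 0 b) (fun ω => Trav a b ω ((ρ : ℤ) * q.1, (ρ : ℤ) * q.2) ρ l m) :=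
        Pr_mono fun ω _ hω => ((hA q ω).1 hω).2
      refine h3.trans (h a b ρ l _ hρ hρl hla hlb (by positivity) ?_ (by positivity) ?_ hq.2.2.1 hq.2.2.2)
      · show (ρ : ℤ) * q.1 ≤ a
        exact_mod_cast hq.1
      · show (ρ : ℤ) * q.2 ≤ b
        exact_mod_cast hq.2.1
    · rw [N4_zero _ fun ω hω => hq ((hA q ω).1 hω).1]
      exact hnn
  have h3 := (h1.trans (pr_union _ _ _)).trans (Finset.sum_le_sum h2)
  rw [Finset.sum_const, Finset.card_product, Finset.card_range, Finset.card_range, nsmul_eq_mul, Nat.cast_mul] at h3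
  refine h3.trans ?_
  have h4 : (((a / ρ + 1 : ℕ)) : ℝ) * ((b / ρ + 1 : ℕ) : ℝ) ≤ 2 * ((a : ℝ) / ρ) * (2 * ((b : ℝ) / ρ)) :=
    mul_le_mul (N4_cast hρ hρl hla) (N4_cast hρ hρl hlb) (Nat.cast_nonneg _) (by positivity)
  refine (mul_le_mul_of_nonneg_right h4 hnn).trans (le_of_eq ?_)
  ring

end DimLim
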