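import Pool.Agent.Lib.MP_216314_pr.IC.C1
import Pool.Agent.Lib.MP_216314_pr.IC.N3
import Pool.Agent.Lib.MP_216314_pr.IC.N4

/-!
C2 (medium): the probability of the bad event at the scale `j`.

PROOF. `scale_nums` (C1.lean) gives `j0`, `c`, `δ0`; `aspect` gives `K`; `badT_le hT K'` (N4.lean) with a natural number `K'` with `e K' ≥ 3 + 2 e` (so `m`, `C1`), `few_boxes hU K` (N3.lean), `C2`. `Pr_or_le`. First event: `2 l < a` from `16 l ≤ a`, `1 ≤ l`; the bound is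
`C1 (c 2 ^ ((1 + e) j)) ^ 2 (c 2 ^ (-(e j))) ^ K' = C1 c ^ (K' + 2) 2 ^ ((2 + 2 e - e K') j) ≤ C1 c ^ (K' + 2) 2 ^ (-j)`. Second event: `few_boxes` with `Λ = 2 ^ (η j)`: at most `C2 / 2 ^ (η j)`. The statement of `BadS` is literally the disjunction.
-/

set_option autoImplicit false

noncomputable section

namespace DimLim

open Finset FKI FKP FKN

theorem bad_scale (hU : HypU Trc) (hT : HypT) {A B e η : ℝ} (hA : 0 < A) (hB : 0 < B) (he : 0 < e) (hη : 0 < η) :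
    ∃ (m j0 : ℕ) (C δ0 : ℝ), 0 < C ∧ 0 < δ0 ∧ ∀ (j : ℕ) (δ : ℝ), j0 ≤ j → 0 < δ → δ < δ0 →
      δ ≤ (2 : ℝ) ^ (-((1 + e) * j)) →
      Pr (box 0 (⌊A / δ⌋₊ : ℤ) 0 (⌊B / δ⌋₊ : ℤ)) (BadS A B e η δ m j) ≤
        C * ((2 : ℝ) ^ (-(j : ℝ)) + (2 : ℝ) ^ (-(η * j))) := by
  classical
  obtain ⟨j0, c, δ0, hc, hδ0, hs⟩ := scale_nums (e := e) hA hB he
  obtain ⟨K, δ1, hδ1, hasp⟩ := aspect hA hB
  obtain ⟨K', hK'⟩ := exists_nat_ge ((3 + 2 * e) / e)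
  have hK : 3 + 2 * e ≤ K' * e := by rwa [div_le_iff₀ he] at hK'
  obtain ⟨m, C1, hC1, hb⟩ := badT_le hT K'
  obtain ⟨C2, hC2, hf⟩ := few_boxes hU K
  refine ⟨m, j0, C1 * c ^ (K' + 2) + C2, min δ0 δ1, by positivity, lt_min hδ0 hδ1, ?_⟩
  intro j δ hj hδ hδ' hδj
  obtain ⟨h1, h2, h3, h4, h5, h6, h7, -⟩ := hs j δ hj hδ (hδ'.trans_le (min_le_left _ _)) hδj
  obtain ⟨-, -, k3, k4⟩ := hasp δ hδ (hδ'.trans_le (min_le_right _ _))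
  have e0 := Pr_or_le (box 0 (⌊A / δ⌋₊ : ℤ) 0 (⌊B / δ⌋₊ : ℤ))
    (BadT ⌊A / δ⌋₊ ⌊B / δ⌋₊ (rj e δ j) (lj δ j) m) (fun ω => (2 : ℝ) ^ (η * j) *
      ((⌊A / δ⌋₊ : ℝ) / rj e δ j) ^ (7 / 4 : ℝ) < (Nb (rj e δ j) (Trc ⌊A / δ⌋₊ ⌊B / δ⌋₊ ω) : ℝ))
  have e1 := hb ⌊A / δ⌋₊ ⌊B / δ⌋₊ (rj e δ j) (lj δ j) h1 h2 (by omega) (by omega)
  have e3 := hf ⌊A / δ⌋₊ ⌊B / δ⌋₊ (rj e δ j) ((2 : ℝ) ^ (η * j)) h1 (by omega) (by omega) k3 k4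
    (Real.rpow_pos_of_pos two_pos _)
  have e2 : C1 * (((⌊A / δ⌋₊ : ℝ) / rj e δ j) * ((⌊B / δ⌋₊ : ℝ) / rj e δ j)) * ((rj e δ j : ℝ) / lj δ j) ^ K' ≤
      C1 * c ^ (K' + 2) * (2 : ℝ) ^ (-(j : ℝ)) := by
    have f1 : ((rj e δ j : ℝ) / lj δ j) ^ K' ≤ (c * (2 : ℝ) ^ (-(e * j))) ^ K' :=
      pow_le_pow_left₀ (by positivity) h7 _
    have f2 : ((⌊A / δ⌋₊ : ℝ) / rj e δ j) * ((⌊B / δ⌋₊ : ℝ) / rj e δ j) ≤
        (c * (2 : ℝ) ^ ((1 + e) * j)) * (c * (2 : ℝ) ^ ((1 + e) * j)) :=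
      mul_le_mul h5 h6 (by positivity) (by positivity)
    have f3 : (2 : ℝ) ^ ((1 + e) * j) * (2 : ℝ) ^ ((1 + e) * j) * ((2 : ℝ) ^ (-(e * j))) ^ K' ≤
        (2 : ℝ) ^ (-(j : ℝ)) := by
      rw [← Real.rpow_natCast, ← Real.rpow_mul two_pos.le, ← Real.rpow_add two_pos, ← Real.rpow_add two_pos]
      refine Real.rpow_le_rpow_of_exponent_le one_le_two ?_
      have f4 : (3 + 2 * e) * (j : ℝ) ≤ K' * e * j := mul_le_mul_of_nonneg_right hK (Nat.cast_nonneg j)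
      linarith
    calc C1 * (((⌊A / δ⌋₊ : ℝ) / rj e δ j) * ((⌊B / δ⌋₊ : ℝ) / rj e δ j)) * ((rj e δ j : ℝ) / lj δ j) ^ K'
        ≤ C1 * ((c * (2 : ℝ) ^ ((1 + e) * j)) * (c * (2 : ℝ) ^ ((1 + e) * j))) *
          (c * (2 : ℝ) ^ (-(e * j))) ^ K' :=
          mul_le_mul (mul_le_mul_of_nonneg_left f2 hC1.le) f1 (by positivity) (by positivity)
      _ = C1 * c ^ (K' + 2) * ((2 : ℝ) ^ ((1 + e) * j) * (2 : ℝ) ^ ((1 + e) * j) * ((2 : ℝ) ^ (-(e * j))) ^ K') := by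
          rw [mul_pow]
          ring
      _ ≤ _ := mul_le_mul_of_nonneg_left f3 (by positivity)
  have e4 : C2 / (2 : ℝ) ^ (η * j) = C2 * (2 : ℝ) ^ (-(η * j)) := by
    rw [Real.rpow_neg two_pos.le, div_eq_mul_inv]
  rw [e4] at e3
  have g1 : 0 < (2 : ℝ) ^ (-(j : ℝ)) := Real.rpow_pos_of_pos two_pos _
  have g2 : 0 < (2 : ℝ) ^ (-(η * j)) := Real.rpow_pos_of_pos two_pos _
  have g3 : 0 < C1 * c ^ (K' + 2) := by positivity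
  have g4 : 0 ≤ C1 * c ^ (K' + 2) * (2 : ℝ) ^ (-(η * j)) := by positivity
  have g5 : 0 ≤ C2 * (2 : ℝ) ^ (-(j : ℝ)) := by positivity
  have g6 : Pr (box 0 (⌊A / δ⌋₊ : ℤ) 0 (⌊B / δ⌋₊ : ℤ)) (BadS A B e η δ m j) ≤
      C1 * c ^ (K' + 2) * (2 : ℝ) ^ (-(j : ℝ)) + C2 * (2 : ℝ) ^ (-(η * j)) :=
    e0.trans (add_le_add (e1.trans e2) e3)
  refine g6.trans ?_
  nlinarith [g4, g5]

end DimLim
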