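import Pool.Agent.Lib.MP_216314_pr.IC.C2

/-!
C3 (medium-): all scales together.

PROOF. `bad_scale` gives `m`, `j0`, `C`, `δ0`. The series `∑ C (2 ^ (-j) + 2 ^ (-(η j)))` converges (geometric), so there is `j1 ≥ max j0 j2` with all the sums `∑ j ∈ Icc j1 J, ..` at most `ε` (tails of a summable series of non-negative numbers: `Summable.sum_add_tsum_nat_add`,
`tendsto_sum_nat_add`, or explicitly). For `0 < δ < min δ0 1` the `j` with `δ ≤ 2 ^ (-((1 + e) j))` are at most some `J` (`2 ^ (-((1+e) j)) → 0`, or `j ≤ ⌈1 / δ⌉₊` as `2 ^ j ≥ j`), so the event is contained in `∃ j ∈ Icc j1 J, δ ≤ .. ∧ BadS ..`: `pr_union` (N1.lean), for the `j` with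
`¬ δ ≤ ..` the probability of the empty event is `0`; `Pr_mono`.
-/

set_option autoImplicit false

noncomputable section

namespace DimLim

open Finset FKI FKP FKN

private theorem C3_summable {C η : ℝ} (hη : 0 < η) :
    Summable (fun j : ℕ => C * ((2 : ℝ) ^ (-(j : ℝ)) + (2 : ℝ) ^ (-(η * j)))) := by
  have hgeo : ∀ t : ℝ, 0 < t → Summable (fun j : ℕ => (2 : ℝ) ^ (-(t * (j : ℝ)))) := by
    intro t ht
    have h1 : (fun j : ℕ => (2 : ℝ) ^ (-(t * (j : ℝ)))) = fun j : ℕ => ((2 : ℝ) ^ (-t)) ^ j := by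
      funext j
      rw [← Real.rpow_natCast, ← Real.rpow_mul (by norm_num : (0 : ℝ) ≤ 2)]
      ring_nf
    rw [h1]
    apply summable_geometric_of_lt_one (by positivity)
    exact Real.rpow_lt_one_of_one_lt_of_neg (by norm_num) (by linarith)
  have h1 := hgeo 1 one_pos
  simp only [one_mul] at h1
  exact (h1.add (hgeo η hη)).mul_left C

private theorem C3_empty (E : Finset Edge) {A : Finset Edge → Prop} (hA : ∀ ω, ¬ A ω) : Pr E A = 0 := by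
  classical
  unfold FKP.Pr
  rw [Finset.filter_false_of_mem (fun ω _ => hA ω)]
  simp

private theorem C3_lt {e δ : ℝ} (he : 0 < e) (hδ : 0 < δ) {j : ℕ} (h : δ ≤ (2 : ℝ) ^ (-((1 + e) * (j : ℝ)))) :
    j < ⌈1 / δ⌉₊ + 1 := by
  have h1 : (2 : ℝ) ^ (-((1 + e) * (j : ℝ))) ≤ (2 : ℝ) ^ (-(j : ℝ)) := by
    apply Real.rpow_le_rpow_of_exponent_le (by norm_num)
    have : 0 ≤ e * (j : ℝ) := by positivity
    linarith
  have h2 : (2 : ℝ) ^ (-(j : ℝ)) = ((2 : ℝ) ^ j)⁻¹ := by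
    rw [Real.rpow_neg (by norm_num), Real.rpow_natCast]
  have h3 : δ * (2 : ℝ) ^ j ≤ 1 := by
    have h4 : δ ≤ ((2 : ℝ) ^ j)⁻¹ := h2 ▸ h.trans h1
    calc δ * (2 : ℝ) ^ j ≤ ((2 : ℝ) ^ j)⁻¹ * (2 : ℝ) ^ j := by
          apply mul_le_mul_of_nonneg_right h4 (by positivity)
      _ = 1 := inv_mul_cancel₀ (by positivity)
  have h5 : (2 : ℝ) ^ j ≤ 1 / δ := by
    rw [le_div_iff₀ hδ]
    linarith [mul_comm δ ((2 : ℝ) ^ j)]
  have h6 : (j : ℝ) < (2 : ℝ) ^ j := by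
    exact_mod_cast Nat.lt_two_pow_self
  have h7 : (j : ℝ) ≤ (⌈1 / δ⌉₊ : ℝ) := by
    linarith [Nat.le_ceil (1 / δ)]
  have h8 : j ≤ ⌈1 / δ⌉₊ := by exact_mod_cast h7
  omega

theorem all_bad (hU : HypU Trc) (hT : HypT) {A B e η : ℝ} (hA : 0 < A) (hB : 0 < B) (he : 0 < e) (hη : 0 < η) :
    ∃ m : ℕ, ∀ (ε : ℝ) (j2 : ℕ), 0 < ε → ∃ (j1 : ℕ) (δ0 : ℝ), j2 ≤ j1 ∧ 0 < δ0 ∧ ∀ δ : ℝ, 0 < δ → δ < δ0 →
      Pr (box 0 (⌊A / δ⌋₊ : ℤ) 0 (⌊B / δ⌋₊ : ℤ))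
        (fun ω => ∃ j, j1 ≤ j ∧ δ ≤ (2 : ℝ) ^ (-((1 + e) * (j : ℝ))) ∧ BadS A B e η δ m j ω) ≤ ε := by
  obtain ⟨m, j0, C, δ0, hC, hδ0, hb⟩ := bad_scale hU hT hA hB he hη
  refine ⟨m, fun ε j2 hε => ?_⟩
  have hsum := C3_summable (C := C) hη
  set f : ℕ → ℝ := fun j : ℕ => C * ((2 : ℝ) ^ (-(j : ℝ)) + (2 : ℝ) ^ (-(η * j))) with hf
  have hf0 : ∀ j, 0 ≤ f j := by
    intro j
    simp only [hf]
    positivity
  have ht : Filter.Tendsto (fun i => ∑' k, f (k + i)) Filter.atTop (nhds 0) := tendsto_sum_nat_add f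
  have hev : ∀ᶠ i : ℕ in Filter.atTop, ∑' k, f (k + i) < ε := ht.eventually (gt_mem_nhds hε)
  obtain ⟨j1, hj1, hj1m⟩ := (hev.and (Filter.eventually_ge_atTop (max j0 j2))).exists
  have hj10 : j0 ≤ j1 := le_trans (le_max_left _ _) hj1m
  have hj12 : j2 ≤ j1 := le_trans (le_max_right _ _) hj1m
  refine ⟨j1, δ0, hj12, hδ0, fun δ hδ hδ1 => ?_⟩
  have key : Pr (box 0 (⌊A / δ⌋₊ : ℤ) 0 (⌊B / δ⌋₊ : ℤ))
        (fun ω => ∃ j, j1 ≤ j ∧ δ ≤ (2 : ℝ) ^ (-((1 + e) * (j : ℝ))) ∧ BadS A B e η δ m j ω) ≤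
      Pr (box 0 (⌊A / δ⌋₊ : ℤ) 0 (⌊B / δ⌋₊ : ℤ))
        (fun ω => ∃ j ∈ Finset.Ico j1 (⌈1 / δ⌉₊ + 1),
          (δ ≤ (2 : ℝ) ^ (-((1 + e) * (j : ℝ))) ∧ BadS A B e η δ m j ω)) := by
    apply Pr_mono
    rintro ω - ⟨j, hj, hd, hB'⟩
    exact ⟨j, Finset.mem_Ico.mpr ⟨hj, C3_lt he hδ hd⟩, hd, hB'⟩
  refine key.trans ?_
  refine (pr_union _ _ (fun (j : ℕ) ω => δ ≤ (2 : ℝ) ^ (-((1 + e) * (j : ℝ))) ∧ BadS A B e η δ m j ω)).trans ?_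
  have hterm : ∀ j ∈ Finset.Ico j1 (⌈1 / δ⌉₊ + 1),
      Pr (box 0 (⌊A / δ⌋₊ : ℤ) 0 (⌊B / δ⌋₊ : ℤ))
        (fun ω => δ ≤ (2 : ℝ) ^ (-((1 + e) * (j : ℝ))) ∧ BadS A B e η δ m j ω) ≤ f j := by
    intro j hj
    have hj' := (Finset.mem_Ico.mp hj).1
    by_cases hd : δ ≤ (2 : ℝ) ^ (-((1 + e) * (j : ℝ)))
    · refine le_trans (Pr_mono (B := BadS A B e η δ m j) ?_) (hb j δ (hj10.trans hj') hδ hδ1 hd)
      rintro ω - ⟨-, h⟩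
      exact h
    · rw [C3_empty _ (fun ω h => hd h.1)]
      exact hf0 j
  refine (Finset.sum_le_sum hterm).trans ?_
  rw [Finset.sum_Ico_eq_sum_range]
  have hs2 : Summable (fun k => f (k + j1)) := (summable_nat_add_iff j1).mpr hsum
  have h9 : ∑ k ∈ Finset.range (⌈1 / δ⌉₊ + 1 - j1), f (k + j1) ≤ ∑' k, f (k + j1) :=
    hs2.sum_le_tsum _ (fun k _ => hf0 _)
  have h10 : ∑ k ∈ Finset.range (⌈1 / δ⌉₊ + 1 - j1), f (j1 + k) =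
      ∑ k ∈ Finset.range (⌈1 / δ⌉₊ + 1 - j1), f (k + j1) := by
    apply Finset.sum_congr rfl
    intro k _
    rw [add_comm]
  rw [h10]
  linarith

end DimLim
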