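import Mathlib

/-!
PA (medium-, Mathlib only): the greedy partition of the interval `{0, .., T}` of times.

`D i k`: the distance from the time `i` to the time `k`. PROOF. Let `g i` be the least `k > i` with `L ≤ D i k` if there is one with `k ≤ T`, otherwise `T`. For `i < T`: `i < g i ≤ T`; for `i ≤ k ≤ g i` one has `D i k ≤ L` (for `k < g i` by
minimality, or `D i i = 0 ≤ L`; for `k = g i` by `D i (k' + 1) ≤ D i k' + 1` from `D i (g i - 1) < L`, so `≤ L`; if `g i = T` because there is no such `k`, also `D i k < L`), and if `g i < T` then `L ≤ D i (g i)`. `p 0 = 0`, `p (n + 1) = g (p n)` while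
`p n < T`; `M` the least `n` with `p n = T` (`Nat.find`; it exists because `p` increases strictly below `T`). For `i + 1 < M` one has `p (i + 1) < T`.
-/

set_option autoImplicit false

namespace DimLim

private theorem PA_step (D : ℕ → ℕ → ℤ) (h0 : ∀ i, D i i = 0) (h1 : ∀ i k, D i (k + 1) ≤ D i k + 1)
    {T : ℕ} {L : ℤ} (hL : 1 ≤ L) (i : ℕ) (hi : i < T) :
    ∃ g, i < g ∧ g ≤ T ∧ (∀ k, i ≤ k → k ≤ g → D i k ≤ L) ∧ (g < T → L ≤ D i g) := by
  classical
  by_cases h : ∃ k, i < k ∧ k ≤ T ∧ L ≤ D i k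
  · have hg := Nat.find_spec h
    have hmin : ∀ k, i ≤ k → k < Nat.find h → D i k < L := by
      intro k hk1 hk2
      rcases Nat.eq_or_lt_of_le hk1 with rfl | hk3
      · have := h0 i
        omega
      · by_contra hcon
        exact Nat.find_min h hk2 ⟨hk3, by omega, not_lt.1 hcon⟩
    refine ⟨Nat.find h, hg.1, hg.2.1, fun k hk1 hk2 => ?_, fun _ => hg.2.2⟩
    rcases Nat.eq_or_lt_of_le hk2 with rfl | hk3
    · obtain ⟨k', hk'⟩ : ∃ k', Nat.find h = k' + 1 := ⟨Nat.find h - 1, by omega⟩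
      have h2 := hmin k' (by omega) (by omega)
      have h3 := h1 i k'
      rw [hk']
      omega
    · exact (hmin k hk1 hk3).le
  · refine ⟨T, hi, le_rfl, fun k hk1 hk2 => ?_, fun hc => absurd hc (lt_irrefl T)⟩
    rcases Nat.eq_or_lt_of_le hk1 with rfl | hk3
    · have := h0 i
      omega
    · by_contra hcon
      exact h ⟨k, hk3, hk2, (not_le.1 hcon).le⟩

theorem greedy (D : ℕ → ℕ → ℤ) (h0 : ∀ i, D i i = 0) (h1 : ∀ i k, D i (k + 1) ≤ D i k + 1) {T : ℕ} (hT : 0 < T)
    {L : ℤ} (hL : 1 ≤ L) : ∃ (M : ℕ) (p : ℕ → ℕ), 0 < M ∧ p 0 = 0 ∧ p M = T ∧ (∀ i < M, p i < p (i + 1)) ∧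
      (∀ i < M, ∀ k, p i ≤ k → k ≤ p (i + 1) → D (p i) k ≤ L) ∧
      ∀ i, i + 1 < M → L ≤ D (p i) (p (i + 1)) := by
  classical
  choose! g hg using PA_step D h0 h1 (T := T) hL
  obtain ⟨G, hG⟩ : ∃ G : ℕ → ℕ, ∀ x, G x = if x < T then g x else T := ⟨_, fun _ => rfl⟩
  obtain ⟨p, hp⟩ : ∃ p : ℕ → ℕ, p = fun n => G^[n] 0 := ⟨_, rfl⟩
  have hp0 : p 0 = 0 := by rw [hp]; rfl
  have hps : ∀ n, p (n + 1) = G (p n) := by
    intro n
    rw [hp]
    exact Function.iterate_succ_apply' G n 0
  have hle : ∀ n, p n ≤ T := by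
    intro n
    induction n with
    | zero => rw [hp0]; exact Nat.zero_le T
    | succ n ih =>
      rw [hps, hG]
      split_ifs with h
      · exact (hg _ h).2.1
      · exact le_rfl
  have hpg : ∀ n, p n < T → p (n + 1) = g (p n) := by
    intro n h
    rw [hps, hG, if_pos h]
  have hex : ∃ n, p n = T := by
    by_contra hcon
    push Not at hcon
    have hlt : ∀ n, p n < T := fun n => lt_of_le_of_ne (hle n) (hcon n)
    have hge : ∀ n, n ≤ p n := by
      intro n
      induction n with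
      | zero => exact Nat.zero_le _
      | succ n ih =>
        rw [hpg n (hlt n)]
        have := (hg _ (hlt n)).1
        omega
    have h2 := hge T
    have h3 := hlt T
    omega
  have hM := Nat.find_spec hex
  have hltM : ∀ i, i < Nat.find hex → p i < T := fun i hi =>
    lt_of_le_of_ne (hle i) (Nat.find_min hex hi)
  refine ⟨Nat.find hex, p, ?_, hp0, hM, fun i hi => ?_, fun i hi k hk1 hk2 => ?_, fun i hi => ?_⟩
  · by_contra hcon
    have h2 : Nat.find hex = 0 := by omega
    rw [h2, hp0] at hM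
    omega
  · rw [hpg i (hltM i hi)]
    exact (hg _ (hltM i hi)).1
  · rw [hpg i (hltM i hi)] at hk2
    exact (hg _ (hltM i hi)).2.2.1 k hk1 hk2
  · have h2 := hltM (i + 1) hi
    have h3 := hltM i (by omega)
    rw [hpg i h3] at h2 ⊢
    exact (hg _ h3).2.2.2 h2

end DimLim
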