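import Pool.Agent.Lib.MP_216314_pr.IC.PB1

/-!
PB2 (medium): the number of pieces.

PROOF. For `i + 1 < M` choose the mark `j i ∈ [p i, p (i + 1)]` of `exists_mark`. Its box `bxi ρ (vx (j i))` is in `(Trc a b ω).image (bxi ρ)` (`mem_trc hω`, `j i ≤ p (i + 1) ≤ p M ≤ steps`). If `M - 1 > m * Nb ρ (Trc a b ω)` then
(`Finset.exists_lt_card_fiber_of_mul_lt_card_of_maps_to`) some box contains the marks of a set `F` of more than `m` indices `i < M - 1`; enumerate `m` of them in increasing order `e 0 < e 1 < ..` (`Finset.orderEmbOfFin`), `s n = j (e n)`,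
`t n = p (e n + 1)`: `t n ≤ p (e (n + 1)) ≤ s (n + 1)`. The point `z = (ρ * q1, ρ * q2)`, `q1 = (vx (j i)).1 / ρ ≥ 0` (`curve_cor` / `inBox_trc`: the vertices are in `[0,a] × [0,b]`), has distance at most `ρ - 1` from the marks, so (`ρ ≤ l`) distance at least
`2 l - (l - 1) > l` from the corners and from the `vx (p (i + 1))`: `BadT`.
-/

set_option autoImplicit false

noncomputable section

namespace DimLim

open Finset FKI FKP FKN

theorem pieces_le {a b l ρ m M : ℕ} {ω : Finset Edge} {p : ℕ → ℕ} (hρ : 1 ≤ ρ) (hl : ρ ≤ l) (ha : 16 * l ≤ a) (hb : 16 * l ≤ b)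
    (hω : ω ⊆ box 0 a 0 b) (hp : ∀ i < M, p i < p (i + 1)) (hM : p M ≤ steps a b ω)
    (hL : ∀ i, i + 1 < M → ((16 * l : ℕ) : ℤ) ≤ sd (vx a b ω (p i)) (vx a b ω (p (i + 1)))) (hT : ¬ BadT a b ρ l m ω) :
    M ≤ m * Nb ρ (Trc a b ω) + 1 := by
  classical
  by_contra hcon
  push Not at hcon
  apply hT
  have hl1 : 1 ≤ l := hρ.trans hl
  have hmono : ∀ i' i, i ≤ i' → i' ≤ M → p i ≤ p i' := by
    intro i'
    induction i' with
    | zero =>
      intro i hi _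
      rw [Nat.le_zero.1 hi]
    | succ n ih =>
      intro i hi hn
      rcases Nat.lt_or_ge n i with h | h
      · have h1 : i = n + 1 := by omega
        rw [h1]
      · exact (ih i h (by omega)).trans (hp n (by omega)).le
  have hex : ∀ i, ∃ j, i + 1 < M → p i ≤ j ∧ j ≤ p (i + 1) ∧
      (2 * l : ℤ) ≤ sd (vx a b ω j) ((a : ℤ), 0) ∧ (2 * l : ℤ) ≤ sd (vx a b ω j) (0, (b : ℤ)) ∧
      (2 * l : ℤ) ≤ sd (vx a b ω j) (vx a b ω (p (i + 1))) := by
    intro i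
    by_cases hi : i + 1 < M
    · obtain ⟨j, hj⟩ := exists_mark hl1 ha hb (hp i (by omega)).le (hL i hi)
      exact ⟨j, fun _ => hj⟩
    · exact ⟨0, fun h => absurd h hi⟩
  choose j hj using hex
  have htr : ∀ i, i + 1 < M → vx a b ω (j i) ∈ Trc a b ω := by
    intro i hi
    refine (mem_trc hω _).2 ⟨j i, ?_, rfl⟩
    exact ((hj i hi).2.1.trans (hmono M (i + 1) hi.le le_rfl)).trans hM
  have hmaps : ∀ i ∈ Finset.range (M - 1), bxi ρ (vx a b ω (j i)) ∈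
      (Trc a b ω).image (bxi ρ) := by
    intro i hi
    rw [Finset.mem_range] at hi
    exact Finset.mem_image_of_mem _ (htr i (by omega))
  have hcard : ((Trc a b ω).image (bxi ρ)).card * m < (Finset.range (M - 1)).card := by
    rw [Finset.card_range, mul_comm]
    unfold Nb at hcon
    omega
  obtain ⟨y, -, hF⟩ := Finset.exists_lt_card_fiber_of_mul_lt_card_of_maps_to hmaps hcard
  obtain ⟨F, hFdef⟩ : ∃ F, F = (Finset.range (M - 1)).filter
    (fun i => bxi ρ (vx a b ω (j i)) = y) := ⟨_, rfl⟩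
  rw [← hFdef] at hF
  have hFmem : ∀ i ∈ F, i + 1 < M ∧ bxi ρ (vx a b ω (j i)) = y := by
    intro i hi
    rw [hFdef, Finset.mem_filter, Finset.mem_range] at hi
    exact ⟨by omega, hi.2⟩
  have hρ0 : (0 : ℤ) < (ρ : ℤ) := by exact_mod_cast hρ
  -- the box
  have hbox : ∀ i ∈ F, 0 ≤ y.1 ∧ 0 ≤ y.2 ∧ (ρ : ℤ) * y.1 ≤ a ∧ (ρ : ℤ) * y.2 ≤ b ∧
      sd ((ρ : ℤ) * y.1, (ρ : ℤ) * y.2) (vx a b ω (j i)) ≤ (ρ : ℤ) - 1 := by
    intro i hi
    obtain ⟨hiM, hy⟩ := hFmem i hi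
    obtain ⟨h1, h2, h3, h4⟩ := inBox_trc a b ω _ (htr i hiM)
    have hy1 : (vx a b ω (j i)).1 / (ρ : ℤ) = y.1 := congrArg Prod.fst hy
    have hy2 : (vx a b ω (j i)).2 / (ρ : ℤ) = y.2 := congrArg Prod.snd hy
    have e1 := Int.emod_add_mul_ediv (vx a b ω (j i)).1 (ρ : ℤ)
    have e2 := Int.emod_add_mul_ediv (vx a b ω (j i)).2 (ρ : ℤ)
    have e3 := Int.emod_nonneg (vx a b ω (j i)).1 hρ0.ne'
    have e4 := Int.emod_lt_of_pos (vx a b ω (j i)).1 hρ0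
    have e5 := Int.emod_nonneg (vx a b ω (j i)).2 hρ0.ne'
    have e6 := Int.emod_lt_of_pos (vx a b ω (j i)).2 hρ0
    rw [hy1] at e1
    rw [hy2] at e2
    refine ⟨?_, ?_, by omega, by omega, ?_⟩
    · rw [← hy1]
      exact Int.ediv_nonneg h1 hρ0.le
    · rw [← hy2]
      exact Int.ediv_nonneg h3 hρ0.le
    · unfold sd
      rw [max_le_iff, abs_le, abs_le]
      simp only
      refine ⟨⟨by omega, by omega⟩, ⟨by omega, by omega⟩⟩
  have hFpos : 0 < F.card := lt_of_le_of_lt (Nat.zero_le m) hF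
  obtain ⟨i0, hi0⟩ := Finset.card_pos.1 hFpos
  obtain ⟨y1, y2, y3, y4, y5⟩ := hbox i0 hi0
  have q1 : ((y.1.toNat : ℕ) : ℤ) = y.1 := Int.toNat_of_nonneg y1
  have q2 : ((y.2.toNat : ℕ) : ℤ) = y.2 := Int.toNat_of_nonneg y2
  have hlρ : (ρ : ℤ) ≤ l := by exact_mod_cast hl
  have hfar : ∀ i ∈ F, ∀ c : V, (2 * l : ℤ) ≤ sd (vx a b ω (j i)) c →
      (l : ℤ) < sd ((ρ : ℤ) * y.1, (ρ : ℤ) * y.2) c := by
    intro i hi c hc
    obtain ⟨-, -, -, -, h5⟩ := hbox i hi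
    have h6 := sd_tri (vx a b ω (j i)) ((ρ : ℤ) * y.1, (ρ : ℤ) * y.2) c
    rw [sd_comm (vx a b ω (j i)) ((ρ : ℤ) * y.1, (ρ : ℤ) * y.2)] at h6
    omega
  obtain ⟨hi0M, -⟩ := hFmem i0 hi0
  refine ⟨y.1.toNat, y.2.toNat, ?_, ?_, ?_, ?_, ?_⟩
  · have h : (ρ : ℤ) * (y.1.toNat : ℕ) ≤ a := by rw [q1]; exact y3
    exact_mod_cast h
  · have h : (ρ : ℤ) * (y.2.toNat : ℕ) ≤ b := by rw [q2]; exact y4
    exact_mod_cast h
  · rw [q1, q2]
    exact hfar i0 hi0 _ (hj i0 hi0M).2.2.1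
  · rw [q1, q2]
    exact hfar i0 hi0 _ (hj i0 hi0M).2.2.2.1
  · rw [q1, q2]
    let e : Fin F.card ↪o ℕ := F.orderEmbOfFin rfl
    have he : ∀ n, e n ∈ F := fun n => Finset.orderEmbOfFin_mem F rfl n
    refine ⟨fun n => if h : n < F.card then j (e ⟨n, h⟩) else 0,
      fun n => if h : n < F.card then p (e ⟨n, h⟩ + 1) else 0, fun n hn => ?_, fun n hn => ?_⟩
    · have hn' : n < F.card := hn.trans hF
      simp only [dif_pos hn']
      have hmem := he ⟨n, hn'⟩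
      obtain ⟨h1, -⟩ := hFmem _ hmem
      obtain ⟨g1, g2, g3, g4, g5⟩ := hj _ h1
      obtain ⟨-, -, -, -, h5⟩ := hbox _ hmem
      exact ⟨g2, (hmono M _ h1.le le_rfl).trans hM, by omega, (hfar _ hmem _ g5).le⟩
    · have hn' : n + 1 < F.card := hn.trans hF
      have hn'' : n < F.card := (Nat.lt_succ_self n).trans hn'
      simp only [dif_pos hn', dif_pos hn'']
      have hlt : e ⟨n, hn''⟩ < e ⟨n + 1, hn'⟩ := e.strictMono (Fin.mk_lt_mk.2 (Nat.lt_succ_self n))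
      have hmem := he ⟨n + 1, hn'⟩
      obtain ⟨h1, -⟩ := hFmem _ hmem
      exact (hmono _ _ hlt (by omega)).trans (hj _ h1).1

end DimLim
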