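import Pool.Agent.Lib.MP_216314_pr.IC.T0

/-!
PC (medium): the partition of the curve given by a partition of the times.

PROOF. `T = steps a b ω > 0` (`h0`, `h1`, `hp`, `hM`), `τ i = p i / T`. Let `τ i ≤ u ≤ τ (i + 1)`, `k = ⌊T u⌋₊`, `θ = T u - k`, so `p i ≤ k ≤ p (i + 1)` and (`k = p (i + 1)` implies `θ = 0`), and by `pl_eq` (IC/PL.lean) the value of
`pl T x` at `u` is `x k + θ (x (k + 1) - x k)` for all `x`. If `k < p (i + 1)` both `x k` and `x (k + 1)` are at distance at most `δ L` from `x (p i)`, for `x k = δ (vx k).1` and for `x k = δ (vx k).2` (`hL`, `sd_le`), so is the convex combination.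
Hence two values of the piece are at distance at most `2 δ L` (sup metric, `Prod.dist_eq`, `abs_projIcc_sub_projIcc`, as in `icurve_near`, IC/IF.lean).
-/

set_option autoImplicit false

noncomputable section

namespace DimLim

open Set FKI FKP FKN

private theorem PC_coord {T P Q : ℕ} {x : ℕ → ℝ} {D u : ℝ} (hQT : Q ≤ T)
    (hx : ∀ k, P ≤ k → k ≤ Q → |x k - x P| ≤ D) (h1 : (P : ℝ) ≤ T * u) (h2 : T * u ≤ Q) : |pl T x u - x P| ≤ D := by
  have h0 : (0 : ℝ) ≤ T * u := le_trans (Nat.cast_nonneg P) h1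
  obtain ⟨k, hk⟩ : ∃ k : ℕ, k = ⌊(T : ℝ) * u⌋₊ := ⟨_, rfl⟩
  have hk1 : P ≤ k := by
    rw [hk]
    exact Nat.le_floor h1
  have hk2 : (k : ℝ) ≤ T * u := by
    rw [hk]
    exact Nat.floor_le h0
  have hk3 : T * u < k + 1 := by
    rw [hk]
    exact Nat.lt_floor_add_one _
  have hk4 : k ≤ Q := by exact_mod_cast hk2.trans h2
  rcases hk4.lt_or_eq with h | h
  · rw [pl_eq (θ := T * u - k) (h.le.trans hQT) (by linarith) (by linarith)
      (fun h5 => absurd h5 (lt_of_lt_of_le h hQT).ne) (by ring) x]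
    have h6 := hx k hk1 hk4
    have h7 := hx (k + 1) (hk1.trans (Nat.le_succ k)) h
    have h8 : x k + (T * u - k) * (x (k + 1) - x k) - x P =
        (1 - (T * u - k)) * (x k - x P) + (T * u - k) * (x (k + 1) - x P) := by ring
    rw [h8]
    refine (abs_add_le _ _).trans ?_
    rw [abs_mul, abs_mul, abs_of_nonneg (by linarith : (0 : ℝ) ≤ 1 - (T * u - k)),
      abs_of_nonneg (by linarith : (0 : ℝ) ≤ T * u - k)]
    have h9 : (1 - (T * u - k)) * |x k - x P| ≤ (1 - (T * u - k)) * D :=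
      mul_le_mul_of_nonneg_left h6 (by linarith)
    have h10 : (T * u - k) * |x (k + 1) - x P| ≤ (T * u - k) * D := mul_le_mul_of_nonneg_left h7 (by linarith)
    linarith
  · rw [pl_eq (i := k) (θ := 0) (hk4.trans hQT) le_rfl zero_le_one (fun _ => rfl) (by
      rw [add_zero]
      refine le_antisymm ?_ hk2
      rw [h]
      exact h2) x, zero_mul, add_zero]
    exact hx k hk1 hk4

private theorem PC_two {x y z D : ℝ} (h1 : |x - z| ≤ D) (h2 : |y - z| ≤ D) : |x - y| ≤ 2 * D := by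
  rw [abs_le] at h1 h2 ⊢
  constructor <;> linarith [h1.1, h1.2, h2.1, h2.2]

private theorem PC_int {δ : ℝ} (hδ : 0 < δ) {m n : ℤ} {L : ℕ} (h : |m - n| ≤ (L : ℤ)) :
    |δ * (m : ℝ) - δ * (n : ℝ)| ≤ δ * L := by
  rw [← mul_sub, abs_mul, abs_of_pos hδ]
  refine mul_le_mul_of_nonneg_left ?_ hδ.le
  exact_mod_cast h

theorem icurve_coarse {A B : ℝ} (hA : 0 ≤ A) (hB : 0 ≤ B) {δ : ℝ} (hδ : 0 < δ) {a b L M : ℕ} {ω : Finset Edge} {p : ℕ → ℕ}
    (hM : 0 < M) (h0 : p 0 = 0) (h1 : p M = steps a b ω) (hp : ∀ i < M, p i < p (i + 1))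
    (hL : ∀ i < M, ∀ k, p i ≤ k → k ≤ p (i + 1) → sd (vx a b ω (p i)) (vx a b ω k) ≤ L) :
    IsPart (icurve hA hB δ a b ω) M (2 * δ * L) := by
  have hpi : ∀ i ≤ M, i ≤ p i := by
    intro i
    induction i with
    | zero => exact fun _ => Nat.zero_le _
    | succ i ih =>
      intro hi
      have h3 := hp i (by omega)
      have h4 := ih (by omega)
      omega
  have hpM : ∀ i j, i ≤ j → j ≤ M → p i ≤ p j := by
    intro i j hij
    induction j, hij using Nat.le_induction with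
    | base => exact fun _ => le_rfl
    | succ j hj ih =>
      intro hjM
      have h3 := hp j (by omega)
      have h4 := ih (by omega)
      omega
  obtain ⟨T, hT⟩ : ∃ T : ℕ, T = steps a b ω := ⟨_, rfl⟩
  rw [← hT] at h1
  have hT0 : 0 < T := by
    have h3 := hpi M le_rfl
    omega
  have hT0' : (0 : ℝ) < T := by exact_mod_cast hT0
  refine ⟨hM, fun i => (p i : ℝ) / T, ?_, ?_, ?_, ?_⟩
  · show ((p 0 : ℕ) : ℝ) / T = 0
    rw [h0, Nat.cast_zero, zero_div]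
  · show ((p M : ℕ) : ℝ) / T = 1
    rw [h1, div_self hT0'.ne']
  · intro i hi
    show ((p i : ℕ) : ℝ) / T < (p (i + 1) : ℕ) / T
    exact div_lt_div_of_pos_right (by exact_mod_cast hp i hi) hT0'
  · intro i hi u v hu1 hu2 hv1 hv2
    have hQ : p (i + 1) ≤ T := by
      rw [← h1]
      exact hpM _ _ hi le_rfl
    have e1 : ∀ {w : unitInterval}, ((p i : ℕ) : ℝ) / T ≤ w → ((p i : ℕ) : ℝ) ≤ T * w := fun {w} h => by
      rw [div_le_iff₀ hT0'] at h
      linarith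
    have e2 : ∀ {w : unitInterval}, (w : ℝ) ≤ ((p (i + 1) : ℕ) : ℝ) / T → T * (w : ℝ) ≤ (p (i + 1) : ℕ) :=
      fun {w} h => by
      rw [le_div_iff₀ hT0'] at h
      linarith
    have c1 : ∀ k, p i ≤ k → k ≤ p (i + 1) →
        |δ * ((vx a b ω k).1 : ℝ) - δ * ((vx a b ω (p i)).1 : ℝ)| ≤ δ * L := fun k hk1 hk2 =>
      PC_int hδ (le_trans (le_max_left _ _) (hL i hi k hk1 hk2))
    have c2 : ∀ k, p i ≤ k → k ≤ p (i + 1) →
        |δ * ((vx a b ω k).2 : ℝ) - δ * ((vx a b ω (p i)).2 : ℝ)| ≤ δ * L := fun k hk1 hk2 =>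
      PC_int hδ (le_trans (le_max_right _ _) (hL i hi k hk1 hk2))
    have d1 : ∀ w : unitInterval, ((p i : ℕ) : ℝ) / T ≤ w → (w : ℝ) ≤ ((p (i + 1) : ℕ) : ℝ) / T →
        |pl T (fun i => δ * ((vx a b ω i).1 : ℝ)) w - δ * ((vx a b ω (p i)).1 : ℝ)| ≤ δ * L := fun w hw1 hw2 =>
      PC_coord hQ c1 (e1 hw1) (e2 hw2)
    have d2 : ∀ w : unitInterval, ((p i : ℕ) : ℝ) / T ≤ w → (w : ℝ) ≤ ((p (i + 1) : ℕ) : ℝ) / T →
        |pl T (fun i => δ * ((vx a b ω i).2 : ℝ)) w - δ * ((vx a b ω (p i)).2 : ℝ)| ≤ δ * L := fun w hw1 hw2 =>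
      PC_coord hQ c2 (e1 hw1) (e2 hw2)
    show dist (Set.projIcc 0 A hA (pl (steps a b ω) (fun i => δ * (vx a b ω i).1) u),
      Set.projIcc 0 B hB (pl (steps a b ω) (fun i => δ * (vx a b ω i).2) u))
      (Set.projIcc 0 A hA (pl (steps a b ω) (fun i => δ * (vx a b ω i).1) v),
      Set.projIcc 0 B hB (pl (steps a b ω) (fun i => δ * (vx a b ω i).2) v)) ≤ 2 * δ * L
    rw [← hT, Prod.dist_eq, max_le_iff, Subtype.dist_eq, Subtype.dist_eq, Real.dist_eq, Real.dist_eq, mul_assoc]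
    exact ⟨(abs_projIcc_sub_projIcc hA).trans (PC_two (d1 u hu1 hu2) (d1 v hv1 hv2)),
      (abs_projIcc_sub_projIcc hB).trans (PC_two (d2 u hu1 hu2) (d2 v hv1 hv2))⟩

end DimLim
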