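import Pool.Agent.Lib.MP_216314_pr.IC.T0

/-!
PE (medium-, 2 theorems): the number of steps is at most four times the number of the visited vertices.

PROOF. `steps_pos`: `(2 a + 1, 0) ≠ (0, 2 b + 1)` and `steps_hits hω`. `steps_le`: the corners `c i = (next (ω ∪ wsd a b))^[i] (2 a + 1, 0)`, `i ≤ steps`, are different: if `c i = c k` with `i < k ≤ T = steps`, then by applying `next` `T - k` times `c (i + T - k) = c T = (0, 2 b + 1)` with
`i + T - k < T`, against `(steps_hits hω).2`. The map `i ↦ vx i = vtx (c i)` sends `range (T + 1)` to `Trc a b ω` (`mem_trc hω`), and the fibre of `v` has at most `4` elements: `c i ∈ {2 v.1, 2 v.1 + 1} × {2 v.2, 2 v.2 + 1}` (`vtx p = (p.1 / 2, p.2 / 2)`; see its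
definition). `Finset.card_le_mul_card_image` or `Finset.card_le_mul_card_image_of_maps_to`.
-/

set_option autoImplicit false

noncomputable section

namespace DimLim

open Finset FKI FKP FKN

private theorem PE_inj {a b : ℕ} {ω : Finset Edge} (hω : ω ⊆ box 0 a 0 b) {i k : ℕ} (hik : i < k)
    (hk : k ≤ steps a b ω) :
    (next (ω ∪ wsd a b))^[i] (2 * (a : ℤ) + 1, 0) ≠ (next (ω ∪ wsd a b))^[k] (2 * (a : ℤ) + 1, 0) := by
  intro h
  have hH := steps_hits hω
  refine hH.2 (steps a b ω - k + i) (by omega) ?_
  rw [Function.iterate_add_apply, h, ← Function.iterate_add_apply, Nat.sub_add_cancel hk]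
  exact hH.1

theorem steps_pos {a b : ℕ} {ω : Finset Edge} (hω : ω ⊆ box 0 a 0 b) : 0 < steps a b ω := by
  have hH := steps_hits hω
  rcases Nat.eq_zero_or_pos (steps a b ω) with h | h
  · have h1 := hH.1
    rw [h, Function.iterate_zero, id_eq, Prod.ext_iff] at h1
    simp only at h1
    omega
  · exact h

theorem steps_le {a b : ℕ} {ω : Finset Edge} (hω : ω ⊆ box 0 a 0 b) : steps a b ω + 1 ≤ 4 * (Trc a b ω).card := by
  classical
  have h1 : ((range (steps a b ω + 1)).image (vx a b ω)) ⊆ Trc a b ω := by
    intro v hv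
    obtain ⟨i, hi, rfl⟩ := mem_image.1 hv
    exact (mem_trc hω _).2 ⟨i, by have := mem_range.1 hi; omega, rfl⟩
  have h2 := card_le_mul_card_image (f := vx a b ω) (range (steps a b ω + 1)) 4 (fun v _ => ?_)
  · rw [card_range] at h2
    exact h2.trans (Nat.mul_le_mul_left 4 (card_le_card h1))
  · have h3 : (({2 * v.1, 2 * v.1 + 1} : Finset ℤ) ×ˢ ({2 * v.2, 2 * v.2 + 1} : Finset ℤ)).card ≤ 4 := by
      rw [card_product]
      exact Nat.mul_le_mul (card_le_two) (card_le_two)
    refine le_trans (card_le_card_of_injOn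
      (fun i => (next (ω ∪ wsd a b))^[i] (2 * (a : ℤ) + 1, 0)) (fun i hi => ?_) (fun i hi j hj hij => ?_)) h3
    · have h4 : vx a b ω i = v := (mem_filter.1 hi).2
      unfold vx vtx at h4
      rw [Prod.ext_iff] at h4
      simp only at h4
      simp only [coe_product, coe_insert, coe_singleton, Set.mem_prod, Set.mem_insert_iff,
        Set.mem_singleton_iff]
      omega
    · have hi' := mem_range.1 (mem_filter.1 hi).1
      have hj' := mem_range.1 (mem_filter.1 hj).1
      rcases lt_trichotomy i j with h | h | h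
      · exact absurd hij (PE_inj hω h (by omega))
      · exact h
      · exact absurd hij.symm (PE_inj hω h (by omega))

end DimLim
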