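import Pool.Agent.Lib.MP_216314_pr.IC.C1
import Pool.Agent.Lib.MP_216314_pr.IC.PA
import Pool.Agent.Lib.MP_216314_pr.IC.PB2
import Pool.Agent.Lib.MP_216314_pr.IC.PC
import Pool.Agent.Lib.MP_216314_pr.IC.PE

/-!
C4 (medium-): the partition of the curve at the scale `j`, above the mesh.

PROOF. `scale_nums` (C1.lean) gives `j0`, `c`, `δ0`. `greedy` (PA.lean) for `D i k = sd (vx a b ω i) (vx a b ω k)` (`sd_self`; `sd u (vx (k + 1)) ≤ sd u (vx k) + 1` by `sd_tri`, `vx_succ`, `sd_le`), `T = steps a b ω > 0` (`steps_pos`, PE.lean), `L = 16 * lj δ j`. `pieces_le` (PB2.lean,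
`¬ BadT` from `¬ BadS`) : `M ≤ m * Nb + 1`, and `Nb ≤ 2 ^ (η j) (c 2 ^ ((1 + e) j)) ^ (7/4)` from `¬ BadS`; so `M ≤ (m c ^ (7/4) + 1) 2 ^ (s j)`. `icurve_coarse` (PC.lean) with `L = 16 * lj δ j` (natural number) and `IsPart` is monotone in `d`.
-/

set_option autoImplicit false

noncomputable section

namespace DimLim

open Finset FKI FKP FKN

theorem part_mono {E : Type*} [MetricSpace E] {f : PCurve E} {M : ℕ} {d d' : ℝ} (h : IsPart f M d) (hd : d ≤ d') :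
    IsPart f M d' :=
  ⟨h.1, by
    obtain ⟨τ, h1, h2, h3, h4⟩ := h.2
    exact ⟨τ, h1, h2, h3, fun i hi u v a b c e => (h4 i hi u v a b c e).trans hd⟩⟩

theorem coarse_part {A B e η s : ℝ} (hA : 0 < A) (hB : 0 < B) (he : 0 < e) (hη : 0 < η)
    (hs : (1 + e) * (7 / 4) + η ≤ s) (m : ℕ) : ∃ (j0 : ℕ) (C0 δ0 : ℝ), 0 < C0 ∧ 0 < δ0 ∧ ∀ (j : ℕ) (δ : ℝ), j0 ≤ j →
      0 < δ → δ < δ0 → δ ≤ (2 : ℝ) ^ (-((1 + e) * j)) → ∀ ω : Finset Edge,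
      ω ⊆ box 0 (⌊A / δ⌋₊ : ℤ) 0 (⌊B / δ⌋₊ : ℤ) → ¬ BadS A B e η δ m j ω →
      ∃ M : ℕ, (M : ℝ) ≤ C0 * (2 : ℝ) ^ (s * j) ∧
        IsPart (icurve hA.le hB.le δ ⌊A / δ⌋₊ ⌊B / δ⌋₊ ω) M (2 * (2⁻¹ : ℝ) ^ j) := by
  obtain ⟨j0, c, δ0, hc, hδ0, H⟩ := scale_nums hA hB he
  have hc7 : (0 : ℝ) ≤ c ^ (7 / 4 : ℝ) := Real.rpow_nonneg hc.le _
  refine ⟨j0, (m : ℝ) * c ^ (7 / 4 : ℝ) + 1, δ0, by positivity, hδ0, ?_⟩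
  intro j δ hj hδ hδ1 hδ2 ω hω hbad
  obtain ⟨h1, h2, h3, h4, h5, -, -, h8⟩ := H j δ hj hδ hδ1 hδ2
  have hT : 0 < steps ⌊A / δ⌋₊ ⌊B / δ⌋₊ ω := steps_pos hω
  have hstep : ∀ i k : ℕ, sd (vx ⌊A / δ⌋₊ ⌊B / δ⌋₊ ω i) (vx ⌊A / δ⌋₊ ⌊B / δ⌋₊ ω (k + 1)) ≤
      sd (vx ⌊A / δ⌋₊ ⌊B / δ⌋₊ ω i) (vx ⌊A / δ⌋₊ ⌊B / δ⌋₊ ω k) + 1 := by
    intro i k
    refine (sd_tri _ (vx ⌊A / δ⌋₊ ⌊B / δ⌋₊ ω k) _).trans ?_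
    have h9 : sd (vx ⌊A / δ⌋₊ ⌊B / δ⌋₊ ω k) (vx ⌊A / δ⌋₊ ⌊B / δ⌋₊ ω (k + 1)) ≤ 1 := by
      have h10 := vx_succ ⌊A / δ⌋₊ ⌊B / δ⌋₊ ω k
      have h11 : |(vx ⌊A / δ⌋₊ ⌊B / δ⌋₊ ω (k + 1)).1 - (vx ⌊A / δ⌋₊ ⌊B / δ⌋₊ ω k).1| ≤ 1 := by
        exact_mod_cast h10.1
      have h12 : |(vx ⌊A / δ⌋₊ ⌊B / δ⌋₊ ω (k + 1)).2 - (vx ⌊A / δ⌋₊ ⌊B / δ⌋₊ ω k).2| ≤ 1 := by
        exact_mod_cast h10.2
      unfold sd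
      exact max_le h11 h12
    omega
  have hL : (1 : ℤ) ≤ ((16 * lj δ j : ℕ) : ℤ) := by
    have h9 : 1 ≤ 16 * lj δ j := by omega
    exact_mod_cast h9
  obtain ⟨M, p, hM, p0, pM, pp, pL, pG⟩ := greedy
    (fun i k => sd (vx ⌊A / δ⌋₊ ⌊B / δ⌋₊ ω i) (vx ⌊A / δ⌋₊ ⌊B / δ⌋₊ ω k)) (fun i => sd_self _) hstep hT hL
  unfold BadS at hbad
  rw [not_or] at hbad
  obtain ⟨hb1, hb2⟩ := hbad
  have hle := pieces_le (m := m) h1 h2 h3 h4 hω pp pM.le pG hb1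
  rw [not_lt] at hb2
  have h2j : (0 : ℝ) < (2 : ℝ) ^ (η * j) := Real.rpow_pos_of_pos two_pos _
  have hNb : (Nb (rj e δ j) (Trc ⌊A / δ⌋₊ ⌊B / δ⌋₊ ω) : ℝ) ≤ c ^ (7 / 4 : ℝ) * (2 : ℝ) ^ (s * j) := by
    refine hb2.trans ?_
    have h9 : ((⌊A / δ⌋₊ : ℝ) / rj e δ j) ^ (7 / 4 : ℝ) ≤ (c * (2 : ℝ) ^ ((1 + e) * j)) ^ (7 / 4 : ℝ) :=
      Real.rpow_le_rpow (by positivity) h5 (by norm_num)
    have h10 : (c * (2 : ℝ) ^ ((1 + e) * j)) ^ (7 / 4 : ℝ) =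
        c ^ (7 / 4 : ℝ) * (2 : ℝ) ^ ((1 + e) * j * (7 / 4)) := by
      rw [Real.mul_rpow hc.le (Real.rpow_nonneg (by norm_num) _), ← Real.rpow_mul (by norm_num)]
    calc (2 : ℝ) ^ (η * j) * ((⌊A / δ⌋₊ : ℝ) / rj e δ j) ^ (7 / 4 : ℝ)
        ≤ (2 : ℝ) ^ (η * j) * (c ^ (7 / 4 : ℝ) * (2 : ℝ) ^ ((1 + e) * j * (7 / 4))) := by
          rw [← h10]
          exact mul_le_mul_of_nonneg_left h9 h2j.le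
      _ = c ^ (7 / 4 : ℝ) * (2 : ℝ) ^ (η * j + (1 + e) * j * (7 / 4)) := by
          rw [Real.rpow_add two_pos]
          ring
      _ ≤ c ^ (7 / 4 : ℝ) * (2 : ℝ) ^ (s * j) := by
          refine mul_le_mul_of_nonneg_left (Real.rpow_le_rpow_of_exponent_le (by norm_num) ?_) hc7
          have hj0 : (0 : ℝ) ≤ (j : ℝ) := Nat.cast_nonneg j
          nlinarith
  have hs0 : 0 ≤ s * (j : ℝ) := by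
    have hj0 : (0 : ℝ) ≤ (j : ℝ) := Nat.cast_nonneg j
    have hs1 : 0 ≤ s := by nlinarith
    exact mul_nonneg hs1 hj0
  have h1s : (1 : ℝ) ≤ (2 : ℝ) ^ (s * j) := Real.one_le_rpow (by norm_num) hs0
  refine ⟨M, ?_, ?_⟩
  · have h9 : (M : ℝ) ≤ (m : ℝ) * (Nb (rj e δ j) (Trc ⌊A / δ⌋₊ ⌊B / δ⌋₊ ω) : ℝ) + 1 := by exact_mod_cast hle
    have h10 : (m : ℝ) * (Nb (rj e δ j) (Trc ⌊A / δ⌋₊ ⌊B / δ⌋₊ ω) : ℝ) ≤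
        (m : ℝ) * (c ^ (7 / 4 : ℝ) * (2 : ℝ) ^ (s * j)) := mul_le_mul_of_nonneg_left hNb (Nat.cast_nonneg m)
    have h11 : ((m : ℝ) * c ^ (7 / 4 : ℝ) + 1) * (2 : ℝ) ^ (s * j) =
        (m : ℝ) * (c ^ (7 / 4 : ℝ) * (2 : ℝ) ^ (s * j)) + (2 : ℝ) ^ (s * j) := by ring
    rw [h11]
    linarith
  · exact part_mono (icurve_coarse hA.le hB.le hδ hM p0 pM pp pL) h8

end DimLim
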