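import Pool.Agent.Lib.MP_216314_pr.IC.PL

/-!
PL2 (medium-): polygonal lines are Lipschitz.

PROOF. Let `s ≤ t` (symmetry). `pl T x t - pl T x s = ∑ i ∈ range T, (cl (T t - i) - cl (T s - i)) * (x (i + 1) - x i)` with `cl y = max 0 (min 1 y)` monotone, so the absolute value is at most
`c * (∑ i ∈ range T, (cl (T t - i) - cl (T s - i)))`, and for real `y ≤ z` and all `T`: `∑ i ∈ range T, (cl (z - i) - cl (y - i)) ≤ z - y`: indeed `∑ i ∈ range T, cl (y - i) = max 0 (min T y)` by induction on `T`
(cases `y ≤ T`, `y ≤ 0`, ..), which is `1`-Lipschitz.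
-/

set_option autoImplicit false

noncomputable section

namespace DimLim

private theorem PL2_sum (n : ℕ) (y : ℝ) :
    ∑ i ∈ Finset.range n, max 0 (min 1 (y - i)) = max 0 (min (n : ℝ) y) := by
  induction n with
  | zero =>
    rw [Finset.sum_range_zero, Nat.cast_zero, max_eq_left (min_le_left _ _)]
  | succ n ih =>
    have hn : (0 : ℝ) ≤ n := Nat.cast_nonneg n
    rw [Finset.sum_range_succ, ih]
    push_cast
    rcases le_total y n with h | h
    · rw [min_eq_right h, min_eq_right (h.trans (by linarith)),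
        max_eq_left ((min_le_right _ _).trans (by linarith)), add_zero]
    · rw [min_eq_left h, max_eq_right hn]
      rcases le_total 1 (y - n) with h1 | h1
      · rw [min_eq_left h1, max_eq_right zero_le_one, min_eq_left (by linarith),
          max_eq_right (by linarith)]
      · rw [min_eq_right h1, max_eq_right (by linarith), min_eq_right (by linarith),
          max_eq_right (by linarith)]
        ring

private theorem PL2_mono {y z : ℝ} (h : y ≤ z) : max 0 (min 1 y) ≤ max 0 (min 1 z) :=
  max_le_max le_rfl (min_le_min le_rfl h)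

private theorem PL2_le (T : ℕ) (x : ℕ → ℝ) {c : ℝ} (hc : 0 ≤ c)
    (h : ∀ i < T, |x (i + 1) - x i| ≤ c) {s t : ℝ} (hst : s ≤ t) :
    |pl T x s - pl T x t| ≤ c * T * |s - t| := by
  have hT : (0 : ℝ) ≤ T := Nat.cast_nonneg T
  have hTst : (T : ℝ) * s ≤ T * t := mul_le_mul_of_nonneg_left hst hT
  have h1 : pl T x s - pl T x t = ∑ i ∈ Finset.range T,
      (max 0 (min 1 (T * s - i)) - max 0 (min 1 (T * t - i))) * (x (i + 1) - x i) := by
    unfold pl
    rw [add_sub_add_left_eq_sub, ← Finset.sum_sub_distrib]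
    exact Finset.sum_congr rfl fun i _ => (sub_mul _ _ _).symm
  have h2 : |pl T x s - pl T x t| ≤ ∑ i ∈ Finset.range T,
      (max 0 (min 1 (T * t - i)) - max 0 (min 1 (T * s - i))) * c := by
    rw [h1]
    refine (Finset.abs_sum_le_sum_abs _ _).trans (Finset.sum_le_sum fun i hi => ?_)
    have h3 : max 0 (min 1 (T * s - (i : ℝ))) ≤ max 0 (min 1 (T * t - (i : ℝ))) :=
      PL2_mono (by linarith)
    rw [abs_mul, abs_of_nonpos (by linarith), neg_sub]
    exact mul_le_mul_of_nonneg_left (h i (Finset.mem_range.1 hi)) (by linarith)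
  have h4 : ∑ i ∈ Finset.range T,
      (max 0 (min 1 (T * t - (i : ℝ))) - max 0 (min 1 (T * s - (i : ℝ)))) * c =
      (max 0 (min (T : ℝ) (T * t)) - max 0 (min (T : ℝ) (T * s))) * c := by
    rw [← Finset.sum_mul, Finset.sum_sub_distrib, PL2_sum, PL2_sum]
  have h5 : max 0 (min (T : ℝ) (T * t)) - max 0 (min (T : ℝ) (T * s)) ≤ T * t - T * s := by
    have h6 : min (T : ℝ) (T * t) ≤ min (T : ℝ) (T * s) + (T * t - T * s) := by
      rcases le_total (T : ℝ) (T * s) with h7 | h7
      · rw [min_eq_left h7]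
        exact (min_le_left _ _).trans (by linarith)
      · rw [min_eq_right h7]
        exact (min_le_right _ _).trans (by linarith)
    have h8 : max 0 (min (T : ℝ) (T * t)) ≤ max 0 (min (T : ℝ) (T * s)) + (T * t - T * s) := by
      refine max_le ?_ (h6.trans ?_)
      · have := le_max_left 0 (min (T : ℝ) (T * s))
        linarith
      · have := le_max_right 0 (min (T : ℝ) (T * s))
        linarith
    linarith
  rw [h4] at h2
  refine h2.trans ((mul_le_mul_of_nonneg_right h5 hc).trans (le_of_eq ?_))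
  rw [abs_of_nonpos (by linarith : s - t ≤ 0)]
  ring

theorem pl_lip (T : ℕ) (x : ℕ → ℝ) {c : ℝ} (hc : 0 ≤ c) (h : ∀ i < T, |x (i + 1) - x i| ≤ c) (s t : ℝ) :
    |pl T x s - pl T x t| ≤ c * T * |s - t| := by
  rcases le_total s t with hst | hst
  · exact PL2_le T x hc h hst
  · rw [abs_sub_comm, abs_sub_comm s t]
    exact PL2_le T x hc h hst

end DimLim
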