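import Pool.Agent.Lib.MP_216314_pr.IC.T0
import Pool.Agent.Lib.MP_216314_pr.IC.PL2

/-!
PD (easy+, 2 theorems): the interface as a curve is Lipschitz; fine partitions.

PROOF. `icurve_lip`: `pl_lip` (IC/PL2.lean) for the two coordinates with `c = δ` (`vx_succ`), `Prod.dist_eq`, `abs_projIcc_sub_projIcc` (as in `icurve_near`, IC/IF.lean). `icurve_fine`: `τ i = i / (T * q)`, `T = steps a b ω`; on a piece
`|u - v| ≤ 1 / (T q)`, `icurve_lip`.
-/

set_option autoImplicit false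

noncomputable section

namespace DimLim

open Set FKI FKP FKN

theorem icurve_lip {A B : ℝ} (hA : 0 ≤ A) (hB : 0 ≤ B) {δ : ℝ} (hδ : 0 < δ) (a b : ℕ) (ω : Finset Edge) (u v : unitInterval) :
    dist ((icurve hA hB δ a b ω).fn u) ((icurve hA hB δ a b ω).fn v) ≤ δ * steps a b ω * |(u : ℝ) - v| := by
  have hc : ∀ x y : ℝ, |y - x| ≤ 1 → |δ * y - δ * x| ≤ δ := by
    intro x y h
    rw [← mul_sub, abs_mul, abs_of_pos hδ]
    exact mul_le_of_le_one_right hδ.le h
  show dist (Set.projIcc 0 A hA (pl (steps a b ω) (fun i => δ * (vx a b ω i).1) u),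
    Set.projIcc 0 B hB (pl (steps a b ω) (fun i => δ * (vx a b ω i).2) u))
    (Set.projIcc 0 A hA (pl (steps a b ω) (fun i => δ * (vx a b ω i).1) v),
    Set.projIcc 0 B hB (pl (steps a b ω) (fun i => δ * (vx a b ω i).2) v)) ≤ _
  rw [Prod.dist_eq, max_le_iff, Subtype.dist_eq, Subtype.dist_eq, Real.dist_eq, Real.dist_eq]
  exact ⟨(abs_projIcc_sub_projIcc hA).trans (pl_lip _ _ hδ.le (fun i _ => hc _ _ (vx_succ a b ω i).1) _ _),
    (abs_projIcc_sub_projIcc hB).trans (pl_lip _ _ hδ.le (fun i _ => hc _ _ (vx_succ a b ω i).2) _ _)⟩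

theorem icurve_fine {A B : ℝ} (hA : 0 ≤ A) (hB : 0 ≤ B) {δ : ℝ} (hδ : 0 < δ) {a b : ℕ} {ω : Finset Edge}
    (hT : 0 < steps a b ω) {q : ℕ} (hq : 1 ≤ q) : IsPart (icurve hA hB δ a b ω) (steps a b ω * q) (δ / q) := by
  have hT' : (0 : ℝ) < steps a b ω := by exact_mod_cast hT
  have hq' : (0 : ℝ) < q := by exact_mod_cast hq
  have hM : (0 : ℝ) < (steps a b ω : ℝ) * q := mul_pos hT' hq'
  refine ⟨Nat.mul_pos hT hq, fun i => (i : ℝ) / ((steps a b ω : ℝ) * q), ?_, ?_, ?_, ?_⟩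
  · simp
  · show (((steps a b ω * q : ℕ) : ℝ)) / ((steps a b ω : ℝ) * q) = 1
    rw [Nat.cast_mul]
    exact div_self hM.ne'
  · intro i _
    show (i : ℝ) / ((steps a b ω : ℝ) * q) < ((i + 1 : ℕ) : ℝ) / ((steps a b ω : ℝ) * q)
    exact div_lt_div_of_pos_right (by exact_mod_cast Nat.lt_succ_self i) hM
  · intro i _ u v hu1 hu2 hv1 hv2
    have h1 : ((i + 1 : ℕ) : ℝ) / ((steps a b ω : ℝ) * q) =
        (i : ℝ) / ((steps a b ω : ℝ) * q) + 1 / ((steps a b ω : ℝ) * q) := by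
      rw [Nat.cast_add, Nat.cast_one, add_div]
    simp only [h1] at hu2 hv2
    simp only at hu1 hv1
    have h2 : |(u : ℝ) - v| ≤ 1 / ((steps a b ω : ℝ) * q) := by
      rw [abs_le]
      constructor <;> linarith
    refine (icurve_lip hA hB hδ a b ω u v).trans ?_
    calc δ * steps a b ω * |(u : ℝ) - v| ≤ δ * steps a b ω * (1 / ((steps a b ω : ℝ) * q)) :=
          mul_le_mul_of_nonneg_left h2 (mul_pos hδ hT').le
      _ = δ / q := by
          field_simp

end DimLim
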