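import Pool.Agent.Lib.MP_216314_pr.IC.C4
import Pool.Agent.Lib.MP_216314_pr.IC.PD

/-!
C5 (medium-, 2 theorems): the partition of the curve at the scales near and below the mesh.

PROOF. `nb_one`: `bxi 1 w = w`. `fine_part`: `q = ⌈δ 2 ^ j⌉₊ ≥ 1`, `δ / q ≤ (2⁻¹) ^ j`; `icurve_fine` (PD.lean, `steps_pos`), `part_mono`. `M = T q` with `T = steps ≤ 4 #(Trc) ≤ 4 Λ a ^ (7/4) ≤ 4 Λ (A / δ) ^ (7/4)` (`steps_le`, PE.lean, `nb_one`), `q ≤ δ 2 ^ j + 1`, so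
`T q ≤ 4 Λ A ^ (7/4) (δ ^ (-3/4) 2 ^ j + δ ^ (-7/4))`, and `δ⁻¹ < 2 ^ ((1 + e) j)`: `≤ 4 Λ A ^ (7/4) (2 ^ ((1 + e) (3/4) j + j) + 2 ^ ((1 + e) (7/4) j)) ≤ 8 Λ A ^ (7/4) 2 ^ (s j)`.
-/

set_option autoImplicit false

noncomputable section

namespace DimLim

open Finset FKI FKP FKN

theorem nb_one (S : Finset V) : Nb 1 S = S.card := by
  have h : bxi 1 = id := by
    funext w
    unfold bxi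
    rw [Nat.cast_one, Int.ediv_one, Int.ediv_one]
    rfl
  unfold Nb
  rw [h, Finset.image_id]

theorem fine_part {A B e s Λ : ℝ} (hA : 0 < A) (hB : 0 < B) (he : 0 < e) (hs : (1 + e) * (7 / 4) ≤ s) (hΛ : 0 < Λ) :
    ∃ C0 : ℝ, 0 < C0 ∧ ∀ (j : ℕ) (δ : ℝ), 0 < δ → (2 : ℝ) ^ (-((1 + e) * j)) < δ → ∀ ω : Finset Edge,
      ω ⊆ box 0 (⌊A / δ⌋₊ : ℤ) 0 (⌊B / δ⌋₊ : ℤ) →
      (Nb 1 (Trc ⌊A / δ⌋₊ ⌊B / δ⌋₊ ω) : ℝ) ≤ Λ * ((⌊A / δ⌋₊ : ℝ)) ^ (7 / 4 : ℝ) →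
      ∃ M : ℕ, (M : ℝ) ≤ C0 * (2 : ℝ) ^ (s * j) ∧
        IsPart (icurve hA.le hB.le δ ⌊A / δ⌋₊ ⌊B / δ⌋₊ ω) M (2 * (2⁻¹ : ℝ) ^ j) := by
  refine ⟨8 * Λ * A ^ (7 / 4 : ℝ), by positivity, ?_⟩
  intro j δ hδ hjδ ω hω hN
  have hT := steps_pos hω
  have hT2 := steps_le hω
  rw [nb_one] at hN
  have h2j : (0 : ℝ) < 2 ^ j := by positivity
  have hq1 : 1 ≤ ⌈δ * 2 ^ j⌉₊ := Nat.one_le_ceil_iff.2 (mul_pos hδ h2j)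
  refine ⟨steps ⌊A / δ⌋₊ ⌊B / δ⌋₊ ω * ⌈δ * 2 ^ j⌉₊, ?_,
    part_mono (icurve_fine hA.le hB.le hδ hT hq1) ?_⟩
  · have hq2 : (⌈δ * 2 ^ j⌉₊ : ℝ) ≤ δ * 2 ^ j + 1 := (Nat.ceil_lt_add_one (mul_pos hδ h2j).le).le
    have hY1 : (2 : ℝ) ^ j ≤ (2 : ℝ) ^ ((1 + e) * j) := by
      rw [← Real.rpow_natCast]
      refine Real.rpow_le_rpow_of_exponent_le one_le_two ?_
      nlinarith [(Nat.cast_nonneg j : (0 : ℝ) ≤ j)]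
    have hY2 : δ⁻¹ ≤ (2 : ℝ) ^ ((1 + e) * j) := by
      rw [Real.rpow_neg zero_le_two] at hjδ
      exact (inv_lt_of_inv_lt₀ (by positivity) hjδ).le
    obtain ⟨Y, hY⟩ : ∃ Y, Y = (2 : ℝ) ^ ((1 + e) * j) := ⟨_, rfl⟩
    rw [← hY] at hY1 hY2
    have hY0 : 0 < Y := by
      rw [hY]
      positivity
    have hD : 0 < δ⁻¹ := inv_pos.2 hδ
    have ha : ((⌊A / δ⌋₊ : ℝ)) ^ (7 / 4 : ℝ) ≤ A ^ (7 / 4 : ℝ) * δ⁻¹ ^ (7 / 4 : ℝ) := by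
      rw [← Real.mul_rpow hA.le hD.le, ← div_eq_mul_inv]
      exact Real.rpow_le_rpow (Nat.cast_nonneg _) (Nat.floor_le (by positivity)) (by norm_num)
    have hTr : ((steps ⌊A / δ⌋₊ ⌊B / δ⌋₊ ω : ℕ) : ℝ) ≤
        4 * (Λ * (A ^ (7 / 4 : ℝ) * δ⁻¹ ^ (7 / 4 : ℝ))) := by
      have h1 : ((steps ⌊A / δ⌋₊ ⌊B / δ⌋₊ ω : ℕ) : ℝ) + 1 ≤
          4 * ((Trc ⌊A / δ⌋₊ ⌊B / δ⌋₊ ω).card : ℝ) := by exact_mod_cast hT2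
      have h2 := hN.trans (mul_le_mul_of_nonneg_left ha hΛ.le)
      linarith
    have hpow : δ⁻¹ ^ (7 / 4 : ℝ) = δ⁻¹ ^ (3 / 4 : ℝ) * δ⁻¹ := by
      have h1 : (7 / 4 : ℝ) = 3 / 4 + 1 := by norm_num
      rw [h1, Real.rpow_add hD, Real.rpow_one]
    have hYpow : Y ^ (3 / 4 : ℝ) * Y = Y ^ (7 / 4 : ℝ) := by
      have h1 : (7 / 4 : ℝ) = 3 / 4 + 1 := by norm_num
      rw [h1, Real.rpow_add hY0, Real.rpow_one]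
    have hYs : Y ^ (7 / 4 : ℝ) ≤ (2 : ℝ) ^ (s * j) := by
      rw [hY, ← Real.rpow_mul zero_le_two]
      refine Real.rpow_le_rpow_of_exponent_le one_le_two ?_
      nlinarith [mul_le_mul_of_nonneg_right hs (Nat.cast_nonneg j : (0 : ℝ) ≤ j)]
    have hmain : δ⁻¹ ^ (7 / 4 : ℝ) * (δ * 2 ^ j + 1) ≤ 2 * Y ^ (7 / 4 : ℝ) := by
      have h1 : δ⁻¹ ^ (7 / 4 : ℝ) * (δ * 2 ^ j + 1) = δ⁻¹ ^ (3 / 4 : ℝ) * (2 ^ j + δ⁻¹) := by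
        rw [hpow]
        field_simp
      have h2 : δ⁻¹ ^ (3 / 4 : ℝ) ≤ Y ^ (3 / 4 : ℝ) := Real.rpow_le_rpow hD.le hY2 (by norm_num)
      rw [h1, ← hYpow]
      calc δ⁻¹ ^ (3 / 4 : ℝ) * (2 ^ j + δ⁻¹) ≤ Y ^ (3 / 4 : ℝ) * (Y + Y) :=
            mul_le_mul h2 (add_le_add hY1 hY2) (by positivity) (by positivity)
        _ = 2 * (Y ^ (3 / 4 : ℝ) * Y) := by ring
    rw [Nat.cast_mul]
    calc ((steps ⌊A / δ⌋₊ ⌊B / δ⌋₊ ω : ℕ) : ℝ) * (⌈δ * 2 ^ j⌉₊ : ℝ)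
        ≤ (4 * (Λ * (A ^ (7 / 4 : ℝ) * δ⁻¹ ^ (7 / 4 : ℝ)))) * (δ * 2 ^ j + 1) :=
          mul_le_mul hTr hq2 (Nat.cast_nonneg _) (by positivity)
      _ = (4 * Λ * A ^ (7 / 4 : ℝ)) * (δ⁻¹ ^ (7 / 4 : ℝ) * (δ * 2 ^ j + 1)) := by ring
      _ ≤ (4 * Λ * A ^ (7 / 4 : ℝ)) * (2 * Y ^ (7 / 4 : ℝ)) :=
          mul_le_mul_of_nonneg_left hmain (by positivity)
      _ = (8 * Λ * A ^ (7 / 4 : ℝ)) * Y ^ (7 / 4 : ℝ) := by ring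
      _ ≤ (8 * Λ * A ^ (7 / 4 : ℝ)) * (2 : ℝ) ^ (s * j) :=
          mul_le_mul_of_nonneg_left hYs (by positivity)
  · have hqpos : (0 : ℝ) < (⌈δ * 2 ^ j⌉₊ : ℝ) := by exact_mod_cast hq1
    have h1 : δ * 2 ^ j ≤ (⌈δ * 2 ^ j⌉₊ : ℝ) := Nat.le_ceil _
    rw [div_le_iff₀ hqpos]
    have h3 : (2⁻¹ : ℝ) ^ j * 2 ^ j = 1 := by
      rw [← mul_pow, inv_mul_cancel₀ two_ne_zero, one_pow]
    have h4 : (0 : ℝ) < (2⁻¹ : ℝ) ^ j := by positivity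
    calc δ = (2⁻¹ : ℝ) ^ j * (δ * 2 ^ j) := by
          rw [mul_comm δ, ← mul_assoc, h3, one_mul]
      _ ≤ (2⁻¹ : ℝ) ^ j * (⌈δ * 2 ^ j⌉₊ : ℝ) := mul_le_mul_of_nonneg_left h1 h4.le
      _ ≤ 2 * (2⁻¹ : ℝ) ^ j * (⌈δ * 2 ^ j⌉₊ : ℝ) := by
          rw [mul_assoc]
          have h5 : (0 : ℝ) ≤ (2⁻¹ : ℝ) ^ j * (⌈δ * 2 ^ j⌉₊ : ℝ) := by positivity
          linarith

end DimLim
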