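import Pool.Agent.Lib.MP_216314_pr.IC.C3
import Pool.Agent.Lib.MP_216314_pr.IC.C5

/-!
# Partitions at all scales with probability close to one
-/

set_option autoImplicit false

noncomputable section

namespace DimLim

open Finset FKI FKP FKN

theorem all_scales (hU : HypU Trc) (hT : HypT) {A B s ε : ℝ} (hA : 0 < A) (hB : 0 < B) (hs : 7 / 4 < s) (hε : 0 < ε) :
    ∃ C0 δ0 : ℝ, 0 < C0 ∧ 0 < δ0 ∧ ∀ δ : ℝ, 0 < δ → δ < δ0 →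
      Pr (box 0 (⌊A / δ⌋₊ : ℤ) 0 (⌊B / δ⌋₊ : ℤ))
        (fun ω => ¬ HasPart s 2 C0 (icurve hA.le hB.le δ ⌊A / δ⌋₊ ⌊B / δ⌋₊ ω)) ≤ ε := by
  obtain ⟨η, hηd⟩ : ∃ η : ℝ, η = (s - 7 / 4) / 2 := ⟨_, rfl⟩
  obtain ⟨e, hed⟩ : ∃ e : ℝ, e = (s - 7 / 4) * (2 / 7) := ⟨_, rfl⟩
  have hη : 0 < η := by rw [hηd]; linarith
  have he : 0 < e := by rw [hed]; linarith
  have hs1 : (1 + e) * (7 / 4) + η ≤ s := by rw [hηd, hed]; linarith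
  have hs2 : (1 + e) * (7 / 4) ≤ s := by linarith
  have hs0 : 0 < s := by linarith
  obtain ⟨m, hm⟩ := all_bad hU hT hA hB he hη
  obtain ⟨j0, C1, δ1, hC1, hδ1, hcoarse⟩ := coarse_part hA hB he hη hs1 m
  obtain ⟨j1, δ2, hj, hδ2, hbad⟩ := hm (ε / 2) j0 (half_pos hε)
  obtain ⟨K, δ3, hδ3, hasp⟩ := aspect hA hB
  obtain ⟨C2, hC2, hfew⟩ := few_boxes hU K
  obtain ⟨Λ, hΛd⟩ : ∃ Λ : ℝ, Λ = 2 * C2 / ε := ⟨_, rfl⟩
  have hΛ : 0 < Λ := by rw [hΛd]; positivity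
  obtain ⟨C3, hC3, hfine⟩ := fine_part hA hB he hs2 hΛ
  have h2 : ∀ j : ℕ, (1 : ℝ) ≤ (2 : ℝ) ^ (s * j) := fun j =>
    Real.one_le_rpow (by norm_num) (mul_nonneg hs0.le (Nat.cast_nonneg j))
  have hmax : 0 < max C1 C3 := lt_max_of_lt_left hC1
  have hle : max C1 C3 ≤ max C1 C3 * (2 : ℝ) ^ (s * j1) := le_mul_of_one_le_right hmax.le (h2 j1)
  refine ⟨max C1 C3 * (2 : ℝ) ^ (s * j1), min δ1 (min δ2 δ3), mul_pos hmax (by positivity), lt_min hδ1 (lt_min hδ2 hδ3),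
    fun δ hδ hδl => ?_⟩
  have hd1 := lt_of_lt_of_le hδl (min_le_left _ _)
  have hd2 := lt_of_lt_of_le hδl ((min_le_right _ _).trans (min_le_left _ _))
  have hd3 := lt_of_lt_of_le hδl ((min_le_right _ _).trans (min_le_right _ _))
  obtain ⟨ha1, hb1, hab, hba⟩ := hasp δ hδ hd3
  have hP1 := hbad δ hδ hd2
  have hP2 := hfew ⌊A / δ⌋₊ ⌊B / δ⌋₊ 1 Λ le_rfl ha1 hb1 hab hba hΛ
  have hP3 : C2 / Λ = ε / 2 := by
    rw [hΛd]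
    field_simp
  rw [hP3] at hP2
  refine le_trans (Pr_mono (B := fun ω => (∃ j, j1 ≤ j ∧ δ ≤ (2 : ℝ) ^ (-((1 + e) * (j : ℝ))) ∧ BadS A B e η δ m j ω) ∨
    Λ * ((⌊A / δ⌋₊ : ℝ) / (1 : ℕ)) ^ (7 / 4 : ℝ) < (Nb 1 (Trc ⌊A / δ⌋₊ ⌊B / δ⌋₊ ω) : ℝ)) fun ω hω hn => ?_)
    ((Pr_or_le _ _ _).trans (by linarith))
  by_contra hcon
  push Not at hcon
  obtain ⟨hc1, hc2⟩ := hcon
  rw [Nat.cast_one, div_one] at hc2
  have key : ∀ j : ℕ, j1 ≤ j → ∃ M : ℕ, (M : ℝ) ≤ max C1 C3 * (2 : ℝ) ^ (s * j) ∧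
      IsPart (icurve hA.le hB.le δ ⌊A / δ⌋₊ ⌊B / δ⌋₊ ω) M (2 * (2⁻¹ : ℝ) ^ j) := by
    intro j hj1
    rcases le_or_gt δ ((2 : ℝ) ^ (-((1 + e) * (j : ℝ)))) with h | h
    · obtain ⟨M, hM1, hM2⟩ := hcoarse j δ (hj.trans hj1) hδ hd1 h ω hω (hc1 j hj1 h)
      exact ⟨M, hM1.trans (mul_le_mul_of_nonneg_right (le_max_left _ _) (by positivity)), hM2⟩
    · obtain ⟨M, hM1, hM2⟩ := hfine j δ hδ h ω hω hc2
      exact ⟨M, hM1.trans (mul_le_mul_of_nonneg_right (le_max_right _ _) (by positivity)), hM2⟩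
  refine hn fun j => ?_
  rcases le_or_gt j1 j with hj1 | hj1
  · obtain ⟨M, hM1, hM2⟩ := key j hj1
    exact ⟨M, hM1.trans (mul_le_mul_of_nonneg_right hle (by positivity)), hM2⟩
  · obtain ⟨M, hM1, hM2⟩ := key j1 le_rfl
    refine ⟨M, hM1.trans (le_mul_of_one_le_right (mul_pos hmax (by positivity)).le (h2 j)), part_mono hM2 ?_⟩
    have h3 : (2⁻¹ : ℝ) ^ j1 ≤ (2⁻¹ : ℝ) ^ j := pow_le_pow_of_le_one (by norm_num) (by norm_num) hj1.le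
    linarith

end DimLim
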