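import Mathlib

/-!
# Reparametrisation of a curve by its oscillation counts

`γ : [0,1] → E` continuous; for every scale `j` a partition `0 = τ j 0 < τ j 1 < … < τ j (M j) = 1` such that `γ` oscillates by at most `d j` on every
piece; weights `w j > 0` of sum `1`. Then for some increasing homeomorphism `θ` of `[0,1]`: `|θ s - θ t| < w j / (2 M j)` implies
`dist (γ s) (γ t) ≤ 2 d j`, for all `j`.
-/

set_option autoImplicit false

noncomputable section

namespace FKC

open Finset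

/-- the part of `[a,b]` to the left of `t`, normalised -/
def cl (a b t : ℝ) : ℝ := max 0 (min 1 ((t - a) / (b - a)))

theorem cl_nonneg (a b t : ℝ) : 0 ≤ cl a b t := le_max_left _ _

theorem cl_le_one (a b t : ℝ) : cl a b t ≤ 1 := max_le zero_le_one (min_le_left _ _)

theorem cl_mono {a b : ℝ} (h : a < b) {s t : ℝ} (hst : s ≤ t) : cl a b s ≤ cl a b t := by
  unfold cl
  have h1 : (s - a) / (b - a) ≤ (t - a) / (b - a) :=
    div_le_div_of_nonneg_right (by linarith) (by linarith)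
  exact max_le_max le_rfl (min_le_min le_rfl h1)

theorem cl_cont (a b : ℝ) : Continuous (cl a b) := by
  unfold cl
  fun_prop

theorem cl_zero {a b : ℝ} (h : a < b) {t : ℝ} (ht : t ≤ a) : cl a b t = 0 := by
  unfold cl
  have h1 : (t - a) / (b - a) ≤ 0 := div_nonpos_of_nonpos_of_nonneg (by linarith) (by linarith)
  exact max_eq_left ((min_le_right _ _).trans h1)

theorem cl_one {a b : ℝ} (h : a < b) {t : ℝ} (ht : b ≤ t) : cl a b t = 1 := by
  unfold cl
  have h1 : 1 ≤ (t - a) / (b - a) := (one_le_div (by linarith)).2 (by linarith)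
  rw [min_eq_left h1]
  exact max_eq_right zero_le_one

/-- the normalised count of the pieces to the left of `t` -/
def cnt (M : ℕ) (τ : ℕ → ℝ) (t : ℝ) : ℝ := (∑ i ∈ range M, cl (τ i) (τ (i + 1)) t) / M

theorem cnt_nonneg (M : ℕ) (τ : ℕ → ℝ) (t : ℝ) : 0 ≤ cnt M τ t :=
  div_nonneg (sum_nonneg fun _ _ => cl_nonneg _ _ _) (Nat.cast_nonneg _)

theorem cnt_le_one (M : ℕ) (τ : ℕ → ℝ) (t : ℝ) : cnt M τ t ≤ 1 := by
  unfold cnt
  refine div_le_one_of_le₀ ?_ (Nat.cast_nonneg _)
  calc ∑ i ∈ range M, cl (τ i) (τ (i + 1)) t ≤ ∑ _i ∈ range M, (1 : ℝ) :=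
        sum_le_sum fun _ _ => cl_le_one _ _ _
    _ = M := by simp

theorem cnt_mono {M : ℕ} {τ : ℕ → ℝ} (h : ∀ i < M, τ i < τ (i + 1)) {s t : ℝ} (hst : s ≤ t) :
    cnt M τ s ≤ cnt M τ t :=
  div_le_div_of_nonneg_right (sum_le_sum fun i hi => cl_mono (h i (mem_range.1 hi)) hst)
    (Nat.cast_nonneg _)

theorem cnt_cont (M : ℕ) (τ : ℕ → ℝ) : Continuous (cnt M τ) := by
  unfold cnt
  exact (continuous_finsetSum _ fun i _ => cl_cont _ _).div_const _

private theorem part_le {M : ℕ} {τ : ℕ → ℝ} (h : ∀ i < M, τ i < τ (i + 1)) {i j : ℕ} (hij : i ≤ j)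
    (hj : j ≤ M) : τ i ≤ τ j := by
  induction j, hij using Nat.le_induction with
  | base => exact le_rfl
  | succ j _ ih => exact (ih (by omega)).trans (h j (by omega)).le

theorem cnt_zero {M : ℕ} {τ : ℕ → ℝ} (h : ∀ i < M, τ i < τ (i + 1)) (h0 : τ 0 = 0) :
    cnt M τ 0 = 0 := by
  unfold cnt
  rw [sum_eq_zero, zero_div]
  intro i hi
  refine cl_zero (h i (mem_range.1 hi)) ?_
  rw [← h0]
  exact part_le h (Nat.zero_le _) (mem_range.1 hi).le

theorem cnt_one {M : ℕ} {τ : ℕ → ℝ} (hM : 0 < M) (h : ∀ i < M, τ i < τ (i + 1)) (h1 : τ M = 1) :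
    cnt M τ 1 = 1 := by
  unfold cnt
  have e : ∑ i ∈ range M, cl (τ i) (τ (i + 1)) 1 = ∑ _i ∈ range M, (1 : ℝ) := by
    refine sum_congr rfl fun i hi => cl_one (h i (mem_range.1 hi)) ?_
    rw [← h1]
    exact part_le h (Nat.succ_le_of_lt (mem_range.1 hi)) le_rfl
  rw [e]
  simp only [sum_const, card_range, nsmul_eq_mul, mul_one]
  exact div_self (by exact_mod_cast hM.ne')

/-- if a whole piece lies between `s` and `t` the counts differ by `1 / M` -/
theorem cnt_gap {M : ℕ} {τ : ℕ → ℝ} (h : ∀ i < M, τ i < τ (i + 1)) {s t : ℝ} (hst : s ≤ t)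
    {i : ℕ} (hi : i < M) (hs : s ≤ τ i) (ht : τ (i + 1) ≤ t) :
    1 / M ≤ cnt M τ t - cnt M τ s := by
  unfold cnt
  rw [← sub_div, ← sum_sub_distrib]
  refine div_le_div_of_nonneg_right ?_ (Nat.cast_nonneg _)
  calc (1 : ℝ) = cl (τ i) (τ (i + 1)) t - cl (τ i) (τ (i + 1)) s := by
        rw [cl_one (h i hi) ht, cl_zero (h i hi) hs, sub_zero]
    _ ≤ _ := single_le_sum (f := fun i => cl (τ i) (τ (i + 1)) t - cl (τ i) (τ (i + 1)) s)
        (fun k hk => sub_nonneg.2 (cl_mono (h k (mem_range.1 hk)) hst)) (mem_range.2 hi)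

/-- a number of `[0,1)` lies in a piece -/
private theorem exists_piece {M : ℕ} {τ : ℕ → ℝ} (h0 : τ 0 = 0) (h1 : τ M = 1) {s : ℝ}
    (hs : 0 ≤ s) (hs1 : s < 1) : ∃ i < M, τ i ≤ s ∧ s < τ (i + 1) := by
  classical
  have hex : ∃ n, s < τ n := ⟨M, by rw [h1]; exact hs1⟩
  have h2 := Nat.find_spec hex
  have h3 : Nat.find hex ≠ 0 := by
    intro h4
    rw [h4, h0] at h2
    linarith
  obtain ⟨i, hi⟩ := Nat.exists_eq_succ_of_ne_zero h3
  have h5 : Nat.find hex ≤ M := Nat.find_min' hex (by rw [h1]; exact hs1)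
  refine ⟨i, by omega, ?_, ?_⟩
  · have h6 := Nat.find_min hex (m := i) (by omega)
    exact not_lt.1 h6
  · rw [hi] at h2
    exact h2

/-- the reparametrisation as a function on `ℝ` -/
def rep (M : ℕ → ℕ) (τ : ℕ → ℕ → ℝ) (w : ℕ → ℝ) (t : ℝ) : ℝ :=
  (t + ∑' j, w j * cnt (M j) (τ j) t) / 2

theorem reparam {E : Type*} [PseudoMetricSpace E] (γ : unitInterval → E) (M : ℕ → ℕ)
    (hM : ∀ j, 0 < M j) (τ : ℕ → ℕ → ℝ) (h0 : ∀ j, τ j 0 = 0) (h1 : ∀ j, τ j (M j) = 1)
    (hτ : ∀ j, ∀ i < M j, τ j i < τ j (i + 1)) (d : ℕ → ℝ)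
    (hd : ∀ j, ∀ i < M j, ∀ s t : unitInterval, τ j i ≤ s → s ≤ τ j (i + 1) → τ j i ≤ t →
      t ≤ τ j (i + 1) → dist (γ s) (γ t) ≤ d j)
    (w : ℕ → ℝ) (hw : ∀ j, 0 < w j) (hs : HasSum w 1) :
    ∃ θ : unitInterval ≃o unitInterval, ∀ j s t,
      |(θ s : ℝ) - θ t| < w j / (2 * M j) → dist (γ s) (γ t) ≤ 2 * d j := by
  have hsum : ∀ t, Summable fun j => w j * cnt (M j) (τ j) t := fun t =>
    Summable.of_nonneg_of_le (fun j => mul_nonneg (hw j).le (cnt_nonneg _ _ _))
      (fun j => mul_le_of_le_one_right (hw j).le (cnt_le_one _ _ _)) hs.summable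
  have hcont : Continuous (rep M τ w) := by
    unfold rep
    refine (continuous_id.add (continuous_tsum (u := w) (fun j => ?_) hs.summable ?_)).div_const _
    · exact continuous_const.mul (cnt_cont _ _)
    · intro j t
      rw [Real.norm_eq_abs, abs_of_nonneg (mul_nonneg (hw j).le (cnt_nonneg _ _ _))]
      exact mul_le_of_le_one_right (hw j).le (cnt_le_one _ _ _)
  have hdiff : ∀ s t, s ≤ t → ∀ j,
      (t - s) / 2 + w j * (cnt (M j) (τ j) t - cnt (M j) (τ j) s) / 2 ≤ rep M τ w t - rep M τ w s := by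
    intro s t hst j
    have h2 : w j * (cnt (M j) (τ j) t - cnt (M j) (τ j) s) ≤
        ∑' i, (w i * cnt (M i) (τ i) t - w i * cnt (M i) (τ i) s) := by
      have h3 := ((hsum t).sub (hsum s)).le_tsum j (fun i _ => by
        have := cnt_mono (hτ i) hst
        nlinarith [hw i])
      rw [mul_sub]
      exact h3
    rw [((hsum t).tsum_sub (hsum s))] at h2
    unfold rep
    linarith
  have hmono : StrictMono (rep M τ w) := by
    intro s t hst
    have h2 := hdiff s t hst.le 0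
    have h3 : 0 ≤ w 0 * (cnt (M 0) (τ 0) t - cnt (M 0) (τ 0) s) :=
      mul_nonneg (hw 0).le (sub_nonneg.2 (cnt_mono (hτ 0) hst.le))
    linarith
  have hr0 : rep M τ w 0 = 0 := by
    unfold rep
    have : (fun j => w j * cnt (M j) (τ j) 0) = fun _ => 0 := by
      funext j
      rw [cnt_zero (hτ j) (h0 j), mul_zero]
    rw [this, tsum_zero]
    norm_num
  have hr1 : rep M τ w 1 = 1 := by
    unfold rep
    have : (fun j => w j * cnt (M j) (τ j) 1) = w := by
      funext j
      rw [cnt_one (hM j) (hτ j) (h1 j), mul_one]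
    rw [this, hs.tsum_eq]
    norm_num
  have hmem : ∀ t : unitInterval, rep M τ w t ∈ unitInterval := by
    intro t
    constructor
    · rw [← hr0]
      exact hmono.monotone t.2.1
    · rw [← hr1]
      exact hmono.monotone t.2.2
  set f : unitInterval → unitInterval := fun t => ⟨rep M τ w t, hmem t⟩ with hf
  have hfm : StrictMono f := fun s t hst => Subtype.mk_lt_mk.2 (hmono hst)
  have hfs : Function.Surjective f := by
    intro y
    have h2 : (y : ℝ) ∈ Set.Icc (rep M τ w 0) (rep M τ w 1) := by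
      rw [hr0, hr1]
      exact y.2
    obtain ⟨x, hx, hxy⟩ := intermediate_value_Icc zero_le_one hcont.continuousOn h2
    exact ⟨⟨x, hx⟩, Subtype.ext hxy⟩
  refine ⟨hfm.orderIsoOfSurjective f hfs, ?_⟩
  have key : ∀ j (s t : unitInterval), s < t → rep M τ w t - rep M τ w s < w j / (2 * M j) →
      dist (γ s) (γ t) ≤ 2 * d j := by
    intro j s t hst hlt
    have hst' : (s : ℝ) < t := hst
    have hMj : (0 : ℝ) < M j := by exact_mod_cast hM j
    have h2 : cnt (M j) (τ j) t - cnt (M j) (τ j) s < 1 / M j := by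
      by_contra hcon
      push Not at hcon
      have h3 := hdiff s t hst'.le j
      have h4 : w j * (1 / M j) ≤ w j * (cnt (M j) (τ j) t - cnt (M j) (τ j) s) :=
        mul_le_mul_of_nonneg_left hcon (hw j).le
      have h5 : w j / (2 * M j) = w j * (1 / M j) / 2 := by
        field_simp
      rw [h5] at hlt
      linarith
    obtain ⟨i, hi, hi1, hi2⟩ := exists_piece (h0 j) (h1 j) s.2.1 (hst'.trans_le t.2.2)
    by_cases ht : (t : ℝ) ≤ τ j (i + 1)
    · have h6 := hd j i hi s t hi1 hi2.le (hi1.trans hst'.le) ht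
      have h7 : 0 ≤ d j := dist_nonneg.trans h6
      linarith
    · have ht' := not_le.1 ht
      have hi3 : i + 1 < M j := by
        rcases Nat.lt_or_ge (i + 1) (M j) with h | h
        · exact h
        · have h8 : i + 1 = M j := by omega
          rw [h8, h1 j] at ht'
          exact absurd t.2.2 (not_le.2 ht')
      have ht2 : (t : ℝ) < τ j (i + 2) := by
        by_contra hcon
        have h9 := cnt_gap (hτ j) hst'.le hi3 hi2.le (not_lt.1 hcon)
        linarith
      have hmem1 : τ j (i + 1) ∈ unitInterval := ⟨s.2.1.trans hi2.le, ht'.le.trans t.2.2⟩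
      have h10 := hd j i hi s ⟨τ j (i + 1), hmem1⟩ hi1 hi2.le (hτ j i hi).le le_rfl
      have h11 := hd j (i + 1) hi3 ⟨τ j (i + 1), hmem1⟩ t le_rfl (hτ j (i + 1) hi3).le ht'.le
        ht2.le
      calc dist (γ s) (γ t) ≤ dist (γ s) (γ ⟨τ j (i + 1), hmem1⟩) +
            dist (γ ⟨τ j (i + 1), hmem1⟩) (γ t) := dist_triangle _ _ _
        _ ≤ 2 * d j := by linarith
  intro j s t hlt
  change |rep M τ w s - rep M τ w t| < _ at hlt
  rcases lt_trichotomy s t with h | h | h
  · refine key j s t h ?_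
    rw [abs_sub_comm] at hlt
    exact (le_abs_self _).trans_lt hlt
  · subst h
    rw [dist_self]
    have h12 : 0 ≤ d j := by
      have h13 := hd j 0 (hM j) 0 0 (by rw [h0 j]; exact le_rfl)
        (by have := hτ j 0 (hM j); rw [h0 j] at this; simpa using this.le) (by rw [h0 j]; exact le_rfl)
        (by have := hτ j 0 (hM j); rw [h0 j] at this; simpa using this.le)
      rwa [dist_self] at h13
    linarith
  · rw [dist_comm]
    exact key j t s h ((le_abs_self _).trans_lt hlt)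

end FKC
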