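import Pool.Agent.Lib.MP_216314_pr.IC.H0
import Pool.Agent.Lib.MP_216314_pr.IC.Reparam

/-!
HA (medium): partitions give a Hölder continuous parametrisation.

PROOF. `FKC.reparam` (IC/Reparam.lean) with the weights `w j = (1 - q) q ^ j`, `q = 2 ^ (-η)`, `η = 1 / α - s > 0` (`HasSum` geometric). For `g = f.fn ∘ θ.symm` (a `PCurve`; `mk g = mk f` because
`dist f g = 0`: `pc_le` with the order isomorphism `θ`): if `|u - v| < w j / (2 M j)` then `dist (g u) (g v) ≤ 2 D 2 ^ (-j)`, and `w j / (2 M j) ≥ (1 - q) / (2 C0) * 2 ^ (-(η + s) j) = κ 2 ^ (-j / α)`.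
If `|u - v| ≥ κ` use the diameter of `E` (`Metric.diam univ`, `CompactSpace`), otherwise (for `u ≠ v`) take the largest `j` with `|u - v| < κ 2 ^ (-j / α)`; then `|u - v| ≥ κ 2 ^ (-(j + 1) / α)`, so
`2 ^ (-j) ≤ 2 (|u - v| / κ) ^ α`.
-/

set_option autoImplicit false

noncomputable section

namespace DimLim

private theorem HA_mk {E : Type*} [MetricSpace E] (f : PCurve E) (φ : unitInterval ≃o unitInterval) :
    (SeparationQuotient.mk (⟨f.rep φ⟩ : PCurve E) : Curve E) = SeparationQuotient.mk f := by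
  rw [SeparationQuotient.mk_eq_mk, Metric.inseparable_iff]
  refine le_antisymm ((pc_le ⟨f.rep φ⟩ f φ).trans ?_) (pc_nonneg _ _)
  rw [dist_self]

private theorem HA_scale {α c h : ℝ} (hα : 0 < α) (hc : 0 < c) (h0 : 0 < h) (hh : h < c) :
    ∃ j : ℕ, h < c * ((2 : ℝ) ^ (-(1 / α))) ^ j ∧ (2⁻¹ : ℝ) ^ j ≤ 2 * (h / c) ^ α := by
  set ρ : ℝ := (2 : ℝ) ^ (-(1 / α)) with hρ
  have hρ0 : 0 < ρ := Real.rpow_pos_of_pos (by norm_num) _
  have hρ1 : ρ < 1 := Real.rpow_lt_one_of_one_lt_of_neg (by norm_num) (by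
    have : 0 < 1 / α := by positivity
    linarith)
  have hpow : ∀ j : ℕ, (ρ ^ j) ^ α = (2⁻¹ : ℝ) ^ j := by
    intro j
    rw [← Real.rpow_natCast ρ j, ← Real.rpow_mul hρ0.le, hρ, ← Real.rpow_mul (by norm_num),
      ← Real.rpow_natCast (2⁻¹ : ℝ) j, ← Real.rpow_neg_one 2, ← Real.rpow_mul (by norm_num)]
    congr 1
    field_simp
  have hex : ∃ n : ℕ, c * ρ ^ n ≤ h := by
    obtain ⟨n, hn⟩ := exists_pow_lt_of_lt_one (div_pos h0 hc) hρ1
    refine ⟨n, ?_⟩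
    have h1 := (lt_div_iff₀ hc).1 hn
    linarith
  classical
  have h1 := Nat.find_spec hex
  have h2 : Nat.find hex ≠ 0 := by
    intro h3
    rw [h3, pow_zero, mul_one] at h1
    linarith
  obtain ⟨j, hj⟩ := Nat.exists_eq_succ_of_ne_zero h2
  have h3 := Nat.find_min hex (m := j) (by omega)
  refine ⟨j, not_le.1 h3, ?_⟩
  rw [hj] at h1
  have h4 : ρ ^ (j + 1) ≤ h / c := (le_div_iff₀ hc).2 (by rw [mul_comm]; exact h1)
  have h5 := Real.rpow_le_rpow (by positivity) h4 hα.le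
  rw [hpow, pow_succ] at h5
  linarith

theorem hold_of_part {E : Type*} [MetricSpace E] [CompactSpace E] {s D C0 α : ℝ} (hs : 0 ≤ s) (hD : 0 < D)
    (hC : 0 < C0) (hα : 0 < α) (h1 : α * s < 1) :
    ∃ C : ℝ, ∀ f : PCurve E, HasPart s D C0 f → HoldC α C (SeparationQuotient.mk f) := by
  have hαs := h1
  clear h1
  set q : ℝ := (2 : ℝ) ^ (s - 1 / α) with hq
  have hq0 : 0 < q := Real.rpow_pos_of_pos (by norm_num) _
  have hq1 : q < 1 := Real.rpow_lt_one_of_one_lt_of_neg (by norm_num) (by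
    rw [sub_neg, lt_div_iff₀ hα]
    linarith)
  set c : ℝ := (1 - q) / (2 * C0) with hc
  have hc0 : 0 < c := div_pos (by linarith) (by positivity)
  set Δ : ℝ := Metric.diam (Set.univ : Set E) with hΔ
  have hΔ0 : 0 ≤ Δ := Metric.diam_nonneg
  have hdist : ∀ x y : E, dist x y ≤ Δ := fun x y =>
    Metric.dist_le_diam_of_mem isCompact_univ.isBounded (Set.mem_univ _) (Set.mem_univ _)
  refine ⟨(4 * D + Δ) / c ^ α, fun f hf => ?_⟩
  have hf' : ∀ j : ℕ, ∃ (M : ℕ) (τ : ℕ → ℝ), 0 < M ∧ τ 0 = 0 ∧ τ M = 1 ∧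
      (∀ i < M, τ i < τ (i + 1)) ∧
      (∀ i < M, ∀ u v : unitInterval, τ i ≤ u → u ≤ τ (i + 1) → τ i ≤ v → v ≤ τ (i + 1) →
        dist (f.fn u) (f.fn v) ≤ D * (2⁻¹ : ℝ) ^ j) ∧ (M : ℝ) ≤ C0 * 2 ^ (s * j) := by
    intro j
    obtain ⟨M, h2, h3, τ, h4, h5, h6, h7⟩ := hf j
    exact ⟨M, τ, h3, h4, h5, h6, h7, h2⟩
  choose M τ hM h0 h1 hτ hd hMb using hf'
  have hw : ∀ j : ℕ, 0 < (1 - q) * q ^ j := fun j => mul_pos (by linarith) (pow_pos hq0 j)
  have hsum : HasSum (fun j : ℕ => (1 - q) * q ^ j) 1 := by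
    have h2 := (hasSum_geometric_of_lt_one hq0.le hq1).mul_left (1 - q)
    rwa [mul_inv_cancel₀ (by linarith)] at h2
  obtain ⟨θ, hθ⟩ := FKC.reparam (fun t => f.fn t) M hM τ h0 h1 hτ (fun j => D * (2⁻¹ : ℝ) ^ j) hd
    (fun j => (1 - q) * q ^ j) hw hsum
  refine ⟨⟨f.rep θ.symm⟩, HA_mk f θ.symm, fun u v => ?_⟩
  change dist (f.fn (θ.symm u)) (f.fn (θ.symm v)) ≤ _
  have hcα : 0 < c ^ α := Real.rpow_pos_of_pos hc0 _
  have hρ : ∀ j : ℕ, c * ((2 : ℝ) ^ (-(1 / α))) ^ j ≤ (1 - q) * q ^ j / (2 * M j) := by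
    intro j
    have hMj : (0 : ℝ) < M j := by exact_mod_cast hM j
    have e1 : (2 : ℝ) ^ (-(1 / α)) = q / 2 ^ s := by
      rw [hq, ← Real.rpow_sub (by norm_num)]
      congr 1
      ring
    have e2 : (2 : ℝ) ^ (s * j) = ((2 : ℝ) ^ s) ^ j := by
      rw [Real.rpow_mul (by norm_num), Real.rpow_natCast]
    have hp : 0 < (2 : ℝ) ^ s := Real.rpow_pos_of_pos (by norm_num) _
    have h2 := hMb j
    rw [e2] at h2
    rw [e1, div_pow, hc, le_div_iff₀ (by positivity)]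
    have e3 : (1 - q) / (2 * C0) * (q ^ j / ((2 : ℝ) ^ s) ^ j) * (2 * M j) =
        (1 - q) * q ^ j * (M j / (C0 * ((2 : ℝ) ^ s) ^ j)) := by
      field_simp
    rw [e3]
    exact mul_le_of_le_one_right (hw j).le ((div_le_one (by positivity)).2 h2)
  rcases eq_or_ne u v with h | h
  · subst h
    rw [dist_self]
    positivity
  have hh0 : 0 < |(u : ℝ) - v| := abs_pos.2 (sub_ne_zero.2 fun h2 => h (Subtype.ext h2))
  set h' : ℝ := |(u : ℝ) - v| with hh'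
  have hdiv : (h' / c) ^ α = h' ^ α / c ^ α := Real.div_rpow hh0.le hc0.le α
  have hhα : 0 ≤ h' ^ α := Real.rpow_nonneg hh0.le _
  rcases lt_or_ge h' c with h2 | h2
  · obtain ⟨j, hj1, hj2⟩ := HA_scale hα hc0 hh0 h2
    have h3 := hθ j (θ.symm u) (θ.symm v) (by
      rw [OrderIso.apply_symm_apply, OrderIso.apply_symm_apply]
      exact hj1.trans_le (hρ j))
    refine h3.trans ?_
    calc 2 * (D * (2⁻¹ : ℝ) ^ j) ≤ 2 * (D * (2 * (h' / c) ^ α)) :=
          mul_le_mul_of_nonneg_left (mul_le_mul_of_nonneg_left hj2 hD.le) (by norm_num)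
      _ = 4 * D / c ^ α * h' ^ α := by
          rw [hdiv]
          ring
      _ ≤ (4 * D + Δ) / c ^ α * h' ^ α := by
          refine mul_le_mul_of_nonneg_right (div_le_div_of_nonneg_right ?_ hcα.le) hhα
          linarith
  · have h3 : 1 ≤ (h' / c) ^ α := Real.one_le_rpow ((one_le_div hc0).2 h2) hα.le
    calc dist (f.fn (θ.symm u)) (f.fn (θ.symm v)) ≤ Δ := hdist _ _
      _ ≤ Δ * (h' / c) ^ α := le_mul_of_one_le_right hΔ0 h3
      _ = Δ / c ^ α * h' ^ α := by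
          rw [hdiv]
          ring
      _ ≤ (4 * D + Δ) / c ^ α * h' ^ α := by
          refine mul_le_mul_of_nonneg_right (div_le_div_of_nonneg_right ?_ hcα.le) hhα
          linarith

end DimLim
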