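import Pool.Agent.Lib.MP_216314_pr.IC.H0

/-!
LE (easy+, 3 theorems): monotonicity of the Hölder classes, and the dimension of the trace.

PROOF. `hold_mono`: `|s - t| ≤ 1` on `unitInterval`, so `|s - t| ^ α ≤ |s - t| ^ β` (`Real.rpow_le_rpow_of_exponent_ge'`; for `s = t` both sides are `0`, `0 < β`), and `C ≤ C'`; the constant `C` may be
negative in `HoldC α C c` only if it is harmless: use `C * x ≤ C' * x`, `0 ≤ C'`.
`hold_dim`: the trace is the range of the representative `f` (`trace_eq`, `tr_mk`, `tr0`), `f.fn` is `HolderWith (C.toNNReal) (α.toNNReal)` (`HolderWith`, edistances: `edist_dist`, `ENNReal.ofReal_le_ofReal`), so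
`dimH (range f.fn) ≤ dimH (univ : Set unitInterval) / α` (`HolderWith.dimH_range_le`), and `dimH (univ : Set unitInterval) ≤ 1` (isometric to a subset of `ℝ`: `Isometry.dimH_image` or `dimH_mono`, `Real.dimH_univ`).
`not_hold`: from `hold_dim`, `7 / 4 ≤ 1 / α` contradicts `4 / 7 < α`.
-/

set_option autoImplicit false

noncomputable section

namespace DimLim

open MeasureTheory Filter Topology Set ENNReal

private theorem LE_univ : dimH (univ : Set unitInterval) ≤ 1 := by
  have h1 : Isometry (Subtype.val : unitInterval → ℝ) := isometry_subtype_coe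
  rw [← h1.dimH_image univ, ← Real.dimH_univ]
  exact dimH_mono (subset_univ _)

private theorem LE_holder {E : Type*} [MetricSpace E] {α C : ℝ} (hα : 0 < α) (f : unitInterval → E)
    (h : ∀ s t : unitInterval, dist (f s) (f t) ≤ C * |(s : ℝ) - t| ^ α) :
    HolderWith (max C 0).toNNReal α.toNNReal f := by
  intro s t
  rw [edist_dist, edist_dist, Real.coe_toNNReal α hα.le, ENNReal.ofReal_rpow_of_nonneg dist_nonneg hα.le]
  have h1 : (((max C 0).toNNReal : NNReal) : ENNReal) = ENNReal.ofReal (max C 0) := rfl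
  rw [h1, ← ENNReal.ofReal_mul (le_max_right C 0)]
  refine ENNReal.ofReal_le_ofReal ((h s t).trans ?_)
  exact mul_le_mul_of_nonneg_right (le_max_left C 0) (Real.rpow_nonneg (abs_nonneg _) α)

theorem hold_mono {E : Type*} [MetricSpace E] {α β C C' : ℝ} {c : Curve E} (h : HoldC α C c) (hβ : 0 < β) (hβα : β ≤ α)
    (hC : C ≤ C') (hC' : 0 ≤ C') : HoldC β C' c := by
  obtain ⟨f, hf, h1⟩ := h
  refine ⟨f, hf, fun s t => (h1 s t).trans ?_⟩
  have h2 : |(s : ℝ) - t| ≤ 1 := by
    rw [abs_le]
    constructor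
    · linarith [s.2.1, t.2.2]
    · linarith [s.2.2, t.2.1]
  have h3 : |(s : ℝ) - t| ^ α ≤ |(s : ℝ) - t| ^ β :=
    Real.rpow_le_rpow_of_exponent_ge' (abs_nonneg _) h2 hβ.le hβα
  exact (mul_le_mul_of_nonneg_right hC (Real.rpow_nonneg (abs_nonneg _) α)).trans
    (mul_le_mul_of_nonneg_left h3 hC')

theorem hold_dim {E : Type*} [MetricSpace E] {α C : ℝ} (hα : 0 < α) {c : Curve E} (h : HoldC α C c) :
    dimH (trace c) ≤ ENNReal.ofReal (1 / α) := by
  obtain ⟨f, hf, h1⟩ := h
  have h2 : trace c = range f.fn := by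
    rw [trace_eq, ← hf, tr_mk]
    rfl
  have h3 := (LE_holder hα f.fn h1).dimH_range_le (Real.toNNReal_pos.2 hα)
  rw [h2]
  refine h3.trans ((ENNReal.div_le_div_right LE_univ _).trans (le_of_eq ?_))
  have h4 : ((α.toNNReal : NNReal) : ENNReal) = ENNReal.ofReal α := rfl
  rw [h4, ENNReal.ofReal_div_of_pos hα, ENNReal.ofReal_one]

theorem not_hold {E : Type*} [MetricSpace E] {α C : ℝ} (hα : 4 / 7 < α) {c : Curve E} (h : dimH (trace c) = 7 / 4) :
    ¬ HoldC α C c := by
  intro h1
  have hα0 : 0 < α := lt_trans (by norm_num) hα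
  have h2 := hold_dim hα0 h1
  have h3 : (7 / 4 : ENNReal) = ENNReal.ofReal (7 / 4) := by
    rw [ENNReal.ofReal_div_of_pos (by norm_num)]
    norm_num
  rw [h, h3, ENNReal.ofReal_le_ofReal_iff (by positivity), le_div_iff₀ hα0] at h2
  linarith

end DimLim
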