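import Pool.Agent.Lib.MP_216314_pr.IC.C7
import Pool.Agent.Lib.MP_216314_pr.IC.HA
import Pool.Agent.Lib.MP_216314_pr.IC.LE

/-!
# Uniform Hölder continuity of the interface with probability close to one
-/

set_option autoImplicit false

noncomputable section

namespace DimLim

open MeasureTheory Filter Topology FKI FKP FKN

theorem pr_false (E : Finset Edge) : Pr E (fun _ => False) = 0 := by
  classical
  rw [pproba_eq, Finset.filter_false]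
  simp

/-- Every discrete curve is Hölder continuous. -/
theorem hold_disc {A B : ℝ} (hA : 0 < A) (hB : 0 < B) {δ : ℝ} (hδ : 0 < δ) {α : ℝ} (hα : 0 < α) (hα1 : α ≤ 1) :
    ∃ C : ℝ, 0 ≤ C ∧ ∀ ω, ω ⊆ box 0 (⌊A / δ⌋₊ : ℤ) 0 (⌊B / δ⌋₊ : ℤ) →
      HoldC α C (SeparationQuotient.mk (icurve hA.le hB.le δ ⌊A / δ⌋₊ ⌊B / δ⌋₊ ω)) := by
  classical
  refine ⟨∑ ω ∈ (box 0 (⌊A / δ⌋₊ : ℤ) 0 (⌊B / δ⌋₊ : ℤ)).powerset, δ * steps ⌊A / δ⌋₊ ⌊B / δ⌋₊ ω,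
    Finset.sum_nonneg fun ω _ => by positivity, fun ω hω => ?_⟩
  have h1 : HoldC 1 (δ * steps ⌊A / δ⌋₊ ⌊B / δ⌋₊ ω)
      (SeparationQuotient.mk (icurve hA.le hB.le δ ⌊A / δ⌋₊ ⌊B / δ⌋₊ ω)) := by
    refine ⟨_, rfl, fun s t => ?_⟩
    rw [Real.rpow_one]
    exact icurve_lip hA.le hB.le hδ _ _ ω s t
  refine hold_mono h1 hα hα1 ?_ (Finset.sum_nonneg fun ω _ => by positivity)
  exact Finset.single_le_sum (f := fun ω => δ * (steps ⌊A / δ⌋₊ ⌊B / δ⌋₊ ω : ℝ)) (fun ω _ => by positivity)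
    (Finset.mem_powerset.2 hω)

theorem hold_unif (hU : HypU Trc) (hT : HypT) {A B : ℝ} (hA : 0 < A) (hB : 0 < B)
    [MeasurableSpace (Curve (Rect A B))] [BorelSpace (Curve (Rect A B))]
    {δ : ℕ → ℝ} (hδ : ∀ k, 0 < δ k) (hδ0 : Tendsto δ atTop (𝓝 0)) {α ε : ℝ} (hα : 0 < α) (hα1 : α < 4 / 7) (hε : 0 < ε) :
    ∃ C : ℝ, ∀ k, (claw hA.le hB.le (δ k) : Measure (Curve (Rect A B))) {c | HoldC α C c}ᶜ ≤ ENNReal.ofReal ε := by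
  have hinv : 7 / 4 < 1 / α := by
    rw [lt_div_iff₀ hα]
    linarith
  obtain ⟨s, hsd⟩ : ∃ s : ℝ, s = (7 / 4 + 1 / α) / 2 := ⟨_, rfl⟩
  have hs : 7 / 4 < s := by rw [hsd]; linarith
  have hs1 : s < 1 / α := by rw [hsd]; linarith
  have hαs : α * s < 1 := by
    rw [lt_div_iff₀ hα] at hs1
    linarith
  obtain ⟨C0, δ0, hC0, hδ00, h1⟩ := all_scales hU hT hA hB hs hε
  obtain ⟨C1, h2⟩ := hold_of_part (E := Rect A B) (s := s) (D := 2) (C0 := C0) (α := α) (by linarith) (by norm_num) hC0 hα hαs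
  obtain ⟨k0, hk0⟩ := eventually_atTop.1 (hδ0.eventually (gt_mem_nhds hδ00))
  choose Ck hCk0 hCk using fun k => hold_disc hA hB (hδ k) hα (by linarith : α ≤ 1)
  obtain ⟨S, hSd⟩ : ∃ S : ℝ, S = ∑ k ∈ Finset.range k0, Ck k := ⟨_, rfl⟩
  have hS0 : 0 ≤ S := by
    rw [hSd]
    exact Finset.sum_nonneg fun k _ => hCk0 k
  refine ⟨|C1| + S, fun k => ?_⟩
  have hC0' : 0 ≤ |C1| + S := by positivity
  have e1 : (claw hA.le hB.le (δ k) : Measure (Curve (Rect A B))) {c | HoldC α (|C1| + S) c}ᶜ =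
      ENNReal.ofReal (Pr (box 0 (⌊A / δ k⌋₊ : ℤ) 0 (⌊B / δ k⌋₊ : ℤ)) (fun ω => (SeparationQuotient.mk
        (icurve hA.le hB.le (δ k) ⌊A / δ k⌋₊ ⌊B / δ k⌋₊ ω) : Curve (Rect A B)) ∈ {c | HoldC α (|C1| + S) c}ᶜ)) :=
    lawM_apply _ _ _
  rw [e1]
  refine ENNReal.ofReal_le_ofReal ?_
  rcases le_or_gt k0 k with hk | hk
  · have h5 : Pr (box 0 (⌊A / δ k⌋₊ : ℤ) 0 (⌊B / δ k⌋₊ : ℤ)) (fun ω => (SeparationQuotient.mk
        (icurve hA.le hB.le (δ k) ⌊A / δ k⌋₊ ⌊B / δ k⌋₊ ω) : Curve (Rect A B)) ∈ {c | HoldC α (|C1| + S) c}ᶜ) ≤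
        Pr (box 0 (⌊A / δ k⌋₊ : ℤ) 0 (⌊B / δ k⌋₊ : ℤ)) (fun ω => ¬ HasPart s 2 C0
          (icurve hA.le hB.le (δ k) ⌊A / δ k⌋₊ ⌊B / δ k⌋₊ ω)) := by
      refine Pr_mono fun ω _ hω hp => hω ?_
      have h6 := h2 _ hp
      exact hold_mono h6 hα le_rfl ((le_abs_self C1).trans (by linarith)) hC0'
    exact h5.trans (h1 (δ k) (hδ k) (hk0 k hk))
  · have h5 : Pr (box 0 (⌊A / δ k⌋₊ : ℤ) 0 (⌊B / δ k⌋₊ : ℤ)) (fun ω => (SeparationQuotient.mk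
        (icurve hA.le hB.le (δ k) ⌊A / δ k⌋₊ ⌊B / δ k⌋₊ ω) : Curve (Rect A B)) ∈ {c | HoldC α (|C1| + S) c}ᶜ) ≤
        Pr (box 0 (⌊A / δ k⌋₊ : ℤ) 0 (⌊B / δ k⌋₊ : ℤ)) (fun _ => False) := by
      refine Pr_mono fun ω hω hn => hn ?_
      have h3 : Ck k ≤ S := by
        rw [hSd]
        exact Finset.single_le_sum (fun i _ => hCk0 i) (Finset.mem_range.2 hk)
      exact hold_mono (hCk k ω hω) hα le_rfl (by linarith [abs_nonneg C1]) hC0'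
    rw [pr_false] at h5
    exact h5.trans hε.le

end DimLim
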