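import Pool.Agent.Lib.MP_216314_pr.IC.H0

/-!
LA (medium): the Hölder classes are compact.

PROOF. The set `S` of the `f : C(unitInterval, E)` with `∀ s t, dist (f s) (f t) ≤ C * |s - t| ^ α` is compact: Arzelà-Ascoli, for instance `BoundedContinuousFunction.arzela_ascoli₁` transported by
`ContinuousMap.equivBoundedOfCompact` / `ContinuousMap.isometryEquivBoundedOfCompact` (or `ContinuousMap.isCompact_..`, `ArzelaAscoli.isCompact_closure_of_isClosedEmbedding`): `S` is closed (pointwise conditions, `isClosed_le`,
`ContinuousMap.continuous_eval_const`), equicontinuous (`C * x ^ α → 0` for `x → 0`, `0 < α`), `E` is compact. The map `C(unitInterval, E) → Curve E`, `f ↦ mk ⟨f⟩`, is continuous: it does not increase the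
distances (`pc_le` with `OrderIso.refl`: `dist ⟨f⟩ ⟨g⟩ ≤ dist f g`, and `SeparationQuotient.mk` is continuous), and the class is the image of `S`.
-/

set_option autoImplicit false

noncomputable section

namespace DimLim

theorem compact_hold {E : Type*} [MetricSpace E] [CompactSpace E] {α : ℝ} (hα : 0 < α) (C : ℝ) :
    IsCompact {c : Curve E | HoldC α C c} := by
  classical
  obtain ⟨A, hA⟩ : ∃ A : Set (BoundedContinuousFunction unitInterval E),
      A = {f | ∀ s t : unitInterval, dist (f s) (f t) ≤ C * |(s : ℝ) - t| ^ α} := ⟨_, rfl⟩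
  have hcl : IsClosed A := by
    have e : A = ⋂ s : unitInterval, ⋂ t : unitInterval,
        {f : BoundedContinuousFunction unitInterval E | dist (f s) (f t) ≤ C * |(s : ℝ) - t| ^ α} := by
      rw [hA]
      ext f
      simp only [Set.mem_ofPred_eq, Set.mem_iInter]
    rw [e]
    refine isClosed_iInter fun s => isClosed_iInter fun t => ?_
    exact isClosed_le ((BoundedContinuousFunction.lipschitz_eval_const s).continuous.dist
      (BoundedContinuousFunction.lipschitz_eval_const t).continuous) continuous_const
  have heq : Equicontinuous ((↑) : A → unitInterval → E) := by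
    refine Metric.equicontinuous_of_continuity_modulus (fun x : ℝ => C * |x| ^ α) ?_ _ ?_
    · have h1 : Continuous fun x : ℝ => C * |x| ^ α :=
        (continuous_abs.rpow_const fun _ => Or.inr hα.le).const_mul C
      have h2 := h1.tendsto 0
      rw [abs_zero, Real.zero_rpow hα.ne', mul_zero] at h2
      exact h2
    · rintro s t ⟨f, hf⟩
      rw [hA] at hf
      have h3 := hf s t
      show dist (f s) (f t) ≤ C * |dist s t| ^ α
      rw [Subtype.dist_eq, Real.dist_eq, abs_abs]
      exact h3
  have hcomp := BoundedContinuousFunction.arzela_ascoli₁ A hcl heq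
  obtain ⟨G, hG⟩ : ∃ G : BoundedContinuousFunction unitInterval E → Curve E,
      ∀ f, G f = SeparationQuotient.mk ⟨f.toContinuousMap⟩ := ⟨_, fun _ => rfl⟩
  have hGc : Continuous G := by
    refine (LipschitzWith.of_dist_le_mul (K := 1) fun f g => ?_).continuous
    rw [NNReal.coe_one, one_mul, hG, hG, SeparationQuotient.dist_mk]
    have h1 := pc_le (⟨f.toContinuousMap⟩ : PCurve E) ⟨g.toContinuousMap⟩ (OrderIso.refl unitInterval)
    have h2 : (⟨g.toContinuousMap⟩ : PCurve E).rep (OrderIso.refl unitInterval) = g.toContinuousMap := by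
      ext t
      rfl
    rw [h2] at h1
    refine h1.trans ?_
    rw [ContinuousMap.dist_le dist_nonneg]
    exact fun t => BoundedContinuousFunction.dist_coe_le_dist t
  have himg : G '' A = {c : Curve E | HoldC α C c} := by
    ext c
    constructor
    · rintro ⟨f, hf, rfl⟩
      rw [hA] at hf
      exact ⟨⟨f.toContinuousMap⟩, (hG f).symm, fun s t => hf s t⟩
    · rintro ⟨f, hf, h⟩
      refine ⟨BoundedContinuousFunction.mkOfCompact f.fn, ?_, ?_⟩
      · rw [hA]
        exact fun s t => h s t
      · rw [hG, ← hf]
        rfl
  rw [← himg]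
  exact hcomp.image hGc

end DimLim
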