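import Pool.Agent.Lib.MP_216314_pr.IC.H0

/-!
LB (medium-): the space of curves is second countable.

PROOF. `C(unitInterval, E)` is second countable for `E` compact metric (an instance: `ContinuousMap.instSecondCountableTopology` or `ContinuousMap.instSeparableSpace`, in Mathlib/Topology/CompactOpen.lean or
Mathlib/Topology/ContinuousMap/SecondCountableSpace.lean), so it is separable; the map `f ↦ mk ⟨f⟩` to `Curve E` is continuous (it does not increase the distances, `pc_le` with `OrderIso.refl`) and surjective, so `Curve E` is
separable (`DenseRange.separableSpace`, `Function.Surjective.denseRange`), and a separable metric space is second countable (`UniformSpace.secondCountable_of_separable`).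
-/

set_option autoImplicit false

noncomputable section

namespace DimLim

theorem curve_sc (E : Type*) [MetricSpace E] [CompactSpace E] : SecondCountableTopology (Curve E) := by
  have h2 : TopologicalSpace.SeparableSpace C(unitInterval, E) := inferInstance
  obtain ⟨m, hm⟩ : ∃ m : C(unitInterval, E) → Curve E,
      m = fun f => SeparationQuotient.mk (⟨f⟩ : PCurve E) := ⟨_, rfl⟩
  have h3 : Continuous (fun f : C(unitInterval, E) => (⟨f⟩ : PCurve E)) := by
    refine (LipschitzWith.of_dist_le_mul (K := 1) fun f g => ?_).continuous
    rw [NNReal.coe_one, one_mul]
    have h4 := pc_le (⟨f⟩ : PCurve E) ⟨g⟩ (OrderIso.refl unitInterval)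
    have h5 : (⟨g⟩ : PCurve E).rep (OrderIso.refl unitInterval) = g := by
      ext t
      rfl
    rw [h5] at h4
    exact h4
  have hc : Continuous m := by
    rw [hm]
    exact SeparationQuotient.continuous_mk.comp h3
  have hs : Function.Surjective m := by
    intro c
    obtain ⟨f, rfl⟩ := SeparationQuotient.surjective_mk c
    exact ⟨f.fn, by rw [hm]⟩
  have h6 : TopologicalSpace.SeparableSpace (Curve E) := hs.denseRange.separableSpace hc
  exact UniformSpace.secondCountable_of_separable (Curve E)

end DimLim
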