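import Mathlib

/-!
LC (medium, Mathlib only): a tight sequence of probability measures on a separable metric space has a convergent subsequence.

PROOF. Choose compact sets `K n` with `μs k (K n)ᶜ ≤ 2 ^ (-n)` for all `k`. The set of the probability measures with these inequalities is compact: Mathlib/MeasureTheory/Measure/Prokhorov.lean (for example
`isCompact_setOf_probabilityMeasure_mass_eq_compl_isCompact_le`, see the names in that file; `ProbabilityMeasure X` on a `T2`, normal or metric space). `ProbabilityMeasure X` is metrizable for a separable metric space (Lévy-Prokhorov,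
Mathlib/MeasureTheory/Measure/LevyProkhorovMetric.lean: `levyProkhorov_..homeomorph..`, an instance `PseudoMetrizableSpace (ProbabilityMeasure X)`), so compact sets are sequentially compact (`IsCompact.isSeqCompact`,
first countable) and `IsSeqCompact.subseq_of_frequently_in` / `IsCompact.tendsto_subseq` gives the subsequence.
-/

set_option autoImplicit false

noncomputable section

namespace DimLim

open MeasureTheory Filter Topology

theorem tight_subseq {X : Type*} [MetricSpace X] [SecondCountableTopology X] [MeasurableSpace X] [BorelSpace X]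
    (μs : ℕ → ProbabilityMeasure X)
    (h : ∀ ε : ℝ, 0 < ε → ∃ K : Set X, IsCompact K ∧ ∀ k, (μs k : Measure X) Kᶜ ≤ ENNReal.ofReal ε) :
    ∃ (μ : ProbabilityMeasure X) (ψ : ℕ → ℕ), StrictMono ψ ∧ Tendsto (fun k => μs (ψ k)) atTop (𝓝 μ) := by
  have htight : IsTightMeasureSet {((μ : ProbabilityMeasure X) : Measure X) | μ ∈ Set.range μs} := by
    rw [isTightMeasureSet_iff_exists_isCompact_measure_compl_le]
    intro ε hε
    obtain ⟨d, hd, hdε⟩ : ∃ d : ℝ, 0 < d ∧ ENNReal.ofReal d ≤ ε := by
      by_cases h0 : ε = ⊤
      · exact ⟨1, one_pos, by rw [h0]; exact le_top⟩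
      · exact ⟨ε.toReal, ENNReal.toReal_pos hε.ne' h0, by rw [ENNReal.ofReal_toReal h0]⟩
    obtain ⟨K, hK, hKm⟩ := h d hd
    refine ⟨K, hK, ?_⟩
    rintro _ ⟨μ, ⟨k, rfl⟩, rfl⟩
    exact (hKm k).trans hdε
  have hcomp : IsCompact (closure (Set.range μs)) := isCompact_closure_of_isTightMeasureSet htight
  obtain ⟨μ, -, ψ, hψ, hlim⟩ := hcomp.tendsto_subseq (x := μs)
    (fun n => subset_closure (Set.mem_range_self n))
  exact ⟨μ, ψ, hψ, hlim⟩

end DimLim
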