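import Mathlib

/-!
LD (easy+, Mathlib only): closed sets of almost full measure for a limit.

PROOF. For `ε > 0` and `n` as in `h`: `(F n)ᶜ` is open, so `μ (F n)ᶜ ≤ liminf (μs k (F n)ᶜ) ≤ ENNReal.ofReal ε` (`ProbabilityMeasure.le_liminf_measure_open_of_tendsto`). The set of the `x` with
`∀ n, x ∉ F n` is contained in all the `(F n)ᶜ`, so its measure is `0`.
-/

set_option autoImplicit false

noncomputable section

namespace DimLim

open MeasureTheory Filter Topology

theorem ae_of_limit {X : Type*} [MetricSpace X] [MeasurableSpace X] [BorelSpace X]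
    {μs : ℕ → ProbabilityMeasure X} {μ : ProbabilityMeasure X} (hμ : Tendsto μs atTop (𝓝 μ)) {ι : Type*}
    (F : ι → Set X) (hF : ∀ n, IsClosed (F n))
    (h : ∀ ε : ℝ, 0 < ε → ∃ n, ∀ᶠ k in atTop, (μs k : Measure X) (F n)ᶜ ≤ ENNReal.ofReal ε) :
    ∀ᵐ x ∂(μ : Measure X), ∃ n, x ∈ F n := by
  rw [ae_iff]
  have hle : ∀ ε : ℝ, 0 < ε → (μ : Measure X) {x | ¬ ∃ n, x ∈ F n} ≤ ENNReal.ofReal ε := by
    intro ε hε
    obtain ⟨n, hn⟩ := h ε hε
    have hsub : {x | ¬ ∃ n, x ∈ F n} ⊆ (F n)ᶜ := by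
      intro x hx hxn
      exact hx ⟨n, hxn⟩
    refine (measure_mono hsub).trans ?_
    have h1 := ProbabilityMeasure.le_liminf_measure_open_of_tendsto hμ (hF n).isOpen_compl
    refine h1.trans ?_
    refine (liminf_le_liminf hn).trans ?_
    exact (liminf_const _).le
  refine le_antisymm ?_ bot_le
  refine ENNReal.le_of_forall_pos_le_add ?_
  intro ε hε _
  have h2 := hle (ε : ℝ) (by exact_mod_cast hε)
  rw [ENNReal.ofReal_coe_nnreal] at h2
  rw [zero_add]
  exact h2

end DimLim
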