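import Pool.Agent.Lib.MP_216314_pr.IC.IF

/-!
# Limits of the laws of the curves and limits of the laws of the traces
-/

set_option autoImplicit false

noncomputable section

namespace DimLim

open MeasureTheory Filter Topology Set ENNReal NNReal TopologicalSpace Metric FKI FKP FKN

theorem lawM_integral {X : Type*} [MeasurableSpace X] [MeasurableSingletonClass X] (E : Finset Edge)
    (f : Finset Edge → X) (g : X → ℝ) :
    ∫ x, g x ∂(lawM E f) = (2 ^ E.card : ℝ)⁻¹ * ∑ ω ∈ E.powerset, g (f ω) := by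
  unfold lawM
  rw [integral_smul_measure, integral_finsetSum_measure (fun ω _ => integrable_dirac (by simp))]
  simp only [integral_dirac, smul_eq_mul]
  congr 1
  rw [ENNReal.toReal_inv, ENNReal.toReal_pow]
  rfl

/-- the law as a probability measure -/
def lawP {X : Type*} [MeasurableSpace X] (E : Finset Edge) (f : Finset Edge → X) : ProbabilityMeasure X :=
  ⟨lawM E f, lawM_prob E f⟩

/-- Two random points of a compact space whose distance tends to zero have the same limit in law. -/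
theorem law_close {M : Type*} [MetricSpace M] [CompactSpace M] [MeasurableSpace M] [BorelSpace M]
    {E : ℕ → Finset Edge} {X Y : ℕ → Finset Edge → M} {ε : ℕ → ℝ} (hε : Tendsto ε atTop (𝓝 0))
    (hd : ∀ k, ∀ ω ∈ (E k).powerset, dist (X k ω) (Y k ω) ≤ ε k) {ν : ProbabilityMeasure M}
    (h : Tendsto (fun k => lawP (E k) (X k)) atTop (𝓝 ν)) : Tendsto (fun k => lawP (E k) (Y k)) atTop (𝓝 ν) := by
  rw [ProbabilityMeasure.tendsto_iff_forall_integral_tendsto] at h ⊢
  intro f
  have h1 := h f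
  have h2 : Tendsto (fun k => ∫ x, f x ∂(lawM (E k) (Y k)) - ∫ x, f x ∂(lawM (E k) (X k))) atTop (𝓝 0) := by
    rw [Metric.tendsto_nhds]
    intro η hη
    obtain ⟨r, hr, hf⟩ := Metric.uniformContinuous_iff.1
      (CompactSpace.uniformContinuous_of_continuous f.continuous) (η / 2) (by linarith)
    filter_upwards [hε.eventually (gt_mem_nhds hr)] with k hk
    rw [lawM_integral, lawM_integral, ← mul_sub, ← Finset.sum_sub_distrib, dist_zero_right, norm_mul, norm_inv,
      norm_pow, Real.norm_ofNat]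
    have h3 : ‖∑ ω ∈ (E k).powerset, (f (Y k ω) - f (X k ω))‖ ≤ ∑ ω ∈ (E k).powerset, η / 2 := by
      refine norm_sum_le_of_le _ fun ω hω => ?_
      rw [← dist_eq_norm, dist_comm]
      exact (hf (lt_of_le_of_lt (hd k ω hω) hk)).le
    rw [Finset.sum_const, Finset.card_powerset, nsmul_eq_mul, Nat.cast_pow, Nat.cast_ofNat] at h3
    have h4 : (0 : ℝ) < 2 ^ (E k).card := by positivity
    calc (2 ^ (E k).card : ℝ)⁻¹ * ‖∑ ω ∈ (E k).powerset, (f (Y k ω) - f (X k ω))‖
        ≤ (2 ^ (E k).card : ℝ)⁻¹ * (2 ^ (E k).card * (η / 2)) := by gcongr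
      _ = η / 2 := by field_simp
      _ < η := by linarith
  have h5 := h1.add h2
  rw [add_zero] at h5
  refine h5.congr fun k => ?_
  show ∫ x, f x ∂(lawM (E k) (X k)) + (∫ x, f x ∂(lawM (E k) (Y k)) - ∫ x, f x ∂(lawM (E k) (X k))) =
    ∫ x, f x ∂(lawM (E k) (Y k))
  ring

theorem lawM_map {X Y : Type*} [MeasurableSpace X] [MeasurableSingletonClass X] [MeasurableSpace Y]
    [MeasurableSingletonClass Y] (E : Finset Edge) (f : Finset Edge → X) {g : X → Y} (hg : Measurable g) :
    (lawM E f).map g = lawM E (fun ω => g (f ω)) := by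
  refine Measure.ext fun s hs => ?_
  rw [Measure.map_apply hg hs, lawM_apply, lawM_apply]
  rfl

/-- If the laws of the curves converge, then the laws of the compact sets `K_δ` converge to the law of the trace of the limit. -/
theorem law_of_claw {A B : ℝ} (hA : 0 ≤ A) (hB : 0 ≤ B)
    [MeasurableSpace (NonemptyCompacts (Rect A B))] [BorelSpace (NonemptyCompacts (Rect A B))]
    [MeasurableSpace (Curve (Rect A B))] [BorelSpace (Curve (Rect A B))]
    {δ : ℕ → ℝ} (hδ : ∀ k, 0 < δ k) (hδ0 : Tendsto δ atTop (𝓝 0)) {μ : ProbabilityMeasure (Curve (Rect A B))}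
    (h : Tendsto (fun k => claw hA hB (δ k)) atTop (𝓝 μ)) :
    Tendsto (fun k => law hA hB Trc (δ k)) atTop (𝓝 (μ.map tr_cont.measurable.aemeasurable)) := by
  have h1 := ProbabilityMeasure.tendsto_map_of_tendsto_of_continuous _ _ h (tr_cont (E := Rect A B))
  refine law_close (E := fun k => box 0 (⌊A / δ k⌋₊ : ℤ) 0 (⌊B / δ k⌋₊ : ℤ))
    (X := fun k ω => tr0 (icurve hA hB (δ k) ⌊A / δ k⌋₊ ⌊B / δ k⌋₊ ω)) hδ0
    (fun k ω hω => icurve_near hA hB (hδ k) (Finset.mem_powerset.1 hω)) (h1.congr fun k => ?_)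
  refine Subtype.ext ?_
  show (lawM (box 0 (⌊A / δ k⌋₊ : ℤ) 0 (⌊B / δ k⌋₊ : ℤ))
    (fun ω => SeparationQuotient.mk (icurve hA hB (δ k) ⌊A / δ k⌋₊ ⌊B / δ k⌋₊ ω))).map tr = _
  rw [lawM_map _ _ tr_cont.measurable]
  rfl

/-- The limits of the laws of the interface as a random curve. -/
theorem curve_dim {A B : ℝ} (hA : 0 ≤ A) (hB : 0 ≤ B)
    [MeasurableSpace (NonemptyCompacts (Rect A B))] [BorelSpace (NonemptyCompacts (Rect A B))]
    [MeasurableSpace (Curve (Rect A B))] [BorelSpace (Curve (Rect A B))]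
    {δ : ℕ → ℝ} (hδ : ∀ k, 0 < δ k) (hδ0 : Tendsto δ atTop (𝓝 0)) {μ : ProbabilityMeasure (Curve (Rect A B))}
    (h : Tendsto (fun k => claw hA hB (δ k)) atTop (𝓝 μ)) {D : ℝ≥0∞}
    (hD : ∀ ν : ProbabilityMeasure (NonemptyCompacts (Rect A B)),
      Tendsto (fun k => law hA hB Trc (δ k)) atTop (𝓝 ν) →
        ∀ᵐ (K : NonemptyCompacts (Rect A B)) ∂(ν : Measure (NonemptyCompacts (Rect A B))),
          dimH (K : Set (Rect A B)) = D) :
    ∀ᵐ (c : Curve (Rect A B)) ∂(μ : Measure (Curve (Rect A B))), dimH (trace c) = D := by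
  have h1 := hD _ (law_of_claw hA hB hδ hδ0 h)
  have h2 : ∀ᵐ (K : NonemptyCompacts (Rect A B)) ∂((μ : Measure (Curve (Rect A B))).map tr),
      dimH (K : Set (Rect A B)) = D := h1
  have h3 := ae_of_ae_map tr_cont.measurable.aemeasurable h2
  filter_upwards [h3] with c hc
  rw [trace_eq]
  exact hc

end DimLim
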