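import Pool.Agent.Lib.MP_216314_pr.IC.C8
import Pool.Agent.Lib.MP_216314_pr.IC.LA
import Pool.Agent.Lib.MP_216314_pr.IC.LB
import Pool.Agent.Lib.MP_216314_pr.IC.LC
import Pool.Agent.Lib.MP_216314_pr.IC.LD
import Pool.Agent.Lib.MP_216314_pr.IC.LW

/-!
# The limits of the interface as random curves
-/

set_option autoImplicit false

noncomputable section

namespace DimLim

open MeasureTheory Filter Topology TopologicalSpace FKI FKP FKN ENNReal

theorem claw_limit (hU : HypU Trc) (hT : HypT) {A B : ℝ} (hA : 0 < A) (hB : 0 < B)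
    [MeasurableSpace (Curve (Rect A B))] [BorelSpace (Curve (Rect A B))]
    {δ : ℕ → ℝ} (hδ : ∀ k, 0 < δ k) (hδ0 : Tendsto δ atTop (𝓝 0)) :
    ∃ (μ : ProbabilityMeasure (Curve (Rect A B))) (ψ : ℕ → ℕ), StrictMono ψ ∧
      Tendsto (fun k => claw hA.le hB.le (δ (ψ k))) atTop (𝓝 μ) := by
  have := curve_sc (Rect A B)
  refine tight_subseq (fun k => claw hA.le hB.le (δ k)) fun ε hε => ?_
  obtain ⟨C, hC⟩ := hold_unif hU hT hA hB hδ hδ0 (α := 1 / 2) (by norm_num) (by norm_num) hε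
  exact ⟨_, compact_hold (by norm_num) C, hC⟩

/-- Almost every curve of a limit is Hölder continuous with all the exponents less than `4 / 7`. -/
theorem claw_hold (hU : HypU Trc) (hT : HypT) {A B : ℝ} (hA : 0 < A) (hB : 0 < B)
    [MeasurableSpace (Curve (Rect A B))] [BorelSpace (Curve (Rect A B))]
    {δ : ℕ → ℝ} (hδ : ∀ k, 0 < δ k) (hδ0 : Tendsto δ atTop (𝓝 0)) {μ : ProbabilityMeasure (Curve (Rect A B))}
    (hμ : Tendsto (fun k => claw hA.le hB.le (δ k)) atTop (𝓝 μ)) :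
    ∀ᵐ c ∂(μ : Measure (Curve (Rect A B))), ∀ α : ℝ, 0 < α → α < 4 / 7 → ∃ C : ℝ, HoldC α C c := by
  have h1 : ∀ n : ℕ, ∀ᵐ c ∂(μ : Measure (Curve (Rect A B))), ∃ C : ℝ, HoldC (4 / 7 - 1 / ((n : ℝ) + 2)) C c := by
    intro n
    have hn : (0 : ℝ) < 1 / ((n : ℝ) + 2) := by positivity
    have hn2 : 1 / ((n : ℝ) + 2) ≤ 1 / 2 := by
      apply one_div_le_one_div_of_le (by norm_num)
      have : (0 : ℝ) ≤ n := Nat.cast_nonneg n
      linarith
    have hα : 0 < 4 / 7 - 1 / ((n : ℝ) + 2) := by linarith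
    exact ae_of_limit hμ (fun C : ℝ => {c | HoldC (4 / 7 - 1 / ((n : ℝ) + 2)) C c})
      (fun C => (compact_hold hα C).isClosed) fun ε hε => by
        obtain ⟨C, hC⟩ := hold_unif hU hT hA hB hδ hδ0 hα (by linarith) hε
        exact ⟨C, Eventually.of_forall hC⟩
  filter_upwards [ae_all_iff.2 h1] with c hc α hα hα1
  obtain ⟨n, hn⟩ := exists_nat_one_div_lt (show 0 < 4 / 7 - α by linarith)
  obtain ⟨C, hC⟩ := hc n
  refine ⟨max C 0, hold_mono hC hα ?_ (le_max_left _ _) (le_max_right _ _)⟩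
  have h2 : 1 / ((n : ℝ) + 2) ≤ 1 / ((n : ℝ) + 1) :=
    one_div_le_one_div_of_le (by positivity) (by linarith)
  linarith

end DimLim
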