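import Mathlib

/-!
# The space of curves modulo increasing reparametrisation

`PCurve E`: parametrised curves in the metric space `E`, with the pseudometric `inf_φ sup_t d (f t, g (φ t))`, `φ` an increasing
homeomorphism of `[0,1]`. `Curve E`: its metric quotient, the space of curves modulo increasing reparametrisation with the uniform metric.
-/

set_option autoImplicit false

noncomputable section

namespace DimLim

open Filter Topology Set TopologicalSpace Metric

/-- A parametrised curve in `E`: a continuous function on `[0,1]`. -/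
structure PCurve (E : Type*) [MetricSpace E] where
  fn : C(unitInterval, E)

variable {E : Type*} [MetricSpace E]

/-- The function `f ∘ φ`, `φ` an increasing bijection of `[0,1]`. -/
def PCurve.rep (f : PCurve E) (φ : unitInterval ≃o unitInterval) : C(unitInterval, E) :=
  f.fn.comp ⟨φ, φ.continuous⟩

/-- The uniform distance modulo increasing reparametrisation. -/
instance : Dist (PCurve E) :=
  ⟨fun f g => ⨅ φ : unitInterval ≃o unitInterval, dist f.fn (g.rep φ)⟩

theorem pc_dist (f g : PCurve E) : dist f g = ⨅ φ : unitInterval ≃o unitInterval, dist f.fn (g.rep φ) := rfl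

theorem pc_bdd (f g : PCurve E) : BddBelow (range fun φ : unitInterval ≃o unitInterval => dist f.fn (g.rep φ)) :=
  ⟨0, by
    rintro _ ⟨φ, rfl⟩
    exact dist_nonneg⟩

theorem pc_le (f g : PCurve E) (φ : unitInterval ≃o unitInterval) : dist f g ≤ dist f.fn (g.rep φ) :=
  ciInf_le (pc_bdd f g) φ

theorem pc_nonneg (f g : PCurve E) : 0 ≤ dist f g := Real.iInf_nonneg fun _ => dist_nonneg

theorem pc_lt {f g : PCurve E} {ε : ℝ} (h : dist f g < ε) :
    ∃ φ : unitInterval ≃o unitInterval, dist f.fn (g.rep φ) < ε := exists_lt_of_ciInf_lt h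

/-- The uniform distance does not change under a common reparametrisation. -/
theorem pc_comp (u v : C(unitInterval, E)) (φ : unitInterval ≃o unitInterval) :
    dist (u.comp ⟨φ, φ.continuous⟩) (v.comp ⟨φ, φ.continuous⟩) ≤ dist u v :=
  (ContinuousMap.dist_le dist_nonneg).2 fun t => ContinuousMap.dist_apply_le_dist (φ t)

theorem pc_self (f : PCurve E) : dist f f = 0 := by
  refine le_antisymm ?_ (pc_nonneg f f)
  have h1 := pc_le f f (OrderIso.refl unitInterval)
  have h2 : f.rep (OrderIso.refl unitInterval) = f.fn := by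
    ext t
    rfl
  rw [h2, dist_self] at h1
  exact h1

private theorem pc_comm_le (f g : PCurve E) : dist g f ≤ dist f g := by
  refine le_ciInf fun φ => ?_
  have h1 := pc_comp f.fn (g.rep φ) φ.symm
  have h2 : (g.rep φ).comp ⟨φ.symm, φ.symm.continuous⟩ = g.fn := by
    ext t
    show g.fn (φ (φ.symm t)) = g.fn t
    rw [OrderIso.apply_symm_apply]
  rw [h2, dist_comm] at h1
  exact (pc_le g f φ.symm).trans h1

theorem pc_comm (f g : PCurve E) : dist f g = dist g f := le_antisymm (pc_comm_le g f) (pc_comm_le f g)

theorem pc_triangle (f g h : PCurve E) : dist f h ≤ dist f g + dist g h := by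
  refine le_of_forall_pos_lt_add fun ε hε => ?_
  obtain ⟨φ, hφ⟩ := pc_lt (f := f) (g := g) (ε := dist f g + ε / 2) (by linarith)
  obtain ⟨χ, hχ⟩ := pc_lt (f := g) (g := h) (ε := dist g h + ε / 2) (by linarith)
  have h1 := pc_comp g.fn (h.rep χ) φ
  have h2 : (h.rep χ).comp ⟨φ, φ.continuous⟩ = h.rep (φ.trans χ) := by
    ext t
    rfl
  have h3 := pc_le f h (φ.trans χ)
  have h4 := dist_triangle f.fn (g.rep φ) (h.rep (φ.trans χ))
  rw [← h2] at h4 h3
  have h5 : dist (g.rep φ) ((h.rep χ).comp ⟨φ, φ.continuous⟩) ≤ dist g.fn (h.rep χ) := h1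
  linarith

instance : PseudoMetricSpace (PCurve E) where
  dist_self := pc_self
  dist_comm := pc_comm
  dist_triangle := pc_triangle

/-- The space of curves in `E` modulo increasing reparametrisation, with the uniform metric. -/
abbrev Curve (E : Type*) [MetricSpace E] : Type _ := SeparationQuotient (PCurve E)

/-- The trace of a curve. -/
def trace (c : Curve E) : Set E := {x | ∃ f : PCurve E, SeparationQuotient.mk f = c ∧ x ∈ range f.fn}

/-- The trace of a parametrised curve as a compact set. -/
def tr0 (f : PCurve E) : NonemptyCompacts E :=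
  ⟨⟨range f.fn, isCompact_range f.fn.continuous⟩, range_nonempty _⟩

theorem tr0_lip (f g : PCurve E) : dist (tr0 f) (tr0 g) ≤ dist f g := by
  have key : ∀ f g : PCurve E, ∀ ε : ℝ, dist f g < ε → ∀ x ∈ range f.fn, ∃ y ∈ range g.fn, dist x y ≤ ε := by
    rintro f g ε hε _ ⟨t, rfl⟩
    obtain ⟨φ, hφ⟩ := pc_lt hε
    exact ⟨g.fn (φ t), mem_range_self _, (ContinuousMap.dist_apply_le_dist (f := f.fn) (g := g.rep φ) t).trans hφ.le⟩
  refine le_of_forall_pos_lt_add fun ε hε => ?_
  rw [NonemptyCompacts.dist_eq]
  refine lt_of_le_of_lt (hausdorffDist_le_of_mem_dist (r := dist f g + ε / 2) (by have := pc_nonneg f g; linarith)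
    (key f g _ (by linarith)) (key g f _ (by rw [dist_comm g f]; linarith))) (by linarith)

theorem tr0_cont : Continuous (tr0 : PCurve E → NonemptyCompacts E) :=
  (LipschitzWith.of_dist_le_mul (K := 1) fun f g => by
    rw [NNReal.coe_one, one_mul]
    exact tr0_lip f g).continuous

/-- The trace as a compact set. -/
def tr : Curve E → NonemptyCompacts E :=
  SeparationQuotient.lift tr0 fun f g h => by
    have h1 := tr0_lip f g
    rw [Metric.inseparable_iff.1 h] at h1
    exact dist_le_zero.1 h1

theorem tr_mk (f : PCurve E) : tr (SeparationQuotient.mk f) = tr0 f := rfl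

theorem tr_cont : Continuous (tr : Curve E → NonemptyCompacts E) :=
  SeparationQuotient.continuous_lift tr0_cont

theorem trace_eq (c : Curve E) : trace c = (tr c : Set E) := by
  obtain ⟨f, rfl⟩ := SeparationQuotient.surjective_mk c
  ext x
  constructor
  · rintro ⟨g, hg, hx⟩
    rw [← hg]
    exact hx
  · intro hx
    exact ⟨f, rfl, hx⟩

end DimLim
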