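import Pool.Agent.Lib.MP_216314_pr.IC.LW

/-!
# The end points of the limit curves
-/

set_option autoImplicit false

noncomputable section

namespace DimLim

open MeasureTheory Filter Topology Set ENNReal NNReal TopologicalSpace Metric FKI FKP FKN

/-- The curve goes from `x` to `y`. -/
def FromTo {E : Type*} [MetricSpace E] (c : Curve E) (x y : E) : Prop :=
  ∃ f : PCurve E, SeparationQuotient.mk f = c ∧ f.fn 0 = x ∧ f.fn 1 = y

private theorem EP_zero (φ : unitInterval ≃o unitInterval) : φ 0 = 0 := by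
  obtain ⟨s, hs⟩ := φ.surjective 0
  refine le_antisymm ?_ (unitInterval.nonneg')
  calc φ 0 ≤ φ s := φ.monotone unitInterval.nonneg'
    _ = 0 := hs

private theorem EP_one (φ : unitInterval ≃o unitInterval) : φ 1 = 1 := by
  obtain ⟨s, hs⟩ := φ.surjective 1
  refine le_antisymm (unitInterval.le_one') ?_
  calc (1 : unitInterval) = φ s := hs.symm
    _ ≤ φ 1 := φ.monotone unitInterval.le_one'

/-- The end points of a parametrised curve. -/
def ends0 {E : Type*} [MetricSpace E] (f : PCurve E) : E × E := (f.fn 0, f.fn 1)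

theorem ends0_lip {E : Type*} [MetricSpace E] (f g : PCurve E) : dist (ends0 f) (ends0 g) ≤ dist f g := by
  refine le_ciInf fun φ => ?_
  have h0 := ContinuousMap.dist_apply_le_dist (f := f.fn) (g := g.rep φ) 0
  have h1 := ContinuousMap.dist_apply_le_dist (f := f.fn) (g := g.rep φ) 1
  have e0 : g.rep φ 0 = g.fn 0 := by
    show g.fn (φ 0) = g.fn 0
    rw [EP_zero]
  have e1 : g.rep φ 1 = g.fn 1 := by
    show g.fn (φ 1) = g.fn 1
    rw [EP_one]
  rw [e0] at h0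
  rw [e1] at h1
  exact max_le h0 h1

/-- The end points of a curve. -/
def ends {E : Type*} [MetricSpace E] : Curve E → E × E :=
  SeparationQuotient.lift ends0 fun f g h => by
    have h1 := ends0_lip f g
    rw [Metric.inseparable_iff.1 h] at h1
    exact dist_le_zero.1 h1

theorem ends_cont {E : Type*} [MetricSpace E] : Continuous (ends : Curve E → E × E) :=
  SeparationQuotient.continuous_lift (LipschitzWith.of_dist_le_mul (K := 1) fun f g => by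
    rw [NNReal.coe_one, one_mul]
    exact ends0_lip f g).continuous

theorem fromTo_ends {E : Type*} [MetricSpace E] {c : Curve E} {x y : E} (h : ends c = (x, y)) : FromTo c x y := by
  obtain ⟨f, rfl⟩ := SeparationQuotient.surjective_mk c
  have h1 : ends0 f = (x, y) := h
  exact ⟨f, rfl, congrArg Prod.fst h1, congrArg Prod.snd h1⟩

theorem lawM_const {X : Type*} [MeasurableSpace X] (E : Finset Edge) (p : X) : lawM E (fun _ => p) = Measure.dirac p := by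
  unfold lawM
  rw [Finset.sum_const, Finset.card_powerset, ← Nat.cast_smul_eq_nsmul ℝ≥0∞, smul_smul]
  push_cast
  rw [ENNReal.inv_mul_cancel (by positivity) (by simp), one_smul]

theorem icurve_ends {A B : ℝ} (hA : 0 ≤ A) (hB : 0 ≤ B) {δ : ℝ} (hδ : 0 < δ) {ω : Finset Edge}
    (hω : ω ⊆ box 0 (⌊A / δ⌋₊ : ℤ) 0 (⌊B / δ⌋₊ : ℤ)) :
    dist (ends0 (icurve hA hB δ ⌊A / δ⌋₊ ⌊B / δ⌋₊ ω))
      (((⟨A, hA, le_rfl⟩, ⟨0, le_rfl, hB⟩) : Rect A B), ((⟨0, le_rfl, hA⟩, ⟨B, hB, le_rfl⟩) : Rect A B)) ≤ δ := by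
  have hf : ∀ C : ℝ, 0 ≤ C → |δ * ((⌊C / δ⌋₊ : ℕ) : ℝ) - C| ≤ δ := by
    intro C hC
    have h1 := Nat.floor_le (div_nonneg hC hδ.le)
    have h2 := Nat.lt_floor_add_one (C / δ)
    rw [le_div_iff₀ hδ] at h1
    rw [div_lt_iff₀ hδ] at h2
    rw [abs_le]
    constructor <;> nlinarith
  have h0 : vx ⌊A / δ⌋₊ ⌊B / δ⌋₊ ω 0 = ((⌊A / δ⌋₊ : ℤ), 0) := by
    unfold vx vtx
    rw [Function.iterate_zero, id_eq]
    refine Prod.ext ?_ ?_
    · show (2 * (⌊A / δ⌋₊ : ℤ) + 1) / 2 = ⌊A / δ⌋₊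
      omega
    · rfl
  have h1 : vx ⌊A / δ⌋₊ ⌊B / δ⌋₊ ω (steps ⌊A / δ⌋₊ ⌊B / δ⌋₊ ω) = (0, (⌊B / δ⌋₊ : ℤ)) := by
    unfold vx vtx
    rw [(steps_hits hω).1]
    refine Prod.ext ?_ ?_
    · rfl
    · show (2 * (⌊B / δ⌋₊ : ℤ) + 1) / 2 = ⌊B / δ⌋₊
      omega
  have p0 : ∀ (T : ℕ) (x : ℕ → ℝ), pl T x ((0 : unitInterval) : ℝ) = x 0 := by
    intro T x
    rw [pl_eq (i := 0) (Nat.zero_le T) le_rfl zero_le_one (fun _ => rfl) (by simp) x, zero_mul, add_zero]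
  have p1 : ∀ (T : ℕ) (x : ℕ → ℝ), pl T x ((1 : unitInterval) : ℝ) = x T := by
    intro T x
    rw [pl_eq (i := T) le_rfl le_rfl zero_le_one (fun _ => rfl) (by simp) x, zero_mul, add_zero]
  show dist (((Set.projIcc 0 A hA (pl _ _ ((0 : unitInterval) : ℝ)), Set.projIcc 0 B hB (pl _ _ ((0 : unitInterval) : ℝ))) : Rect A B),
    ((Set.projIcc 0 A hA (pl _ _ ((1 : unitInterval) : ℝ)), Set.projIcc 0 B hB (pl _ _ ((1 : unitInterval) : ℝ))) : Rect A B)) _ ≤ δ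
  rw [p0, p0, p1, p1, h0, h1]
  have q : ∀ (C : ℝ) (hC : 0 ≤ C) (x y : ℝ) (hy : y ∈ Set.Icc 0 C), |x - y| ≤ δ →
      dist (Set.projIcc 0 C hC x) (⟨y, hy⟩ : Set.Icc 0 C) ≤ δ := by
    intro C hC x y hy h
    have h2 := (abs_projIcc_sub_projIcc hC (c := x) (d := y)).trans h
    rw [Set.projIcc_of_mem hC hy] at h2
    rw [Subtype.dist_eq, Real.dist_eq]
    exact h2
  refine max_le (max_le (q A hA _ _ _ ?_) (q B hB _ _ _ ?_)) (max_le (q A hA _ _ _ ?_) (q B hB _ _ _ ?_))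
  · exact_mod_cast hf A hA
  · simpa using hδ.le
  · simpa using hδ.le
  · exact_mod_cast hf B hB

/-- Almost every limit curve goes from the lower right corner to the upper left corner. -/
theorem curve_ends {A B : ℝ} (hA : 0 ≤ A) (hB : 0 ≤ B)
    [MeasurableSpace (Curve (Rect A B))] [BorelSpace (Curve (Rect A B))]
    {δ : ℕ → ℝ} (hδ : ∀ k, 0 < δ k) (hδ0 : Tendsto δ atTop (𝓝 0)) {μ : ProbabilityMeasure (Curve (Rect A B))}
    (h : Tendsto (fun k => claw hA hB (δ k)) atTop (𝓝 μ)) :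
    ∀ᵐ (c : Curve (Rect A B)) ∂(μ : Measure (Curve (Rect A B))),
      FromTo c (⟨A, hA, le_rfl⟩, ⟨0, le_rfl, hB⟩) (⟨0, le_rfl, hA⟩, ⟨B, hB, le_rfl⟩) := by
  have h1 := ProbabilityMeasure.tendsto_map_of_tendsto_of_continuous _ _ h (ends_cont (E := Rect A B))
  have h2 := law_close (E := fun k => box 0 (⌊A / δ k⌋₊ : ℤ) 0 (⌊B / δ k⌋₊ : ℤ))
    (X := fun k ω => ends0 (icurve hA hB (δ k) ⌊A / δ k⌋₊ ⌊B / δ k⌋₊ ω))
    (Y := fun _ _ => (((⟨A, hA, le_rfl⟩, ⟨0, le_rfl, hB⟩) : Rect A B), ((⟨0, le_rfl, hA⟩, ⟨B, hB, le_rfl⟩) : Rect A B)))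
    hδ0 (fun k ω hω => icurve_ends hA hB (hδ k) (Finset.mem_powerset.1 hω)) (h1.congr fun k => by
      refine Subtype.ext ?_
      show (lawM (box 0 (⌊A / δ k⌋₊ : ℤ) 0 (⌊B / δ k⌋₊ : ℤ))
        (fun ω => SeparationQuotient.mk (icurve hA hB (δ k) ⌊A / δ k⌋₊ ⌊B / δ k⌋₊ ω))).map ends = _
      rw [lawM_map _ _ ends_cont.measurable]
      rfl)
  obtain ⟨p, hp⟩ : ∃ p : Rect A B × Rect A B, p = (((⟨A, hA, le_rfl⟩, ⟨0, le_rfl, hB⟩) : Rect A B),
    ((⟨0, le_rfl, hA⟩, ⟨B, hB, le_rfl⟩) : Rect A B)) := ⟨_, rfl⟩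
  rw [← hp] at h2
  obtain ⟨dp, hdp⟩ : ∃ dp : ProbabilityMeasure (Rect A B × Rect A B), (dp : Measure (Rect A B × Rect A B)) =
    Measure.dirac p := ⟨⟨Measure.dirac p, inferInstance⟩, rfl⟩
  have h3 : (fun k => lawP (box 0 (⌊A / δ k⌋₊ : ℤ) 0 (⌊B / δ k⌋₊ : ℤ)) (fun _ => p)) = fun _ => dp := by
    funext k
    refine Subtype.ext ?_
    show lawM _ _ = (dp : Measure (Rect A B × Rect A B))
    rw [hdp, lawM_const]
  have h4 : Tendsto (fun _ : ℕ => dp) atTop (𝓝 (μ.map ends_cont.measurable.aemeasurable)) := by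
    rw [← h3]
    exact h2
  have h5 := tendsto_nhds_unique h4 tendsto_const_nhds
  have h6 : (μ : Measure (Curve (Rect A B))).map ends = Measure.dirac p := by
    rw [← hdp, ← h5]
    rfl
  have h7 : ∀ᵐ q ∂((μ : Measure (Curve (Rect A B))).map ends), q = p := by
    rw [h6, ae_dirac_eq]
    exact rfl
  have h8 := ae_of_ae_map ends_cont.measurable.aemeasurable h7
  filter_upwards [h8] with c hc
  rw [hp] at hc
  exact fromTo_ends hc

end DimLim
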