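import Pool.Agent.Lib.MP_216314_pr.IC.D0

/-!
# Hölder classes and partitions of curves: definitions
-/

set_option autoImplicit false

noncomputable section

namespace DimLim

open Filter Topology Set TopologicalSpace Metric

variable {E : Type*} [MetricSpace E]

/-- The curve `c` has a parametrisation which is Hölder continuous with the exponent `α` and the constant `C`. -/
def HoldC (α C : ℝ) (c : Curve E) : Prop :=
  ∃ f : PCurve E, SeparationQuotient.mk f = c ∧
    ∀ s t : unitInterval, dist (f.fn s) (f.fn t) ≤ C * |(s : ℝ) - t| ^ α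

/-- The curve `f` has a partition into `M` pieces of diameter at most `d`. -/
def IsPart (f : PCurve E) (M : ℕ) (d : ℝ) : Prop :=
  0 < M ∧ ∃ τ : ℕ → ℝ, τ 0 = 0 ∧ τ M = 1 ∧ (∀ i < M, τ i < τ (i + 1)) ∧
    ∀ i < M, ∀ u v : unitInterval, τ i ≤ u → u ≤ τ (i + 1) → τ i ≤ v → v ≤ τ (i + 1) →
      dist (f.fn u) (f.fn v) ≤ d

/-- For every `j` there is a partition into at most `C0 2 ^ (s j)` pieces of diameter at most `D 2 ^ (-j)`. -/
def HasPart (s D C0 : ℝ) (f : PCurve E) : Prop :=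
  ∀ j : ℕ, ∃ M : ℕ, (M : ℝ) ≤ C0 * (2 : ℝ) ^ (s * j) ∧ IsPart f M (D * (2⁻¹ : ℝ) ^ j)

end DimLim
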