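import Mathlib

/-!
# Polygonal lines
-/

set_option autoImplicit false

noncomputable section

namespace DimLim

/-- The polygonal line with the values `x 0, …, x T`, parametrised by `[0,1]`: its value at the time `i / T` is `x i`. -/
def pl (T : ℕ) (x : ℕ → ℝ) (s : ℝ) : ℝ :=
  x 0 + ∑ i ∈ Finset.range T, max 0 (min 1 (T * s - i)) * (x (i + 1) - x i)

theorem pl_cont (T : ℕ) (x : ℕ → ℝ) : Continuous (pl T x) := by
  unfold pl
  fun_prop

private theorem pl_one {y : ℝ} (h : 1 ≤ y) : max 0 (min 1 y) = 1 := by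
  rw [min_eq_left h, max_eq_right zero_le_one]

private theorem pl_zero {y : ℝ} (h : y ≤ 0) : max 0 (min 1 y) = 0 := by
  rw [max_eq_left ((min_le_right _ _).trans h)]

private theorem pl_id {y : ℝ} (h0 : 0 ≤ y) (h1 : y ≤ 1) : max 0 (min 1 y) = y := by
  rw [min_eq_right h1, max_eq_right h0]

theorem pl_eq {T : ℕ} {s : ℝ} {i : ℕ} {θ : ℝ} (hi : i ≤ T) (h0 : 0 ≤ θ) (h1 : θ ≤ 1) (hT : i = T → θ = 0)
    (hs : T * s = i + θ) (x : ℕ → ℝ) : pl T x s = x i + θ * (x (i + 1) - x i) := by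
  have hA : ∀ n ≤ i, ∑ j ∈ Finset.range n, max 0 (min 1 (T * s - j)) * (x (j + 1) - x j) = x n - x 0 := by
    intro n hn
    induction n with
    | zero => simp
    | succ n ih =>
      have h2 : (n : ℝ) + 1 ≤ i := by exact_mod_cast hn
      rw [Finset.sum_range_succ, ih (by omega), pl_one (by rw [hs]; linarith)]
      ring
  have hB : ∀ n, i + 1 ≤ n → ∑ j ∈ Finset.range n, max 0 (min 1 (T * s - j)) * (x (j + 1) - x j) =
      x i - x 0 + θ * (x (i + 1) - x i) := by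
    intro n hn
    induction n, hn using Nat.le_induction with
    | base =>
      rw [Finset.sum_range_succ, hA i le_rfl, hs, add_sub_cancel_left, pl_id h0 h1]
    | succ n hn ih =>
      have h2 : (i : ℝ) + 1 ≤ n := by exact_mod_cast hn
      rw [Finset.sum_range_succ, ih, pl_zero (by rw [hs]; linarith)]
      ring
  unfold pl
  rcases Nat.lt_or_ge i T with h | h
  · rw [hB T h]
    ring
  · have h2 : i = T := le_antisymm hi h
    subst h2
    rw [hA i le_rfl, hT rfl]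
    ring

theorem pl_near (T : ℕ) {s : ℝ} (h0 : 0 ≤ s) (h1 : s ≤ 1) : ∃ (i : ℕ) (θ : ℝ), i ≤ T ∧ 0 ≤ θ ∧ θ ≤ 1 ∧
    (i = T → θ = 0) ∧ ∀ x : ℕ → ℝ, pl T x s = x i + θ * (x (i + 1) - x i) := by
  have hT0 : (0 : ℝ) ≤ T := Nat.cast_nonneg T
  have hu0 : 0 ≤ T * s := mul_nonneg hT0 h0
  have hu1 : T * s ≤ T := mul_le_of_le_one_right hT0 h1
  rcases hu1.lt_or_eq with h | h
  · have h2 : ⌊T * s⌋₊ < T := (Nat.floor_lt hu0).2 h
    have h3 := Nat.floor_le hu0
    have h4 := Nat.lt_floor_add_one (T * s)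
    exact ⟨⌊T * s⌋₊, T * s - ⌊T * s⌋₊, h2.le, by linarith, by linarith, fun h5 => absurd h5 h2.ne,
      pl_eq h2.le (by linarith) (by linarith) (fun h5 => absurd h5 h2.ne) (by ring)⟩
  · exact ⟨T, 0, le_rfl, le_rfl, zero_le_one, fun _ => rfl,
      pl_eq le_rfl le_rfl zero_le_one (fun _ => rfl) (by rw [h, add_zero])⟩

theorem pl_node {T i : ℕ} (hi : i ≤ T) : ∃ s : ℝ, 0 ≤ s ∧ s ≤ 1 ∧ ∀ x : ℕ → ℝ, pl T x s = x i := by
  rcases Nat.eq_zero_or_pos T with h | h
  · refine ⟨0, le_rfl, zero_le_one, fun x => ?_⟩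
    have h1 : i = 0 := by omega
    unfold pl
    rw [h, h1, Finset.sum_range_zero, add_zero]
  · have hT : (0 : ℝ) < T := by exact_mod_cast h
    refine ⟨i / T, by positivity, (div_le_one hT).2 (by exact_mod_cast hi), fun x => ?_⟩
    rw [pl_eq hi le_rfl zero_le_one (fun _ => rfl) (by rw [add_zero]; field_simp) x, zero_mul, add_zero]

end DimLim
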