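import Pool.Agent.Lib.MP_216314_pr.I.IVd
import Pool.Agent.Lib.MP_216314_pr.IC.D0
import Pool.Agent.Lib.MP_216314_pr.IC.PL

/-!
# The interface as a random curve

`icurve hA hB δ a b ω`: the interface of the rectangle `[0,a] × [0,b]` in the configuration `ω`, rescaled by `δ`, as a curve in
`Rect A B`: the polygonal line through the rescaled vertices of its corners. `claw hA hB δ`: its law in the space of curves modulo
increasing reparametrisation, `a = ⌊A / δ⌋`, `b = ⌊B / δ⌋`.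
-/

set_option autoImplicit false

noncomputable section

namespace DimLim

open MeasureTheory Filter Topology Set ENNReal NNReal TopologicalSpace Metric FKI FKP FKN

/-- The number of steps of the interface from its first corner `(2a+1,0)` to its last corner `(0,2b+1)`. -/
def steps (a b : ℕ) (ω : Finset Edge) : ℕ :=
  sInf {t : ℕ | (next (ω ∪ wsd a b))^[t] (2 * (a : ℤ) + 1, 0) = (0, 2 * (b : ℤ) + 1)}

/-- The vertex of the `i`-th corner of the interface. -/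
def vx (a b : ℕ) (ω : Finset Edge) (i : ℕ) : V := vtx ((next (ω ∪ wsd a b))^[i] (2 * (a : ℤ) + 1, 0))

section

variable {A B : ℝ} (hA : 0 ≤ A) (hB : 0 ≤ B)

/-- The interface of the rectangle `[0,a] × [0,b]`, rescaled by `δ`, as a parametrised curve: the polygonal line through the points
`δ (vx 0), δ (vx 1), …, δ (vx (steps))`. -/
def icurve (δ : ℝ) (a b : ℕ) (ω : Finset Edge) : PCurve (Rect A B) where
  fn := ⟨fun s => (Set.projIcc 0 A hA (pl (steps a b ω) (fun i => δ * (vx a b ω i).1) s),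
      Set.projIcc 0 B hB (pl (steps a b ω) (fun i => δ * (vx a b ω i).2) s)),
    (continuous_projIcc.comp ((pl_cont _ _).comp continuous_subtype_val)).prodMk
      (continuous_projIcc.comp ((pl_cont _ _).comp continuous_subtype_val))⟩

/-- The law of the rescaled interface in the space of curves modulo increasing reparametrisation, mesh `δ`. -/
def claw [MeasurableSpace (Curve (Rect A B))] (δ : ℝ) : ProbabilityMeasure (Curve (Rect A B)) :=
  ⟨lawM (box 0 (⌊A / δ⌋₊ : ℤ) 0 (⌊B / δ⌋₊ : ℤ))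
    (fun ω => SeparationQuotient.mk (icurve hA hB δ ⌊A / δ⌋₊ ⌊B / δ⌋₊ ω)), lawM_prob _ _⟩

end

theorem steps_hits {a b : ℕ} {ω : Finset Edge} (hω : ω ⊆ box 0 a 0 b) :
    Hits (next (ω ∪ wsd a b)) (2 * (a : ℤ) + 1, 0) (0, 2 * (b : ℤ) + 1) (steps a b ω) := by
  obtain ⟨T, hT⟩ := curve_hits hω
  have h1 : steps a b ω = T := by
    refine le_antisymm (Nat.sInf_le hT.1) ?_
    by_contra h
    push Not at h
    exact hT.2 _ h (Nat.sInf_mem (s := {t : ℕ | (next (ω ∪ wsd a b))^[t] (2 * (a : ℤ) + 1, 0) =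
      (0, 2 * (b : ℤ) + 1)}) ⟨T, hT.1⟩)
  rw [h1]
  exact hT

theorem mem_trc {a b : ℕ} {ω : Finset Edge} (hω : ω ⊆ box 0 a 0 b) (v : V) :
    v ∈ Trc a b ω ↔ ∃ i ≤ steps a b ω, vx a b ω i = v := by
  classical
  have hH := steps_hits hω
  unfold Trc
  rw [Finset.mem_filter]
  constructor
  · rintro ⟨-, p, hp, t, ht, hne⟩
    refine ⟨t, ?_, ?_⟩
    · by_contra h
      push Not at h
      exact hne _ h hH.1
    · unfold vx
      rw [ht, hp]
  · rintro ⟨i, hi, rfl⟩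
    refine ⟨?_, _, rfl, i, rfl, fun j hj => hH.2 j (lt_of_lt_of_le hj hi)⟩
    have h1 := curve_cor hω i
    unfold cor at h1
    rw [Finset.mem_product, Finset.mem_Icc, Finset.mem_Icc] at h1
    rw [mem_rv]
    unfold vx vtx
    simp only
    omega

theorem vtx_next (η : Finset Edge) (p : V) : |((vtx (next η p)).1 : ℝ) - (vtx p).1| ≤ 1 ∧
    |((vtx (next η p)).2 : ℝ) - (vtx p).2| ≤ 1 := by
  have h1 : |(vtx (next η p)).1 - (vtx p).1| ≤ 1 ∧ |(vtx (next η p)).2 - (vtx p).2| ≤ 1 := by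
    unfold next vtx ostep cstep
    rw [abs_le, abs_le]
    split_ifs <;> simp only [Prod.fst_add, Prod.snd_add] <;> omega
  exact ⟨by exact_mod_cast h1.1, by exact_mod_cast h1.2⟩

theorem vx_succ (a b : ℕ) (ω : Finset Edge) (i : ℕ) : |((vx a b ω (i + 1)).1 : ℝ) - (vx a b ω i).1| ≤ 1 ∧
    |((vx a b ω (i + 1)).2 : ℝ) - (vx a b ω i).2| ≤ 1 := by
  unfold vx
  rw [Function.iterate_succ_apply']
  exact vtx_next _ _

theorem icurve_near {A B : ℝ} (hA : 0 ≤ A) (hB : 0 ≤ B) {δ : ℝ} (hδ : 0 < δ) {a b : ℕ} {ω : Finset Edge}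
    (hω : ω ⊆ box 0 a 0 b) : dist (tr0 (icurve hA hB δ a b ω)) (embS hA hB δ (Trc a b ω)) ≤ δ := by
  have hne : (Trc a b ω).Nonempty := ⟨vx a b ω 0, (mem_trc hω _).2 ⟨0, Nat.zero_le _, rfl⟩⟩
  rw [NonemptyCompacts.dist_eq, embS_coe hA hB hne]
  have hc : ∀ (x θ : ℝ) (y : ℝ), 0 ≤ θ → θ ≤ 1 → |y - x| ≤ 1 → |δ * x + θ * (δ * y - δ * x) - δ * x| ≤ δ := by
    intro x θ y h0 h1 h2
    have h3 : δ * x + θ * (δ * y - δ * x) - δ * x = δ * (θ * (y - x)) := by ring
    rw [h3, abs_mul, abs_mul, abs_of_pos hδ, abs_of_nonneg h0]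
    have h4 : θ * |y - x| ≤ 1 := by nlinarith [abs_nonneg (y - x)]
    nlinarith
  refine hausdorffDist_le_of_mem_dist hδ.le ?_ ?_
  · rintro _ ⟨s, rfl⟩
    obtain ⟨i, θ, hi, h0, h1, -, hpl⟩ := pl_near (steps a b ω) s.2.1 s.2.2
    refine ⟨emb hA hB δ (vx a b ω i), ⟨_, (mem_trc hω _).2 ⟨i, hi, rfl⟩, rfl⟩, ?_⟩
    have h2 := vx_succ a b ω i
    show dist (Set.projIcc 0 A hA (pl (steps a b ω) (fun i => δ * (vx a b ω i).1) s),
      Set.projIcc 0 B hB (pl (steps a b ω) (fun i => δ * (vx a b ω i).2) s))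
      (Set.projIcc 0 A hA (δ * (vx a b ω i).1), Set.projIcc 0 B hB (δ * (vx a b ω i).2)) ≤ δ
    rw [Prod.dist_eq, max_le_iff, Subtype.dist_eq, Subtype.dist_eq, Real.dist_eq, Real.dist_eq]
    refine ⟨(abs_projIcc_sub_projIcc hA).trans ?_, (abs_projIcc_sub_projIcc hB).trans ?_⟩
    · rw [hpl]
      exact hc _ _ _ h0 h1 h2.1
    · rw [hpl]
      exact hc _ _ _ h0 h1 h2.2
  · rintro _ ⟨v, hv, rfl⟩
    obtain ⟨i, hi, rfl⟩ := (mem_trc hω _).1 hv
    obtain ⟨s, h0, h1, hpl⟩ := pl_node hi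
    refine ⟨_, ⟨⟨s, h0, h1⟩, rfl⟩, ?_⟩
    have h2 : (icurve hA hB δ a b ω).fn ⟨s, h0, h1⟩ = emb hA hB δ (vx a b ω i) := by
      show (Set.projIcc 0 A hA (pl (steps a b ω) (fun i => δ * (vx a b ω i).1) s),
        Set.projIcc 0 B hB (pl (steps a b ω) (fun i => δ * (vx a b ω i).2) s)) = _
      rw [hpl, hpl]
      rfl
    rw [h2, dist_self]
    exact hδ.le

end DimLim
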