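import Pool.Agent.Lib.MP_216314_pr.IC.T0

/-!
N1 (medium-, 2 theorems): Markov's inequality and the union bound for `Pr`.

PROOF. `Pr E A` is the number of the `ω ⊆ E` with `A ω`, divided by `2 ^ E.card` (`pproba_eq`, P/PProbA.lean). `markov_card`: `t * #{ω ⊆ E | t < #(S ω)} ≤ ∑ ω ⊆ E, #(S ω) = ∑ q ∈ Q, #{ω ⊆ E | q ∈ S ω}` (`Finset.card_eq_sum_ones`, `Finset.sum_comm`,
`Finset.sum_card_bipartiteAbove_eq_sum_card_bipartiteBelow`). `pr_union`: induction on `Q` with `Pr_or_le`, or by counting.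
-/

set_option autoImplicit false

noncomputable section

namespace DimLim

open Finset FKI FKP FKN

private theorem N1_pr (E : Finset Edge) (A : Finset Edge → Prop) [DecidablePred A] :
    Pr E A = (∑ ω ∈ E.powerset, (if A ω then (1 : ℝ) else 0)) / 2 ^ E.card := by
  rw [pproba_eq, Finset.sum_boole]

theorem markov_card {α : Type} [DecidableEq α] (E : Finset Edge) (S : Finset Edge → Finset α) (Q : Finset α)
    (hS : ∀ ω, ω ⊆ E → S ω ⊆ Q) {t : ℝ} (ht : 0 < t) :
    Pr E (fun ω => t < ((S ω).card : ℝ)) ≤ (∑ q ∈ Q, Pr E (fun ω => q ∈ S ω)) / t := by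
  classical
  rw [le_div_iff₀ ht]
  have h2 : ∑ q ∈ Q, Pr E (fun ω => q ∈ S ω) =
      (∑ ω ∈ E.powerset, ((S ω).card : ℝ)) / 2 ^ E.card := by
    rw [Finset.sum_congr rfl fun q _ => N1_pr E (fun ω => q ∈ S ω), ← Finset.sum_div,
      Finset.sum_comm]
    congr 1
    refine Finset.sum_congr rfl fun ω hω => ?_
    have h3 : Q.filter (fun q => q ∈ S ω) = S ω := by
      ext q
      rw [Finset.mem_filter]
      exact ⟨fun h => h.2, fun h => ⟨hS ω (Finset.mem_powerset.1 hω) h, h⟩⟩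
    rw [Finset.sum_boole, h3]
  rw [h2, N1_pr, div_mul_eq_mul_div]
  refine div_le_div_of_nonneg_right ?_ (by positivity)
  rw [Finset.sum_mul]
  refine Finset.sum_le_sum fun ω _ => ?_
  split_ifs with h
  · rw [one_mul]
    exact h.le
  · rw [zero_mul]
    exact Nat.cast_nonneg _

theorem pr_union {α : Type} (E : Finset Edge) (Q : Finset α) (A : α → Finset Edge → Prop) :
    Pr E (fun ω => ∃ q ∈ Q, A q ω) ≤ ∑ q ∈ Q, Pr E (A q) := by
  classical
  rw [Finset.sum_congr rfl fun q _ => N1_pr E (A q), ← Finset.sum_div, Finset.sum_comm, N1_pr]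
  refine div_le_div_of_nonneg_right (Finset.sum_le_sum fun ω _ => ?_) (by positivity)
  have h0 : ∀ q ∈ Q, (0 : ℝ) ≤ if A q ω then 1 else 0 := fun q _ => by
    split_ifs
    · exact zero_le_one
    · exact le_rfl
  split_ifs with h
  · obtain ⟨q, hq, hA⟩ := h
    have h1 := Finset.single_le_sum h0 hq
    rw [if_pos hA] at h1
    exact h1
  · exact Finset.sum_nonneg h0

end DimLim
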