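import Pool.Agent.Lib.MP_216314_pr.IC.T0

/-!
PB1 (medium-): the marks.

PROOF. Let `v = vx a b ω (p)`, `w = vx a b ω p'`, `16 l ≤ sd v w`. If `v` has distance at least `2 l` from both corners take `j = p`. Otherwise let `c` be a corner with `sd c v < 2 l`. The steps have length at most one (`vx_succ`; as
integers: `sd c (vx (k + 1)) ≤ sd c (vx k) + 1` and conversely), `sd c w ≥ 16 l - 2 l`, so there is a first `k ≥ p` with `2 l ≤ sd c (vx k)`; `k ≤ p'` and `sd c (vx k) ≤ 2 l` (`Nat.find`, the step before). Then `j = k`: `sd (vx k) w ≥ 14 l - 2 l`, and the distance of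
`vx k` from the other corner `c'` is at least `sd c c' - 2 l ≥ 16 l - 2 l` (`sd c c' = max a b`). Use `sd_tri`, `sd_comm`.
-/

set_option autoImplicit false

noncomputable section

namespace DimLim

open Finset FKI FKP FKN

private theorem PB1_step (a b : ℕ) (ω : Finset Edge) (i : ℕ) : sd (vx a b ω i) (vx a b ω (i + 1)) ≤ 1 := by
  have h := vx_succ a b ω i
  have h1 : |(vx a b ω (i + 1)).1 - (vx a b ω i).1| ≤ 1 := by exact_mod_cast h.1
  have h2 : |(vx a b ω (i + 1)).2 - (vx a b ω i).2| ≤ 1 := by exact_mod_cast h.2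
  rw [abs_le] at h1 h2
  rw [sd_le]
  omega

private theorem PB1_aux {a b l : ℕ} {ω : Finset Edge} (hl : 1 ≤ l) {p p' : ℕ} (hp : p ≤ p')
    (h : ((16 * l : ℕ) : ℤ) ≤ sd (vx a b ω p) (vx a b ω p')) (c c' : V) (hc : ((16 * l : ℕ) : ℤ) ≤ sd c c')
    (hv : sd (vx a b ω p) c < 2 * l) :
    ∃ j, p ≤ j ∧ j ≤ p' ∧ (2 * l : ℤ) ≤ sd (vx a b ω j) c ∧ (2 * l : ℤ) ≤ sd (vx a b ω j) c' ∧
      (2 * l : ℤ) ≤ sd (vx a b ω j) (vx a b ω p') := by
  classical
  push_cast at h hc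
  have h1 := sd_tri (vx a b ω p) c (vx a b ω p')
  rw [sd_comm c] at h1
  have hex : ∃ k, p ≤ k ∧ (2 * l : ℤ) ≤ sd (vx a b ω k) c := ⟨p', hp, by omega⟩
  obtain ⟨k, hk⟩ : ∃ k, k = Nat.find hex := ⟨_, rfl⟩
  have hk1 := Nat.find_spec hex
  have hk2 := Nat.find_min' hex (m := p') ⟨hp, by omega⟩
  have hk3 : ∀ m < k, ¬ (p ≤ m ∧ (2 * l : ℤ) ≤ sd (vx a b ω m) c) := fun m hm => by
    rw [hk] at hm
    exact Nat.find_min hex hm
  rw [← hk] at hk1 hk2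
  have hpk : p < k := by
    rcases lt_or_eq_of_le hk1.1 with h2 | h2
    · exact h2
    · exfalso
      have h3 := hk1.2
      rw [← h2] at h3
      omega
  have h2 := hk3 (k - 1) (by omega)
  have h3 : sd (vx a b ω (k - 1)) c < 2 * l := by
    by_contra h4
    exact h2 ⟨by omega, not_lt.1 h4⟩
  have h4 := PB1_step a b ω (k - 1)
  have h5 : k - 1 + 1 = k := by omega
  rw [h5] at h4
  have h6 := sd_tri (vx a b ω k) (vx a b ω (k - 1)) c
  rw [sd_comm (vx a b ω k) (vx a b ω (k - 1))] at h6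
  have h7 := sd_tri c (vx a b ω k) c'
  rw [sd_comm c (vx a b ω k)] at h7
  have h8 := sd_tri (vx a b ω p) c (vx a b ω k)
  rw [sd_comm c (vx a b ω k)] at h8
  have h9 := sd_tri (vx a b ω p) (vx a b ω k) (vx a b ω p')
  exact ⟨k, hk1.1, hk2, hk1.2, by omega, by omega⟩

theorem exists_mark {a b l : ℕ} {ω : Finset Edge} (hl : 1 ≤ l) (ha : 16 * l ≤ a) (hb : 16 * l ≤ b) {p p' : ℕ} (hp : p ≤ p')
    (h : ((16 * l : ℕ) : ℤ) ≤ sd (vx a b ω p) (vx a b ω p')) :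
    ∃ j, p ≤ j ∧ j ≤ p' ∧ (2 * l : ℤ) ≤ sd (vx a b ω j) ((a : ℤ), 0) ∧ (2 * l : ℤ) ≤ sd (vx a b ω j) (0, (b : ℤ)) ∧
      (2 * l : ℤ) ≤ sd (vx a b ω j) (vx a b ω p') := by
  have hc : ((16 * l : ℕ) : ℤ) ≤ sd ((a : ℤ), 0) (0, (b : ℤ)) := by
    unfold sd
    refine le_max_of_le_left ?_
    simp only [zero_sub, abs_neg, Nat.abs_cast]
    exact_mod_cast ha
  by_cases h1 : sd (vx a b ω p) ((a : ℤ), 0) < 2 * l
  · exact PB1_aux hl hp h _ _ hc h1
  · by_cases h2 : sd (vx a b ω p) (0, (b : ℤ)) < 2 * l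
    · obtain ⟨j, g1, g2, g3, g4, g5⟩ := PB1_aux hl hp h (0, (b : ℤ)) ((a : ℤ), 0) (by rw [sd_comm]; exact hc) h2
      exact ⟨j, g1, g2, g4, g3, g5⟩
    · push_cast at h
      exact ⟨p, le_rfl, hp, not_lt.1 h1, not_lt.1 h2, by omega⟩

end DimLim
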