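import Pool.Agent.Lib.MP_216314_pr.IC.TVa
import Pool.Agent.Lib.MP_216314_pr.I.IVb
import Pool.Agent.Lib.MP_216314_pr.I.DimB
import Pool.Agent.Lib.MP_216314_pr.Cy.CyO
import Pool.Agent.Lib.MP_216314_pr.N.CP

/-!
# The interface near the sides of the rectangle: definitions

`hx s u R`: the half box of radius `R` at `u`, to the left of `u` (`s = 0`), below `u` (`s = 1`), to the right (`s = 2`), above (`s = 3`).
`Arm s u r R`: an open path in this half box from distance at most `r` to distance `R` of `u`. `zs s a b y`: the point with the coordinate `y` on the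
right, upper, left, lower side of `[0,a] × [0,b]`. `Near a b z r`: the interface has a vertex at distance at most `r` of `z`.
-/

set_option autoImplicit false

noncomputable section

namespace DimLim

open Finset FKI FKP FKN

/-- The half box of radius `R` at `u`. -/
def hx (s : Fin 4) (u : V) (R : ℕ) : Finset Edge :=
  match s with
  | 0 => box (u.1 - R) u.1 (u.2 - R) (u.2 + R)
  | 1 => box (u.1 - R) (u.1 + R) (u.2 - R) u.2
  | 2 => box u.1 (u.1 + R) (u.2 - R) (u.2 + R)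
  | 3 => box (u.1 - R) (u.1 + R) u.2 (u.2 + R)

/-- An open path in the half box from distance at most `r` to distance `R` of `u`. -/
def Arm (s : Fin 4) (u : V) (r R : ℕ) (ω : Finset Edge) : Prop :=
  ∃ v w : V, sd u v ≤ r ∧ (R : ℤ) ≤ sd u w ∧ Conn (hx s u R) ω v w

/-- The point with the coordinate `y` on the right, upper, left, lower side. -/
def zs (s : Fin 4) (a b : ℕ) (y : ℤ) : V :=
  match s with
  | 0 => ((a : ℤ), y)
  | 1 => (y, (b : ℤ))
  | 2 => (0, y)
  | 3 => (y, 0)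

/-- The length of the side. -/
def ls (s : Fin 4) (a b : ℕ) : ℕ :=
  match s with
  | 0 => b
  | 1 => a
  | 2 => b
  | 3 => a

/-- The distance to the opposite side. -/
def lo (s : Fin 4) (a b : ℕ) : ℕ :=
  match s with
  | 0 => a
  | 1 => b
  | 2 => a
  | 3 => b

/-- The interface has a vertex at distance at most `r` of `z`. -/
def Near (a b : ℕ) (z : V) (r : ℤ) (ω : Finset Edge) : Prop := ∃ k ≤ steps a b ω, sd z (vx a b ω k) ≤ r

/-- The points of the right, upper, left, lower side at distance at least `1 / (m + 1)` from the corners. -/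
def Side (A B : ℝ) (s : Fin 4) (m : ℕ) : Set (Rect A B) :=
  match s with
  | 0 => {x | (x.1 : ℝ) = A ∧ 1 / ((m : ℝ) + 1) ≤ (x.2 : ℝ) ∧ (x.2 : ℝ) + 1 / ((m : ℝ) + 1) ≤ B}
  | 1 => {x | (x.2 : ℝ) = B ∧ 1 / ((m : ℝ) + 1) ≤ (x.1 : ℝ) ∧ (x.1 : ℝ) + 1 / ((m : ℝ) + 1) ≤ A}
  | 2 => {x | (x.1 : ℝ) = 0 ∧ 1 / ((m : ℝ) + 1) ≤ (x.2 : ℝ) ∧ (x.2 : ℝ) + 1 / ((m : ℝ) + 1) ≤ B}
  | 3 => {x | (x.2 : ℝ) = 0 ∧ 1 / ((m : ℝ) + 1) ≤ (x.1 : ℝ) ∧ (x.1 : ℝ) + 1 / ((m : ℝ) + 1) ≤ A}

end DimLim
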