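import Pool.Agent.Lib.MP_216314_pr.IC.S0

/-!
# Leaf SA: gluing an arm of the half plane to an arm of a half annulus (medium, deterministic)

As `half_geo` (Cy/CyO; read its proof). Let `d = 2 r`, `ω' = ω ∩ hx 0 u R`; all hypotheses hold for `ω'` (all the boxes used are contained in `hx 0 u R`; `Conn F ω = (gr (ω ∩ F)).Reachable`),
and it is enough to have `(gr ω').Reachable u w'` with `w'` on one of the three outer sides of `hb u R` (`RA`, `hb` in Cy/CyN; `hb u R = hx 0 u R` by `rfl`). STEP 1. Let `p` be a vertex with `sd u p ≤ r`,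
`p.1 ≤ u.1`, joined in `hb u d` to a vertex `q` with `q.1 = u.1 - d ∨ q.2 = u.2 - d ∨ q.2 = u.2 + d`. Then `(gr ω').Reachable p (u.1 - d, yb)`, `yb` the left end of the crossing `hB`: exactly as in `half_geo` (the crossings `bl`, `tl`, and the three cases
with `pgeo_left`, `pgeo_down`, `pgeo_up`, `cross`). STEP 2. Apply step 1 to `p = u` and `hA : RA u (2 r) ω`. STEP 3. `w` is in the half box (`conn_mem_box` or: if `v ≠ w` it is an end of an edge), `w.1 ≤ u.1`, so it satisfies `w.1 = u.1 - R ∨ w.2 = u.2 ± R`; `v` is also in the half box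
(if `v = w` then `R ≤ r`, impossible; otherwise `v` is an end of an edge of the half box). The path from `v` to `w` leaves `hb u d`: `reach_level` (I/IVa) with `lv = sd u`, `sd_edge`, level `d` gives `q` with `sd u q = d` and a path from `v` to `q` whose edges have an end at distance `< d`, so
they are in `hb u d` (they are in `hx 0 u R`, so `x ≤ u.1`). Step 1 for `p = v`. So `u`, `v`, `w` are joined in `ω'`.
-/

set_option autoImplicit false

noncomputable section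

namespace DimLim

open Finset FKI FKP FKN

/-- the first vertex of a nonconstant open path in a rectangle is in the rectangle -/
private theorem SA_fst {x1 x2 y1 y2 : ℤ} {ω : Finset Edge} {u v : V}
    (hc : Conn (box x1 x2 y1 y2) ω u v) (hne : u ≠ v) :
    x1 ≤ u.1 ∧ u.1 ≤ x2 ∧ y1 ≤ u.2 ∧ u.2 ≤ y2 := by
  obtain ⟨p⟩ := hc
  cases p with
  | nil => exact absurd rfl hne
  | @cons u v w hadj p =>
    obtain ⟨e, he, hends⟩ := pexit_adj hadj
    rw [mem_inter] at he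
    have h1 := pexit_box he.2
    rcases hends with ⟨h3, h4⟩ | ⟨h3, h4⟩
    · rw [← h3]
      exact h1.1
    · rw [← h4]
      exact h1.2

/-- an arm of a half annulus is joined to the lower crossing -/
private theorem SA_step {ux uy : ℤ} {r d : ℕ} {ω : Finset Edge} {p q : V}
    (hp : ux - r ≤ p.1 ∧ p.1 ≤ ux ∧ uy - r ≤ p.2 ∧ p.2 ≤ uy + r)
    (hq : q.1 = ux - d ∨ q.2 = uy - d ∨ q.2 = uy + d)
    (hw2 : Conn (box (ux - d) ux (uy - d) (uy + d)) ω p q)
    {yt yt' xl xl' yb yb' : ℤ}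
    (t1 : uy + r ≤ yt) (t2 : yt ≤ uy + d) (t3 : uy + r ≤ yt') (t4 : yt' ≤ uy + d)
    (hT : Conn (box (ux - d) ux (uy + r) (uy + d)) ω (ux - d, yt) (ux, yt'))
    (l1 : ux - d ≤ xl) (l2 : xl ≤ ux - r) (l3 : ux - d ≤ xl') (l4 : xl' ≤ ux - r)
    (hL : Conn (box (ux - d) (ux - r) (uy - d) (uy + d)) ω (xl, uy - d) (xl', uy + d))
    (b1 : uy - d ≤ yb) (b2 : yb ≤ uy - r) (b3 : uy - d ≤ yb') (b4 : yb' ≤ uy - r)
    (hB : Conn (box (ux - d) ux (uy - d) (uy - r)) ω (ux - d, yb) (ux, yb')) :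
    (gr ω).Reachable p (ux - d, yb) := by
  have bl := cross (ω := ω) (x1 := ux - d) (x2 := ux) (y1 := uy - d) (y2 := uy - r)
    (x3 := ux - d) (x4 := ux - r) (y3 := uy - d) (y4 := uy + d) le_rfl (by omega) le_rfl
    (by omega) ⟨b1, b2⟩ ⟨b3, b4⟩ ⟨l1, l2⟩ ⟨l3, l4⟩ hB hL
  have tl := cross (ω := ω) (x1 := ux - d) (x2 := ux) (y1 := uy + r) (y2 := uy + d)
    (x3 := ux - d) (x4 := ux - r) (y3 := uy - d) (y4 := uy + d) le_rfl (by omega) (by omega)
    le_rfl ⟨t1, t2⟩ ⟨t3, t4⟩ ⟨l1, l2⟩ ⟨l3, l4⟩ hT hL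
  have hm := conn_mem_box hw2 ⟨by omega, by omega, by omega, by omega⟩
  obtain ⟨wx, wy⟩ := q
  simp only at hq hm
  rcases hq with h1 | h1 | h1
  · subst h1
    obtain ⟨y0, h1, h2, h3, h4⟩ := pgeo_left (t := ux - r) hw2 (by omega)
      ⟨by omega, by omega, by omega, by omega⟩
    have h5 := cross (ω := ω) le_rfl le_rfl le_rfl le_rfl ⟨hm.2.2.1, hm.2.2.2⟩ ⟨h1, h2⟩
      ⟨l1, l2⟩ ⟨l3, l4⟩ h4 hL
    exact (hw2.reach.trans h5).trans bl.symm
  · subst h1
    obtain ⟨x0, h1, h2, h3, h4⟩ := pgeo_down (t := uy - r) hw2 (by omega)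
      ⟨by omega, by omega, by omega, by omega⟩
    have h5 := cross (ω := ω) le_rfl le_rfl le_rfl le_rfl ⟨b1, b2⟩ ⟨b3, b4⟩ ⟨hm.1, hm.2.1⟩
      ⟨h1, h2⟩ hB h4
    exact hw2.reach.trans h5.symm
  · subst h1
    obtain ⟨x0, h1, h2, h3, h4⟩ := pgeo_up (t := uy + r) hw2 (by omega)
      ⟨by omega, by omega, by omega, by omega⟩
    have h5 := cross (ω := ω) le_rfl le_rfl le_rfl le_rfl ⟨t1, t2⟩ ⟨t3, t4⟩ ⟨h1, h2⟩
      ⟨hm.1, hm.2.1⟩ hT h4
    exact ((h3.reach.trans h5.symm).trans tl).trans bl.symm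

/-- Gluing an arm of the half plane to an arm of a half annulus. -/
theorem arm_glue {u v w : V} {r R : ℕ} (hr : 1 ≤ r) (hR : 2 * r ≤ R) {ω : Finset Edge} (hA : RA u (2 * r) ω)
    (hT : HC (u.1 - (2 * r : ℕ)) u.1 (u.2 + r) (u.2 + (2 * r : ℕ)) ω)
    (hL : VC (u.1 - (2 * r : ℕ)) (u.1 - r) (u.2 - (2 * r : ℕ)) (u.2 + (2 * r : ℕ)) ω)
    (hB : HC (u.1 - (2 * r : ℕ)) u.1 (u.2 - (2 * r : ℕ)) (u.2 - r) ω)
    (hv : sd u v ≤ r) (hw : (R : ℤ) ≤ sd u w) (h : Conn (hx 0 u R) ω v w) : RA u R ω := by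
  obtain ⟨d, hd⟩ : ∃ d, d = 2 * r := ⟨_, rfl⟩
  rw [← hd] at hA hT hL hB hR
  have hdR : (d : ℤ) ≤ R := by exact_mod_cast hR
  have hr0 : (1 : ℤ) ≤ r := by exact_mod_cast hr
  have hrd' : (r : ℤ) < d := by omega
  obtain ⟨ux, uy⟩ := u
  simp only at hT hL hB
  have hsub : ∀ {x1 x2 y1 y2 : ℤ}, ux - R ≤ x1 → x2 ≤ ux → uy - R ≤ y1 → y2 ≤ uy + R →
      box x1 x2 y1 y2 ⊆ hb (ux, uy) R := fun h1 h2 h3 h4 => box_mono h1 h2 h3 h4
  obtain ⟨yt, yt', t1, t2, t3, t4, hT⟩ := hT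
  obtain ⟨xl, xl', l1, l2, l3, l4, hL⟩ := hL
  obtain ⟨yb, yb', b1, b2, b3, b4, hB⟩ := hB
  have hT' := (dep_Conn (hsub (x1 := ux - d) (x2 := ux) (y1 := uy + r) (y2 := uy + d)
    (by omega) (by omega) (by omega) (by omega)) _ _ ω).1 hT
  have hL' := (dep_Conn (hsub (x1 := ux - d) (x2 := ux - r) (y1 := uy - d) (y2 := uy + d)
    (by omega) (by omega) (by omega) (by omega)) _ _ ω).1 hL
  have hB' := (dep_Conn (hsub (x1 := ux - d) (x2 := ux) (y1 := uy - d) (y2 := uy - r)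
    (by omega) (by omega) (by omega) (by omega)) _ _ ω).1 hB
  have step : ∀ p q : V, (ux - r ≤ p.1 ∧ p.1 ≤ ux ∧ uy - r ≤ p.2 ∧ p.2 ≤ uy + r) →
      (q.1 = ux - d ∨ q.2 = uy - d ∨ q.2 = uy + d) →
      Conn (box (ux - d) ux (uy - d) (uy + d)) ω p q →
      (gr (ω ∩ hb (ux, uy) R)).Reachable p (ux - d, yb) := fun p q hp hq hpq =>
    SA_step hp hq ((dep_Conn (hsub (x1 := ux - d) (x2 := ux) (y1 := uy - d) (y2 := uy + d)
      (by omega) (by omega) (by omega) (by omega)) _ _ ω).1 hpq) t1 t2 t3 t4 hT' l1 l2 l3 l4 hL'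
      b1 b2 b3 b4 hB'
  have hu : (gr (ω ∩ hb (ux, uy) R)).Reachable (ux, uy) (ux - d, yb) := by
    obtain ⟨q, hq1, hq2⟩ := hA
    exact step (ux, uy) q ⟨by simp only; omega, by simp only; omega, by simp only; omega,
      by simp only; omega⟩ hq1 hq2
  have hvw : v ≠ w := by
    rintro rfl
    omega
  have hvb := SA_fst (x1 := ux - R) (x2 := ux) (y1 := uy - R) (y2 := uy + R) h hvw
  have hv' := (sd_le (u := (ux, uy)) (v := v)).1 hv
  simp only at hv'
  have hwb := conn_mem_box (x1 := ux - R) (x2 := ux) (y1 := uy - R) (y2 := uy + R) h hvb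
  obtain ⟨c, hc1, -, hc3⟩ := first_hit (F := hx 0 (ux, uy) R) (ω := ω) (sd (ux, uy))
    (fun e _ => sd_edge (ux, uy) e) (t := (d : ℤ)) (a := v) (b := w) (by omega) (by omega) h
  have hsub2 : (hx 0 (ux, uy) R).filter (fun e => sd (ux, uy) (ea e) ≤ d ∧ sd (ux, uy) (eb e) ≤ d) ⊆
      box (ux - d) ux (uy - d) (uy + d) := by
    intro e he
    rw [mem_filter] at he
    obtain ⟨h1, h2, h3⟩ := he
    rw [sd_le] at h2 h3
    have h4 := pexit_box (x1 := ux - R) (x2 := ux) (y1 := uy - R) (y2 := uy + R) h1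
    obtain ⟨x, y, t⟩ := e
    rw [mem_box]
    cases t
    · simp only [ea, eb, Bool.false_eq_true, if_false] at h2 h3 h4
      left
      refine ⟨rfl, ?_⟩
      simp only
      omega
    · simp only [ea, eb, if_true] at h2 h3 h4
      right
      refine ⟨rfl, ?_⟩
      simp only
      omega
  have hc4 := hc3.mono hsub2 (Finset.Subset.refl _)
  have hcb := conn_mem_box hc4 ⟨by omega, by omega, by omega, by omega⟩
  have hvr : (gr (ω ∩ hb (ux, uy) R)).Reachable v (ux - d, yb) := by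
    refine step v c ⟨by omega, by omega, by omega, by omega⟩ ?_ hc4
    have h6 := sd_cases hc1
    simp only at h6
    rcases h6 with h6 | h6 | h6 | h6
    · exfalso
      omega
    · exact Or.inl h6
    · exact Or.inr (Or.inr h6)
    · exact Or.inr (Or.inl h6)
  refine ⟨w, ?_, (hu.trans hvr.symm).trans h⟩
  simp only
  unfold sd at hw
  simp only at hw
  rw [le_max_iff, le_abs, le_abs] at hw
  omega

end DimLim
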