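import Pool.Agent.Lib.MP_216314_pr.IC.SA

/-!
# Leaf SB: the probability of an arm of the half annulus (medium)

Case `R < 2 r`: `Pr ≤ 1`, `r / R ≥ 1 / 2`, `(r / R) ^ (1/3) ≥ 1 / 2` (exponent `≤ 1`). Case `2 r ≤ R`: let `E = hx 0 u R = hb u R` (`rfl`), `d = 2 r`, `c` from `rsw 8`. As in `WC_right_ge` (Cy/CyO): `Pr E (HC ..) ≥ c`, `Pr E (VC ..) ≥ c`, `Pr E (HC ..) ≥ c` for the three
crossings of `arm_glue` (`Pr_HC`, `Pr_VC`: `2 r` by `r`, and `r` by `4 r`), `Pr E (RA u (2 r)) = piH (2 r)` (`Pr_RA`), all increasing (`inc_HC`, `inc_VC`, `inc_RA`; `Inc (Arm 0 u r R)` by `Conn.mono`). FKG (`pup_fkg`, `pup_and`): `piH (2 r) * c ^ 3 * Pr E (Arm 0 u r R) ≤ Pr E (all) ≤ Pr E (RA u R) = piH R`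
(`arm_glue`, `Pr_mono`, `Pr_RA`). `HalfArm`: `piH R ≤ C R ^ (-1/3)`, `piH (2 r) ≥ c' (2 r) ^ (-1/3)`; `R ^ (-1/3) / (2 r) ^ (-1/3) = 2 ^ (1/3) (r / R) ^ (1/3)`. `Arm` has `v` anywhere with `sd u v ≤ r`; that is the hypothesis of `arm_glue`.
-/

set_option autoImplicit false

noncomputable section

namespace DimLim

open Finset FKI FKP FKN

private theorem SB_inc (u : V) (r R : ℕ) : Inc (Arm 0 u r R) := by
  rintro ω ω' hs ⟨v, w, h1, h2, h3⟩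
  exact ⟨v, w, h1, h2, h3.mono (Finset.Subset.refl _) hs⟩

private theorem SB_glue {c : ℝ} (hc0 : 0 < c) (hc : ∀ (a b : ℕ), 1 ≤ b → a ≤ 8 * b → c ≤ FKP.h a b)
    {u : V} {r R : ℕ} (hr : 1 ≤ r) (hR : 2 * r ≤ R) :
    piH (2 * r) * c ^ 3 * FKP.Pr (hx 0 u R) (Arm 0 u r R) ≤ piH R := by
  have hE : hx 0 u R = hb u R := rfl
  have hE2 : hx 0 u R = box (u.1 - R) u.1 (u.2 - R) (u.2 + R) := rfl
  have hsub : ∀ {x1 x2 y1 y2 : ℤ}, u.1 - R ≤ x1 → x2 ≤ u.1 → u.2 - R ≤ y1 → y2 ≤ u.2 + R →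
      box x1 x2 y1 y2 ⊆ hx 0 u R := fun h1 h2 h3 h4 => box_mono h1 h2 h3 h4
  have pA : piH (2 * r) ≤ FKP.Pr (hx 0 u R) (RA u (2 * r)) := by
    refine (Pr_RA ?_).ge
    unfold hb
    exact hsub (by push_cast; omega) le_rfl (by push_cast; omega) (by push_cast; omega)
  have pT : c ≤ FKP.Pr (hx 0 u R) (HC (u.1 - (2 * r : ℕ)) u.1 (u.2 + r) (u.2 + (2 * r : ℕ))) := by
    rw [Pr_HC (2 * r) r (by push_cast; omega) (by push_cast; omega)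
      (hsub (by push_cast; omega) (by omega) (by omega) (by push_cast; omega))]
    exact hc _ _ (by omega) (by omega)
  have pL : c ≤ FKP.Pr (hx 0 u R)
      (VC (u.1 - (2 * r : ℕ)) (u.1 - r) (u.2 - (2 * r : ℕ)) (u.2 + (2 * r : ℕ))) := by
    rw [Pr_VC r (4 * r) (by push_cast; omega) (by push_cast; omega)
      (hsub (by push_cast; omega) (by omega) (by push_cast; omega) (by push_cast; omega))]
    exact hc _ _ (by omega) (by omega)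
  have pB : c ≤ FKP.Pr (hx 0 u R) (HC (u.1 - (2 * r : ℕ)) u.1 (u.2 - (2 * r : ℕ)) (u.2 - r)) := by
    rw [Pr_HC (2 * r) r (by push_cast; omega) (by push_cast; omega)
      (hsub (by push_cast; omega) (by omega) (by push_cast; omega) (by omega))]
    exact hc _ _ (by omega) (by omega)
  have iA := inc_RA u (2 * r)
  have iT := inc_HC (u.1 - (2 * r : ℕ)) u.1 (u.2 + r) (u.2 + (2 * r : ℕ))
  have iL := inc_VC (u.1 - (2 * r : ℕ)) (u.1 - r) (u.2 - (2 * r : ℕ)) (u.2 + (2 * r : ℕ))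
  have iB := inc_HC (u.1 - (2 * r : ℕ)) u.1 (u.2 - (2 * r : ℕ)) (u.2 - r)
  have iM := SB_inc u r R
  have f1 := pup_fkg iA iT hc0.le pA pT
  have f2 := pup_fkg (pup_and iA iT) iL hc0.le f1 pL
  have f3 := pup_fkg (pup_and (pup_and iA iT) iL) iB hc0.le f2 pB
  have f4 := pup_fkg (pup_and (pup_and (pup_and iA iT) iL) iB) iM (Pr_nonneg _ _) f3 le_rfl
  refine le_trans (le_of_eq (by ring)) (f4.trans ?_)
  have h1 : piH R = FKP.Pr (hx 0 u R) (RA u R) := (Pr_RA (by rw [hE])).symm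
  rw [h1]
  refine Pr_mono fun ω _ hω' => ?_
  obtain ⟨⟨⟨⟨h5, h6⟩, h7⟩, h8⟩, v, w, h9, h10, h11⟩ := hω'
  exact arm_glue hr hR h5 h6 h7 h8 h9 h10 h11

theorem arm_left (h : HalfArm) : ∃ C : ℝ, 0 < C ∧ ∀ (u : V) (r R : ℕ), 1 ≤ r → r ≤ R →
    FKP.Pr (hx 0 u R) (Arm 0 u r R) ≤ C * ((r : ℝ) / R) ^ (1 / 3 : ℝ) := by
  obtain ⟨c', C, hc', hC, hpi⟩ := h
  obtain ⟨c, hc0, hc⟩ := rsw 8
  have hD : 0 < C / (c' * c ^ 3) * 2 ^ (1 / 3 : ℝ) := by positivity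
  refine ⟨2 + C / (c' * c ^ 3) * 2 ^ (1 / 3 : ℝ), by positivity, fun u r R hr hrR => ?_⟩
  have hr0 : (0 : ℝ) < r := by exact_mod_cast hr
  have hR0 : (0 : ℝ) < R := by exact_mod_cast (lt_of_lt_of_le hr hrR)
  have hq0 : (0 : ℝ) < (r : ℝ) / R := div_pos hr0 hR0
  have hq : (0 : ℝ) ≤ ((r : ℝ) / R) ^ (1 / 3 : ℝ) := by positivity
  rcases Nat.lt_or_ge R (2 * r) with h1 | h1
  · have h2 : (1 / 2 : ℝ) ≤ (r : ℝ) / R := by
      rw [le_div_iff₀ hR0]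
      have h3 : (R : ℝ) ≤ 2 * r := by exact_mod_cast h1.le
      linarith
    have h4 : (1 / 2 : ℝ) ≤ ((r : ℝ) / R) ^ (1 / 3 : ℝ) := by
      calc (1 / 2 : ℝ) = (1 / 2 : ℝ) ^ (1 : ℝ) := (Real.rpow_one _).symm
        _ ≤ (1 / 2 : ℝ) ^ (1 / 3 : ℝ) :=
            Real.rpow_le_rpow_of_exponent_ge (by norm_num) (by norm_num) (by norm_num)
        _ ≤ ((r : ℝ) / R) ^ (1 / 3 : ℝ) := Real.rpow_le_rpow (by norm_num) h2 (by norm_num)
    have h5 := Pr_le_one (hx 0 u R) (Arm 0 u r R)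
    have h6 := mul_nonneg hD.le hq
    rw [add_mul]
    linarith
  · have h2 := SB_glue hc0 hc (u := u) hr h1
    have h3 := (hpi R (by omega)).2
    have h4 := (hpi (2 * r) (by omega)).1
    have hP := Pr_nonneg (hx 0 u R) (Arm 0 u r R)
    have h5 : (((2 * r : ℕ) : ℝ)) ^ (-(1 / 3) : ℝ) = ((2 : ℝ) ^ (1 / 3 : ℝ) * (r : ℝ) ^ (1 / 3 : ℝ))⁻¹ := by
      rw [Real.rpow_neg (by positivity)]
      push_cast
      rw [Real.mul_rpow (by norm_num) hr0.le]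
    have h6 : (R : ℝ) ^ (-(1 / 3) : ℝ) = ((R : ℝ) ^ (1 / 3 : ℝ))⁻¹ := Real.rpow_neg hR0.le _
    have h7 : ((r : ℝ) / R) ^ (1 / 3 : ℝ) = (r : ℝ) ^ (1 / 3 : ℝ) / (R : ℝ) ^ (1 / 3 : ℝ) :=
      Real.div_rpow hr0.le hR0.le _
    rw [h5] at h4
    rw [h6] at h3
    have hx1 : (0 : ℝ) < (2 : ℝ) ^ (1 / 3 : ℝ) := by positivity
    have hx2 : (0 : ℝ) < (r : ℝ) ^ (1 / 3 : ℝ) := by positivity
    have hx3 : (0 : ℝ) < (R : ℝ) ^ (1 / 3 : ℝ) := by positivity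
    rw [h7]
    generalize (2 : ℝ) ^ (1 / 3 : ℝ) = X at *
    generalize (r : ℝ) ^ (1 / 3 : ℝ) = Y at *
    generalize (R : ℝ) ^ (1 / 3 : ℝ) = Z at *
    generalize FKP.Pr (hx 0 u R) (Arm 0 u r R) = P at *
    have h8 : c' * (X * Y)⁻¹ * c ^ 3 * P ≤ C * Z⁻¹ := by
      refine le_trans ?_ (h2.trans h3)
      exact mul_le_mul_of_nonneg_right (mul_le_mul_of_nonneg_right h4 (by positivity)) hP
    have h9 : P ≤ C / (c' * c ^ 3) * X * (Y / Z) := by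
      have h10 : P = (c' * (X * Y)⁻¹ * c ^ 3 * P) * (X * Y / (c' * c ^ 3)) := by
        field_simp
      rw [h10]
      refine (mul_le_mul_of_nonneg_right h8 (by positivity)).trans (le_of_eq ?_)
      field_simp
    have h11 : 0 ≤ Y / Z := by positivity
    rw [add_mul]
    linarith

end DimLim
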