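import Pool.Agent.Lib.MP_216314_pr.IC.SB

/-!
# Leaf SC: the four directions (medium-)

`Arm s u r R` depends on `hx s u R` (`dep_Conn`), so `Pr E (Arm s u r R) = Pr (hx s u R) (Arm s u r R)` (`Pr_dep`). General: if `Cp σ τ`, `sd (τ x) (τ y) = sd x y` for all `x y` and `(hx 0 u R).map σ = hx s (τ u) R`, then
`Arm s (τ u) r R (ω.map σ) ↔ Arm 0 u r R ω` (`conn_map`; `τ` is surjective), so `Pr (hx s (τ u) R) (Arm s (τ u) r R) = Pr (hx 0 u R) (Arm 0 u r R)` (`Pr_map`, P/PSymA). `s = 1`: `σ = trE`, `τ = trV` (`τ (x, y) = (y, x)`), `u ↦ (u.2, u.1)`; `box_tr`, `cp_tr`. `s = 2`: `σ = rxE 0`, `τ = rxV 0`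
(`(x, y) ↦ (-x, y)`), `box_rx`, `cp_rx`. `s = 3`: the composition (`cp_trans`, Cy/CyN; as `roE`, `roV` there). Then `arm_left`.
-/

set_option autoImplicit false

noncomputable section

namespace DimLim

open Finset FKI FKP FKN

private theorem SC_arm {σ : Edge ≃ Edge} {τ : V ≃ V} (hc : Cp σ τ) (hsd : ∀ x y, sd (τ x) (τ y) = sd x y)
    {s : Fin 4} {u : V} {r R : ℕ} (hm : (hx 0 u R).map σ.toEmbedding = hx s (τ u) R) (ω : Finset Edge) :
    Arm s (τ u) r R (ω.map σ.toEmbedding) ↔ Arm 0 u r R ω := by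
  constructor
  · rintro ⟨v, w, h1, h2, h3⟩
    refine ⟨τ.symm v, τ.symm w, ?_, ?_, ?_⟩
    · rw [← hsd, Equiv.apply_symm_apply]
      exact h1
    · rw [← hsd, Equiv.apply_symm_apply]
      exact h2
    · rw [← conn_map hc, Equiv.apply_symm_apply, Equiv.apply_symm_apply, hm]
      exact h3
  · rintro ⟨v, w, h1, h2, h3⟩
    refine ⟨τ v, τ w, ?_, ?_, ?_⟩
    · rw [hsd]
      exact h1
    · rw [hsd]
      exact h2
    · rw [← hm, conn_map hc]
      exact h3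

private theorem SC_gen {σ : Edge ≃ Edge} {τ : V ≃ V} (hc : Cp σ τ) (hsd : ∀ x y, sd (τ x) (τ y) = sd x y)
    {s : Fin 4} {u : V} {r R : ℕ} (hm : (hx 0 u R).map σ.toEmbedding = hx s (τ u) R) :
    FKP.Pr (hx s (τ u) R) (Arm s (τ u) r R) = FKP.Pr (hx 0 u R) (Arm 0 u r R) := by
  have h1 : FKP.Pr (hx s (τ u) R) (Arm s (τ u) r R) =
      FKP.Pr ((hx 0 u R).map σ.toEmbedding) (Arm s (τ u) r R) := by rw [hm]
  rw [h1, FKP.Pr_map]
  have h2 : (fun ω : Finset Edge => Arm s (τ u) r R (ω.map σ.toEmbedding)) = Arm 0 u r R := by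
    funext ω
    exact propext (SC_arm hc hsd hm ω)
  rw [h2]

private theorem SC_tr (x y : V) : sd (trV x) (trV y) = sd x y := by
  show max |y.2 - x.2| |y.1 - x.1| = max |y.1 - x.1| |y.2 - x.2|
  exact max_comm _ _

private theorem SC_rx (x y : V) : sd (rxV 0 x) (rxV 0 y) = sd x y := by
  show max |(0 - y.1) - (0 - x.1)| |y.2 - x.2| = max |y.1 - x.1| |y.2 - x.2|
  have h1 : (0 - y.1) - (0 - x.1) = -(y.1 - x.1) := by ring
  rw [h1, abs_neg]

private theorem SC_all (s : Fin 4) (u : V) (r R : ℕ) : ∃ u0 : V,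
    FKP.Pr (hx s u R) (Arm s u r R) = FKP.Pr (hx 0 u0 R) (Arm 0 u0 r R) := by
  fin_cases s
  · exact ⟨u, rfl⟩
  · refine ⟨(u.2, u.1), ?_⟩
    exact SC_gen (s := 1) (u := (u.2, u.1)) (r := r) (R := R) cp_tr SC_tr (box_tr _ _ _ _)
  · refine ⟨(-u.1, u.2), ?_⟩
    have e1 : rxV 0 (-u.1, u.2) = u := Prod.ext (by show 0 - -u.1 = u.1; ring) rfl
    have h := SC_gen (s := 2) (u := (-u.1, u.2)) (r := r) (R := R) (cp_rx 0) SC_rx (by
      rw [e1]
      show (box (-u.1 - R) (-u.1) (u.2 - R) (u.2 + R)).map (rxE 0).toEmbedding =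
        box u.1 (u.1 + R) (u.2 - R) (u.2 + R)
      rw [box_rx]
      have a1 : (0 : ℤ) - -u.1 = u.1 := by ring
      have a2 : (0 : ℤ) - (-u.1 - R) = u.1 + R := by ring
      rw [a1, a2])
    rw [e1] at h
    exact h
  · refine ⟨(-u.2, u.1), ?_⟩
    have e1 : ((rxV 0).trans trV) (-u.2, u.1) = u := Prod.ext rfl (by show 0 - -u.2 = u.2; ring)
    have h := SC_gen (s := 3) (u := (-u.2, u.1)) (r := r) (R := R) (cp_trans (cp_rx 0) cp_tr)
      (fun x y => by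
        show sd (trV (rxV 0 x)) (trV (rxV 0 y)) = sd x y
        rw [SC_tr, SC_rx]) (by
      rw [e1]
      show (box (-u.2 - R) (-u.2) (u.1 - R) (u.1 + R)).map
        ((rxE 0).toEmbedding.trans trE.toEmbedding) = box (u.1 - R) (u.1 + R) u.2 (u.2 + R)
      rw [← Finset.map_map, box_rx, box_tr]
      have a1 : (0 : ℤ) - -u.2 = u.2 := by ring
      have a2 : (0 : ℤ) - (-u.2 - R) = u.2 + R := by ring
      rw [a1, a2])
    rw [e1] at h
    exact h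

private theorem SC_dep (s : Fin 4) (u : V) (r R : ℕ) : Dep (hx s u R) (Arm s u r R) := by
  intro ω
  constructor
  · rintro ⟨v, w, h1, h2, h3⟩
    exact ⟨v, w, h1, h2, (dep_Conn (Finset.Subset.refl _) v w ω).1 h3⟩
  · rintro ⟨v, w, h1, h2, h3⟩
    exact ⟨v, w, h1, h2, (dep_Conn (Finset.Subset.refl _) v w ω).2 h3⟩

theorem arm_pr (h : HalfArm) : ∃ C : ℝ, 0 < C ∧ ∀ (s : Fin 4) (u : V) (r R : ℕ) (E : Finset Edge), 1 ≤ r → r ≤ R →
    hx s u R ⊆ E → FKP.Pr E (Arm s u r R) ≤ C * ((r : ℝ) / R) ^ (1 / 3 : ℝ) := by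
  obtain ⟨C, hC, hl⟩ := arm_left h
  refine ⟨C, hC, fun s u r R E hr hR hE => ?_⟩
  rw [Pr_dep hE (SC_dep s u r R)]
  obtain ⟨u0, h0⟩ := SC_all s u r R
  rw [h0]
  exact hl u0 r R hr hR

end DimLim
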