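import Pool.Agent.Lib.MP_216314_pr.IC.S0

/-!
# Leaf SD: the interface near a free side gives an open arm (medium)

Let `z = zs s a b y`, `p = crn a b ω k`, `v = vtx p = vx a b ω k`, `sd z v ≤ r`. `Gam a b ω p` (`steps_hits`: `steps a b ω` is the first time at `(0, 2 b + 1)`; see the proof of `mem_trc`, IC/IF). By `gam_range` `p` is the first corner `(2 a + 1, 0)`, the last `(0, 2 b + 1)`, or `1 ≤ p.1`, `1 ≤ p.2`; the first two
have `vtx = (a, 0)`, `(0, b)` at distance `> R` of `z`, impossible as `r ≤ R`. `gam_fwd` (I/Curve): `WC a b v ω`, i.e. (`WC_iff`) `(gr (ω ∪ wsd a b)).Reachable (0, 0) v`. `sd z (0, 0) > R` (both for `s = 0`: `|0 - y| > R`, and for `s = 1`). `reach_level` (I/IVa) for the path from `v` to `(0, 0)`, `lv = sd z`, level `R`: `w` with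
`sd z w = R` and a path from `v` to `w` with edges of `ω ∪ wsd a b ⊆ box 0 a 0 b` (`curve_wsd`) with an end at distance `< R` of `z`: such an edge is not in `wsd a b` (its ends are at distance `≥ R` of `z`: an edge of `wsd a b` has both ends with `x = 0` or both with `y = 0`; `s = 0`: `a > R`, `y > R`; `s = 1`: `y > R`, `b > R`), so it is in `ω`, and it is in `hx s z R`
(`mem_box`, `curve_box`, `omega`).
-/

set_option autoImplicit false

noncomputable section

namespace DimLim

open Finset FKI FKP FKN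

private theorem SD_edge (e : Edge) : (ea e).1 = e.1 ∧ (ea e).2 = e.2.1 ∧
    ((e.2.2 = false ∧ (eb e).1 = e.1 + 1 ∧ (eb e).2 = e.2.1) ∨
      (e.2.2 = true ∧ (eb e).1 = e.1 ∧ (eb e).2 = e.2.1 + 1)) := by
  obtain ⟨x, y, t⟩ := e
  cases t
  · exact ⟨rfl, rfl, Or.inl ⟨rfl, rfl, rfl⟩⟩
  · exact ⟨rfl, rfl, Or.inr ⟨rfl, rfl, rfl⟩⟩

private theorem SD_wsd {a b : ℕ} {e : Edge} (h : e ∈ wsd a b) :
    ((ea e).1 = 0 ∧ (eb e).1 = 0) ∨ ((ea e).2 = 0 ∧ (eb e).2 = 0) := by
  have h1 := SD_edge e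
  unfold wsd at h
  rw [mem_union, mem_box, mem_box] at h
  obtain ⟨e1, e2, e3⟩ := h1
  rw [e1, e2]
  rcases e3 with ⟨e4, e5, e6⟩ | ⟨e4, e5, e6⟩
  · rw [e5, e6]
    rw [e4] at h
    simp only [Bool.false_eq_true, false_and, or_false, true_and] at h
    omega
  · rw [e5, e6]
    rw [e4] at h
    simp only [Bool.true_eq_false, false_and, false_or, true_and] at h
    omega

/-- The interface near the right or the upper side gives an open arm. -/
theorem near_free {a b : ℕ} {ω : Finset Edge} (hω : ω ⊆ box 0 a 0 b) {s : Fin 4} (hs : s = 0 ∨ s = 1) {y : ℤ} {r R : ℕ} (hrR : r ≤ R)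
    (h1 : (R : ℤ) < y) (h2 : y + R < ls s a b) (h3 : R < lo s a b) (h : Near a b (zs s a b y) r ω) :
    Arm s (zs s a b y) r R ω := by
  obtain ⟨k, hk, hv⟩ := h
  have hrR' : (r : ℤ) ≤ R := by exact_mod_cast hrR
  -- points on the lines through the origin are far away
  have hfar : ∀ u : V, (u.1 = 0 ∨ u.2 = 0) → (R : ℤ) < sd (zs s a b y) u := by
    intro u hu
    by_contra hcon
    push Not at hcon
    have h4 := sd_le.1 hcon
    rcases hs with rfl | rfl
    · simp only [zs, lo] at h4 h3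
      rcases hu with hu | hu
      · rw [hu] at h4
        omega
      · rw [hu] at h4
        omega
    · simp only [zs, lo] at h4 h3
      rcases hu with hu | hu
      · rw [hu] at h4
        omega
      · rw [hu] at h4
        omega
  have hG : Gam a b ω ((next (ω ∪ wsd a b))^[k] (2 * (a : ℤ) + 1, 0)) :=
    ⟨k, rfl, fun i hi => (steps_hits hω).2 i (lt_of_lt_of_le hi hk)⟩
  have hvv : vx a b ω k = vtx ((next (ω ∪ wsd a b))^[k] (2 * (a : ℤ) + 1, 0)) := rfl
  obtain ⟨p, hp⟩ : ∃ p : V, p = (next (ω ∪ wsd a b))^[k] (2 * (a : ℤ) + 1, 0) := ⟨_, rfl⟩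
  rw [← hp] at hG hvv
  rw [hvv] at hv
  have hpos : 1 ≤ p.1 ∧ 1 ≤ p.2 := by
    rcases gam_range hω hG with h4 | h4 | h4
    · exfalso
      have h5 := hfar (vtx p) (Or.inr (by rw [h4]; rfl))
      omega
    · exfalso
      have h5 := hfar (vtx p) (Or.inl (by rw [h4]; rfl))
      omega
    · exact ⟨h4.1, h4.2.2.1⟩
  have hW := (WC_iff hω (vtx p)).1 (gam_fwd hω hpos.1 hpos.2 hG).1
  obtain ⟨w, hw, hreach⟩ := reach_level (S := ω ∪ wsd a b) (lv := sd (zs s a b y))
    (fun e _ => sd_edge _ e) hW.symm (R := R) (hv.trans hrR') (hfar (0, 0) (Or.inl rfl)).le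
  refine ⟨vtx p, w, hv, hw.ge, SimpleGraph.Reachable.mono (gr_mono ?_) hreach⟩
  intro e he
  rw [mem_filter] at he
  obtain ⟨he, hlt⟩ := he
  have hed := sd_edge (zs s a b y) e
  have hle1 : sd (zs s a b y) (ea e) ≤ R := by omega
  have hle2 : sd (zs s a b y) (eb e) ≤ R := by omega
  have hnw : e ∉ wsd a b := by
    intro hew
    rcases SD_wsd hew with ⟨h4, h5⟩ | ⟨h4, h5⟩
    · have h6 := hfar (ea e) (Or.inl h4)
      omega
    · have h6 := hfar (ea e) (Or.inr h4)
      omega
  have heω : e ∈ ω := by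
    rcases mem_union.1 he with h4 | h4
    · exact h4
    · exact absurd h4 hnw
  refine mem_inter.2 ⟨heω, ?_⟩
  have hb := mem_box.1 (hω heω)
  have k1 := sd_le.1 hle1
  have k2 := sd_le.1 hle2
  obtain ⟨e1, e2, e3⟩ := SD_edge e
  rw [e1, e2] at k1
  rcases hs with rfl | rfl
  · simp only [zs] at k1 k2
    change e ∈ box ((a : ℤ) - R) a (y - R) (y + R)
    rw [mem_box]
    rcases e3 with ⟨e4, e5, e6⟩ | ⟨e4, e5, e6⟩
    · rw [e5, e6] at k2
      rw [e4] at hb ⊢
      simp only [Bool.false_eq_true, false_and, or_false, true_and] at hb ⊢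
      omega
    · rw [e5, e6] at k2
      rw [e4] at hb ⊢
      simp only [Bool.true_eq_false, false_and, false_or, true_and] at hb ⊢
      omega
  · simp only [zs] at k1 k2
    change e ∈ box (y - R) (y + R) ((b : ℤ) - R) b
    rw [mem_box]
    rcases e3 with ⟨e4, e5, e6⟩ | ⟨e4, e5, e6⟩
    · rw [e5, e6] at k2
      rw [e4] at hb ⊢
      simp only [Bool.false_eq_true, false_and, or_false, true_and] at hb ⊢
      omega
    · rw [e5, e6] at k2
      rw [e4] at hb ⊢
      simp only [Bool.true_eq_false, false_and, false_or, true_and] at hb ⊢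
      omega

end DimLim
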