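import Pool.Agent.Lib.MP_216314_pr.IC.S0

/-!
# Leaf SE: the interface near a wired side gives a dual arm (medium)

Let `z = zs s a b y`, `p = crn a b ω k`, `v = vtx p = vx a b ω k`, `sd z v ≤ r`. `Gam a b ω p` (`steps_hits`: `steps a b ω` is the first time at `(0, 2 b + 1)`; see the proof of `mem_trc`, IC/IF). By `gam_range` `p` is the first corner `(2 a + 1, 0)`, the last `(0, 2 b + 1)`, or `1 ≤ p.1`, `1 ≤ p.2`; the first two
have `vtx = (a, 0)`, `(0, b)` at distance `> R` of `z`, impossible. `gam_fwd` (I/Curve): `FD a b ω (fc p)`: a plaquette `g` with `g.1 = a` or `g.2 = b` and a path from `fc p` to `g` in `S = dc (box 0 a 0 b) (ω ∪ wsd a b)`. `fc p` is `vtx p` minus `0` or `1` in each coordinate, so `sd z (fc p) ≤ r + 1 ≤ R`; `sd z g > R`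
(`s = 2`: `z = (0, y)`, `a > R`, `b - y > R`; the same for `s = 3`). `reach_level` (I/IVa) with `lv = sd z`, `sd_edge`, level `R`: `w` with `sd z w = R` and a path from `fc p` to `w` with edges of `S` with an end at distance `< R` of `z`. Such an edge is in `dc (box 0 a 0 b) ω` and in `hx s z R`: it is `dl e` with
`e ∈ box 0 a 0 b`, `e ∉ wsd a b`. `e = (x, y', false)`: `0 ≤ x < a`, `1 ≤ y' ≤ b` (`curve_low`: the edges with `y' = 0` are in `wsd`), `dl e = (x, y' - 1, true)`; `e = (x, y', true)`: `1 ≤ x ≤ a` (`curve_lft`), `0 ≤ y' < b`, `dl e = (x - 1, y', false)` (`dl_f`, `dl_t`, I/Curve). `mem_box`, `omega`.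
-/

set_option autoImplicit false

noncomputable section

namespace DimLim

open Finset FKI FKP FKN

private theorem SE_edge (e : Edge) : (ea e).1 = e.1 ∧ (ea e).2 = e.2.1 ∧
    ((e.2.2 = false ∧ (eb e).1 = e.1 + 1 ∧ (eb e).2 = e.2.1) ∨
      (e.2.2 = true ∧ (eb e).1 = e.1 ∧ (eb e).2 = e.2.1 + 1)) := by
  obtain ⟨x, y, t⟩ := e
  cases t
  · exact ⟨rfl, rfl, Or.inl ⟨rfl, rfl, rfl⟩⟩
  · exact ⟨rfl, rfl, Or.inr ⟨rfl, rfl, rfl⟩⟩

/-- The edges of the dual configuration, in the half plane of the side. -/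
private theorem SE_dc {a b : ℕ} {ω : Finset Edge} {e : Edge} (h : e ∈ dc (box 0 a 0 b) (ω ∪ wsd a b)) :
    e ∈ dc (box 0 a 0 b) ω ∧ 0 ≤ e.1 ∧ 0 ≤ e.2.1 := by
  unfold dc at h ⊢
  rw [mem_map] at h
  obtain ⟨e', he', rfl⟩ := h
  rw [mem_sdiff, mem_union, not_or] at he'
  obtain ⟨h1, h2, h3⟩ := he'
  refine ⟨mem_map.2 ⟨e', mem_sdiff.2 ⟨h1, h2⟩, rfl⟩, ?_⟩
  obtain ⟨x, y, t⟩ := e'
  rw [curve_box] at h1
  have hlow : ∀ x : ℤ, 0 ≤ x → x < a → (x, (0 : ℤ), false) ∈ wsd a b := by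
    intro x h0 h1
    have h4 := curve_low a b ∅ x h0 h1
    rwa [empty_union] at h4
  have hlft : ∀ y : ℤ, 0 ≤ y → y < b → ((0 : ℤ), y, true) ∈ wsd a b := by
    intro y h0 h1
    have h4 := curve_lft a b ∅ y h0 h1
    rwa [empty_union] at h4
  cases t
  · change 0 ≤ x ∧ 0 ≤ y - 1
    rcases h1 with h1 | h1
    · have hy : y ≠ 0 := by
        intro hy
        rw [hy] at h3
        exact h3 (hlow x h1.2.1 h1.2.2.1)
      omega
    · exact absurd h1.1 (by decide)
  · change 0 ≤ x - 1 ∧ 0 ≤ y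
    rcases h1 with h1 | h1
    · exact absurd h1.1 (by decide)
    · have hx : x ≠ 0 := by
        intro hx
        rw [hx] at h3
        exact h3 (hlft y h1.2.2.2.1 h1.2.2.2.2)
      omega

/-- The interface near the left or the lower side gives a dual arm. -/
theorem near_wired {a b : ℕ} {ω : Finset Edge} (hω : ω ⊆ box 0 a 0 b) {s : Fin 4} (hs : s = 2 ∨ s = 3) {y : ℤ} {r R : ℕ} (hrR : r + 1 ≤ R)
    (h1 : (R : ℤ) < y) (h2 : y + R < ls s a b) (h3 : R < lo s a b) (h : Near a b (zs s a b y) r ω) :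
    Arm s (zs s a b y) (r + 1) R (FKN.dc (box 0 a 0 b) ω) := by
  obtain ⟨k, hk, hv⟩ := h
  have hrR' : (r : ℤ) + 1 ≤ R := by exact_mod_cast hrR
  -- points on the opposite lines are far away
  have hfar : ∀ u : V, (u.1 = a ∨ u.2 = b) → (R : ℤ) < sd (zs s a b y) u := by
    intro u hu
    by_contra hcon
    push Not at hcon
    have h4 := sd_le.1 hcon
    rcases hs with rfl | rfl
    · simp only [zs, lo, ls] at h4 h3 h2
      rcases hu with hu | hu
      · rw [hu] at h4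
        omega
      · rw [hu] at h4
        omega
    · simp only [zs, lo, ls] at h4 h3 h2
      rcases hu with hu | hu
      · rw [hu] at h4
        omega
      · rw [hu] at h4
        omega
  have hG : Gam a b ω ((next (ω ∪ wsd a b))^[k] (2 * (a : ℤ) + 1, 0)) :=
    ⟨k, rfl, fun i hi => (steps_hits hω).2 i (lt_of_lt_of_le hi hk)⟩
  have hvv : vx a b ω k = vtx ((next (ω ∪ wsd a b))^[k] (2 * (a : ℤ) + 1, 0)) := rfl
  obtain ⟨p, hp⟩ : ∃ p : V, p = (next (ω ∪ wsd a b))^[k] (2 * (a : ℤ) + 1, 0) := ⟨_, rfl⟩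
  rw [← hp] at hG hvv
  rw [hvv] at hv
  have hpos : 1 ≤ p.1 ∧ 1 ≤ p.2 := by
    rcases gam_range hω hG with h4 | h4 | h4
    · exfalso
      have h5 := hfar (vtx p) (Or.inl (by
        rw [h4]
        change (2 * (a : ℤ) + 1) / 2 = a
        omega))
      omega
    · exfalso
      have h5 := hfar (vtx p) (Or.inr (by
        rw [h4]
        change (2 * (b : ℤ) + 1) / 2 = b
        omega))
      omega
    · exact ⟨h4.1, h4.2.2.1⟩
  obtain ⟨g, hg, hreach0⟩ := (gam_fwd hω hpos.1 hpos.2 hG).2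
  have hfc : sd (zs s a b y) (fc p) ≤ (r : ℤ) + 1 := by
    have h4 := sd_tri (zs s a b y) (vtx p) (fc p)
    have h5 : sd (vtx p) (fc p) ≤ 1 := by
      rw [sd_le]
      change (p.1 / 2 - 1 ≤ (p.1 - 1) / 2 ∧ (p.1 - 1) / 2 ≤ p.1 / 2 + 1) ∧
        (p.2 / 2 - 1 ≤ (p.2 - 1) / 2 ∧ (p.2 - 1) / 2 ≤ p.2 / 2 + 1)
      omega
    omega
  obtain ⟨w, hw, hreach⟩ := reach_level (S := dc (box 0 a 0 b) (ω ∪ wsd a b))
    (lv := sd (zs s a b y)) (fun e _ => sd_edge _ e) hreach0 (R := R) (hfc.trans hrR')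
    (hfar g hg).le
  refine ⟨fc p, w, by push_cast; exact hfc, hw.ge, SimpleGraph.Reachable.mono (gr_mono ?_) hreach⟩
  intro e he
  rw [mem_filter] at he
  obtain ⟨he, hlt⟩ := he
  have hed := sd_edge (zs s a b y) e
  have hle1 : sd (zs s a b y) (ea e) ≤ R := by omega
  have hle2 : sd (zs s a b y) (eb e) ≤ R := by omega
  obtain ⟨hed1, he0, he1⟩ := SE_dc he
  refine mem_inter.2 ⟨hed1, ?_⟩
  have k1 := sd_le.1 hle1
  have k2 := sd_le.1 hle2
  obtain ⟨e1, e2, e3⟩ := SE_edge e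
  rw [e1, e2] at k1
  rcases hs with rfl | rfl
  · simp only [zs] at k1 k2
    change e ∈ box (0 : ℤ) (0 + R) (y - R) (y + R)
    rw [mem_box]
    rcases e3 with ⟨e4, e5, e6⟩ | ⟨e4, e5, e6⟩
    · rw [e5, e6] at k2
      rw [e4]
      simp only [Bool.false_eq_true, false_and, or_false, true_and]
      omega
    · rw [e5, e6] at k2
      rw [e4]
      simp only [Bool.true_eq_false, false_and, false_or, true_and]
      omega
  · simp only [zs] at k1 k2
    change e ∈ box (y - R) (y + R) (0 : ℤ) (0 + R)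
    rw [mem_box]
    rcases e3 with ⟨e4, e5, e6⟩ | ⟨e4, e5, e6⟩
    · rw [e5, e6] at k2
      rw [e4]
      simp only [Bool.false_eq_true, false_and, or_false, true_and]
      omega
    · rw [e5, e6] at k2
      rw [e4]
      simp only [Bool.true_eq_false, false_and, false_or, true_and]
      omega

end DimLim
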