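import Pool.Agent.Lib.MP_216314_pr.IC.SC
import Pool.Agent.Lib.MP_216314_pr.IC.SD
import Pool.Agent.Lib.MP_216314_pr.IC.SE

/-!
# Leaf SF: the probability that the interface comes near to a point of a side (medium-)

`arm_pr h`: `C1`; `C = max 1 (2 C1)`. If `r = R`: `Pr ≤ 1`, `(r / R) ^ (1/3) = 1`. Let `r + 1 ≤ R`, `z = zs s a b y`. `s = 0, 1`: `Pr_mono` (for `ω ⊆ box 0 a 0 b`), `near_free`, `arm_pr` with `E = box 0 a 0 b` (`hx s z R ⊆ box 0 a 0 b`: `box_mono`). `s = 2, 3`: `near_wired`: `Pr ≤ Pr (box 0 a 0 b) (fun ω => Arm s z (r + 1) R (dc (box 0 a 0 b) ω))`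
`= Pr ((box 0 a 0 b).map dl) (Arm s z (r + 1) R)` (`pr_half` (N/NBase; `Pp = IPC.Pr`), `pr_dc` (N/CP), `1 - 1/2 = 1/2`), and `hx s z R ⊆ box 0 (a - 1) 0 (b - 1) ⊆ (box 0 a 0 b).map dl` (`box_dual`, I/IVb), so `arm_pr` gives `≤ C1 ((r + 1) / R) ^ (1/3) ≤ C1 2 ^ (1/3) (r / R) ^ (1/3) ≤ 2 C1 (r / R) ^ (1/3)`.
-/

set_option autoImplicit false

noncomputable section

namespace DimLim

open Finset FKI FKP FKN

private theorem SF_pow {r R : ℕ} (hr : 1 ≤ r) {C : ℝ} (hC : 0 < C) :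
    C * ((((r + 1 : ℕ) : ℝ)) / R) ^ (1 / 3 : ℝ) ≤ 2 * C * ((r : ℝ) / R) ^ (1 / 3 : ℝ) := by
  have hr' : (1 : ℝ) ≤ r := by exact_mod_cast hr
  have h0 : (0 : ℝ) ≤ (r : ℝ) / R := by positivity
  have h1 : (((r + 1 : ℕ) : ℝ)) / R ≤ 2 * ((r : ℝ) / R) := by
    rw [← mul_div_assoc]
    refine div_le_div_of_nonneg_right ?_ (Nat.cast_nonneg R)
    push_cast
    linarith
  have h2 : ((((r + 1 : ℕ) : ℝ)) / R) ^ (1 / 3 : ℝ) ≤ (2 * ((r : ℝ) / R)) ^ (1 / 3 : ℝ) :=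
    Real.rpow_le_rpow (by positivity) h1 (by norm_num)
  rw [Real.mul_rpow (by norm_num) h0] at h2
  have h3 : (2 : ℝ) ^ (1 / 3 : ℝ) ≤ 2 := by
    have h4 := Real.rpow_le_rpow_of_exponent_le (x := 2) (by norm_num) (show (1 / 3 : ℝ) ≤ 1 by norm_num)
    rw [Real.rpow_one] at h4
    exact h4
  have h5 : 0 ≤ ((r : ℝ) / R) ^ (1 / 3 : ℝ) := Real.rpow_nonneg h0 _
  have h6 : (2 : ℝ) ^ (1 / 3 : ℝ) * ((r : ℝ) / R) ^ (1 / 3 : ℝ) ≤ 2 * ((r : ℝ) / R) ^ (1 / 3 : ℝ) :=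
    mul_le_mul_of_nonneg_right h3 h5
  have h7 := mul_le_mul_of_nonneg_left (h2.trans h6) hC.le
  linarith

private theorem SF_dual (E : Finset Edge) (A : Finset Edge → Prop) :
    FKP.Pr E (fun ω => A (FKN.dc E ω)) = FKP.Pr (E.map FKN.dl.toEmbedding) A := by
  rw [pr_half, pr_half]
  unfold Pp
  rw [pr_dc]
  norm_num

theorem near_prob (h : HalfArm) : ∃ C : ℝ, 0 < C ∧ ∀ (s : Fin 4) (a b r R : ℕ) (y : ℤ), 1 ≤ r → r ≤ R → (R : ℤ) < y →
    y + R < ls s a b → R < lo s a b →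
    FKP.Pr (box 0 a 0 b) (Near a b (zs s a b y) r) ≤ C * ((r : ℝ) / R) ^ (1 / 3 : ℝ) := by
  obtain ⟨C1, hC1, hA⟩ := arm_pr h
  refine ⟨max 1 (2 * C1), lt_of_lt_of_le one_pos (le_max_left _ _), ?_⟩
  intro s a b r R y hr hrR h1 h2 h3
  have h0 : (0 : ℝ) ≤ (r : ℝ) / R := by positivity
  have hp : 0 ≤ ((r : ℝ) / R) ^ (1 / 3 : ℝ) := Real.rpow_nonneg h0 _
  rcases Nat.eq_or_lt_of_le hrR with he | hlt
  · have hR : (R : ℝ) ≠ 0 := by
      have : 1 ≤ R := hr.trans hrR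
      positivity
    have h4 : ((r : ℝ) / R) ^ (1 / 3 : ℝ) = 1 := by
      rw [he, div_self hR, Real.one_rpow]
    rw [h4, mul_one]
    exact (Pr_le_one _ _).trans (le_max_left _ _)
  · have hkey : ∀ t : ℝ, t ≤ 2 * C1 * ((r : ℝ) / R) ^ (1 / 3 : ℝ) →
        t ≤ max 1 (2 * C1) * ((r : ℝ) / R) ^ (1 / 3 : ℝ) := fun t ht =>
      ht.trans (mul_le_mul_of_nonneg_right (le_max_right _ _) hp)
    have hfree : ∀ (_ : s = 0 ∨ s = 1) (_ : hx s (zs s a b y) R ⊆ box 0 a 0 b),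
        FKP.Pr (box 0 a 0 b) (Near a b (zs s a b y) r) ≤ max 1 (2 * C1) * ((r : ℝ) / R) ^ (1 / 3 : ℝ) := by
      intro hs hsub
      refine hkey _ ?_
      refine (Pr_mono fun ω hω hn => near_free hω hs hrR h1 h2 h3 hn).trans ?_
      refine (hA s _ r R _ hr hrR hsub).trans ?_
      exact mul_le_mul_of_nonneg_right (by linarith) hp
    have hwired : ∀ (_ : s = 2 ∨ s = 3) (_ : hx s (zs s a b y) R ⊆ box 0 ((a : ℤ) - 1) 0 ((b : ℤ) - 1)),
        FKP.Pr (box 0 a 0 b) (Near a b (zs s a b y) r) ≤ max 1 (2 * C1) * ((r : ℝ) / R) ^ (1 / 3 : ℝ) := by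
      intro hs hsub
      refine hkey _ ?_
      refine (Pr_mono (B := fun ω => Arm s (zs s a b y) (r + 1) R (FKN.dc (box 0 a 0 b) ω))
        fun ω hω hn => near_wired hω hs hlt h1 h2 h3 hn).trans ?_
      rw [SF_dual]
      refine (hA s _ (r + 1) R _ (Nat.le_add_left 1 r) hlt (hsub.trans box_dual)).trans ?_
      exact SF_pow hr hC1
    match s, h2, h3, hfree, hwired with
    | 0, h2, h3, hfree, _ =>
      refine hfree (Or.inl rfl) (box_mono ?_ ?_ ?_ ?_)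
      · show (0 : ℤ) ≤ (a : ℤ) - R
        have h5 : R < a := h3
        omega
      · exact le_refl _
      · show (0 : ℤ) ≤ y - R
        omega
      · show y + R ≤ (b : ℤ)
        have h5 : y + R < (b : ℤ) := h2
        omega
    | 1, h2, h3, hfree, _ =>
      refine hfree (Or.inr rfl) (box_mono ?_ ?_ ?_ ?_)
      · show (0 : ℤ) ≤ y - R
        omega
      · show y + R ≤ (a : ℤ)
        have h5 : y + R < (a : ℤ) := h2
        omega
      · show (0 : ℤ) ≤ (b : ℤ) - R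
        have h5 : R < b := h3
        omega
      · exact le_refl _
    | 2, h2, h3, _, hwired =>
      refine hwired (Or.inl rfl) (box_mono ?_ ?_ ?_ ?_)
      · exact le_refl _
      · show (0 : ℤ) + R ≤ (a : ℤ) - 1
        have h5 : R < a := h3
        omega
      · show (0 : ℤ) ≤ y - R
        omega
      · show y + R ≤ (b : ℤ) - 1
        have h5 : y + R < (b : ℤ) := h2
        omega
    | 3, h2, h3, _, hwired =>
      refine hwired (Or.inr rfl) (box_mono ?_ ?_ ?_ ?_)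
      · show (0 : ℤ) ≤ y - R
        omega
      · show y + R ≤ (a : ℤ) - 1
        have h5 : y + R < (a : ℤ) := h2
        omega
      · exact le_refl _
      · show (0 : ℤ) + R ≤ (b : ℤ) - 1
        have h5 : R < b := h3
        omega

end DimLim
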