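import Pool.Agent.Lib.MP_216314_pr.IC.D0

/-!
# Multiple points of curves

`Visits l c x`: the curve `c` visits the point `x` at least `l` times, and it leaves `x` between these visits. `MVis l ρ L c x`: the curve
comes `l` times to a distance less than `ρ` of `x`, with excursions to a distance more than `L` between these times. The second
condition is open in the space of curves.
-/

set_option autoImplicit false

noncomputable section

namespace DimLim

open MeasureTheory Filter Topology Set ENNReal NNReal TopologicalSpace Metric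

/-- The curve visits the point `x` at least `l` times, and it leaves `x` between these visits. -/
def Visits {E : Type*} [MetricSpace E] (l : ℕ) (c : Curve E) (x : E) : Prop :=
  ∃ f : PCurve E, SeparationQuotient.mk f = c ∧ ∃ t s : ℕ → unitInterval, (∀ i < l, f.fn (t i) = x) ∧
    ∀ i, i + 1 < l → t i ≤ s i ∧ s i ≤ t (i + 1) ∧ f.fn (s i) ≠ x

/-- The parametrised curve comes `l` times to a distance less than `ρ` of `x`, with excursions to a distance more than `L`. -/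
def PVis {E : Type*} [MetricSpace E] (l : ℕ) (ρ L : ℝ) (f : PCurve E) (x : E) : Prop :=
  ∃ t s : ℕ → unitInterval, (∀ i < l, dist (f.fn (t i)) x < ρ) ∧
    ∀ i, i + 1 < l → t i ≤ s i ∧ s i ≤ t (i + 1) ∧ L < dist (f.fn (s i)) x

/-- The curve comes `l` times to a distance less than `ρ` of `x`, with excursions to a distance more than `L`. -/
def MVis {E : Type*} [MetricSpace E] (l : ℕ) (ρ L : ℝ) (c : Curve E) (x : E) : Prop :=
  ∃ f : PCurve E, SeparationQuotient.mk f = c ∧ PVis l ρ L f x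

theorem pvis_open {E : Type*} [MetricSpace E] (l : ℕ) (ρ L : ℝ) (x : E) : IsOpen {f : PCurve E | PVis l ρ L f x} := by
  rw [Metric.isOpen_iff]
  rintro f ⟨t, s, h1, h2⟩
  have e1 : ∀ᶠ ε in 𝓝[>] (0 : ℝ), ∀ i ∈ Finset.range l, dist (f.fn (t i)) x + ε < ρ := by
    rw [Filter.eventually_all_finset]
    intro i hi
    have h3 : Tendsto (fun ε : ℝ => dist (f.fn (t i)) x + ε) (𝓝[>] 0) (𝓝 (dist (f.fn (t i)) x + 0)) :=
      (tendsto_const_nhds.add tendsto_id).mono_left nhdsWithin_le_nhds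
    rw [add_zero] at h3
    exact h3.eventually (gt_mem_nhds (h1 i (Finset.mem_range.1 hi)))
  have e2 : ∀ᶠ ε in 𝓝[>] (0 : ℝ), ∀ i ∈ Finset.range l, i + 1 < l → L < dist (f.fn (s i)) x - ε := by
    rw [Filter.eventually_all_finset]
    intro i _
    by_cases hi : i + 1 < l
    · have h3 : Tendsto (fun ε : ℝ => dist (f.fn (s i)) x - ε) (𝓝[>] 0) (𝓝 (dist (f.fn (s i)) x - 0)) :=
        (tendsto_const_nhds.sub tendsto_id).mono_left nhdsWithin_le_nhds
      rw [sub_zero] at h3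
      filter_upwards [h3.eventually (lt_mem_nhds (h2 i hi).2.2)] with ε hε _
      exact hε
    · exact Eventually.of_forall fun ε h3 => absurd h3 hi
  obtain ⟨ε, h3, h4, hε⟩ := (e1.and (e2.and self_mem_nhdsWithin)).exists
  refine ⟨ε, hε, fun g hg => ?_⟩
  rw [mem_ball, dist_comm] at hg
  obtain ⟨φ, hφ⟩ := pc_lt hg
  have h5 : ∀ u : unitInterval, dist (f.fn u) (g.fn (φ u)) < ε := fun u =>
    (ContinuousMap.dist_apply_le_dist (f := f.fn) (g := g.rep φ) u).trans_lt hφ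
  refine ⟨fun i => φ (t i), fun i => φ (s i), fun i hi => ?_, fun i hi => ?_⟩
  · have h6 := h3 i (Finset.mem_range.2 hi)
    have h7 := h5 (t i)
    have h8 := dist_triangle (g.fn (φ (t i))) (f.fn (t i)) x
    rw [dist_comm (g.fn (φ (t i))) (f.fn (t i))] at h8
    linarith
  · obtain ⟨h6, h7, -⟩ := h2 i hi
    refine ⟨φ.monotone h6, φ.monotone h7, ?_⟩
    have h8 := h4 i (Finset.mem_range.2 (by omega)) hi
    have h9 := h5 (s i)
    have h10 := dist_triangle (f.fn (s i)) (g.fn (φ (s i))) x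
    linarith

/-- The condition does not depend on the parametrisation. -/
theorem mvis_mk {E : Type*} [MetricSpace E] {l : ℕ} {ρ L : ℝ} (f : PCurve E) (x : E) :
    MVis l ρ L (SeparationQuotient.mk f) x ↔ PVis l ρ L f x := by
  refine ⟨?_, fun h => ⟨f, rfl, h⟩⟩
  rintro ⟨g, hg, h⟩
  have h1 : Inseparable g f := SeparationQuotient.mk_eq_mk.1 hg
  exact (h1.mem_open_iff (pvis_open l ρ L x)).1 h

theorem mvis_open {E : Type*} [MetricSpace E] (l : ℕ) (ρ L : ℝ) (K : Set E) :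
    IsOpen {c : Curve E | ∃ x ∈ K, MVis l ρ L c x} := by
  have h1 : {c : Curve E | ∃ x ∈ K, MVis l ρ L c x} =
      ⋃ x ∈ K, (SeparationQuotient.mk : PCurve E → Curve E) '' {f | PVis l ρ L f x} := by
    ext c
    rw [mem_iUnion₂]
    constructor
    · rintro ⟨x, hx, f, hf, h⟩
      exact ⟨x, hx, f, h, hf⟩
    · rintro ⟨x, hx, f, h, hf⟩
      exact ⟨x, hx, f, hf, h⟩
  rw [h1]
  exact isOpen_biUnion fun x _ => SeparationQuotient.isOpenMap_mk _ (pvis_open l ρ L x)

theorem mvis_mono {E : Type*} [MetricSpace E] {l : ℕ} {ρ ρ' L L' : ℝ} (h1 : ρ ≤ ρ') (h2 : L' ≤ L) {c : Curve E} {x : E}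
    (h : MVis l ρ L c x) : MVis l ρ' L' c x := by
  obtain ⟨f, hf, t, s, h3, h4⟩ := h
  exact ⟨f, hf, t, s, fun i hi => (h3 i hi).trans_le h1, fun i hi =>
    ⟨(h4 i hi).1, (h4 i hi).2.1, h2.trans_lt (h4 i hi).2.2⟩⟩

theorem visits_mvis {E : Type*} [MetricSpace E] {l : ℕ} {c : Curve E} {x : E} (h : Visits l c x) :
    ∃ L : ℝ, 0 < L ∧ ∀ ρ : ℝ, 0 < ρ → MVis l ρ L c x := by
  obtain ⟨f, hf, t, s, h1, h2⟩ := h
  have e2 : ∀ᶠ L in 𝓝[>] (0 : ℝ), ∀ i ∈ Finset.range l, i + 1 < l → L < dist (f.fn (s i)) x := by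
    rw [Filter.eventually_all_finset]
    intro i _
    by_cases hi : i + 1 < l
    · have h3 : ∀ᶠ L in 𝓝[>] (0 : ℝ), L < dist (f.fn (s i)) x :=
        (gt_mem_nhds (dist_pos.2 (h2 i hi).2.2)).filter_mono nhdsWithin_le_nhds
      filter_upwards [h3] with L hL _
      exact hL
    · exact Eventually.of_forall fun L h3 => absurd h3 hi
  obtain ⟨L, h3, hL⟩ := (e2.and self_mem_nhdsWithin).exists
  refine ⟨L, hL, fun ρ hρ => ⟨f, hf, t, s, fun i hi => ?_, fun i hi => ?_⟩⟩
  · rw [h1 i hi, dist_self]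
    exact hρ
  · exact ⟨(h2 i hi).1, (h2 i hi).2.1, h3 i (Finset.mem_range.2 (by omega)) hi⟩

/-- The number of the visits does not depend on the parametrisation. -/
theorem visits_mk {E : Type*} [MetricSpace E] {l : ℕ} (f : PCurve E) (x : E) :
    Visits l (SeparationQuotient.mk f) x ↔ ∃ t s : ℕ → unitInterval, (∀ i < l, f.fn (t i) = x) ∧
      ∀ i, i + 1 < l → t i ≤ s i ∧ s i ≤ t (i + 1) ∧ f.fn (s i) ≠ x := by
  refine ⟨?_, fun h => ⟨f, rfl, h⟩⟩
  rintro ⟨g, hg, t, s, h1, h2⟩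
  have h3 : dist g f = 0 := Metric.inseparable_iff.1 (SeparationQuotient.mk_eq_mk.1 hg)
  have h4 : ∀ n : ℕ, ∃ φ : unitInterval ≃o unitInterval, dist g.fn (f.rep φ) < 1 / ((n : ℝ) + 1) := fun n =>
    pc_lt (by rw [h3]; positivity)
  choose φ hφ using h4
  obtain ⟨p, -, ψ, hψ, hp⟩ := (isCompact_univ (X := (ℕ → unitInterval) × (ℕ → unitInterval))).tendsto_subseq
    (x := fun n => ((fun i => φ n (t i)), (fun i => φ n (s i)))) fun _ => mem_univ _
  have ht : ∀ i, Tendsto (fun n => φ (ψ n) (t i)) atTop (𝓝 (p.1 i)) := fun i =>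
    ((continuous_apply i).comp continuous_fst).continuousAt.tendsto.comp hp
  have hs : ∀ i, Tendsto (fun n => φ (ψ n) (s i)) atTop (𝓝 (p.2 i)) := fun i =>
    ((continuous_apply i).comp continuous_snd).continuousAt.tendsto.comp hp
  have hlim : ∀ (u : unitInterval) (v : unitInterval), Tendsto (fun n => φ (ψ n) u) atTop (𝓝 v) →
      f.fn v = g.fn u := by
    intro u v huv
    have h5 : Tendsto (fun n => f.fn (φ (ψ n) u)) atTop (𝓝 (f.fn v)) := (f.fn.continuous.tendsto v).comp huv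
    have h6 : Tendsto (fun n => f.fn (φ (ψ n) u)) atTop (𝓝 (g.fn u)) := by
      rw [tendsto_iff_dist_tendsto_zero]
      have h7 : Tendsto (fun n => 1 / ((ψ n : ℝ) + 1)) atTop (𝓝 0) :=
        tendsto_one_div_add_atTop_nhds_zero_nat.comp hψ.tendsto_atTop
      refine squeeze_zero (fun _ => dist_nonneg) (fun n => ?_) h7
      rw [dist_comm]
      exact (ContinuousMap.dist_apply_le_dist (f := g.fn) (g := f.rep (φ (ψ n))) u).trans (hφ (ψ n)).le
    exact tendsto_nhds_unique h5 h6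
  refine ⟨p.1, p.2, fun i hi => ?_, fun i hi => ?_⟩
  · rw [hlim _ _ (ht i), h1 i hi]
  · obtain ⟨h5, h6, h7⟩ := h2 i hi
    refine ⟨le_of_tendsto_of_tendsto' (ht i) (hs i) fun n => (φ (ψ n)).monotone h5,
      le_of_tendsto_of_tendsto' (hs i) (ht (i + 1)) fun n => (φ (ψ n)).monotone h6, ?_⟩
    rw [hlim _ _ (hs i)]
    exact h7

/-- Upper bounds for the laws of the curves pass to the limit. -/
theorem vis_port {E : Type*} [MetricSpace E] [SecondCountableTopology E] [MeasurableSpace (Curve E)] [BorelSpace (Curve E)]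
    {μ : ℕ → ProbabilityMeasure (Curve E)} {ν : ProbabilityMeasure (Curve E)} (hμ : Tendsto μ atTop (𝓝 ν))
    {l : ℕ} {ρ L : ℝ} {K : Set E} {b : ℝ≥0∞}
    (h : ∀ᶠ k in atTop, (μ k : Measure (Curve E)) {c | ∃ x ∈ K, MVis l ρ L c x} ≤ b) :
    (ν : Measure (Curve E)) {c | ∃ x ∈ K, MVis l ρ L c x} ≤ b := by
  refine (ProbabilityMeasure.le_liminf_measure_open_of_tendsto hμ (mvis_open l ρ L K)).trans ?_
  refine (liminf_le_liminf h).trans ?_
  rw [liminf_const]

/-- If it is unlikely that the curve comes near to one of the points of `K m` `l` times, then no point is visited `l` times. -/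
theorem vis_null {E : Type*} [MetricSpace E] [MeasurableSpace (Curve E)] [BorelSpace (Curve E)]
    {ν : ProbabilityMeasure (Curve E)} {l : ℕ} (K : ℕ → Set E)
    (h : ∀ (m : ℕ) (L : ℝ), 0 < L → ∀ ε : ℝ, 0 < ε → ∃ ρ : ℝ, 0 < ρ ∧
      (ν : Measure (Curve E)) {c | ∃ x ∈ K m, MVis l ρ L c x} ≤ ENNReal.ofReal ε) :
    ∀ᵐ (c : Curve E) ∂(ν : Measure (Curve E)), ∀ m, ∀ x ∈ K m, ¬ Visits l c x := by
  have h1 : ∀ᵐ (c : Curve E) ∂(ν : Measure (Curve E)), ∀ m n : ℕ,
      ¬ ∀ ρ : ℝ, 0 < ρ → ∃ x ∈ K m, MVis l ρ (1 / ((n : ℝ) + 1)) c x := by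
    rw [ae_all_iff]
    intro m
    rw [ae_all_iff]
    intro n
    rw [ae_iff]
    refine le_antisymm ?_ zero_le
    refine _root_.le_of_forall_pos_le_add fun ε hε => ?_
    rw [zero_add]
    obtain ⟨r, hr, hr2⟩ : ∃ r : ℝ, 0 < r ∧ ENNReal.ofReal r ≤ ε := by
      rcases eq_or_ne ε ⊤ with h2 | h2
      · exact ⟨1, one_pos, by rw [h2]; exact le_top⟩
      · exact ⟨ε.toReal, ENNReal.toReal_pos hε.ne' h2, by rw [ENNReal.ofReal_toReal h2]⟩
    obtain ⟨ρ, hρ, hb⟩ := h m (1 / ((n : ℝ) + 1)) (by positivity) r hr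
    refine (measure_mono ?_).trans (hb.trans hr2)
    intro c hc
    rw [mem_ofPred_eq, not_not] at hc
    exact hc ρ hρ
  filter_upwards [h1] with c hc m x hx hv
  obtain ⟨L, hL, hv2⟩ := visits_mvis hv
  obtain ⟨n, hn⟩ := exists_nat_one_div_lt hL
  exact hc m n fun ρ hρ => ⟨x, hx, mvis_mono le_rfl hn.le (hv2 ρ hρ)⟩

end DimLim
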