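import Pool.Agent.Lib.MP_216314_pr.IC.W0

/-!
# Leaf WF: the curve and the vertices of the interface (easy+ / medium-)

PROOF. `idx T u = ⌊T u⌋₊`. `idx_mono`: `Nat.floor_mono`. `idx_le`: `T u ≤ T`. `icurve_idx`: `pl_eq` (IC/PL) with `i = idx T u`, `θ = T u - i` (if `i = T` then `T u = T`, `θ = 0`) gives
`pl T x u = x i + θ (x (i + 1) - x i)`; then as in `icurve_near` (IC/IF): `vx_succ`, `Prod.dist_eq`, `abs_projIcc_sub_projIcc`.
-/

set_option autoImplicit false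

noncomputable section

namespace DimLim

open Finset FKI FKP FKN

/-- The index of the vertex before the time `u`. -/
def idx (T : ℕ) (u : unitInterval) : ℕ := ⌊(T : ℝ) * (u : ℝ)⌋₊

theorem idx_mono (T : ℕ) {u v : unitInterval} (h : u ≤ v) : idx T u ≤ idx T v := by
  unfold idx
  exact Nat.floor_mono (mul_le_mul_of_nonneg_left h (Nat.cast_nonneg T))

theorem idx_le (T : ℕ) (u : unitInterval) : idx T u ≤ T := by
  unfold idx
  exact Nat.floor_le_of_le (mul_le_of_le_one_right (Nat.cast_nonneg T) u.2.2)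

private theorem WF_dist {δ : ℝ} (hδ : 0 < δ) {x θ y : ℝ} (h0 : 0 ≤ θ) (h1 : θ ≤ 1) (h2 : |y - x| ≤ 1) :
    |δ * x + θ * (δ * y - δ * x) - δ * x| ≤ δ := by
  have h3 : δ * x + θ * (δ * y - δ * x) - δ * x = δ * (θ * (y - x)) := by ring
  rw [h3, abs_mul, abs_mul, abs_of_pos hδ, abs_of_nonneg h0]
  have h4 : θ * |y - x| ≤ 1 := by nlinarith [abs_nonneg (y - x)]
  nlinarith

/-- The curve is near the vertex of the index. -/
theorem icurve_idx {A B : ℝ} (hA : 0 ≤ A) (hB : 0 ≤ B) {δ : ℝ} (hδ : 0 < δ) (a b : ℕ) (ω : Finset Edge) (u : unitInterval) :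
    dist ((icurve hA hB δ a b ω).fn u) (emb hA hB δ (vx a b ω (idx (steps a b ω) u))) ≤ δ := by
  set T := steps a b ω with hTdef
  have hT0 : (0 : ℝ) ≤ T := Nat.cast_nonneg T
  have hu0 : 0 ≤ (T : ℝ) * (u : ℝ) := mul_nonneg hT0 u.2.1
  have hu1 : (T : ℝ) * (u : ℝ) ≤ T := mul_le_of_le_one_right hT0 u.2.2
  have h3 : ((idx T u : ℕ) : ℝ) ≤ (T : ℝ) * (u : ℝ) := Nat.floor_le hu0
  have h4 : (T : ℝ) * (u : ℝ) < (idx T u : ℕ) + 1 := Nat.lt_floor_add_one _
  have h5 : idx T u = T → (T : ℝ) * (u : ℝ) - (idx T u : ℕ) = 0 := by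
    intro h
    rw [h] at h3 ⊢
    linarith
  have hpl := pl_eq (idx_le T u) (by linarith : (0 : ℝ) ≤ (T : ℝ) * (u : ℝ) - (idx T u : ℕ)) (by linarith) h5
    (by ring : (T : ℝ) * (u : ℝ) = (idx T u : ℕ) + ((T : ℝ) * (u : ℝ) - (idx T u : ℕ)))
  have h2 := vx_succ a b ω (idx T u)
  show dist (Set.projIcc 0 A hA (pl T (fun i => δ * (vx a b ω i).1) u),
    Set.projIcc 0 B hB (pl T (fun i => δ * (vx a b ω i).2) u))
    (Set.projIcc 0 A hA (δ * (vx a b ω (idx T u)).1), Set.projIcc 0 B hB (δ * (vx a b ω (idx T u)).2)) ≤ δ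
  rw [Prod.dist_eq, max_le_iff, Subtype.dist_eq, Subtype.dist_eq, Real.dist_eq, Real.dist_eq]
  refine ⟨(Set.abs_projIcc_sub_projIcc hA).trans ?_, (Set.abs_projIcc_sub_projIcc hB).trans ?_⟩
  · rw [hpl]
    exact WF_dist hδ (by linarith) (by linarith) h2.1
  · rw [hpl]
    exact WF_dist hδ (by linarith) (by linarith) h2.2

end DimLim
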