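import Pool.Agent.Lib.MP_216314_pr.IC.S0
import Pool.Agent.Lib.MP_216314_pr.IC.WF
import Pool.Agent.Lib.MP_216314_pr.IC.VU

/-!
# Leaf SG: a point of the curve near the side gives a vertex of the interface (easy+/medium-)

`PVis 1 ρ L f x` gives `t 0` with `dist (f.fn (t 0)) x < ρ`. Let `k = idx (steps a b ω) (t 0) ≤ steps a b ω` (`idx_le`, IC/WF), `v = vx a b ω k`. `icurve_idx`: `dist (f.fn (t 0)) (emb hA hB δ v) ≤ δ`. `v` is in `[0,a] × [0,b]` (`curve_cor`, `cor`, `vtx`, as in the proof of `mem_trc`, IC/IF), so `δ v.1 ∈ [0, A]`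
(`a = ⌊A / δ⌋₊`, `δ a ≤ A`), `δ v.2 ∈ [0, B]`, and the coordinates of `emb hA hB δ v` are `δ v.1`, `δ v.2` (`Set.projIcc_of_mem`). So `|δ v.1 - x.1| < ρ + δ` (`Prod.dist_eq`, `Subtype.dist_eq`, `Real.dist_eq`), `δ |v.1 - z.1| < ρ + δ + δ m ≤ δ r`, `|v.1 - z.1| ≤ r`, the same for the second
coordinate: `sd z v ≤ r`.
-/

set_option autoImplicit false

noncomputable section

namespace DimLim

open Finset FKI FKP FKN

theorem near_of_vis {A B : ℝ} (hA : 0 ≤ A) (hB : 0 ≤ B) {δ ρ L : ℝ} (hδ : 0 < δ) {a b : ℕ} (ha : a = ⌊A / δ⌋₊) (hb : b = ⌊B / δ⌋₊)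
    {ω : Finset Edge} (hω : ω ⊆ box 0 a 0 b) {x : Rect A B} (h : PVis 1 ρ L (icurve hA hB δ a b ω) x)
    {z : V} {r m : ℕ} (hz1 : |δ * (z.1 : ℝ) - x.1| ≤ δ * m) (hz2 : |δ * (z.2 : ℝ) - x.2| ≤ δ * m)
    (hr : ρ + δ + δ * m ≤ δ * r) : Near a b z r ω := by
  obtain ⟨t, s, h1, -⟩ := h
  have h2 := h1 0 one_pos
  obtain ⟨k, hk⟩ : ∃ k, k = idx (steps a b ω) (t 0) := ⟨_, rfl⟩
  refine ⟨k, hk ▸ idx_le _ _, ?_⟩
  have h3 := icurve_idx hA hB hδ a b ω (t 0)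
  rw [← hk] at h3
  have h4 : dist (emb hA hB δ (vx a b ω k)) x < ρ + δ := by
    have h5 := dist_triangle (emb hA hB δ (vx a b ω k)) ((icurve hA hB δ a b ω).fn (t 0)) x
    rw [dist_comm (emb hA hB δ (vx a b ω k)) ((icurve hA hB δ a b ω).fn (t 0))] at h5
    linarith
  have hv : 0 ≤ (vx a b ω k).1 ∧ (vx a b ω k).1 ≤ a ∧ 0 ≤ (vx a b ω k).2 ∧ (vx a b ω k).2 ≤ b := by
    have h5 := curve_cor hω k
    unfold cor at h5
    rw [Finset.mem_product, Finset.mem_Icc, Finset.mem_Icc] at h5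
    unfold vx vtx
    simp only
    omega
  obtain ⟨v, hvd⟩ : ∃ v, v = vx a b ω k := ⟨_, rfl⟩
  rw [← hvd] at hv h4 ⊢
  obtain ⟨hv1, hv2, hv3, hv4⟩ := hv
  have ea : δ * a ≤ A := by
    have h5 := Nat.floor_le (div_nonneg hA hδ.le)
    rw [← ha, le_div_iff₀ hδ] at h5
    linarith
  have eb : δ * b ≤ B := by
    have h5 := Nat.floor_le (div_nonneg hB hδ.le)
    rw [← hb, le_div_iff₀ hδ] at h5
    linarith
  have w1 : (0 : ℝ) ≤ (v.1 : ℝ) := by exact_mod_cast hv1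
  have w2 : (v.1 : ℝ) ≤ a := by exact_mod_cast hv2
  have w3 : (0 : ℝ) ≤ (v.2 : ℝ) := by exact_mod_cast hv3
  have w4 : (v.2 : ℝ) ≤ b := by exact_mod_cast hv4
  have m1 : δ * (v.1 : ℝ) ∈ Set.Icc 0 A := ⟨by positivity, (mul_le_mul_of_nonneg_left w2 hδ.le).trans ea⟩
  have m2 : δ * (v.2 : ℝ) ∈ Set.Icc 0 B := ⟨by positivity, (mul_le_mul_of_nonneg_left w4 hδ.le).trans eb⟩
  unfold emb at h4
  rw [Prod.dist_eq, max_lt_iff, Subtype.dist_eq, Subtype.dist_eq, Real.dist_eq, Real.dist_eq,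
    Set.projIcc_of_mem hA m1, Set.projIcc_of_mem hB m2] at h4
  obtain ⟨h5, h6⟩ := h4
  have key : ∀ (p q : ℤ) (y : ℝ), |δ * (q : ℝ) - y| < ρ + δ → |δ * (p : ℝ) - y| ≤ δ * m → |q - p| ≤ r := by
    intro p q y h7 h8
    have h9 : |(q : ℝ) - p| ≤ r := by
      have h10 : δ * |(q : ℝ) - p| ≤ δ * r := by
        calc δ * |(q : ℝ) - p| = |δ * ((q : ℝ) - p)| := by rw [abs_mul, abs_of_pos hδ]
          _ = |(δ * (q : ℝ) - y) - (δ * (p : ℝ) - y)| := by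
            refine congrArg (fun x => |x|) ?_
            ring
          _ ≤ |δ * (q : ℝ) - y| + |δ * (p : ℝ) - y| := abs_sub _ _
          _ ≤ δ * r := by linarith
      exact le_of_mul_le_mul_left h10 hδ
    exact_mod_cast h9
  unfold sd
  rw [max_le_iff]
  exact ⟨key _ _ _ h5 hz1, key _ _ _ h6 hz2⟩

end DimLim
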