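import Pool.Agent.Lib.MP_216314_pr.IC.SF
import Pool.Agent.Lib.MP_216314_pr.IC.SG

/-!
# Leaf SH: the probability that the curve comes near to a point of a side (medium)

`near_prob h`: `C1`. Let `L = min (1 / (m + 1)) (min A B) / 2`, so `2 L ≤ 1 / (m + 1)`, `2 L ≤ A`, `2 L ≤ B`; `C = (32 / L) ^ (1/3) + C1 (8 / L) ^ (1/3)`. If `ρ > L / 32` take `δ0 = 1`: the measure is `≤ 1 ≤ (32 / L) ^ (1/3) ρ ^ (1/3)`. Let `ρ ≤ L / 32`, `δ0 = ρ / 4`, `0 < δ < δ0`, `a = ⌊A / δ⌋₊`, `b = ⌊B / δ⌋₊`.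
The measure is `ofReal (Pr (box 0 a 0 b) (fun ω => mk (icurve .. ω) ∈ S))` (`claw` (IC/IF), `lawM_apply`, I/DimP). Let `y = ⌊t / δ⌋`, `t = x0.2` for `s = 0, 2` and `t = x0.1` for `s = 1, 3`, `z = zs s a b y`, `m' = ⌈ρ / δ⌉₊ + 1`, `r = ⌈ρ / δ⌉₊ + 1 + m'`, `R = ⌊L / δ⌋₊ - 1 - m'`. For `x` in the closed ball:
`|δ z.1 - x.1| ≤ δ + ρ ≤ δ m'` (`s = 0`: `z.1 = a`, `A - δ < δ a ≤ A`, `x0.1 = A`; `s = 2`: `z.1 = 0 = x0.1`) and the same for the second coordinate, so `near_of_vis` applies (`mvis_mk`, IC/VU) for every `ω ⊆ box 0 a 0 b` with `mk (icurve .. ω) ∈ S`. As in IC/WH: `r ≤ 3 ρ / δ`, `R ≥ 15 L / (16 δ)`, `1 ≤ r ≤ R`, `r / R ≤ 8 ρ / L`;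
`R < y`: `y > t / δ - 1 ≥ 2 L / δ - 1 ≥ L / δ ≥ R`; `y + R ≤ (t + L) / δ ≤ (B - L) / δ < B / δ - 1 < b` (`A`, `a` for `s = 1, 3`); `R ≤ L / δ ≤ A / δ - 1 < a`. `Pr_mono`, `near_prob`: `≤ C1 (r / R) ^ (1/3) ≤ C1 (8 / L) ^ (1/3) ρ ^ (1/3)`.
-/

set_option autoImplicit false

noncomputable section

namespace DimLim

open MeasureTheory Filter Topology Set Metric ENNReal FKI FKP FKN

private theorem SH_coord {A δ ρ L y : ℝ} {k q : ℕ} (hδ : 0 < δ) (hP : 4 < ρ / δ)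
    (hQ : 32 * (ρ / δ) ≤ L / δ) (hk : ρ / δ ≤ k) (hkq : k + 2 ≤ q) (hq : (q : ℝ) ≤ L / δ)
    (h1 : 2 * L ≤ y) (h2 : y + 2 * L ≤ A) :
    ((q - (k + 2) : ℕ) : ℤ) < ⌊y / δ⌋ ∧ ⌊y / δ⌋ + ((q - (k + 2) : ℕ) : ℤ) < (⌊A / δ⌋₊ : ℕ) ∧
      ∀ x : ℝ, |x - y| ≤ ρ → |δ * ((⌊y / δ⌋ : ℤ) : ℝ) - x| ≤ δ * ((k + 1 : ℕ) : ℝ) := by
  have hR : ((q - (k + 2) : ℕ) : ℝ) = q - (k + 2) := by
    rw [Nat.cast_sub hkq]
    push_cast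
    ring
  have e1 : 2 * (L / δ) ≤ y / δ := by
    rw [← mul_div_assoc]
    exact div_le_div_of_nonneg_right h1 hδ.le
  have e2 : y / δ + 2 * (L / δ) ≤ A / δ := by
    rw [← mul_div_assoc, ← add_div]
    exact div_le_div_of_nonneg_right h2 hδ.le
  have f1 : ((⌊y / δ⌋ : ℤ) : ℝ) ≤ y / δ := Int.floor_le _
  have f2 : y / δ < ((⌊y / δ⌋ : ℤ) : ℝ) + 1 := Int.lt_floor_add_one _
  have f3 : A / δ < ((⌊A / δ⌋₊ : ℕ) : ℝ) + 1 := Nat.lt_floor_add_one _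
  refine ⟨?_, ?_, fun x hx => ?_⟩
  · have h3 : ((q - (k + 2) : ℕ) : ℝ) < ((⌊y / δ⌋ : ℤ) : ℝ) := by
      rw [hR]
      linarith
    exact_mod_cast h3
  · have h3 : ((⌊y / δ⌋ : ℤ) : ℝ) + ((q - (k + 2) : ℕ) : ℝ) < ((⌊A / δ⌋₊ : ℕ) : ℝ) := by
      rw [hR]
      linarith
    exact_mod_cast h3
  · have g1 : δ * ((⌊y / δ⌋ : ℤ) : ℝ) ≤ y := by
      have h3 := (le_div_iff₀ hδ).1 f1
      linarith
    have g2 : y < δ * ((⌊y / δ⌋ : ℤ) : ℝ) + δ := by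
      have h3 := (div_lt_iff₀ hδ).1 f2
      linarith
    have g3 : ρ ≤ k * δ := (div_le_iff₀ hδ).1 hk
    have g4 := abs_le.1 hx
    push_cast
    rw [abs_le]
    constructor
    · linarith [g4.2]
    · linarith [g4.1]

private theorem SH_lo {U δ ρ L : ℝ} {k q : ℕ} (hδ : 0 < δ) (hP : 4 < ρ / δ)
    (hQ : 32 * (ρ / δ) ≤ L / δ) (hkq : k + 2 ≤ q) (hq : (q : ℝ) ≤ L / δ)
    (h1 : 2 * L ≤ U) : q - (k + 2) < ⌊U / δ⌋₊ := by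
  have hR : ((q - (k + 2) : ℕ) : ℝ) = q - (k + 2) := by
    rw [Nat.cast_sub hkq]
    push_cast
    ring
  have e1 : 2 * (L / δ) ≤ U / δ := by
    rw [← mul_div_assoc]
    exact div_le_div_of_nonneg_right h1 hδ.le
  have f3 : U / δ < ((⌊U / δ⌋₊ : ℕ) : ℝ) + 1 := Nat.lt_floor_add_one _
  have h3 : ((q - (k + 2) : ℕ) : ℝ) < ((⌊U / δ⌋₊ : ℕ) : ℝ) := by
    rw [hR]
    have h4 : (0 : ℝ) ≤ k := Nat.cast_nonneg _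
    linarith
  exact_mod_cast h3

private theorem SH_end {A δ ρ : ℝ} {k : ℕ} (hA : 0 < A) (hδ : 0 < δ) (hk : ρ / δ ≤ k) {x : ℝ}
    (hx : |x - A| ≤ ρ) : |δ * (((⌊A / δ⌋₊ : ℕ) : ℤ) : ℝ) - x| ≤ δ * ((k + 1 : ℕ) : ℝ) := by
  have f1 : ((⌊A / δ⌋₊ : ℕ) : ℝ) ≤ A / δ := Nat.floor_le (by positivity)
  have f3 : A / δ < ((⌊A / δ⌋₊ : ℕ) : ℝ) + 1 := Nat.lt_floor_add_one _
  have g1 := (le_div_iff₀ hδ).1 f1
  have g2 := (div_lt_iff₀ hδ).1 f3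
  have g3 : ρ ≤ k * δ := (div_le_iff₀ hδ).1 hk
  have g4 := abs_le.1 hx
  push_cast
  rw [abs_le]
  constructor
  · linarith [g4.2]
  · linarith [g4.1]

private theorem SH_zero {δ ρ : ℝ} {k : ℕ} (hδ : 0 < δ) (hk : ρ / δ ≤ k) {x : ℝ}
    (hx : |x - 0| ≤ ρ) : |δ * ((0 : ℤ) : ℝ) - x| ≤ δ * ((k + 1 : ℕ) : ℝ) := by
  have g3 : ρ ≤ k * δ := (div_le_iff₀ hδ).1 hk
  have g4 := abs_le.1 hx
  push_cast
  rw [abs_le]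
  constructor
  · linarith [g4.2]
  · linarith [g4.1]

private theorem SH_geo {A B : ℝ} (hA : 0 < A) (hB : 0 < B) (s : Fin 4) (m : ℕ) {ρ L δ : ℝ} {x0 : Rect A B}
    (hx0 : x0 ∈ Side A B s m) (hL1 : 2 * L ≤ 1 / ((m : ℝ) + 1)) (hL2 : 2 * L ≤ A) (hL3 : 2 * L ≤ B)
    {k q : ℕ} (hδ : 0 < δ) (hP : 4 < ρ / δ) (hQ : 32 * (ρ / δ) ≤ L / δ) (hk : ρ / δ ≤ k)
    (hkq : k + 2 ≤ q) (hq : (q : ℝ) ≤ L / δ) :
    ∃ y : ℤ, ((q - (k + 2) : ℕ) : ℤ) < y ∧ y + ((q - (k + 2) : ℕ) : ℤ) < ls s ⌊A / δ⌋₊ ⌊B / δ⌋₊ ∧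
      q - (k + 2) < lo s ⌊A / δ⌋₊ ⌊B / δ⌋₊ ∧ ∀ x : Rect A B, |(x.1 : ℝ) - x0.1| ≤ ρ → |(x.2 : ℝ) - x0.2| ≤ ρ →
        |δ * (((zs s ⌊A / δ⌋₊ ⌊B / δ⌋₊ y).1 : ℤ) : ℝ) - x.1| ≤ δ * ((k + 1 : ℕ) : ℝ) ∧
        |δ * (((zs s ⌊A / δ⌋₊ ⌊B / δ⌋₊ y).2 : ℤ) : ℝ) - x.2| ≤ δ * ((k + 1 : ℕ) : ℝ) := by
  match s, hx0 with
  | 0, hx0 =>
    obtain ⟨h1, h2, h3⟩ := hx0
    obtain ⟨u1, u2, u3⟩ := SH_coord (A := B) (y := (x0.2 : ℝ)) hδ hP hQ hk hkq hq (by linarith) (by linarith)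
    refine ⟨_, u1, u2, SH_lo hδ hP hQ hkq hq hL2, fun x hx1 hx2 => ⟨?_, u3 _ hx2⟩⟩
    rw [h1] at hx1
    exact SH_end hA hδ hk hx1
  | 1, hx0 =>
    obtain ⟨h1, h2, h3⟩ := hx0
    obtain ⟨u1, u2, u3⟩ := SH_coord (A := A) (y := (x0.1 : ℝ)) hδ hP hQ hk hkq hq (by linarith) (by linarith)
    refine ⟨_, u1, u2, SH_lo hδ hP hQ hkq hq hL3, fun x hx1 hx2 => ⟨u3 _ hx1, ?_⟩⟩
    rw [h1] at hx2
    exact SH_end hB hδ hk hx2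
  | 2, hx0 =>
    obtain ⟨h1, h2, h3⟩ := hx0
    obtain ⟨u1, u2, u3⟩ := SH_coord (A := B) (y := (x0.2 : ℝ)) hδ hP hQ hk hkq hq (by linarith) (by linarith)
    refine ⟨_, u1, u2, SH_lo hδ hP hQ hkq hq hL2, fun x hx1 hx2 => ⟨?_, u3 _ hx2⟩⟩
    rw [h1] at hx1
    exact SH_zero hδ hk hx1
  | 3, hx0 =>
    obtain ⟨h1, h2, h3⟩ := hx0
    obtain ⟨u1, u2, u3⟩ := SH_coord (A := A) (y := (x0.1 : ℝ)) hδ hP hQ hk hkq hq (by linarith) (by linarith)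
    refine ⟨_, u1, u2, SH_lo hδ hP hQ hkq hq hL3, fun x hx1 hx2 => ⟨u3 _ hx1, ?_⟩⟩
    rw [h1] at hx2
    exact SH_zero hδ hk hx2

theorem claw_side (h : HalfArm) {A B : ℝ} (hA : 0 < A) (hB : 0 < B) [MeasurableSpace (Curve (Rect A B))]
    [BorelSpace (Curve (Rect A B))] (s : Fin 4) (m : ℕ) : ∃ C : ℝ, 0 < C ∧ ∀ (ρ L' : ℝ) (x0 : Rect A B), 0 < ρ → x0 ∈ Side A B s m →
      ∃ δ0 : ℝ, 0 < δ0 ∧ ∀ δ : ℝ, 0 < δ → δ < δ0 →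
        (claw hA.le hB.le δ : Measure (Curve (Rect A B))) {c | ∃ x ∈ closedBall x0 ρ, MVis 1 ρ L' c x} ≤
          ENNReal.ofReal (C * ρ ^ (1 / 3 : ℝ)) := by
  obtain ⟨C1, hC1, hT⟩ := near_prob h
  obtain ⟨L, hL, hL1, hL2, hL3⟩ : ∃ L : ℝ, 0 < L ∧ 2 * L ≤ 1 / ((m : ℝ) + 1) ∧ 2 * L ≤ A ∧ 2 * L ≤ B := by
    refine ⟨min (1 / ((m : ℝ) + 1)) (min A B) / 2, ?_, ?_, ?_, ?_⟩
    · have h1 : 0 < min (1 / ((m : ℝ) + 1)) (min A B) := lt_min (by positivity) (lt_min hA hB)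
      linarith
    · have h1 := min_le_left (1 / ((m : ℝ) + 1)) (min A B)
      linarith
    · have h1 := (min_le_right (1 / ((m : ℝ) + 1)) (min A B)).trans (min_le_left A B)
      linarith
    · have h1 := (min_le_right (1 / ((m : ℝ) + 1)) (min A B)).trans (min_le_right A B)
      linarith
  have hal : (0 : ℝ) ≤ 1 / 3 := by norm_num
  have hc1 : 0 < (32 / L) ^ (1 / 3 : ℝ) := Real.rpow_pos_of_pos (by positivity) _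
  have hc2 : 0 < (8 / L) ^ (1 / 3 : ℝ) := Real.rpow_pos_of_pos (by positivity) _
  refine ⟨(32 / L) ^ (1 / 3 : ℝ) + C1 * (8 / L) ^ (1 / 3 : ℝ), by positivity, ?_⟩
  intro ρ L' x0 hρ hx0
  have hρa : 0 < ρ ^ (1 / 3 : ℝ) := Real.rpow_pos_of_pos hρ _
  rcases lt_or_ge (L / 32) ρ with hcase | hcase
  · refine ⟨1, one_pos, fun δ _ _ => ?_⟩
    refine prob_le_one.trans ?_
    rw [← ENNReal.ofReal_one]
    refine ENNReal.ofReal_le_ofReal ?_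
    have e1 : (1 : ℝ) ≤ (32 / L) ^ (1 / 3 : ℝ) * ρ ^ (1 / 3 : ℝ) := by
      rw [← Real.mul_rpow (by positivity) hρ.le]
      refine Real.one_le_rpow ?_ hal
      rw [div_mul_eq_mul_div, le_div_iff₀ hL]
      linarith
    rw [add_mul]
    have e2 : 0 < C1 * (8 / L) ^ (1 / 3 : ℝ) * ρ ^ (1 / 3 : ℝ) := by positivity
    linarith
  · refine ⟨ρ / 4, by positivity, fun δ hδ hδρ => ?_⟩
    have hP : 4 < ρ / δ := by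
      rw [lt_div_iff₀ hδ]
      linarith
    have hQ : 32 * (ρ / δ) ≤ L / δ := by
      rw [← mul_div_assoc]
      exact div_le_div_of_nonneg_right (by linarith) hδ.le
    obtain ⟨k, hk⟩ : ∃ k : ℕ, k = ⌈ρ / δ⌉₊ := ⟨_, rfl⟩
    obtain ⟨q, hq⟩ : ∃ q : ℕ, q = ⌊L / δ⌋₊ := ⟨_, rfl⟩
    have hk1 : ρ / δ ≤ k := by
      rw [hk]
      exact Nat.le_ceil _
    have hk2 : (k : ℝ) < ρ / δ + 1 := by
      rw [hk]
      exact Nat.ceil_lt_add_one (by positivity)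
    have hq1 : (q : ℝ) ≤ L / δ := by
      rw [hq]
      exact Nat.floor_le (by positivity)
    have hq2 : L / δ < q + 1 := by
      rw [hq]
      exact Nat.lt_floor_add_one _
    have hkq : k + 2 ≤ q := by
      have h5 : (k : ℝ) + 2 ≤ q := by linarith
      exact_mod_cast h5
    have hR : ((q - (k + 2) : ℕ) : ℝ) = q - (k + 2) := by
      rw [Nat.cast_sub hkq]
      push_cast
      ring
    obtain ⟨y, u1, u2, u3, u4⟩ := SH_geo hA hB s m hx0 hL1 hL2 hL3 hδ hP hQ hk1 hkq hq1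
    have hrR : 2 * k + 2 ≤ q - (k + 2) := by
      have h5 : ((2 * k + 2 : ℕ) : ℝ) ≤ ((q - (k + 2) : ℕ) : ℝ) := by
        rw [hR]
        push_cast
        linarith
      exact_mod_cast h5
    have hlaw : (claw hA.le hB.le δ : Measure (Curve (Rect A B)))
        {c | ∃ x ∈ closedBall x0 ρ, MVis 1 ρ L' c x} =
        ENNReal.ofReal (FKP.Pr (box 0 (⌊A / δ⌋₊ : ℤ) 0 (⌊B / δ⌋₊ : ℤ)) (fun ω =>
          (SeparationQuotient.mk (icurve hA.le hB.le δ ⌊A / δ⌋₊ ⌊B / δ⌋₊ ω) : Curve (Rect A B)) ∈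
            {c : Curve (Rect A B) | ∃ x ∈ closedBall x0 ρ, MVis 1 ρ L' c x})) :=
      lawM_apply _ _ _
    rw [hlaw]
    refine ENNReal.ofReal_le_ofReal ?_
    refine (Pr_mono (B := Near ⌊A / δ⌋₊ ⌊B / δ⌋₊ (zs s ⌊A / δ⌋₊ ⌊B / δ⌋₊ y) ((2 * k + 2 : ℕ) : ℤ)) ?_).trans
      ((hT s ⌊A / δ⌋₊ ⌊B / δ⌋₊ (2 * k + 2) (q - (k + 2)) y (by omega) hrR u1 u2 u3).trans ?_)
    · rintro ω hω ⟨x, hx, hv⟩
      rw [mvis_mk] at hv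
      have hx1 : dist x x0 ≤ ρ := hx
      rw [Prod.dist_eq, max_le_iff, Subtype.dist_eq, Subtype.dist_eq, Real.dist_eq,
        Real.dist_eq] at hx1
      obtain ⟨w1, w2⟩ := u4 x hx1.1 hx1.2
      refine near_of_vis hA.le hB.le hδ rfl rfl hω hv w1 w2 ?_
      have g3 : ρ ≤ k * δ := (div_le_iff₀ hδ).1 hk1
      push_cast
      linarith
    · have hRpos : (0 : ℝ) < ((q - (k + 2) : ℕ) : ℝ) := by
        rw [hR]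
        linarith
      have e1 : ((2 * k + 2 : ℕ) : ℝ) / ((q - (k + 2) : ℕ) : ℝ) ≤ 8 / L * ρ := by
        have e2 : 8 / L * ρ = 8 * (ρ / δ) / (L / δ) := by
          field_simp
        rw [e2, div_le_div_iff₀ hRpos (by positivity), hR]
        push_cast
        have hP0 : 0 < ρ / δ := by positivity
        nlinarith
      have e3 : (((2 * k + 2 : ℕ) : ℝ) / ((q - (k + 2) : ℕ) : ℝ)) ^ (1 / 3 : ℝ) ≤
          (8 / L) ^ (1 / 3 : ℝ) * ρ ^ (1 / 3 : ℝ) := by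
        rw [← Real.mul_rpow (by positivity) hρ.le]
        exact Real.rpow_le_rpow (by positivity) e1 hal
      have e4 : C1 * (((2 * k + 2 : ℕ) : ℝ) / ((q - (k + 2) : ℕ) : ℝ)) ^ (1 / 3 : ℝ) ≤
          C1 * ((8 / L) ^ (1 / 3 : ℝ) * ρ ^ (1 / 3 : ℝ)) := mul_le_mul_of_nonneg_left e3 hC1.le
      have e5 : 0 < (32 / L) ^ (1 / 3 : ℝ) * ρ ^ (1 / 3 : ℝ) := by positivity
      calc _ ≤ C1 * ((8 / L) ^ (1 / 3 : ℝ) * ρ ^ (1 / 3 : ℝ)) := e4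
        _ ≤ ((32 / L) ^ (1 / 3 : ℝ) + C1 * (8 / L) ^ (1 / 3 : ℝ)) * ρ ^ (1 / 3 : ℝ) := by
            rw [add_mul]
            linarith

end DimLim
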