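import Pool.Agent.Lib.MP_216314_pr.IC.VU

/-!
# The dimension of the set of the multiple points
-/

set_option autoImplicit false

noncomputable section

namespace DimLim

open MeasureTheory Filter Topology Set ENNReal NNReal TopologicalSpace Metric

open Classical in
/-- Box counting for a random set `S x`: `V j i` is the event that the set `U j i` of the cover at the scale `2⁻ʲ` is needed. -/
theorem dim_boxes {X : Type*} [MeasurableSpace X] (P : Measure X) {E : Type*} [MetricSpace E] [MeasurableSpace E] [BorelSpace E]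
    {ι : ℕ → Type} [∀ j, Fintype (ι j)] (S : X → Set E) (U : ∀ j, ι j → Set E) (V : ∀ j, ι j → Set X)
    (hV : ∀ j i, MeasurableSet (V j i)) (C : ℝ≥0) (hdiam : ∀ j i, ediam (U j i) ≤ C * (2 : ℝ≥0∞)⁻¹ ^ j)
    (hcov : ∀ x, ∀ j, ∀ y ∈ S x, ∃ i, y ∈ U j i ∧ x ∈ V j i) (s : ℝ≥0)
    (hb : ∀ j, ∑ i, P (V j i) ≤ C * ((2 : ℝ≥0∞) ^ (s : ℝ)) ^ j) : ∀ᵐ x ∂P, dimH (S x) ≤ s := by
  obtain ⟨f, hf⟩ : ∃ f : ℕ → X → ℝ≥0∞, f = fun j x => ∑ i, (V j i).indicator (fun _ => 1) x := ⟨_, rfl⟩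
  have hfm : ∀ j, Measurable (f j) := by
    intro j
    rw [hf]
    exact Finset.measurable_fun_sum _ fun i _ => measurable_const.indicator (hV j i)
  have hfi : ∀ j, ∫⁻ x, f j x ∂P ≤ C * ((2 : ℝ≥0∞) ^ (s : ℝ)) ^ j := by
    intro j
    rw [hf]
    simp only
    rw [lintegral_finsetSum _ fun i _ => measurable_const.indicator (hV j i)]
    refine le_trans (Finset.sum_le_sum fun i _ => ?_) (hb j)
    rw [lintegral_indicator (hV j i), lintegral_const, one_mul, Measure.restrict_apply_univ]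
  have key : ∀ t : ℝ≥0, s < t → ∀ᵐ x ∂P, dimH (S x) ≤ t := by
    intro t ht
    have ht0 : (0 : ℝ) < t := lt_of_le_of_lt s.2 ht
    obtain ⟨w, hw⟩ : ∃ w : ℝ≥0∞, w = ((2 : ℝ≥0∞)⁻¹) ^ (t : ℝ) := ⟨_, rfl⟩
    have hF : ∫⁻ x, ∑' j, w ^ j * f j x ∂P ≠ ∞ := by
      rw [lintegral_tsum fun j => ((hfm j).const_mul _).aemeasurable]
      have h2 : ∀ j, ∫⁻ x, w ^ j * f j x ∂P ≤ C * (w * (2 : ℝ≥0∞) ^ (s : ℝ)) ^ j := by
        intro j
        rw [lintegral_const_mul _ (hfm j)]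
        calc w ^ j * ∫⁻ x, f j x ∂P
            ≤ w ^ j * (C * ((2 : ℝ≥0∞) ^ (s : ℝ)) ^ j) := by gcongr; exact hfi j
          _ = C * (w * (2 : ℝ≥0∞) ^ (s : ℝ)) ^ j := by rw [mul_pow]; ring
      refine ne_top_of_le_ne_top ?_ (ENNReal.tsum_le_tsum h2)
      rw [ENNReal.tsum_mul_left, ENNReal.tsum_geometric]
      refine ENNReal.mul_ne_top coe_ne_top (ENNReal.inv_ne_top.2 ?_)
      have h3 : w * (2 : ℝ≥0∞) ^ (s : ℝ) = (2 : ℝ≥0∞) ^ (-((t : ℝ) - s)) := by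
        rw [hw, ← ENNReal.rpow_neg_one, ← ENNReal.rpow_mul, ← ENNReal.rpow_add _ _ two_ne_zero ofNat_ne_top]
        congr 1
        ring
      have h4 : w * (2 : ℝ≥0∞) ^ (s : ℝ) < 1 := by
        rw [h3]
        refine ENNReal.rpow_lt_one_of_one_lt_of_neg (by norm_num) ?_
        have : (s : ℝ) < t := by exact_mod_cast ht
        linarith
      exact (tsub_pos_iff_lt.2 h4).ne'
    have hae := ae_lt_top' (AEMeasurable.tsum fun j => ((hfm j).const_mul _).aemeasurable) hF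
    filter_upwards [hae] with x hx
    have h5 : Tendsto (fun j => w ^ j * f j x) atTop (𝓝 0) := ENNReal.tendsto_atTop_zero_of_tsum_ne_top hx.ne
    have h6 : μH[(t : ℝ)] (S x) ≤
        liminf (fun j => ∑ i, ediam (if x ∈ V j i then U j i else ∅) ^ (t : ℝ)) atTop := by
      refine Measure.hausdorffMeasure_le_liminf_sum (t : ℝ) (S x)
        (fun j => C * (2 : ℝ≥0∞)⁻¹ ^ j) ?_ (fun j i => if x ∈ V j i then U j i else ∅)
        (Eventually.of_forall fun j i => ?_) (Eventually.of_forall fun j y hy => ?_)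
      · have h7 : Tendsto (fun j : ℕ => (2 : ℝ≥0∞)⁻¹ ^ j) atTop (𝓝 0) :=
          ENNReal.tendsto_pow_atTop_nhds_zero_of_lt_one (by norm_num)
        have h8 := ENNReal.Tendsto.const_mul h7 (Or.inr (coe_ne_top (r := C)))
        rwa [mul_zero] at h8
      · by_cases h : x ∈ V j i
        · rw [if_pos h]
          exact hdiam j i
        · rw [if_neg h, ediam_empty]
          exact bot_le
      · obtain ⟨i, hi, hi2⟩ := hcov x j y hy
        refine mem_iUnion.2 ⟨i, ?_⟩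
        rw [if_pos hi2]
        exact hi
    have h7 : ∀ j, ∑ i, ediam (if x ∈ V j i then U j i else ∅) ^ (t : ℝ) ≤
        (C : ℝ≥0∞) ^ (t : ℝ) * (w ^ j * f j x) := by
      intro j
      rw [hf]
      simp only
      rw [Finset.mul_sum, Finset.mul_sum]
      refine Finset.sum_le_sum fun i _ => ?_
      by_cases h : x ∈ V j i
      · rw [if_pos h, indicator_of_mem h, mul_one]
        calc ediam (U j i) ^ (t : ℝ) ≤ (C * (2 : ℝ≥0∞)⁻¹ ^ j) ^ (t : ℝ) :=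
              ENNReal.rpow_le_rpow (hdiam j i) ht0.le
          _ = (C : ℝ≥0∞) ^ (t : ℝ) * w ^ j := by
              rw [ENNReal.mul_rpow_of_nonneg _ _ ht0.le, hw, ← ENNReal.rpow_natCast, ← ENNReal.rpow_natCast,
                ← ENNReal.rpow_mul, ← ENNReal.rpow_mul, mul_comm (j : ℝ)]
      · rw [if_neg h, ediam_empty, indicator_of_notMem h, ENNReal.zero_rpow_of_pos ht0]
        exact bot_le
    have h8 : μH[(t : ℝ)] (S x) = 0 := by
      refine le_antisymm (h6.trans ?_) bot_le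
      have h9 : Tendsto (fun j => (C : ℝ≥0∞) ^ (t : ℝ) * (w ^ j * f j x)) atTop (𝓝 0) := by
        have := ENNReal.Tendsto.const_mul (a := (C : ℝ≥0∞) ^ (t : ℝ)) h5
          (Or.inr (ENNReal.rpow_ne_top_of_nonneg ht0.le coe_ne_top))
        rwa [mul_zero] at this
      rw [← h9.liminf_eq]
      exact liminf_le_liminf (Eventually.of_forall h7)
    exact dimH_le_of_hausdorffMeasure_ne_top (by rw [h8]; exact zero_ne_top)
  have h10 : ∀ᵐ x ∂P, ∀ m : ℕ, dimH (S x) ≤ ((s + 1 / ((m : ℝ≥0) + 1) : ℝ≥0) : ℝ≥0∞) := by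
    rw [ae_all_iff]
    intro m
    exact key _ (lt_add_of_pos_right s (by positivity))
  filter_upwards [h10] with x hx
  refine ENNReal.le_of_forall_pos_le_add fun ε hε _ => ?_
  obtain ⟨m, hm⟩ := exists_nat_one_div_lt (K := ℝ≥0) hε
  refine (hx m).trans ?_
  rw [ENNReal.coe_add]
  gcongr

/-- The dimension of the set of the points of `⋃ m, K m` which a limit curve visits `l` times. -/
theorem vis_dim {E : Type*} [MetricSpace E] [SecondCountableTopology E] [MeasurableSpace E] [BorelSpace E]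
    [MeasurableSpace (Curve E)] [BorelSpace (Curve E)]
    {μ : ℕ → ProbabilityMeasure (Curve E)} {ν : ProbabilityMeasure (Curve E)} (hμ : Tendsto μ atTop (𝓝 ν))
    {l : ℕ} (K : ℕ → Set E) {ι : ℕ → Type} [∀ j, Fintype (ι j)] (U : ∀ j, ι j → Set E) (D : ℝ≥0)
    (hdiam : ∀ j i, ediam (U j i) ≤ D * (2 : ℝ≥0∞)⁻¹ ^ j) (hcov : ∀ m j, ∀ y ∈ K m, ∃ i, y ∈ U j i) (s : ℝ≥0)
    (h : ∀ (m : ℕ) (L : ℝ), 0 < L → ∃ (C : ℝ≥0) (b : ∀ j, ι j → ℝ≥0∞),
      (∀ j i, ∀ᶠ k in atTop, (μ k : Measure (Curve E)) {c | ∃ x ∈ K m ∩ U j i, MVis l ((1 / 2) ^ j) L c x} ≤ b j i) ∧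
        ∀ j, ∑ i, b j i ≤ C * ((2 : ℝ≥0∞) ^ (s : ℝ)) ^ j) :
    ∀ᵐ (c : Curve E) ∂(ν : Measure (Curve E)), dimH {x : E | (∃ m, x ∈ K m) ∧ Visits l c x} ≤ s := by
  have h1 : ∀ᵐ (c : Curve E) ∂(ν : Measure (Curve E)), ∀ m n : ℕ,
      dimH {x : E | x ∈ K m ∧ ∀ ρ : ℝ, 0 < ρ → MVis l ρ (1 / ((n : ℝ) + 1)) c x} ≤ s := by
    rw [ae_all_iff]
    intro m
    rw [ae_all_iff]
    intro n
    obtain ⟨C, b, hb1, hb2⟩ := h m (1 / ((n : ℝ) + 1)) (by positivity)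
    refine dim_boxes (ν : Measure (Curve E)) _ U
      (fun j i => {c | ∃ x ∈ K m ∩ U j i, MVis l ((1 / 2) ^ j) (1 / ((n : ℝ) + 1)) c x})
      (fun j i => (mvis_open l _ _ _).measurableSet) (max D C) (fun j i => ?_) ?_ s (fun j => ?_)
    · refine (hdiam j i).trans ?_
      gcongr
      exact le_max_left _ _
    · rintro c j y ⟨hy, hv⟩
      obtain ⟨i, hi⟩ := hcov m j y hy
      exact ⟨i, hi, y, ⟨hy, hi⟩, hv _ (by positivity)⟩
    · refine (Finset.sum_le_sum fun i _ => vis_port hμ (hb1 j i)).trans ((hb2 j).trans ?_)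
      gcongr
      exact le_max_right _ _
  filter_upwards [h1] with c hc
  have h2 : {x : E | (∃ m, x ∈ K m) ∧ Visits l c x} ⊆
      ⋃ m : ℕ, ⋃ n : ℕ, {x : E | x ∈ K m ∧ ∀ ρ : ℝ, 0 < ρ → MVis l ρ (1 / ((n : ℝ) + 1)) c x} := by
    rintro x ⟨⟨m, hm⟩, hv⟩
    obtain ⟨L, hL, hv2⟩ := visits_mvis hv
    obtain ⟨n, hn⟩ := exists_nat_one_div_lt hL
    exact mem_iUnion.2 ⟨m, mem_iUnion.2 ⟨n, hm, fun ρ hρ => mvis_mono le_rfl hn.le (hv2 ρ hρ)⟩⟩
  refine (dimH_mono h2).trans ?_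
  rw [dimH_iUnion]
  refine iSup_le fun m => ?_
  rw [dimH_iUnion]
  exact iSup_le fun n => hc m n

end DimLim
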