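import Pool.Agent.Lib.MP_216314_pr.IC.SH
import Pool.Agent.Lib.MP_216314_pr.IC.VD

/-!
# Leaf SJ: the dimension of the intersection with a side (medium)

`vis_dim` (IC/VD) with `l = 1`, `E = Rect A B`, `K = Side A B s`, `X = B` for `s = 0, 2` and `X = A` for `s = 1, 3`, `ι j = Fin (nc X j + 1)` (`nc X j = ⌊X 2 ^ j⌋₊`, I/DimB), `U j i` = the points of the side (`x.1 = A`, `x.2 = B`, `x.1 = 0`, `x.2 = 0`) with `|t - i (1/2) ^ j| ≤ (1/2) ^ j`, `t` the other coordinate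
(`t = x.2` or `x.1`). Diameter: two points of `U j i` are at distance `≤ 2 (1/2) ^ j` (`D = 2`, `ediam_le`). Cover: `i = ⌊t 2 ^ j⌋₊ ≤ nc X j`. `s = 2/3`, `μ := fun k => claw hA.le hB.le (δ k)`. Given `m`, `L > 0`: `claw_side h hA hB s m` gives `C1`; `b j i = ofReal (C1 2 ^ (1/3) ((1/2) ^ j) ^ (1/3))`:
if `Side A B s m ∩ U j i` is empty the set of the curves is empty; otherwise let `x0` be one of its points, every `x` in it is in `closedBall x0 ρ` with `ρ = 2 (1/2) ^ j`, `mvis_mono` (IC/VU) and `claw_side` with this `ρ`; for all large `k` `δ k < δ0`. Sum: `(nc X j + 1) ≤ (X + 1) 2 ^ j` (`nc_le`), so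
`∑ i, b j i ≤ ofReal ((X + 1) C1 2 ^ (1/3)) (2 ^ (2/3)) ^ j` (as at the end of `law_dim_upper`, I/DimB: `ENNReal.ofReal_rpow_of_pos`). For the four sides: prove a lemma for a general function `t : Rect A B → ℝ` with `0 ≤ t x ≤ X` and a set `T` with `dist x y ≤ |t x - t y|` for `x, y ∈ T`, `Side A B s m ⊆ T`.
-/

set_option autoImplicit false

noncomputable section

namespace DimLim

open MeasureTheory Filter Topology Set Metric ENNReal FKI FKP FKN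

open NNReal in
/-- The general form: a set with one coordinate `t`. -/
private theorem SJ_gen {A B : ℝ} (hA : 0 < A) (hB : 0 < B) [MeasurableSpace (Curve (Rect A B))]
    [BorelSpace (Curve (Rect A B))] {μ : ProbabilityMeasure (Curve (Rect A B))} {δ : ℕ → ℝ} (hδ : ∀ k, 0 < δ k)
    (hδ0 : Tendsto δ atTop (𝓝 0)) (hμ : Tendsto (fun k => claw hA.le hB.le (δ k)) atTop (𝓝 μ))
    (K : ℕ → Set (Rect A B))
    (hK : ∀ m, ∃ C : ℝ, 0 < C ∧ ∀ (ρ L' : ℝ) (x0 : Rect A B), 0 < ρ → x0 ∈ K m →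
      ∃ δ0 : ℝ, 0 < δ0 ∧ ∀ δ : ℝ, 0 < δ → δ < δ0 →
        (claw hA.le hB.le δ : Measure (Curve (Rect A B))) {c | ∃ x ∈ closedBall x0 ρ, MVis 1 ρ L' c x} ≤
          ENNReal.ofReal (C * ρ ^ (1 / 3 : ℝ)))
    {X : ℝ} (hX : 0 < X) (t : Rect A B → ℝ) (ht0 : ∀ x, 0 ≤ t x) (htX : ∀ x, t x ≤ X) (T : Set (Rect A B))
    (hT : ∀ x ∈ T, ∀ y ∈ T, dist x y ≤ |t x - t y|) (hKT : ∀ m, K m ⊆ T) :
    ∀ᵐ (c : Curve (Rect A B)) ∂(μ : Measure (Curve (Rect A B))),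
      dimH {x : Rect A B | (∃ m, x ∈ K m) ∧ Visits 1 c x} ≤ 2 / 3 := by
  have e23 : (((2 / 3 : ℝ≥0)) : ℝ≥0∞) = 2 / 3 := by
    rw [ENNReal.coe_div (by norm_num)]
    norm_num
  have hinv : ∀ j : ℕ, (1 / 2 : ℝ) ^ j = ((2 : ℝ) ^ j)⁻¹ := fun j => by rw [one_div, inv_pow]
  obtain ⟨U, hU⟩ : ∃ U : ∀ j : ℕ, Fin (nc X j + 1) → Set (Rect A B),
      ∀ j i, U j i = {x | x ∈ T ∧ |t x - ((i : ℕ) : ℝ) * (1 / 2 : ℝ) ^ j| ≤ (1 / 2 : ℝ) ^ j} :=
    ⟨fun j i => {x | x ∈ T ∧ |t x - ((i : ℕ) : ℝ) * (1 / 2 : ℝ) ^ j| ≤ (1 / 2 : ℝ) ^ j}, fun _ _ => rfl⟩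
  have hUd : ∀ j i, ∀ x ∈ U j i, ∀ y ∈ U j i, dist x y ≤ 2 * (1 / 2 : ℝ) ^ j := by
    intro j i x hx y hy
    rw [hU] at hx hy
    have h1 : |t x - t y| ≤ 2 * (1 / 2 : ℝ) ^ j := by
      have h2 := abs_le.1 hx.2
      have h3 := abs_le.1 hy.2
      rw [abs_le]
      constructor <;> linarith [h2.1, h2.2, h3.1, h3.2]
    exact (hT x hx.1 y hy.1).trans h1
  rw [← e23]
  refine vis_dim hμ K (ι := fun j => Fin (nc X j + 1)) U 2 (fun j i => ?_) (fun m j y hy => ?_) (2 / 3)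
    (fun m L hL => ?_)
  · refine ediam_le fun x hx y hy => ?_
    rw [edist_dist]
    refine (ENNReal.ofReal_le_ofReal (hUd j i x hx y hy)).trans (le_of_eq ?_)
    rw [ENNReal.ofReal_mul (by norm_num), ENNReal.ofReal_pow (by norm_num), one_div,
      ENNReal.ofReal_inv_of_pos (by norm_num)]
    simp
  · have h2 : (0 : ℝ) < 2 ^ j := by positivity
    have h3 : ⌊t y * 2 ^ j⌋₊ ≤ nc X j := Nat.floor_le_floor (by
      have := htX y
      gcongr)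
    refine ⟨⟨⌊t y * 2 ^ j⌋₊, by omega⟩, ?_⟩
    rw [hU]
    refine ⟨hKT m hy, ?_⟩
    have h4 : (⌊t y * 2 ^ j⌋₊ : ℝ) ≤ t y * 2 ^ j := Nat.floor_le (mul_nonneg (ht0 y) h2.le)
    have h5 := Nat.lt_floor_add_one (t y * 2 ^ j)
    have h6 : (⌊t y * 2 ^ j⌋₊ : ℝ) * (1 / 2 : ℝ) ^ j ≤ t y := by
      rw [hinv, mul_inv_le_iff₀ h2]
      exact h4
    have h7 : t y < (⌊t y * 2 ^ j⌋₊ : ℝ) * (1 / 2 : ℝ) ^ j + (1 / 2 : ℝ) ^ j := by
      rw [← add_one_mul, hinv, lt_mul_inv_iff₀ h2]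
      exact h5
    show |t y - ((⌊t y * 2 ^ j⌋₊ : ℕ) : ℝ) * (1 / 2 : ℝ) ^ j| ≤ (1 / 2 : ℝ) ^ j
    rw [abs_le]
    have h8 : (0 : ℝ) < (1 / 2 : ℝ) ^ j := by positivity
    constructor <;> linarith
  · obtain ⟨C1, hC1, hC⟩ := hK m
    obtain ⟨D, hD⟩ : ∃ D : ℝ, D = (X + 1) * C1 * (2 : ℝ) ^ (1 / 3 : ℝ) := ⟨_, rfl⟩
    have hD0 : 0 ≤ D := by rw [hD]; positivity
    refine ⟨D.toNNReal, fun j _ => ENNReal.ofReal (C1 * (2 * (1 / 2 : ℝ) ^ j) ^ (1 / 3 : ℝ)),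
      fun j i => ?_, fun j => ?_⟩
    · by_cases hne : (K m ∩ U j i).Nonempty
      · obtain ⟨x0, hx0K, hx0U⟩ := hne
        have hj : (0 : ℝ) < (1 / 2 : ℝ) ^ j := by positivity
        obtain ⟨δ0, hδ00, h2⟩ := hC (2 * (1 / 2 : ℝ) ^ j) L x0 (by positivity) hx0K
        filter_upwards [hδ0.eventually_lt_const hδ00] with k hk
        refine (measure_mono ?_).trans (h2 (δ k) (hδ k) hk)
        rintro c ⟨x, ⟨-, hxU⟩, hx⟩
        exact ⟨x, Metric.mem_closedBall.2 (hUd j i x hxU x0 hx0U), mvis_mono (by linarith) le_rfl hx⟩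
      · refine Filter.Eventually.of_forall fun k => ?_
        have h3 : {c : Curve (Rect A B) | ∃ x ∈ K m ∩ U j i, MVis 1 ((1 / 2) ^ j) L c x} = ∅ := by
          rw [Set.eq_empty_iff_forall_notMem]
          rintro c ⟨x, hx, -⟩
          exact hne ⟨x, hx⟩
        rw [h3, measure_empty]
        exact zero_le
    · have h2 : (0 : ℝ) < 2 ^ j := by positivity
      have h1 : (1 : ℝ) ≤ 2 ^ j := one_le_pow₀ (by norm_num)
      have hn : (nc X j : ℝ) + 1 ≤ (X + 1) * 2 ^ j := by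
        have h3 : (nc X j : ℝ) ≤ X * 2 ^ j := Nat.floor_le (by positivity)
        linarith
      have h5 : (2 : ℝ) ^ j * ((1 / 2 : ℝ) ^ j) ^ (1 / 3 : ℝ) = ((2 : ℝ) ^ (2 / 3 : ℝ)) ^ j := by
        have e1 : ((2 : ℝ) ^ j) ^ (2 / 3 : ℝ) = ((2 : ℝ) ^ (2 / 3 : ℝ)) ^ j := by
          rw [← Real.rpow_natCast, ← Real.rpow_mul (by norm_num), ← Real.rpow_natCast,
            ← Real.rpow_mul (by norm_num), mul_comm]
        rw [← e1, hinv, ← Real.rpow_neg_one, ← Real.rpow_mul h2.le]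
        nth_rewrite 1 [← Real.rpow_one ((2 : ℝ) ^ j)]
        rw [← Real.rpow_add h2]
        congr 1
        norm_num
      have h4 : ((nc X j : ℝ) + 1) * (C1 * (2 * (1 / 2 : ℝ) ^ j) ^ (1 / 3 : ℝ)) ≤
          D * ((2 : ℝ) ^ (2 / 3 : ℝ)) ^ j := by
        rw [← h5, hD, Real.mul_rpow (by norm_num) (by positivity)]
        have h6 : 0 ≤ C1 * ((2 : ℝ) ^ (1 / 3 : ℝ) * ((1 / 2 : ℝ) ^ j) ^ (1 / 3 : ℝ)) := by positivity
        refine (mul_le_mul_of_nonneg_right hn h6).trans (le_of_eq ?_)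
        ring
      rw [Finset.sum_const, Finset.card_univ, Fintype.card_fin, nsmul_eq_mul]
      have h7 : ((nc X j + 1 : ℕ) : ℝ≥0∞) = ENNReal.ofReal ((nc X j : ℝ) + 1) := by
        have h10 : ((nc X j : ℝ) + 1) = ((nc X j + 1 : ℕ) : ℝ) := by push_cast; ring
        rw [h10, ENNReal.ofReal_natCast]
      rw [h7, ← ENNReal.ofReal_mul (by positivity)]
      refine (ENNReal.ofReal_le_ofReal h4).trans ?_
      rw [ENNReal.ofReal_mul hD0, ENNReal.ofReal_pow (by positivity), ← ENNReal.ofReal_rpow_of_pos (by norm_num)]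
      have h8 : ENNReal.ofReal 2 = 2 := by simp
      have h9 : (((2 / 3 : ℝ≥0)) : ℝ) = 2 / 3 := by norm_num
      rw [h8, h9]
      exact le_rfl

/-- The distance of two points with the same first coordinate. -/
private theorem SJ_d1 {A B : ℝ} {x y : Rect A B} (h : (x.1 : ℝ) = (y.1 : ℝ)) :
    dist x y ≤ |(x.2 : ℝ) - (y.2 : ℝ)| := by
  rw [Prod.dist_eq, Subtype.dist_eq, Subtype.dist_eq, Real.dist_eq, Real.dist_eq, h, sub_self, abs_zero]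
  exact max_le (abs_nonneg _) le_rfl

/-- The distance of two points with the same second coordinate. -/
private theorem SJ_d2 {A B : ℝ} {x y : Rect A B} (h : (x.2 : ℝ) = (y.2 : ℝ)) :
    dist x y ≤ |(x.1 : ℝ) - (y.1 : ℝ)| := by
  rw [Prod.dist_eq, Subtype.dist_eq, Subtype.dist_eq, Real.dist_eq, Real.dist_eq, h, sub_self, abs_zero]
  exact max_le le_rfl (abs_nonneg _)

theorem side_dim (h : HalfArm) {A B : ℝ} (hA : 0 < A) (hB : 0 < B) [MeasurableSpace (Curve (Rect A B))]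
    [BorelSpace (Curve (Rect A B))] {μ : ProbabilityMeasure (Curve (Rect A B))} {δ : ℕ → ℝ} (hδ : ∀ k, 0 < δ k)
    (hδ0 : Tendsto δ atTop (𝓝 0)) (hμ : Tendsto (fun k => claw hA.le hB.le (δ k)) atTop (𝓝 μ)) (s : Fin 4) :
    ∀ᵐ (c : Curve (Rect A B)) ∂(μ : Measure (Curve (Rect A B))),
      dimH {x : Rect A B | (∃ m, x ∈ Side A B s m) ∧ Visits 1 c x} ≤ 2 / 3 := by
  have h1 : ∀ (x : Rect A B), 0 ≤ (x.1 : ℝ) := fun x => x.1.2.1
  have h2 : ∀ (x : Rect A B), (x.1 : ℝ) ≤ A := fun x => x.1.2.2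
  have h3 : ∀ (x : Rect A B), 0 ≤ (x.2 : ℝ) := fun x => x.2.2.1
  have h4 : ∀ (x : Rect A B), (x.2 : ℝ) ≤ B := fun x => x.2.2.2
  match s with
  | 0 =>
    exact SJ_gen hA hB hδ hδ0 hμ (Side A B 0) (claw_side h hA hB 0) hB (fun x => (x.2 : ℝ)) h3 h4
      {x | (x.1 : ℝ) = A} (fun x hx y hy => SJ_d1 (Eq.trans hx (Eq.symm hy))) (fun m x hx => hx.1)
  | 1 =>
    exact SJ_gen hA hB hδ hδ0 hμ (Side A B 1) (claw_side h hA hB 1) hA (fun x => (x.1 : ℝ)) h1 h2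
      {x | (x.2 : ℝ) = B} (fun x hx y hy => SJ_d2 (Eq.trans hx (Eq.symm hy))) (fun m x hx => hx.1)
  | 2 =>
    exact SJ_gen hA hB hδ hδ0 hμ (Side A B 2) (claw_side h hA hB 2) hB (fun x => (x.2 : ℝ)) h3 h4
      {x | (x.1 : ℝ) = 0} (fun x hx y hy => SJ_d1 (Eq.trans hx (Eq.symm hy))) (fun m x hx => hx.1)
  | 3 =>
    exact SJ_gen hA hB hδ hδ0 hμ (Side A B 3) (claw_side h hA hB 3) hA (fun x => (x.1 : ℝ)) h1 h2
      {x | (x.2 : ℝ) = 0} (fun x hx y hy => SJ_d2 (Eq.trans hx (Eq.symm hy))) (fun m x hx => hx.1)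

end DimLim
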