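import Pool.Agent.Lib.MP_216314_pr.IC.SJ

/-!
# Leaf SK: the dimension of the intersection with the sides (medium-)

`trace_visits`: `trace c = {x | ∃ f, mk f = c ∧ x ∈ range f.fn}`, take `t` constant (`l = 1`: no condition on `s`). `sides_dim`: for almost every `c` the conclusion of `side_dim` holds for `s = 0, 1, 2, 3` (`ae_all_iff`). The set is contained in the union of the four sets of `side_dim` and of the set of the four corners
`{x | (x.1 = 0 ∨ x.1 = A) ∧ (x.2 = 0 ∨ x.2 = B)}`: a point of a side which is not a corner is in `Side A B s m` for some `m` (`exists_nat_one_div_lt`). The corners are a finite set (`Set.Finite.subset` of the explicit four points, or injective image), `dimH` of a finite set is `0` (`Set.Finite.dimH_zero`), `dimH_union`, `dimH_iUnion`, `dimH_mono`.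
-/

set_option autoImplicit false

noncomputable section

namespace DimLim

open MeasureTheory Filter Topology Set Metric ENNReal FKI FKP FKN

theorem trace_visits {E : Type*} [MetricSpace E] {c : Curve E} {x : E} : x ∈ trace c ↔ Visits 1 c x := by
  constructor
  · rintro ⟨f, hf, u, hu⟩
    exact ⟨f, hf, fun _ => u, fun _ => u, fun _ _ => hu, fun i hi => by omega⟩
  · rintro ⟨f, hf, t, s, h1, -⟩
    exact ⟨f, hf, t 0, h1 0 Nat.zero_lt_one⟩

private theorem SK_mid {t X : ℝ} (h0 : 0 ≤ t) (h1 : t ≤ X) : (t = 0 ∨ t = X) ∨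
    ∃ m : ℕ, 1 / ((m : ℝ) + 1) ≤ t ∧ t + 1 / ((m : ℝ) + 1) ≤ X := by
  rcases h0.eq_or_lt with h2 | h2
  · exact Or.inl (Or.inl h2.symm)
  rcases h1.eq_or_lt with h3 | h3
  · exact Or.inl (Or.inr h3)
  obtain ⟨m, hm⟩ := exists_nat_one_div_lt (lt_min h2 (sub_pos.2 h3))
  rw [lt_min_iff] at hm
  exact Or.inr ⟨m, hm.1.le, by linarith [hm.2]⟩

private theorem SK_corners (A B : ℝ) : {x : Rect A B | ((x.1 : ℝ) = 0 ∨ (x.1 : ℝ) = A) ∧
    ((x.2 : ℝ) = 0 ∨ (x.2 : ℝ) = B)}.Finite := by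
  have h : ∀ X : ℝ, {t : Set.Icc (0 : ℝ) X | (t : ℝ) = 0 ∨ (t : ℝ) = X}.Finite := fun X =>
    (((Set.finite_singleton X).insert 0).preimage Subtype.val_injective.injOn).subset
      fun t ht => ht
  exact ((h A).prod (h B)).subset fun x hx => ⟨hx.1, hx.2⟩

/-- **the intersection of the interface with the sides has dimension at most `2/3`** -/
theorem sides_dim (h : HalfArm) {A B : ℝ} (hA : 0 < A) (hB : 0 < B) [MeasurableSpace (Curve (Rect A B))]
    [BorelSpace (Curve (Rect A B))] {μ : ProbabilityMeasure (Curve (Rect A B))} {δ : ℕ → ℝ} (hδ : ∀ k, 0 < δ k)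
    (hδ0 : Tendsto δ atTop (𝓝 0)) (hμ : Tendsto (fun k => claw hA.le hB.le (δ k)) atTop (𝓝 μ)) :
    ∀ᵐ (c : Curve (Rect A B)) ∂(μ : Measure (Curve (Rect A B))),
      dimH {x : Rect A B | x ∈ trace c ∧ ((x.1 : ℝ) = 0 ∨ (x.1 : ℝ) = A ∨ (x.2 : ℝ) = 0 ∨ (x.2 : ℝ) = B)} ≤ 2 / 3 := by
  filter_upwards [ae_all_iff.2 fun s => side_dim h hA hB hδ hδ0 hμ s] with c hc
  have key : {x : Rect A B | x ∈ trace c ∧ ((x.1 : ℝ) = 0 ∨ (x.1 : ℝ) = A ∨ (x.2 : ℝ) = 0 ∨ (x.2 : ℝ) = B)} ⊆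
      (⋃ s : Fin 4, {x : Rect A B | (∃ m, x ∈ Side A B s m) ∧ Visits 1 c x}) ∪
        {x : Rect A B | ((x.1 : ℝ) = 0 ∨ (x.1 : ℝ) = A) ∧ ((x.2 : ℝ) = 0 ∨ (x.2 : ℝ) = B)} := by
    rintro x ⟨hx, hs⟩
    have hv := trace_visits.1 hx
    rcases SK_mid x.1.2.1 x.1.2.2 with h1 | ⟨m, h1, h1'⟩
    · rcases SK_mid x.2.2.1 x.2.2.2 with h2 | ⟨m, h2, h2'⟩
      · exact Or.inr ⟨h1, h2⟩
      · refine Or.inl (mem_iUnion.2 ?_)
        rcases h1 with h1 | h1
        · exact ⟨2, ⟨m, h1, h2, h2'⟩, hv⟩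
        · exact ⟨0, ⟨m, h1, h2, h2'⟩, hv⟩
    · refine Or.inl (mem_iUnion.2 ?_)
      have hm : 0 < 1 / ((m : ℝ) + 1) := by positivity
      rcases hs with h2 | h2 | h2 | h2
      · linarith
      · linarith
      · exact ⟨3, ⟨m, h2, h1, h1'⟩, hv⟩
      · exact ⟨1, ⟨m, h2, h1, h1'⟩, hv⟩
  refine (dimH_mono key).trans ?_
  rw [dimH_union, dimH_iUnion, (SK_corners A B).dimH_zero]
  exact max_le (iSup_le fun s => hc s) zero_le

end DimLim
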