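import Pool.Agent.Lib.MP_216314_pr.IC.IF
import Pool.Agent.Lib.MP_216314_pr.IC.H0

/-!
# Traversals of annuli by the interface, visited boxes: definitions
-/

set_option autoImplicit false

noncomputable section

namespace DimLim

open Finset FKI FKP FKN

/-- `m` successive outward traversals, by the interface, of the annulus between the distances `r` and `R` from `z`. -/
def Trav (a b : ℕ) (ω : Finset Edge) (z : V) (r R : ℤ) (m : ℕ) : Prop :=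
  ∃ s t : ℕ → ℕ, (∀ i < m, s i ≤ t i ∧ t i ≤ steps a b ω ∧ sd z (vx a b ω (s i)) ≤ r ∧
    R ≤ sd z (vx a b ω (t i))) ∧ ∀ i, i + 1 < m → t i ≤ s (i + 1)

/-- The crossing estimate, away from the corners `(a,0)` and `(0,b)`. -/
def HypT : Prop := ∀ K : ℕ, ∃ (m : ℕ) (C : ℝ), 0 < C ∧ ∀ (a b r R : ℕ) (z : V), 1 ≤ r → r ≤ R → 2 * R < a → 2 * R < b →
  0 ≤ z.1 → z.1 ≤ a → 0 ≤ z.2 → z.2 ≤ b → (R : ℤ) < sd z ((a : ℤ), 0) → (R : ℤ) < sd z (0, (b : ℤ)) →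
    Pr (box 0 a 0 b) (fun ω => Trav a b ω z r R m) ≤ C * ((r : ℝ) / R) ^ K

/-- The box of side `ρ` of the vertex `w`. -/
def bxi (ρ : ℕ) (w : V) : V := (w.1 / (ρ : ℤ), w.2 / (ρ : ℤ))

/-- The number of the boxes of side `ρ` which meet `S`. -/
def Nb (ρ : ℕ) (S : Finset V) : ℕ := (S.image (bxi ρ)).card

/-- Some annulus around a point of the grid of mesh `ρ` is traversed `m` times. -/
def BadT (a b ρ l m : ℕ) (ω : Finset Edge) : Prop :=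
  ∃ q1 q2 : ℕ, ρ * q1 ≤ a ∧ ρ * q2 ≤ b ∧ (l : ℤ) < sd ((ρ : ℤ) * q1, (ρ : ℤ) * q2) ((a : ℤ), 0) ∧
    (l : ℤ) < sd ((ρ : ℤ) * q1, (ρ : ℤ) * q2) (0, (b : ℤ)) ∧ Trav a b ω ((ρ : ℤ) * q1, (ρ : ℤ) * q2) ρ l m

end DimLim
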