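import Pool.Agent.Lib.MP_216314_pr.IC.IF

/-!
# Traversals of annuli by the interface: the steps of its vertices and of its plaquettes

`crn a b ω i`: the `i`-th corner of the interface; `vx a b ω i = vtx (crn a b ω i)`, `fc (crn a b ω i)` its plaquette. The corners are different
(`T5_inj`), so a vertex, and a plaquette, is visited at most four times. The vertices move along open edges, the plaquettes along dual edges
which cross closed edges.
-/

set_option autoImplicit false

noncomputable section

namespace DimLim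

open Finset FKI FKP FKN

/-- The `i`-th corner of the interface. -/
def crn (a b : ℕ) (ω : Finset Edge) (i : ℕ) : V := (next (ω ∪ wsd a b))^[i] (2 * (a : ℤ) + 1, 0)

theorem vx_eq (a b : ℕ) (ω : Finset Edge) (i : ℕ) : vx a b ω i = vtx (crn a b ω i) := rfl

theorem crn_succ (a b : ℕ) (ω : Finset Edge) (i : ℕ) :
    crn a b ω (i + 1) = next (ω ∪ wsd a b) (crn a b ω i) := Function.iterate_succ_apply' _ _ _

section
variable {a b : ℕ} {ω : Finset Edge}

private theorem T5_lt (hω : ω ⊆ box 0 a 0 b) {i j : ℕ} (hij : i < j) (hj : j ≤ steps a b ω)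
    (h : crn a b ω i = crn a b ω j) : False := by
  obtain ⟨hT, hlt⟩ := steps_hits hω
  set T := steps a b ω with hTdef
  set f := next (ω ∪ wsd a b) with hf
  set q : V := (2 * (a : ℤ) + 1, 0) with hq
  have hinj : Function.Injective (f^[i]) := (next_inj _).iterate i
  have h1 : f^[i] (f^[j - i] q) = f^[i] q := by
    rw [← Function.iterate_add_apply, show i + (j - i) = j by omega]
    exact h.symm
  have h2 : f^[j - i] q = q := hinj h1
  have h3 : f^[T] q = f^[T - (j - i)] q := by
    conv_lhs => rw [show T = (T - (j - i)) + (j - i) by omega, Function.iterate_add_apply, h2]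
  exact hlt (T - (j - i)) (by omega) (h3 ▸ hT)

/-- The corners of the interface are different. -/
theorem T5_inj (hω : ω ⊆ box 0 a 0 b) {i j : ℕ} (hi : i ≤ steps a b ω) (hj : j ≤ steps a b ω)
    (h : crn a b ω i = crn a b ω j) : i = j := by
  rcases lt_trichotomy i j with h1 | h1 | h1
  · exact (T5_lt hω h1 hj h).elim
  · exact h1
  · exact (T5_lt hω h1 hi h.symm).elim

/-- A vertex is visited at most four times. -/
theorem T5_vtx (hω : ω ⊆ box 0 a 0 b) (v : V) (I : Finset ℕ)
    (hI : ∀ i ∈ I, i ≤ steps a b ω ∧ vtx (crn a b ω i) = v) : I.card ≤ 4 := by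
  have h1 : I.card ≤ (({2 * v.1, 2 * v.1 + 1} : Finset ℤ) ×ˢ ({2 * v.2, 2 * v.2 + 1} : Finset ℤ)).card := by
    refine Finset.card_le_card_of_injOn (fun i => crn a b ω i) ?_ ?_
    · intro i hi
      have h2 := (hI i (Finset.mem_coe.1 hi)).2
      rw [Finset.mem_coe, Finset.mem_product, Finset.mem_insert, Finset.mem_insert, Finset.mem_singleton,
        Finset.mem_singleton, ← h2]
      unfold vtx
      simp only
      omega
    · intro i hi j hj hij
      exact T5_inj hω (hI i (Finset.mem_coe.1 hi)).1 (hI j (Finset.mem_coe.1 hj)).1 hij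
  refine h1.trans ?_
  rw [Finset.card_product]
  exact Nat.mul_le_mul (Finset.card_le_two) (Finset.card_le_two)

/-- A plaquette is visited at most four times. -/
theorem T5_fc (hω : ω ⊆ box 0 a 0 b) (f : V) (I : Finset ℕ)
    (hI : ∀ i ∈ I, i ≤ steps a b ω ∧ fc (crn a b ω i) = f) : I.card ≤ 4 := by
  have h1 : I.card ≤ (({2 * f.1 + 1, 2 * f.1 + 2} : Finset ℤ) ×ˢ ({2 * f.2 + 1, 2 * f.2 + 2} : Finset ℤ)).card := by
    refine Finset.card_le_card_of_injOn (fun i => crn a b ω i) ?_ ?_
    · intro i hi
      have h2 := (hI i (Finset.mem_coe.1 hi)).2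
      rw [Finset.mem_coe, Finset.mem_product, Finset.mem_insert, Finset.mem_insert, Finset.mem_singleton,
        Finset.mem_singleton, ← h2]
      unfold fc
      simp only
      omega
    · intro i hi j hj hij
      exact T5_inj hω (hI i (Finset.mem_coe.1 hi)).1 (hI j (Finset.mem_coe.1 hj)).1 hij
  refine h1.trans ?_
  rw [Finset.card_product]
  exact Nat.mul_le_mul (Finset.card_le_two) (Finset.card_le_two)

end

private theorem T6_adj {η : Finset Edge} {e : Edge} {u v : V} (he : e ∈ η) (h1 : ea e = u) (h2 : eb e = v) (h3 : u ≠ v) :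
    (gr η).Adj u v := by
  rw [gr, SimpleGraph.fromRel_adj]
  exact ⟨h3, Or.inl ⟨e, he, h1, h2⟩⟩

/-- The vertex stays or moves along an open edge. -/
theorem T6_step (η : Finset Edge) (p : V) : vtx (next η p) = vtx p ∨ (gr η).Adj (vtx p) (vtx (next η p)) := by
  rcases corner_cases p with ⟨x, y, rfl⟩ | ⟨x, y, rfl⟩ | ⟨x, y, rfl⟩ | ⟨x, y, rfl⟩
  · by_cases h : (x, y, false) ∈ η
    · right
      rw [next_SE_open h]
      refine T6_adj h ?_ ?_ ?_
      · unfold vtx ea
        ext <;> simp only <;> omega
      · unfold vtx eb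
        ext <;> simp only [Bool.false_eq_true, if_false] <;> omega
      · unfold vtx
        intro h1
        rw [Prod.mk.injEq] at h1
        simp only at h1
        omega
    · left
      rw [next_SE_closed h]
      unfold vtx
      ext <;> simp only <;> omega
  · by_cases h : (x, y, true) ∈ η
    · right
      rw [next_NE_open h]
      refine T6_adj h ?_ ?_ ?_
      · unfold vtx ea
        ext <;> simp only <;> omega
      · unfold vtx eb
        ext <;> simp only [if_true] <;> omega
      · unfold vtx
        intro h1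
        rw [Prod.mk.injEq] at h1
        simp only at h1
        omega
    · left
      rw [next_NE_closed h]
      unfold vtx
      ext <;> simp only <;> omega
  · by_cases h : (x - 1, y, false) ∈ η
    · right
      rw [next_NW_open h]
      refine SimpleGraph.Adj.symm (T6_adj h ?_ ?_ ?_)
      · unfold vtx ea
        ext <;> simp only <;> omega
      · unfold vtx eb
        ext <;> simp only [Bool.false_eq_true, if_false] <;> omega
      · unfold vtx
        intro h1
        rw [Prod.mk.injEq] at h1
        simp only at h1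
        omega
    · left
      rw [next_NW_closed h]
      unfold vtx
      ext <;> simp only <;> omega
  · by_cases h : (x, y - 1, true) ∈ η
    · right
      rw [next_SW_open h]
      refine SimpleGraph.Adj.symm (T6_adj h ?_ ?_ ?_)
      · unfold vtx ea
        ext <;> simp only <;> omega
      · unfold vtx eb
        ext <;> simp only [if_true] <;> omega
      · unfold vtx
        intro h1
        rw [Prod.mk.injEq] at h1
        simp only at h1
        omega
    · left
      rw [next_SW_closed h]
      unfold vtx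
      ext <;> simp only <;> omega

/-- Away from the wired sides the edge is in `ω`. -/
theorem T6_prim {a b : ℕ} {ω : Finset Edge} {z : V} {R : ℤ} (hz : R < z.1 ∧ R < z.2) {u v : V}
    (h : (gr (ω ∪ wsd a b)).Adj u v) (hu : sd z u ≤ R) (hv : sd z v ≤ R) : (gr ω).Adj u v := by
  have key : ∀ e ∈ ω ∪ wsd a b, sd z (ea e) ≤ R → e ∈ ω := by
    intro e he hd
    rcases Finset.mem_union.1 he with h1 | h1
    · exact h1
    · exfalso
      unfold sd at hd
      rw [max_le_iff, abs_le, abs_le] at hd
      obtain ⟨x, y, t⟩ := e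
      have e1 : ea (x, y, t) = (x, y) := rfl
      rw [e1] at hd
      simp only at hd
      unfold wsd at h1
      simp only [FKP.box, mem_union, mem_product, mem_Ico, mem_Icc, mem_singleton] at h1
      omega
  unfold gr at h ⊢
  rw [SimpleGraph.fromRel_adj] at h ⊢
  obtain ⟨hne, ⟨e, he, h1, h2⟩ | ⟨e, he, h1, h2⟩⟩ := h
  · exact ⟨hne, Or.inl ⟨e, key e he (h1 ▸ hu), h1, h2⟩⟩
  · exact ⟨hne, Or.inr ⟨e, key e he (h1 ▸ hv), h1, h2⟩⟩

/-- Between its ends the interface is in the interior. -/
theorem T6_pos {a b : ℕ} {ω : Finset Edge} (hω : ω ⊆ box 0 a 0 b) {i : ℕ} (h1 : 1 ≤ i) (h2 : i < steps a b ω) :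
    1 ≤ (crn a b ω i).1 ∧ 1 ≤ (crn a b ω i).2 := by
  obtain ⟨hT, hlt⟩ := steps_hits hω
  induction i, h1 using Nat.le_induction with
  | base =>
    have e1 : crn a b ω 1 = (2 * (a : ℤ) + 1, 2 * 0 + 1) := by
      have h3 : ((a : ℤ), (0 : ℤ), false) ∉ ω ∪ wsd a b := by
        intro h
        have h4 := curve_box.1 (union_subset hω (curve_wsd a b) h)
        simp at h4
      exact next_SE_closed h3
    rw [e1]
    simp only
    omega
  | succ i hi ih =>
    have h3 := ih (by omega)
    have h4 : crn a b ω i ∈ cor a b := curve_cor hω i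
    have h5 := hlt (i + 1) h2
    have h6 : next (ω ∪ wsd a b) (crn a b ω i) ≠ (0, 2 * (b : ℤ) + 1) := by
      rw [← crn_succ]
      exact h5
    rw [crn_succ]
    exact ⟨curve_pos1 hω h4 h3.1 h6, curve_pos2 h4 h3.1 h3.2⟩

private theorem T6_dadj {a b : ℕ} {ω : Finset Edge} {e : Edge} {u v : V} (h1 : e ∈ box 0 a 0 b) (h2 : e ∉ ω ∪ wsd a b)
    (h3 : ea (dl e) = u) (h4 : eb (dl e) = v) (h5 : u ≠ v) : (gr (dc (box 0 a 0 b) ω)).Adj u v := by
  refine T6_adj (e := dl e) ?_ h3 h4 h5
  unfold dc
  rw [mem_map]
  exact ⟨e, mem_sdiff.2 ⟨h1, fun h => h2 (mem_union_left _ h)⟩, rfl⟩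

/-- The plaquette stays or moves along a dual edge crossing a closed edge. -/
theorem T6_fc {a b : ℕ} {ω : Finset Edge} {p : V} (h1 : 1 ≤ p.1) (h2 : 1 ≤ p.2)
    (hf : (fc p).1 < a ∧ (fc p).2 < b)
    (hf' : (fc (next (ω ∪ wsd a b) p)).1 < a ∧ (fc (next (ω ∪ wsd a b) p)).2 < b) :
    fc (next (ω ∪ wsd a b) p) = fc p ∨ (gr (dc (box 0 a 0 b) ω)).Adj (fc p) (fc (next (ω ∪ wsd a b) p)) := by
  clear hf'
  unfold fc at hf
  simp only at hf
  rcases corner_cases p with ⟨x, y, rfl⟩ | ⟨x, y, rfl⟩ | ⟨x, y, rfl⟩ | ⟨x, y, rfl⟩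
  · simp only at h1 h2 hf
    by_cases h : (x, y, false) ∈ ω ∪ wsd a b
    · left
      rw [next_SE_open h]
      unfold fc
      ext <;> simp only <;> omega
    · right
      rw [next_SE_closed h]
      refine T6_dadj (curve_box.2 (Or.inl ⟨rfl, by omega⟩)) h ?_ ?_ ?_
      · unfold fc
        ext <;> simp [FKN.dl, ea] <;> omega
      · unfold fc
        ext <;> simp [FKN.dl, eb] <;> omega
      · unfold fc
        intro h3
        rw [Prod.mk.injEq] at h3
        simp only at h3
        omega
  · simp only at h1 h2 hf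
    by_cases h : (x, y, true) ∈ ω ∪ wsd a b
    · left
      rw [next_NE_open h]
      unfold fc
      ext <;> simp only <;> omega
    · right
      rw [next_NE_closed h]
      refine SimpleGraph.Adj.symm (T6_dadj (curve_box.2 (Or.inr ⟨rfl, by omega⟩)) h ?_ ?_ ?_)
      · unfold fc
        ext <;> simp [FKN.dl, ea] <;> omega
      · unfold fc
        ext <;> simp [FKN.dl, eb]
      · unfold fc
        intro h3
        rw [Prod.mk.injEq] at h3
        simp only at h3
        omega
  · simp only at h1 h2 hf
    by_cases h : (x - 1, y, false) ∈ ω ∪ wsd a b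
    · left
      rw [next_NW_open h]
      unfold fc
      ext <;> simp only <;> omega
    · right
      rw [next_NW_closed h]
      refine SimpleGraph.Adj.symm (T6_dadj (curve_box.2 (Or.inl ⟨rfl, by omega⟩)) h ?_ ?_ ?_)
      · unfold fc
        ext <;> simp [FKN.dl, ea] <;> omega
      · unfold fc
        ext <;> simp [FKN.dl, eb] <;> omega
      · unfold fc
        intro h3
        rw [Prod.mk.injEq] at h3
        simp only at h3
        omega
  · simp only at h1 h2 hf
    by_cases h : (x, y - 1, true) ∈ ω ∪ wsd a b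
    · left
      rw [next_SW_open h]
      unfold fc
      ext <;> simp only <;> omega
    · right
      rw [next_SW_closed h]
      refine T6_dadj (curve_box.2 (Or.inr ⟨rfl, by omega⟩)) h ?_ ?_ ?_
      · unfold fc
        ext <;> simp [FKN.dl, ea] <;> omega
      · unfold fc
        ext <;> simp [FKN.dl, eb] <;> omega
      · unfold fc
        intro h3
        rw [Prod.mk.injEq] at h3
        simp only at h3
        omega

/-- The steps have length at most one. -/
theorem T6_near (η : Finset Edge) (p : V) : (|(vtx (next η p)).1 - (vtx p).1| ≤ 1 ∧ |(vtx (next η p)).2 - (vtx p).2| ≤ 1) ∧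
    |(fc (next η p)).1 - (fc p).1| ≤ 1 ∧ |(fc (next η p)).2 - (fc p).2| ≤ 1 := by
  unfold next vtx fc ostep cstep
  rw [abs_le, abs_le, abs_le, abs_le]
  split_ifs <;> simp only [Prod.fst_add, Prod.snd_add] <;> omega

/-- The plaquette of a corner is near its vertex. -/
theorem T6_vf (z p : V) : sd z (fc p) ≤ sd z (vtx p) + 1 ∧ sd z (vtx p) ≤ sd z (fc p) + 1 := by
  unfold sd fc vtx
  simp only
  constructor
  · rw [max_le_iff, abs_le, abs_le]
    have h1 := le_max_left |p.1 / 2 - z.1| |p.2 / 2 - z.2|
    have h2 := le_max_right |p.1 / 2 - z.1| |p.2 / 2 - z.2|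
    rw [abs_le] at h1 h2
    omega
  · rw [max_le_iff, abs_le, abs_le]
    have h1 := le_max_left |(p.1 - 1) / 2 - z.1| |(p.2 - 1) / 2 - z.2|
    have h2 := le_max_right |(p.1 - 1) / 2 - z.1| |(p.2 - 1) / 2 - z.2|
    rw [abs_le] at h1 h2
    omega

end DimLim
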