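import Pool.Agent.Lib.MP_216314_pr.IC.T0
import Pool.Agent.Lib.MP_216314_pr.IC.TVa
import Pool.Agent.Lib.MP_216314_pr.J.JProb
import Pool.Agent.Lib.MP_216314_pr.N.CP

/-!
# Many traversals of an annulus by the interface are unlikely

`hypT`: the crossing estimate, away from the corners `(a,0)` and `(0,b)`. `4 K` traversals give `K` disjoint open crossings of the annulus if the ball
does not meet the wired sides, `K` disjoint dual crossings if it does not meet the free sides (`FKC.occ_of_seq`); then `FKC.occ_prob`.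
-/

set_option autoImplicit false

noncomputable section

namespace DimLim

open Finset FKI FKP FKN

private theorem tv_sd {z v w : V} (h : |w.1 - v.1| ≤ 1 ∧ |w.2 - v.2| ≤ 1) : sd z w ≤ sd z v + 1 := by
  have h1 := sd_tri z v w
  have h2 : sd v w ≤ 1 := by
    rw [sd_le]
    rw [abs_le, abs_le] at h
    omega
  omega

/-- Successive traversals of a sequence of points give disjoint crossings. -/
theorem tv_gen {θ : Finset Edge} {z : V} {r R : ℕ} (hrR : r < R) {u : ℕ → V} {T K : ℕ} (s t : ℕ → ℕ)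
    (h1 : ∀ i < 4 * K, s i ≤ t i ∧ t i ≤ T ∧ sd z (u (s i)) ≤ r ∧ (R : ℤ) ≤ sd z (u (t i)))
    (h2 : ∀ i, i + 1 < 4 * K → t i ≤ s (i + 1))
    (hlen : ∀ i, |(u (i + 1)).1 - (u i).1| ≤ 1 ∧ |(u (i + 1)).2 - (u i).2| ≤ 1)
    (hst : ∀ i < T, sd z (u i) ≤ R → sd z (u (i + 1)) ≤ R → u (i + 1) = u i ∨ (gr θ).Adj (u i) (u (i + 1)))
    (hm : ∀ (v : V) (I : Finset ℕ), (∀ i ∈ I, i ≤ T ∧ u i = v) → I.card ≤ 4) :
    IPC.Occ (List.replicate K (AA z r R)) θ := by
  classical
  have hch : ∀ i : Fin (4 * K), ∃ e, s i ≤ e ∧ e ≤ t i ∧ (R : ℤ) ≤ sd z (u e) ∧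
      ∀ m, s i ≤ m → m < e → sd z (u m) < R := by
    intro i
    obtain ⟨h3, h4, h5, h6⟩ := h1 i i.2
    have hex : ∃ n, s i ≤ n ∧ (R : ℤ) ≤ sd z (u n) := ⟨t i, h3, h6⟩
    refine ⟨Nat.find hex, (Nat.find_spec hex).1, Nat.find_min' hex ⟨h3, h6⟩,
      (Nat.find_spec hex).2, fun m hm1 hm2 => ?_⟩
    have h7 := Nat.find_min hex hm2
    push Not at h7
    exact h7 hm1
  choose e he1 he2 he3 he4 using hch
  have hts : ∀ i j, i < j → j < 4 * K → t i ≤ s j := by
    intro i j hij
    induction j, hij using Nat.le_induction with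
    | base => exact fun h => h2 i h
    | succ j hij ih =>
      intro h
      have h3 := ih (by omega)
      have h4 := (h1 j (by omega)).1
      have h5 := h2 j h
      omega
  refine FKC.occ_of_seq (f := u) hrR (k := 4 * K) le_rfl (fun i => s i) e he1 ?_ ?_
    (fun i => (h1 i i.2).2.2.1) he3 T (fun i => (he2 i).trans (h1 i i.2).2.1) ?_
  · intro i j hij
    have h3 := hts i j hij j.2
    have h4 := he2 i
    have h5 := he3 i
    have h6 := (h1 j j.2).2.2.1
    have h7 : e i ≠ s j := by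
      intro h8
      rw [h8] at h5
      have : (r : ℤ) < R := by exact_mod_cast hrR
      omega
    show e i < s j
    omega
  · intro i m hm1 hm2
    have h3 := he4 i m hm1 hm2
    have h4 : sd z (u (m + 1)) ≤ sd z (u m) + 1 := tv_sd (hlen m)
    have h5 := (he2 i).trans (h1 i i.2).2.1
    rcases hst m (by omega) h3.le (by omega) with h6 | h6
    · exact Or.inl h6.symm
    · exact Or.inr h6
  · intro v
    refine hm v _ fun i hi => ?_
    have h3 := mem_filter.1 hi
    exact ⟨by have := mem_range.1 h3.1; omega, h3.2⟩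

variable {a b : ℕ} {ω : Finset Edge} {z : V}

/-- Away from the wired sides: disjoint open crossings. -/
theorem tv_prim (hω : ω ⊆ box 0 a 0 b) {r R K : ℕ} (hrR : r < R) (hz : (R : ℤ) < z.1 ∧ (R : ℤ) < z.2)
    (h : Trav a b ω z r R (4 * K)) : IPC.Occ (List.replicate K (AA z r R)) ω := by
  obtain ⟨s, t, h1, h2⟩ := h
  refine tv_gen hrR (u := vx a b ω) (T := steps a b ω) s t h1 h2 (fun i => ?_) (fun i _ hi hi' => ?_)
    (fun v I hI => T5_vtx hω v I hI)
  · rw [vx_eq, vx_eq, crn_succ]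
    exact (T6_near _ _).1
  · rw [vx_eq, vx_eq, crn_succ] at *
    rcases T6_step (ω ∪ wsd a b) (crn a b ω i) with h3 | h3
    · exact Or.inl h3
    · exact Or.inr (T6_prim hz h3 hi hi')

/-- Away from the free sides: disjoint dual crossings. -/
theorem tv_dual (hω : ω ⊆ box 0 a 0 b) {r R K : ℕ} (hrR : r + 2 < R) (hz : z.1 + R < a ∧ z.2 + R < b)
    (h : Trav a b ω z r R (4 * K)) :
    IPC.Occ (List.replicate K (AA z (r + 1) (R - 1))) (dc (box 0 a 0 b) ω) := by
  obtain ⟨s, t, h1, h2⟩ := h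
  have hR : ((R - 1 : ℕ) : ℤ) = R - 1 := by
    rw [Nat.cast_sub (by omega)]
    rfl
  refine tv_gen (by omega) (u := fun i => fc (crn a b ω i)) (T := steps a b ω) s t (fun i hi => ?_) h2
    (fun i => ?_) (fun i hiT hi hi' => ?_) (fun v I hI => T5_fc hω v I hI)
  · obtain ⟨h3, h4, h5, h6⟩ := h1 i hi
    rw [vx_eq] at h5 h6
    refine ⟨h3, h4, ?_, ?_⟩
    · have := (T6_vf z (crn a b ω (s i))).1
      push_cast
      show sd z (fc (crn a b ω (s i))) ≤ _
      omega
    · have := (T6_vf z (crn a b ω (t i))).2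
      rw [hR]
      show _ ≤ sd z (fc (crn a b ω (t i)))
      omega
  · show |(fc (crn a b ω (i + 1))).1 - (fc (crn a b ω i)).1| ≤ 1 ∧ _
    rw [crn_succ]
    exact (T6_near _ _).2
  · change sd z (fc (crn a b ω i)) ≤ _ at hi
    change sd z (fc (crn a b ω (i + 1))) ≤ _ at hi'
    rw [hR, sd_le] at hi hi'
    have h3 : (fc (crn a b ω i)).1 < a ∧ (fc (crn a b ω i)).2 < b := by omega
    have h4 : (fc (crn a b ω (i + 1))).1 < a ∧ (fc (crn a b ω (i + 1))).2 < b := by omega
    rcases Nat.eq_zero_or_pos i with h5 | h5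
    · subst h5
      have h6 : (fc (crn a b ω 0)).1 = a := by
        unfold fc crn
        simp only [Function.iterate_zero, id_eq]
        omega
      omega
    · obtain ⟨h6, h7⟩ := T6_pos hω h5 hiT
      rw [crn_succ] at h4 ⊢
      exact T6_fc h6 h7 h3 h4

/-- Only one kind of sides is near a point away from the special corners. -/
theorem tv_geo {a b R : ℕ} {z : V} (ha : 2 * R < a) (hb : 2 * R < b)
    (h5 : (R : ℤ) < sd z ((a : ℤ), 0)) (h6 : (R : ℤ) < sd z (0, (b : ℤ))) (h1 : 0 ≤ z.1) (h2 : z.1 ≤ a)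
    (h3 : 0 ≤ z.2) (h4 : z.2 ≤ b) :
    ((R : ℤ) < z.1 ∧ (R : ℤ) < z.2) ∨ (z.1 + R < a ∧ z.2 + R < b) := by
  rw [← not_le, sd_le] at h5 h6
  simp only at h5 h6
  omega

/-- **Many traversals of an annulus are unlikely.** -/
theorem hypT : HypT := by
  intro K
  obtain ⟨K', C, hC, h⟩ := FKC.occ_prob (K : ℝ)
  refine ⟨4 * K', 8 ^ K + C + C * 4 ^ K, by positivity, ?_⟩
  intro a b r R z hr hrR ha hb h1 h2 h3 h4 h5 h6
  have hr0 : (0 : ℝ) < r := by exact_mod_cast hr
  have hR0 : (0 : ℝ) < R := by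
    have : 0 < R := by omega
    exact_mod_cast this
  have hq0 : 0 < (r : ℝ) / R := by positivity
  have hqK : 0 < ((r : ℝ) / R) ^ K := by positivity
  have hexp : (8 ^ K + C + C * 4 ^ K) * ((r : ℝ) / R) ^ K =
      8 ^ K * ((r : ℝ) / R) ^ K + C * ((r : ℝ) / R) ^ K + C * 4 ^ K * ((r : ℝ) / R) ^ K := by ring
  have e1 : 0 ≤ (8 : ℝ) ^ K * ((r : ℝ) / R) ^ K := by positivity
  have e2 : 0 ≤ C * ((r : ℝ) / R) ^ K := by positivity
  have e3 : 0 ≤ C * 4 ^ K * ((r : ℝ) / R) ^ K := by positivity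
  rw [hexp]
  rcases Nat.lt_or_ge R (8 * r) with h8 | h8
  · have h9 : 1 ≤ (8 : ℝ) ^ K * ((r : ℝ) / R) ^ K := by
      rw [← mul_pow]
      refine one_le_pow₀ ?_
      rw [← mul_div_assoc, le_div_iff₀ hR0, one_mul]
      exact_mod_cast h8.le
    linarith [Pr_le_one (box 0 a 0 b) (fun ω => Trav a b ω z r R (4 * K'))]
  · rcases tv_geo ha hb h5 h6 h1 h2 h3 h4 with hz | hz
    · have h9 : Pr (box 0 a 0 b) (fun ω => Trav a b ω z r R (4 * K')) ≤
          Pr (box 0 a 0 b) (IPC.Occ (List.replicate K' (AA z r R))) :=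
        Pr_mono fun ω hω h10 => tv_prim hω (by omega) hz h10
      rw [pr_half (box 0 a 0 b) (IPC.Occ (List.replicate K' (AA z r R)))] at h9
      have h10 := h z r R (box 0 a 0 b) hr (by omega)
      rw [Real.rpow_natCast] at h10
      have h11 := h9.trans h10
      linarith
    · have h9 : Pr (box 0 a 0 b) (fun ω => Trav a b ω z r R (4 * K')) ≤
          Pr (box 0 a 0 b) (fun ω => IPC.Occ (List.replicate K' (AA z (r + 1) (R - 1))) (dc (box 0 a 0 b) ω)) :=
        Pr_mono fun ω hω h10 => tv_dual hω (by omega) hz h10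
      have h12 : Pr (box 0 a 0 b) (fun ω => IPC.Occ (List.replicate K' (AA z (r + 1) (R - 1)))
          (dc (box 0 a 0 b) ω)) = IPC.Pr (1 / 2) ((box 0 a 0 b).map dl.toEmbedding)
            (IPC.Occ (List.replicate K' (AA z (r + 1) (R - 1)))) := by
        rw [pr_half]
        have h13 := pr_dc (1 / 2) (box 0 a 0 b) (IPC.Occ (List.replicate K' (AA z (r + 1) (R - 1))))
        have h14 : (1 - 1 / 2 : ℝ) = 1 / 2 := by norm_num
        rw [h14] at h13
        exact h13
      rw [h12] at h9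
      have h10 := h z (r + 1) (R - 1) ((box 0 a 0 b).map dl.toEmbedding) (by omega) (by omega)
      rw [Real.rpow_natCast] at h10
      have h15 : (((r + 1 : ℕ) : ℝ) / ((R - 1 : ℕ) : ℝ)) ^ K ≤ 4 ^ K * ((r : ℝ) / R) ^ K := by
        rw [← mul_pow]
        have h16 : ((R - 1 : ℕ) : ℝ) = R - 1 := by
          rw [Nat.cast_sub (by omega), Nat.cast_one]
        have h17 : (2 : ℝ) ≤ R := by
          have : 2 ≤ R := by omega
          exact_mod_cast this
        have h18 : (1 : ℝ) ≤ r := by exact_mod_cast hr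
        refine pow_le_pow_left₀ (by positivity) ?_ K
        rw [h16, ← mul_div_assoc, div_le_div_iff₀ (by linarith) hR0]
        push_cast
        nlinarith
      have h19 := h9.trans (h10.trans (mul_le_mul_of_nonneg_left h15 hC.le))
      rw [← mul_assoc] at h19
      linarith

end DimLim
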