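import Pool.Agent.Lib.MP_216314_pr.IC.TVa
import Pool.Agent.Lib.MP_216314_pr.EV.Def

/-!
# Multiple points of the scaling limits of the interface: discrete definitions

`TravI a b ω z r R l`: the interface has `l` disjoint pieces, each from distance at least `R` to distance at most `r` of `z`.
`HypE l`: the upper bound for the probability of `l` strands across an annulus (exponent `(4 l² - 1) / 12`).
-/

set_option autoImplicit false

noncomputable section

namespace DimLim

open Finset FKI FKP FKN

/-- `l` disjoint pieces of the interface go from distance at least `R` to distance at most `r` of `z`. -/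
def TravI (a b : ℕ) (ω : Finset Edge) (z : V) (r R : ℤ) (l : ℕ) : Prop :=
  ∃ s t : ℕ → ℕ, (∀ i < l, s i ≤ t i ∧ t i ≤ steps a b ω ∧ R ≤ sd z (vx a b ω (s i)) ∧
    sd z (vx a b ω (t i)) ≤ r) ∧ ∀ i, i + 1 < l → t i ≤ s (i + 1)

/-- The upper bound for the probability of `l` strands across an annulus. -/
def HypE (l : ℕ) : Prop := ∃ (r0 : ℕ) (C : ℝ), 0 < C ∧ ∀ r n : ℕ, r0 ≤ r → 8 * r ≤ n →
  EV.eI l r n ≤ C * ((r : ℝ) / n) ^ EV.al l

/-- Translation of a configuration by `z`. -/
def tw (z : V) (ω : Finset Edge) : Finset Edge := ω.map (shE z.1 z.2).toEmbedding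

/-- Translation of a corner by `2 z`. -/
def tc (z p : V) : V := (p.1 + 2 * z.1, p.2 + 2 * z.2)

end DimLim
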