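import Pool.Agent.Lib.MP_216314_pr.EV.FMain
import Pool.Agent.Lib.MP_216314_pr.EV.DRecL
import Pool.Agent.Lib.MP_216314_pr.IC.W0

/-!
# Multiple points: the upper bound for the probability of `l` strands across an annulus

PROOF. `rec_inn_l` (with `hSepI`) and `wI_up`, as in the upper bound of `final_of`.
-/

set_option autoImplicit false

noncomputable section

namespace EV

open Finset FKI FKP FKN CY Filter Topology

/-- the probability of `l` strands across an annulus -/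
theorem WA_eI_up {l : ℕ} (hl : 1 ≤ l) : ∃ (r0 : ℕ) (C : ℝ), 0 < C ∧ ∀ r n : ℕ, r0 ≤ r → 2 * r ≤ n →
    eI l r n ≤ C * ((r : ℝ) / n) ^ (al l) := by
  have ha := (F_al_pos hl).le
  obtain ⟨Cw, rw0, hCw, hwI⟩ := wI_up hl
  obtain ⟨kr, Ci, hCi, hrec⟩ := rec_inn_l hl (hSepI hl)
  have h16 : (0 : ℝ) < ((16 : ℕ) : ℝ) ^ (al l) := by positivity
  refine ⟨kr + 10 * rw0 + l + 100, Ci * Cw + ((16 : ℕ) : ℝ) ^ (al l), by positivity, ?_⟩
  intro r n hr hn
  have hr1 : 1 ≤ r := by omega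
  have hn1 : 1 ≤ n := by omega
  have hra : (0 : ℝ) < (r : ℝ) ^ (al l) := Real.rpow_pos_of_pos (by exact_mod_cast hr1) _
  have hna : (0 : ℝ) < (n : ℝ) ^ (-al l) := F_pos hn1
  rw [F_ratio hn1]
  by_cases h8 : 8 * r ≤ n
  · have h2 := hrec r n (by omega) h8
    have h3 := hwI (r / 10) n (by omega) (by omega)
    have h4 : ((r / 10 : ℕ) : ℝ) ^ (al l) ≤ (r : ℝ) ^ (al l) := by
      refine Real.rpow_le_rpow (Nat.cast_nonneg _) ?_ ha
      exact_mod_cast (by omega : r / 10 ≤ r)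
    calc eI l r n ≤ Ci * wIl l (r / 10) n := h2
      _ ≤ Ci * (Cw * (((r / 10 : ℕ) : ℝ) ^ (al l) * (n : ℝ) ^ (-al l))) := mul_le_mul_of_nonneg_left h3 hCi.le
      _ ≤ Ci * (Cw * ((r : ℝ) ^ (al l) * (n : ℝ) ^ (-al l))) := by
        refine mul_le_mul_of_nonneg_left (mul_le_mul_of_nonneg_left ?_ hCw.le) hCi.le
        exact mul_le_mul_of_nonneg_right h4 hna.le
      _ = Ci * Cw * ((r : ℝ) ^ (al l) * (n : ℝ) ^ (-al l)) := by ring
      _ ≤ _ := mul_le_mul_of_nonneg_right (by linarith) (by positivity)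
  · have h1 : eI l r n ≤ 1 := IPC.Pr_le_one (by norm_num) (by norm_num) _ _
    have h2 : (r : ℝ) ^ (-al l) ≤ ((16 : ℕ) : ℝ) ^ (al l) * (n : ℝ) ^ (-al l) := F_scale ha hr1 hn1 (by omega)
    have h7 : (r : ℝ) ^ (al l) * (r : ℝ) ^ (-al l) = 1 := F_cancel hr1
    calc eI l r n ≤ (r : ℝ) ^ (al l) * (r : ℝ) ^ (-al l) := by rw [h7]; exact h1
      _ ≤ (r : ℝ) ^ (al l) * (((16 : ℕ) : ℝ) ^ (al l) * (n : ℝ) ^ (-al l)) := mul_le_mul_of_nonneg_left h2 hra.le
      _ = ((16 : ℕ) : ℝ) ^ (al l) * ((r : ℝ) ^ (al l) * (n : ℝ) ^ (-al l)) := by ring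
      _ ≤ _ := mul_le_mul_of_nonneg_right (by linarith [mul_pos hCi hCw]) (by positivity)

end EV

namespace DimLim

open Finset FKI FKP FKN

/-- the upper bound for the probability of `l` strands -/
theorem hypE {l : ℕ} (hl : 1 ≤ l) : HypE l := by
  obtain ⟨r0, C, hC, h⟩ := EV.WA_eI_up hl
  exact ⟨r0, C, hC, fun r n hr hn => h r n hr (by omega)⟩

end DimLim
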