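import Pool.Agent.Lib.MP_216314_pr.IC.W0

/-!
# Leaf WB: translations (medium-, 4 theorems)

PROOF. `edgeOf_tc`: `corner_cases p`, then `edgeOf_SE`, `edgeOf_NE`, `edgeOf_NW`, `edgeOf_SW` (NextB) for both sides: e.g. `p = (2x+1, 2y)`:
`tc z p = (2 (x + z.1) + 1, 2 (y + z.2))`, `edgeOf = (x + z.1, y + z.2, false) = shE z.1 z.2 (x, y, false)`. (Or unfold `edgeOf`, `tc`, `shE` and `split_ifs`, `omega`.)
`next_tc`: `next ω p = p + (if edgeOf p ∈ ω then ostep p else cstep p)`; `shE z.1 z.2 e ∈ tw z ω ↔ e ∈ ω` (`Finset.mem_map'`), `ostep (tc z p) = ostep p`,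
`cstep (tc z p) = cstep p` (they depend on the parities only). `orb_tc`: induction on `k` (`FKS.orb ω s k = (next ω)^[k] s`,
`Function.iterate_succ_apply'`). `vtx_tc`: `(p.1 + 2 z.1) / 2 = p.1 / 2 + z.1`, `omega`.
-/

set_option autoImplicit false

noncomputable section

namespace DimLim

open Finset FKI FKP FKN

private theorem WB_mod (a b : ℤ) : (a + 2 * b) % 2 = a % 2 := by omega

private theorem WB_div (a b : ℤ) : (a + 2 * b) / 2 = a / 2 + b := by omega

private theorem WB_ostep (z p : V) : ostep (tc z p) = ostep p := by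
  unfold ostep tc
  simp only [WB_mod]

private theorem WB_cstep (z p : V) : cstep (tc z p) = cstep p := by
  unfold cstep tc
  simp only [WB_mod]

private theorem WB_add (z p q : V) : tc z p + q = tc z (p + q) := by
  unfold tc
  refine Prod.ext ?_ ?_
  · simp only [Prod.fst_add]
    ring
  · simp only [Prod.snd_add]
    ring

theorem edgeOf_tc (z p : V) : edgeOf (tc z p) = shE z.1 z.2 (edgeOf p) := by
  unfold edgeOf tc
  simp only [WB_mod, WB_div]
  split_ifs
  · rfl
  · rfl
  · refine Prod.ext ?_ rfl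
    show p.1 / 2 + z.1 - 1 = p.1 / 2 - 1 + z.1
    ring
  · refine Prod.ext rfl (Prod.ext ?_ rfl)
    show p.2 / 2 + z.2 - 1 = p.2 / 2 - 1 + z.2
    ring

theorem next_tc (z : V) (ω : Finset Edge) (p : V) : next (tw z ω) (tc z p) = tc z (next ω p) := by
  unfold next
  have h1 : edgeOf (tc z p) ∈ tw z ω ↔ edgeOf p ∈ ω := by
    rw [edgeOf_tc]
    exact Finset.mem_map' (shE z.1 z.2).toEmbedding
  rw [WB_ostep, WB_cstep, WB_add]
  by_cases h : edgeOf p ∈ ω
  · rw [if_pos h, if_pos (h1.2 h)]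
  · rw [if_neg h, if_neg (fun h2 => h (h1.1 h2))]

theorem orb_tc (z : V) (ω : Finset Edge) (p : V) (k : ℕ) : FKS.orb (tw z ω) (tc z p) k = tc z (FKS.orb ω p k) := by
  induction k with
  | zero => rfl
  | succ k ih =>
    unfold FKS.orb at ih ⊢
    rw [Function.iterate_succ_apply', Function.iterate_succ_apply', ih, next_tc]

theorem vtx_tc (z p : V) : vtx (tc z p) = vtx p + z := by
  unfold vtx tc
  simp only [WB_div]
  rfl

end DimLim
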