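import Pool.Agent.Lib.MP_216314_pr.IC.W0
import Pool.Agent.Lib.MP_216314_pr.EV.CB2

/-!
# Leaf WC: a piece of a loop from the exterior to the hole contains a strand (medium)

PROOF. As in the proof of `EV.strand_in` (EV/CB2), with the whole configuration `η`. Let `p = orb η q i`, `T = j - i`, so `orb η p m = orb η q (i + m)`.
`EV.extract` with `D := D0 r n`, `X e := e ∉ bx n`, `H e := e ∈ bx n ∧ e ∉ D0 r n`, `p`, `T`: `hX`: `vtx p` is an end of `edgeOf p` (`vtx_mem`, as used in EV/CB2) and
`nrm (vtx p) ≥ n + 1`, so `edgeOf p ∉ bx n` (`FKN.mem_bx_iff`: an edge is in `bx n` iff both ends have `nrm ≤ n`). `hH`: `vtx (orb η p T)` has `nrm ≤ r - 1`, is an end of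
`edgeOf (orb η p T)`, so both ends have `nrm ≤ r ≤ n` (the norm changes by at most one along an edge, `FKN.nrmC_step 0 e`), the edge is in `bx n`, not in `D0 r n`
(`D0 r n` = edges of `bx n` with both ends of `nrm ≥ r`). Result: `j1 < k1 ≤ T`, `X` at `j1`, `H` at `k1`, edges in `D0 r n` strictly between. Take
`i' = i + j1 + 1`, `j' = i + k1`. `s = orb η q i'`: `edgeIn s = edgeOf (orb η p j1) ∉ bx n` (`edgeIn_next`, `FKS.orb_succ`); `edgeOf s ∈ bx n` (it is in `D0 r n` if
`j1 + 1 < k1`, and satisfies `H` if `j1 + 1 = k1`); so `nrm (vtx s) ≤ n`, and `vtx s` is an end of `edgeIn s` (`vtx_mem_in`), which is not in `bx n`, so the other end or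
`vtx s` has `nrm ≥ n + 1` and `nrm (vtx s) ≥ n`: `s ∈ StI n`. `ExI`: `H`. `Exit`: `⟨k1 - (j1 + 1), _, _, _⟩`, `Run`: the edges strictly between are in `D0 r n`.
-/

set_option autoImplicit false

noncomputable section

namespace DimLim

open Finset FKI FKP FKN

private theorem WC_mem_bx {r : ℕ} {e : Edge} : e ∈ FKN.bx r ↔ FKN.nrm (ea e) ≤ r ∧ FKN.nrm (eb e) ≤ r := by
  obtain ⟨x, y, t⟩ := e
  unfold FKN.bx
  rw [mem_box]
  cases t
  · simp only [ea, eb, FKN.nrm, max_le_iff, abs_le]
    simp
    omega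
  · simp only [ea, eb, FKN.nrm, max_le_iff, abs_le]
    simp
    omega

private theorem WC_nrm_step (e : Edge) : FKN.nrm (eb e) ≤ FKN.nrm (ea e) + 1 ∧ FKN.nrm (ea e) ≤ FKN.nrm (eb e) + 1 := by
  obtain ⟨x, y, t⟩ := e
  cases t
  · simp only [ea, eb, FKN.nrm]
    constructor
    · simp only [max_le_iff]
      simp
      constructor
      · have h1 : |x + 1| ≤ |x| + 1 := by simpa using abs_add_le x 1
        have h2 : |x| ≤ max |x| |y| := le_max_left _ _
        linarith
      · have h2 : |y| ≤ max |x| |y| := le_max_right _ _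
        linarith
    · simp only [max_le_iff]
      simp
      constructor
      · have h1 : |x| ≤ |x + 1| + 1 := by
          have := abs_add_le (x + 1) (-1)
          simpa using this
        have h2 : |x + 1| ≤ max |x + 1| |y| := le_max_left _ _
        linarith
      · have h2 : |y| ≤ max |x + 1| |y| := le_max_right _ _
        linarith
  · simp only [ea, eb, FKN.nrm]
    constructor
    · simp only [max_le_iff]
      simp
      constructor
      · have h2 : |x| ≤ max |x| |y| := le_max_left _ _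
        linarith
      · have h1 : |y + 1| ≤ |y| + 1 := by simpa using abs_add_le y 1
        have h2 : |y| ≤ max |x| |y| := le_max_right _ _
        linarith
    · simp only [max_le_iff]
      simp
      constructor
      · have h2 : |x| ≤ max |x| |y + 1| := le_max_left _ _
        linarith
      · have h1 : |y| ≤ |y + 1| + 1 := by
          have := abs_add_le (y + 1) (-1)
          simpa using this
        have h2 : |y + 1| ≤ max |x| |y + 1| := le_max_right _ _
        linarith

/-- A piece of a loop from the exterior of `bx n` to the hole contains a strand. -/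
theorem strand_of {r n : ℕ} (hrn : r ≤ n) {η : Finset Edge} {q : V} {i j : ℕ} (hij : i ≤ j)
    (hi : (n : ℤ) + 1 ≤ nrm (vtx (FKS.orb η q i))) (hj : nrm (vtx (FKS.orb η q j)) + 1 ≤ r) :
    ∃ i' j' : ℕ, i ≤ i' ∧ i' ≤ j' ∧ j' ≤ j ∧ FKS.orb η q i' ∈ EV.StI n ∧ FKS.orb η q j' ∈ EV.ExI r n ∧
      FKS.Exit (EV.D0 r n) η (FKS.orb η q i') (FKS.orb η q j') := by
  have horb : ∀ m, FKS.orb η (FKS.orb η q i) m = FKS.orb η q (i + m) := fun m => (FKS.orb_add η q i m).symm
  have hD0 : EV.D0 r n ⊆ FKN.bx n := Finset.filter_subset _ _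
  have hX0 : edgeOf (FKS.orb η q i) ∉ FKN.bx n := by
    intro h
    rw [WC_mem_bx] at h
    rcases FKS.vtx_mem (FKS.orb η q i) with g | g
    · rw [g] at hi
      linarith [h.1]
    · rw [g] at hi
      linarith [h.2]
  have hH0 : edgeOf (FKS.orb η (FKS.orb η q i) (j - i)) ∈ FKN.bx n ∧
      edgeOf (FKS.orb η (FKS.orb η q i) (j - i)) ∉ EV.D0 r n := by
    rw [horb, Nat.add_sub_cancel' hij]
    have hrn' : (r : ℤ) ≤ n := by exact_mod_cast hrn
    have h2 := WC_nrm_step (edgeOf (FKS.orb η q j))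
    rcases FKS.vtx_mem (FKS.orb η q j) with g | g
    · rw [g] at hj
      refine ⟨WC_mem_bx.2 ⟨by linarith, by linarith [h2.1]⟩, fun h => ?_⟩
      have h3 := (Finset.mem_filter.1 h).2.1
      linarith
    · rw [g] at hj
      refine ⟨WC_mem_bx.2 ⟨by linarith [h2.2], by linarith⟩, fun h => ?_⟩
      have h3 := (Finset.mem_filter.1 h).2.2
      linarith
  obtain ⟨j1, k1, hjk, hkT, hX, hH, hmid⟩ := EV.extract (η := η) (D := EV.D0 r n) (p := FKS.orb η q i)
    (T := j - i) (X := fun e => e ∉ FKN.bx n) (H := fun e => e ∈ FKN.bx n ∧ e ∉ EV.D0 r n)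
    (fun e => by
      by_cases h1 : e ∈ EV.D0 r n
      · exact Or.inl h1
      · by_cases h2 : e ∈ FKN.bx n
        · exact Or.inr (Or.inr ⟨h2, h1⟩)
        · exact Or.inr (Or.inl h2))
    (fun e h1 h2 => h1 h2.1) hX0 hH0
  rw [horb] at hX hH
  have hs1 : edgeIn (FKS.orb η q (i + j1 + 1)) ∉ FKN.bx n := by
    rw [FKS.orb_succ, edgeIn_next]
    exact hX
  have hs2 : edgeOf (FKS.orb η q (i + j1 + 1)) ∈ FKN.bx n := by
    rcases Nat.lt_or_ge (j1 + 1) k1 with h | h
    · have h1 := hmid (j1 + 1) (by omega) h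
      rw [horb, ← add_assoc] at h1
      exact hD0 h1
    · have h1 : i + j1 + 1 = i + k1 := by omega
      rw [h1]
      exact hH.1
  have hs3 : FKN.nrm (vtx (FKS.orb η q (i + j1 + 1))) = n := by
    apply le_antisymm
    · rw [WC_mem_bx] at hs2
      rcases FKS.vtx_mem (FKS.orb η q (i + j1 + 1)) with h | h
      · rw [h]; exact hs2.1
      · rw [h]; exact hs2.2
    · by_contra hlt
      push Not at hlt
      apply hs1
      rw [WC_mem_bx]
      have h2 := WC_nrm_step (edgeIn (FKS.orb η q (i + j1 + 1)))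
      rcases FKS.vtx_mem_in (FKS.orb η q (i + j1 + 1)) with h | h
      · rw [h] at hlt
        exact ⟨by omega, by omega⟩
      · rw [h] at hlt
        exact ⟨by omega, by omega⟩
  refine ⟨i + j1 + 1, i + k1, by omega, by omega, by omega, ⟨hs1, hs3, hs2⟩, hH, k1 - (j1 + 1), ?_, ?_, hH.2⟩
  · intro m hm
    rw [← FKS.orb_add]
    have h1 := hmid (j1 + 1 + m) (by omega) (by omega)
    rw [horb] at h1
    have h2 : i + j1 + 1 + m = i + (j1 + 1 + m) := by omega
    rw [h2]
    exact h1
  · rw [← FKS.orb_add]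
    congr 1
    omega

end DimLim
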