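import Pool.Agent.Lib.MP_216314_pr.IC.WB
import Pool.Agent.Lib.MP_216314_pr.IC.WC
import Pool.Agent.Lib.MP_216314_pr.EV.DExit

/-!
# Leaf WD: `l` inward traversals give `l` strands (medium-)

PROOF. Let `η = ω ∪ wsd a b`, `q = (2a+1, 0)`, `θ = tw (-z) η`, `q' = tc (-z) q`. By `orb_tc` `orb θ q' k = tc (-z) (crn a b ω k)` (`crn` is `FKS.orb η q` by `rfl`), by
`vtx_tc` `vtx (orb θ q' k) = vx a b ω k - z`, so `nrm (vtx (orb θ q' k)) = sd z (vx a b ω k)` (`sd z v = nrm (v - z)` by `rfl`). Let `s, t` be as in `TravI`. `strand_of` for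
`i = s m`, `j = t m`, `m < l`: `i' m, j' m` with `s m ≤ j' m ≤ t m`, `Exit (D0 r n) θ (orb θ q' (i' m)) (orb θ q' (j' m))`. Let `a m = orb θ q' (j' m)`. Injective: for
`m < m'` one has `t m ≤ s m'` (induction), and `j' m ≠ j' m'`: otherwise `t m = s m' = j' m`, but `sd z (vx (t m)) ≤ r - 1 < n + 1 ≤ sd z (vx (s m'))`; so
`j' m < j' m' ≤ steps a b ω`, the corners `crn (j' m)`, `crn (j' m')` are different (`T5_inj hω`), and `tc (-z)` is injective. So `ExitN (D0 r n) (ExI r n) _ θ`. Finally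
`EV.D_exitN_inter` (EV/DExit: `ExitN D Ex St ω ↔ ExitN D Ex St (ω ∩ D)`) and `θ ∩ D0 r n = tw (-z) ω ∩ D0 r n`: an edge `e ∈ D0 r n ⊆ bx n` with `e + z ∈ wsd a b`
(`wsd a b = box 0 0 0 b ∪ box 0 a 0 0`: then `(ea (e + z)).1 = 0` or `(ea (e + z)).2 = 0`) has `nrm (ea e) ≥ min z.1 z.2 > n`, impossible.
-/

set_option autoImplicit false

noncomputable section

namespace DimLim

open Finset FKI FKP FKN

private theorem WD_sd (z p : V) : nrm (vtx (tc (-z) p)) = sd z (vtx p) := by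
  rw [vtx_tc]
  unfold nrm sd
  rw [Prod.fst_add, Prod.snd_add, Prod.fst_neg, Prod.snd_neg, ← sub_eq_add_neg, ← sub_eq_add_neg]

private theorem WD_inj (z p p' : V) (h : tc z p = tc z p') : p = p' := by
  unfold tc at h
  rw [Prod.mk.injEq] at h
  exact Prod.ext (by omega) (by omega)

private theorem WD_inter {a b : ℕ} (ω : Finset Edge) {z : V} {r n : ℕ} (hz : (n : ℤ) < z.1 ∧ (n : ℤ) < z.2) :
    tw (-z) (ω ∪ wsd a b) ∩ EV.D0 r n = tw (-z) ω ∩ EV.D0 r n := by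
  ext e
  rw [mem_inter, mem_inter]
  constructor
  · rintro ⟨h1, h2⟩
    refine ⟨?_, h2⟩
    unfold tw at h1 ⊢
    rw [mem_map] at h1 ⊢
    obtain ⟨e', he', rfl⟩ := h1
    refine ⟨e', ?_, rfl⟩
    rcases mem_union.1 he' with h3 | h3
    · exact h3
    · exfalso
      have h4 := (EV.D_D0.1 h2).1
      obtain ⟨x, y, t⟩ := e'
      have h5 : (shE (-z).1 (-z).2).toEmbedding (x, y, t) = (x + (-z).1, y + (-z).2, t) := rfl
      rw [h5, Prod.fst_neg, Prod.snd_neg] at h4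
      unfold FKN.bx at h4
      unfold wsd at h3
      simp only [FKP.box, mem_union, mem_product, mem_Ico, mem_Icc, mem_singleton] at h3 h4
      omega
  · rintro ⟨h1, h2⟩
    exact ⟨map_subset_map.2 subset_union_left h1, h2⟩

/-- Inward traversals give strands of the translated configuration. -/
theorem exit_of_trav {a b : ℕ} {ω : Finset Edge} {z : V} {r n l : ℕ} (hω : ω ⊆ box 0 a 0 b) (hrn : r ≤ n)
    (hz : (n : ℤ) < z.1 ∧ (n : ℤ) < z.2) (h : TravI a b ω z ((r : ℤ) - 1) ((n : ℤ) + 1) l) :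
    FKS.ExitN (EV.D0 r n) (EV.ExI r n) (fun _ : Fin l => EV.StI n) (tw (-z) ω) := by
  obtain ⟨s, t, hst, hnext⟩ := h
  have horb : ∀ k, FKS.orb (tw (-z) (ω ∪ wsd a b)) (tc (-z) (2 * (a : ℤ) + 1, 0)) k =
      tc (-z) (crn a b ω k) := fun k => orb_tc (-z) (ω ∪ wsd a b) (2 * (a : ℤ) + 1, 0) k
  have hnrm : ∀ k, nrm (vtx (FKS.orb (tw (-z) (ω ∪ wsd a b)) (tc (-z) (2 * (a : ℤ) + 1, 0)) k)) =
      sd z (vx a b ω k) := by
    intro k
    rw [horb, WD_sd, vx_eq]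
  have hm : ∀ m : Fin l, ∃ i' j' : ℕ, s m ≤ i' ∧ i' ≤ j' ∧ j' ≤ t m ∧
      FKS.orb (tw (-z) (ω ∪ wsd a b)) (tc (-z) (2 * (a : ℤ) + 1, 0)) i' ∈ EV.StI n ∧
      FKS.orb (tw (-z) (ω ∪ wsd a b)) (tc (-z) (2 * (a : ℤ) + 1, 0)) j' ∈ EV.ExI r n ∧
      FKS.Exit (EV.D0 r n) (tw (-z) (ω ∪ wsd a b))
        (FKS.orb (tw (-z) (ω ∪ wsd a b)) (tc (-z) (2 * (a : ℤ) + 1, 0)) i')
        (FKS.orb (tw (-z) (ω ∪ wsd a b)) (tc (-z) (2 * (a : ℤ) + 1, 0)) j') := by
    intro m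
    obtain ⟨h1, -, h3, h4⟩ := hst m m.2
    refine strand_of hrn h1 ?_ ?_
    · rw [hnrm]
      exact h3
    · rw [hnrm]
      linarith
  choose i' j' h1 h2 h3 h4 h5 h6 using hm
  have hmono : ∀ m m' : ℕ, m < m' → m' < l → t m ≤ s m' := by
    intro m m' hmm
    induction m', hmm using Nat.le_induction with
    | base => exact fun hl => hnext m hl
    | succ m' _ ih =>
      intro hl
      exact ((ih (by omega)).trans (hst m' (by omega)).1).trans (hnext m' hl)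
  have hlt : ∀ m m' : Fin l, m < m' → j' m ≠ j' m' := by
    intro m m' hmm heq
    have e1 := hmono m m' hmm m'.2
    have e2 : t m = s m' := by
      have e3 := h1 m'
      have e4 := h2 m'
      have e5 := h3 m
      omega
    have e6 := (hst m m.2).2.2.2
    have e7 := (hst m' m'.2).2.2.1
    rw [e2] at e6
    have e8 : (r : ℤ) ≤ n := by exact_mod_cast hrn
    linarith
  have hinj : Function.Injective fun m : Fin l =>
      FKS.orb (tw (-z) (ω ∪ wsd a b)) (tc (-z) (2 * (a : ℤ) + 1, 0)) (j' m) := by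
    intro m m' hmm
    have e0 : FKS.orb (tw (-z) (ω ∪ wsd a b)) (tc (-z) (2 * (a : ℤ) + 1, 0)) (j' m) =
        FKS.orb (tw (-z) (ω ∪ wsd a b)) (tc (-z) (2 * (a : ℤ) + 1, 0)) (j' m') := hmm
    rw [horb, horb] at e0
    have e1 := T5_inj hω ((h3 m).trans (hst m m.2).2.1) ((h3 m').trans (hst m' m'.2).2.1) (WD_inj _ _ _ e0)
    rcases lt_trichotomy m m' with e2 | e2 | e2
    · exact absurd e1 (hlt m m' e2)
    · exact e2
    · exact absurd e1.symm (hlt m' m e2)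
  rw [EV.D_exitN_inter, ← WD_inter (a := a) (b := b) ω hz, ← EV.D_exitN_inter]
  exact ⟨_, hinj, fun m => ⟨h5 m, _, h4 m, h6 m⟩⟩

end DimLim
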