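import Pool.Agent.Lib.MP_216314_pr.IC.WD

/-!
# Leaf WE: probability of `l` inward traversals (medium)

PROOF. `hE`: `r0, C1`. Let `1 ≤ r ≤ R`, the ball in the open rectangle. Small ratio `R < 16 (r + 1 + r0)`: `Pr ≤ 1` and `r / R ≥ 1 / (16 (2 + r0))` (as `r + 1 + r0 ≤ r (2 + r0)`), so
`Pr ≤ (16 (2 + r0)) ^ al * (r / R) ^ al`. Large ratio: `r' = r + 1 + r0`, `n = R - 1`: `r0 ≤ r'`, `8 r' ≤ n`. `TravI a b ω z r R l` implies
`TravI a b ω z (r' - 1) (n + 1) l` (`r ≤ r' - 1`, `R = n + 1`), so by `exit_of_trav` (for `ω ⊆ box`) `ExitN (D0 r' n) (ExI r' n) _ (tw (-z) ω)`. Probability: `pr_half` (`FKP.Pr = IPC.Pr (1/2)`),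
`IPC.Pr (1/2) (box 0 a 0 b) (fun ω => A (tw (-z) ω)) = IPC.Pr (1/2) (tw (-z) (box 0 a 0 b)) A` (`pq_map` with `σ = shE (-z).1 (-z).2`), and
`D0 r' n ⊆ tw (-z) (box 0 a 0 b)` (an edge of `bx n` translated by `z` is in `box 0 a 0 b` as `n < z.1`, `z.1 + n < a` ..), so `IPC.Pr_restrict` with `EV.D_exitN_inter` gives
`= EV.eI l r' n ≤ C1 * (r' / n) ^ al`, `r' ≤ (2 + r0) r`, `n ≥ R / 2`: `≤ C1 (2 (2 + r0)) ^ al (r / R) ^ al`. (`Pr_mono` for `FKP.Pr`: or go to `IPC.Pr` first and use `pq_mono`. `al l ≥ 0` is not true for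
`l = 0`; for `l = 0` use `al 0 = -1/12 < 0` and `(r / R) ^ al 0 ≥ 1`, `Pr ≤ 1`.)
-/

set_option autoImplicit false

noncomputable section

namespace DimLim

open Finset FKI FKP FKN

private theorem WE_sub {a b n r : ℕ} {z : V} (h1 : (n : ℤ) < z.1) (h2 : (n : ℤ) < z.2) (h3 : z.1 + n < a)
    (h4 : z.2 + n < b) : EV.D0 r n ⊆ (box 0 a 0 b).map (shE (-z).1 (-z).2).toEmbedding := by
  rintro ⟨x, y, t⟩ he
  have h5 := (Finset.mem_filter.1 he).1
  unfold FKN.bx at h5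
  rw [mem_box] at h5
  refine Finset.mem_map.2 ⟨(x + z.1, y + z.2, t), ?_, ?_⟩
  · rw [mem_box]
    simp only at h5 ⊢
    rcases h5 with ⟨ht, h5⟩ | ⟨ht, h5⟩
    · left
      refine ⟨ht, ?_⟩
      omega
    · right
      refine ⟨ht, ?_⟩
      omega
  · show (x + z.1 + -z.1, y + z.2 + -z.2, t) = (x, y, t)
    rw [add_neg_cancel_right, add_neg_cancel_right]

private theorem WE_large {l : ℕ} {a b r' n : ℕ} {z : V} (hrn : r' ≤ n) (h1 : (n : ℤ) < z.1) (h2 : (n : ℤ) < z.2)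
    (h3 : z.1 + n < a) (h4 : z.2 + n < b) :
    FKP.Pr (box 0 a 0 b) (fun ω => TravI a b ω z ((r' : ℤ) - 1) ((n : ℤ) + 1) l) ≤ EV.eI l r' n := by
  rw [FKN.pr_half]
  have h5 : FKN.Pp (1 / 2) (box 0 a 0 b) (fun ω => TravI a b ω z ((r' : ℤ) - 1) ((n : ℤ) + 1) l) ≤
      IPC.Pr (1 / 2) (box 0 a 0 b) (fun ω => FKS.ExitN (EV.D0 r' n) (EV.ExI r' n) (fun _ : Fin l => EV.StI n)
        (ω.map (shE (-z).1 (-z).2).toEmbedding)) :=
    FKN.pq_mono (by norm_num) (by norm_num) fun ω hω h => exit_of_trav hω hrn ⟨h1, h2⟩ h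
  refine h5.trans (le_of_eq ?_)
  rw [← FKN.pq_map]
  exact IPC.Pr_restrict (1 / 2) (WE_sub h1 h2 h3 h4) _ fun ω _ => EV.D_exitN_inter ω

private theorem WE_mono {l a b : ℕ} {ω : Finset Edge} {z : V} {r r' R R' : ℤ} (hr : r ≤ r') (hR : R' ≤ R)
    (h : TravI a b ω z r R l) : TravI a b ω z r' R' l := by
  obtain ⟨s, t, h1, h2⟩ := h
  refine ⟨s, t, fun i hi => ?_, h2⟩
  obtain ⟨h3, h4, h5, h6⟩ := h1 i hi
  exact ⟨h3, h4, hR.trans h5, h6.trans hr⟩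

private theorem WE_prmono {E : Finset Edge} {A B : Finset Edge → Prop} (h : ∀ ω, ω ⊆ E → A ω → B ω) :
    FKP.Pr E A ≤ FKP.Pr E B := by
  rw [FKN.pr_half, FKN.pr_half]
  exact FKN.pq_mono (by norm_num) (by norm_num) h

/-- The probability of `l` inward traversals of an annulus in the bulk. -/
theorem travI_prob {l : ℕ} (hE : HypE l) : ∃ C : ℝ, 0 < C ∧ ∀ (a b r R : ℕ) (z : V), 1 ≤ r → r ≤ R → (R : ℤ) < z.1 →
    (R : ℤ) < z.2 → z.1 + R < a → z.2 + R < b →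
    FKP.Pr (box 0 a 0 b) (fun ω => TravI a b ω z r R l) ≤ C * ((r : ℝ) / R) ^ EV.al l := by
  obtain ⟨r0, C1, hC1, hE⟩ := hE
  obtain ⟨K, hK⟩ : ∃ K : ℝ, K = 2 + r0 := ⟨_, rfl⟩
  have hr0 : (0 : ℝ) ≤ r0 := Nat.cast_nonneg _
  have hK2 : 2 ≤ K := by rw [hK]; linarith
  have hp1 : 0 < (16 * K) ^ EV.al l := Real.rpow_pos_of_pos (by linarith) _
  have hp2 : 0 < C1 * (2 * K) ^ EV.al l := mul_pos hC1 (Real.rpow_pos_of_pos (by linarith) _)
  refine ⟨1 + (16 * K) ^ EV.al l + C1 * (2 * K) ^ EV.al l, by linarith, ?_⟩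
  intro a b r R z hr hrR hz1 hz2 hza hzb
  have hrr : (1 : ℝ) ≤ r := by exact_mod_cast hr
  have hRR : (r : ℝ) ≤ R := by exact_mod_cast hrR
  have hR0 : (0 : ℝ) < R := by linarith
  have hq0 : 0 < (r : ℝ) / R := div_pos (by linarith) hR0
  have hq1 : (r : ℝ) / R ≤ 1 := (div_le_one hR0).2 hRR
  have hqp : 0 < ((r : ℝ) / R) ^ EV.al l := Real.rpow_pos_of_pos hq0 _
  have hle1 := Pr_le_one (box 0 a 0 b) (fun ω => TravI a b ω z r R l)
  rcases Nat.eq_zero_or_pos l with hl | hl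
  · have h1 : (1 : ℝ) ≤ ((r : ℝ) / R) ^ EV.al l := by
      refine Real.one_le_rpow_of_pos_of_le_one_of_nonpos hq0 hq1 ?_
      rw [hl]
      unfold EV.al
      norm_num
    nlinarith
  have hal : 0 ≤ EV.al l := by
    unfold EV.al
    have h1 : (1 : ℝ) ≤ l := by exact_mod_cast hl
    nlinarith
  rcases Nat.lt_or_ge R (16 * (r + 1 + r0)) with hs | hs
  · have h1 : (1 : ℝ) ≤ 16 * K * ((r : ℝ) / R) := by
      rw [← mul_div_assoc, le_div_iff₀ hR0, one_mul]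
      have h2 : (R : ℝ) ≤ 16 * (r + 1 + r0) := by exact_mod_cast hs.le
      rw [hK]
      nlinarith
    have h2 : (1 : ℝ) ≤ (16 * K) ^ EV.al l * ((r : ℝ) / R) ^ EV.al l := by
      rw [← Real.mul_rpow (by linarith) hq0.le]
      exact Real.one_le_rpow h1 hal
    nlinarith
  · obtain ⟨n, rfl⟩ : ∃ n, R = n + 1 := ⟨R - 1, by omega⟩
    have h1 : FKP.Pr (box 0 a 0 b) (fun ω => TravI a b ω z r ((n + 1 : ℕ) : ℤ) l) ≤
        FKP.Pr (box 0 a 0 b) (fun ω => TravI a b ω z (((r + 1 + r0 : ℕ) : ℤ) - 1) ((n : ℤ) + 1) l) :=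
      WE_prmono fun ω _ h => WE_mono (by push_cast; linarith [Int.natCast_nonneg r0]) (by push_cast; exact le_rfl) h
    have h2 : FKP.Pr (box 0 a 0 b) (fun ω => TravI a b ω z (((r + 1 + r0 : ℕ) : ℤ) - 1) ((n : ℤ) + 1) l) ≤
        EV.eI l (r + 1 + r0) n := by
      push_cast at hz1 hz2 hza hzb
      exact WE_large (by omega) (by omega) (by omega) (by omega) (by omega)
    have h3 := hE (r + 1 + r0) n (by omega) (by omega)
    have hn0 : (0 : ℝ) < n := by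
      have h4 : 0 < n := by omega
      exact_mod_cast h4
    have h4 : ((r + 1 + r0 : ℕ) : ℝ) / n ≤ 2 * K * ((r : ℝ) / ((n + 1 : ℕ) : ℝ)) := by
      rw [← mul_div_assoc, div_le_div_iff₀ hn0 hR0]
      have h5 : ((r + 1 + r0 : ℕ) : ℝ) ≤ K * r := by
        rw [hK]
        push_cast
        nlinarith
      have h6 : ((n + 1 : ℕ) : ℝ) ≤ 2 * n := by
        have h7 : n + 1 ≤ 2 * n := by omega
        exact_mod_cast h7
      have h7 : 0 ≤ K * r := by nlinarith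
      calc ((r + 1 + r0 : ℕ) : ℝ) * ((n + 1 : ℕ) : ℝ) ≤ K * r * (2 * n) :=
            mul_le_mul h5 h6 (by positivity) h7
        _ = 2 * K * r * n := by ring
    have h5 : (((r + 1 + r0 : ℕ) : ℝ) / n) ^ EV.al l ≤ (2 * K) ^ EV.al l * ((r : ℝ) / ((n + 1 : ℕ) : ℝ)) ^ EV.al l := by
      rw [← Real.mul_rpow (by linarith) hq0.le]
      exact Real.rpow_le_rpow (by positivity) h4 hal
    have h6 := mul_le_mul_of_nonneg_left h5 hC1.le
    have h7 : FKP.Pr (box 0 a 0 b) (fun ω => TravI a b ω z r ((n + 1 : ℕ) : ℤ) l) ≤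
        C1 * (2 * K) ^ EV.al l * ((r : ℝ) / ((n + 1 : ℕ) : ℝ)) ^ EV.al l := by
      refine (h1.trans (h2.trans h3)).trans (h6.trans (le_of_eq ?_))
      ring
    nlinarith

end DimLim
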