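import Pool.Agent.Lib.MP_216314_pr.IC.WF
import Pool.Agent.Lib.MP_216314_pr.IC.VU

/-!
# Leaf WG: near visits of the curve give traversals of the interface (medium)

PROOF. `l = 0`: trivial. `l ≥ 1`: let `T = steps a b ω`, `t, s` the witnesses of `PVis`, `t' i = idx T (t i)`, `s' 0 = 0`, `s' (i + 1) = idx T (s i)`. Order: `idx_mono`, `idx_le`. Let
`v = vx a b ω k`, `k ≤ T`: `v` is in `[0,a] × [0,b]` (`curve_cor`, `cor`, `vtx`, as in `mem_trc`), so `δ v.1 ∈ [0, A]` (`a = ⌊A / δ⌋₊`, `δ a ≤ A`) and the coordinates of `emb hA hB δ v` are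
`δ v.1`, `δ v.2` (`Set.projIcc_of_mem`). Near: `dist (fn (t i)) x < ρ` and `icurve_idx`: `|δ v.1 - x.1| < ρ + δ`, so `δ |v.1 - z.1| < ρ + δ + δ m ≤ δ r`, the same for the second
coordinate, so `sd z v ≤ r`. Far: `L < dist (fn (s i)) x`, so `dist (emb v) x > L - δ`, so one of the coordinates satisfies `|δ v.j - x.j| > L - δ` (`Prod.dist_eq`, `lt_max_iff`), and
`δ |v.j - z.j| > L - δ - δ m ≥ δ R`. Start: `vx a b ω 0 = (a, 0)`, `|0 - x.2| = x.2 ≥ L`, so `δ |0 - z.2| ≥ L - δ m ≥ δ R`.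
-/

set_option autoImplicit false

noncomputable section

namespace DimLim

open Finset FKI FKP FKN

private theorem WG_emb {A B : ℝ} (hA : 0 ≤ A) (hB : 0 ≤ B) {δ : ℝ} (hδ : 0 < δ) {a b : ℕ}
    (ha : a = ⌊A / δ⌋₊) (hb : b = ⌊B / δ⌋₊) {v : V} (hv : v ∈ rv a b) :
    ((emb hA hB δ v).1 : ℝ) = δ * v.1 ∧ ((emb hA hB δ v).2 : ℝ) = δ * v.2 := by
  rw [mem_rv] at hv
  obtain ⟨⟨h1, h2⟩, ⟨h3, h4⟩⟩ := hv
  have ha' : δ * (a : ℝ) ≤ A := by
    have h5 : (a : ℝ) ≤ A / δ := by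
      rw [ha]
      exact Nat.floor_le (div_nonneg hA hδ.le)
    rw [le_div_iff₀ hδ] at h5
    linarith
  have hb' : δ * (b : ℝ) ≤ B := by
    have h5 : (b : ℝ) ≤ B / δ := by
      rw [hb]
      exact Nat.floor_le (div_nonneg hB hδ.le)
    rw [le_div_iff₀ hδ] at h5
    linarith
  have h1' : (0 : ℝ) ≤ v.1 := by exact_mod_cast h1
  have h2' : (v.1 : ℝ) ≤ a := by exact_mod_cast h2
  have h3' : (0 : ℝ) ≤ v.2 := by exact_mod_cast h3
  have h4' : (v.2 : ℝ) ≤ b := by exact_mod_cast h4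
  have m1 : δ * (v.1 : ℝ) ∈ Set.Icc (0 : ℝ) A :=
    ⟨mul_nonneg hδ.le h1', (mul_le_mul_of_nonneg_left h2' hδ.le).trans ha'⟩
  have m2 : δ * (v.2 : ℝ) ∈ Set.Icc (0 : ℝ) B :=
    ⟨mul_nonneg hδ.le h3', (mul_le_mul_of_nonneg_left h4' hδ.le).trans hb'⟩
  refine ⟨?_, ?_⟩
  · show ((Set.projIcc 0 A hA (δ * v.1)) : ℝ) = δ * v.1
    rw [Set.projIcc_of_mem hA m1]
  · show ((Set.projIcc 0 B hB (δ * v.2)) : ℝ) = δ * v.2
    rw [Set.projIcc_of_mem hB m2]

private theorem WG_mem {a b : ℕ} {ω : Finset Edge} (hω : ω ⊆ box 0 a 0 b) (k : ℕ) :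
    vx a b ω k ∈ rv a b := by
  have h1 := curve_cor hω k
  unfold cor at h1
  rw [Finset.mem_product, Finset.mem_Icc, Finset.mem_Icc] at h1
  rw [mem_rv]
  unfold vx vtx
  simp only
  omega

private theorem WG_near {δ c x v z : ℝ} {r m : ℝ} (hδ : 0 < δ) (hz : |δ * z - x| ≤ δ * m)
    (hv : |δ * v - x| < c) (hc : c + δ * m ≤ δ * r) : |v - z| ≤ r := by
  have h1 : |δ * v - δ * z| ≤ |δ * v - x| + |δ * z - x| := by
    have h2 := abs_sub (δ * v - x) (δ * z - x)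
    have h3 : δ * v - x - (δ * z - x) = δ * v - δ * z := by ring
    rw [h3] at h2
    exact h2
  have h4 : |δ * v - δ * z| = δ * |v - z| := by
    rw [← mul_sub, abs_mul, abs_of_pos hδ]
  rw [h4] at h1
  have h5 : δ * |v - z| ≤ δ * r := by linarith
  exact le_of_mul_le_mul_left h5 hδ

private theorem WG_far {δ c x v z : ℝ} {R m : ℝ} (hδ : 0 < δ) (hz : |δ * z - x| ≤ δ * m)
    (hv : c < |δ * v - x|) (hc : δ * R + δ * m ≤ c) : R ≤ |v - z| := by
  have h1 : |δ * v - x| ≤ |δ * v - δ * z| + |δ * z - x| := abs_sub_le _ _ _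
  have h4 : |δ * v - δ * z| = δ * |v - z| := by
    rw [← mul_sub, abs_mul, abs_of_pos hδ]
  rw [h4] at h1
  have h5 : δ * R ≤ δ * |v - z| := by linarith
  exact le_of_mul_le_mul_left h5 hδ

/-- Near visits of the curve with excursions give inward traversals of the interface. -/
theorem travI_of_vis {A B : ℝ} (hA : 0 ≤ A) (hB : 0 ≤ B) {δ ρ L : ℝ} (hδ : 0 < δ) {a b : ℕ} (ha : a = ⌊A / δ⌋₊) (hb : b = ⌊B / δ⌋₊)
    {ω : Finset Edge} (hω : ω ⊆ box 0 a 0 b) {x : Rect A B} {l : ℕ} (hx : L ≤ (x.2 : ℝ))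
    (h : PVis l ρ L (icurve hA hB δ a b ω) x)
    {z : V} {r R m : ℕ} (hz1 : |δ * (z.1 : ℝ) - x.1| ≤ δ * m) (hz2 : |δ * (z.2 : ℝ) - x.2| ≤ δ * m)
    (hr : ρ + δ + δ * m ≤ δ * r) (hR : δ * R + δ + δ * m ≤ L) : TravI a b ω z r R l := by
  obtain ⟨t, s, ht, hs⟩ := h
  obtain ⟨T, hT⟩ : ∃ T, T = steps a b ω := ⟨_, rfl⟩
  have hdist : ∀ v ∈ rv a b, dist (emb hA hB δ v) x =
      max |δ * (v.1 : ℝ) - x.1| |δ * (v.2 : ℝ) - x.2| := by
    intro v hv
    obtain ⟨e1, e2⟩ := WG_emb hA hB hδ ha hb hv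
    rw [Prod.dist_eq, Subtype.dist_eq, Subtype.dist_eq, Real.dist_eq, Real.dist_eq, e1, e2]
  have hnear : ∀ u : unitInterval, dist ((icurve hA hB δ a b ω).fn u) x < ρ →
      sd z (vx a b ω (idx T u)) ≤ r := by
    intro u hu
    have h1 := icurve_idx hA hB hδ a b ω u
    rw [← hT] at h1
    have h2 := dist_triangle_left (emb hA hB δ (vx a b ω (idx T u))) x ((icurve hA hB δ a b ω).fn u)
    rw [hdist _ (WG_mem hω _)] at h2
    have h3 : max |δ * ((vx a b ω (idx T u)).1 : ℝ) - x.1| |δ * ((vx a b ω (idx T u)).2 : ℝ) - x.2| < ρ + δ := by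
      linarith
    rw [max_lt_iff] at h3
    have h4 := WG_near (r := r) (m := m) hδ hz1 h3.1 hr
    have h5 := WG_near (r := r) (m := m) hδ hz2 h3.2 hr
    unfold sd
    refine max_le ?_ ?_
    · exact_mod_cast h4
    · exact_mod_cast h5
  have hfar : ∀ u : unitInterval, L < dist ((icurve hA hB δ a b ω).fn u) x →
      (R : ℤ) ≤ sd z (vx a b ω (idx T u)) := by
    intro u hu
    have h1 := icurve_idx hA hB hδ a b ω u
    rw [← hT] at h1
    have h2 := dist_triangle ((icurve hA hB δ a b ω).fn u) (emb hA hB δ (vx a b ω (idx T u))) x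
    rw [hdist _ (WG_mem hω _)] at h2
    have h3 : L - δ < max |δ * ((vx a b ω (idx T u)).1 : ℝ) - x.1| |δ * ((vx a b ω (idx T u)).2 : ℝ) - x.2| := by
      linarith
    rw [lt_max_iff] at h3
    unfold sd
    rcases h3 with h3 | h3
    · refine le_max_of_le_left ?_
      have h4 := WG_far (R := R) (m := m) hδ hz1 h3 (by linarith)
      exact_mod_cast h4
    · refine le_max_of_le_right ?_
      have h4 := WG_far (R := R) (m := m) hδ hz2 h3 (by linarith)
      exact_mod_cast h4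
  have h0 : (R : ℤ) ≤ sd z (vx a b ω 0) := by
    have h1 : (vx a b ω 0).2 = 0 := by
      unfold vx vtx
      simp
    unfold sd
    refine le_max_of_le_right ?_
    rw [h1]
    have h2 : (R : ℝ) ≤ |(0 : ℝ) - z.2| := by
      rw [abs_le] at hz2
      have h3 : δ * (R : ℝ) ≤ δ * (z.2 : ℝ) := by linarith [hz2.1]
      have h4 : (R : ℝ) ≤ (z.2 : ℝ) := le_of_mul_le_mul_left h3 hδ
      rw [zero_sub, abs_neg]
      exact h4.trans (le_abs_self _)
    exact_mod_cast h2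
  obtain ⟨s', hs'⟩ : ∃ s' : ℕ → ℕ, s' = fun i => if i = 0 then 0 else idx T (s (i - 1)) := ⟨_, rfl⟩
  have hs0 : s' 0 = 0 := by rw [hs']; simp
  have hs1 : ∀ i, s' (i + 1) = idx T (s i) := by
    intro i
    rw [hs']
    simp
  refine ⟨s', fun i => idx T (t i), ?_, ?_⟩
  · intro i hi
    refine ⟨?_, ?_, ?_, hnear _ (ht i hi)⟩
    · cases i with
      | zero =>
        rw [hs0]
        exact Nat.zero_le _
      | succ i =>
        rw [hs1]
        exact idx_mono T (hs i hi).2.1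
    · rw [← hT]
      exact idx_le T _
    · cases i with
      | zero =>
        rw [hs0]
        exact h0
      | succ i =>
        rw [hs1]
        exact hfar _ (hs i hi).2.2
  · intro i hi
    rw [hs1]
    exact idx_mono T (hs i hi).1

end DimLim
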