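import Pool.Agent.Lib.MP_216314_pr.IC.WE
import Pool.Agent.Lib.MP_216314_pr.IC.WG

/-!
# Leaf WH: the probability of near multiple points (medium)

PROOF. `al = EV.al l = (4 l² - 1) / 12 ≥ 0`. `travI_prob hE`: `C1`. `C = (32 / L) ^ al + C1 * (8 / L) ^ al`. If `ρ > L / 32` take `δ0 = 1`: the measure is `≤ 1 ≤ (32 / L) ^ al * ρ ^ al`. Let `ρ ≤ L / 32`,
`δ0 = ρ / 4`, `0 < δ < δ0`, `a = ⌊A / δ⌋₊`, `b = ⌊B / δ⌋₊`. The measure is `ofReal (Pr (box 0 a 0 b) (fun ω => mk (icurve .. ω) ∈ S))` (`lawM_apply`, I/DimP; points of the metric space `Curve` are closed, so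
`MeasurableSingletonClass`). Let `z = (⌊x0.1 / δ⌋, ⌊x0.2 / δ⌋)`, so `|δ z.1 - x0.1| ≤ δ`, and for `x` in the closed ball `|δ z.1 - x.1| ≤ δ + ρ ≤ δ m` with `m = ⌈ρ / δ⌉₊ + 1`. Let `r = ⌈ρ / δ⌉₊ + 1 + m`,
`R = ⌊L / δ⌋₊ - 1 - m` (natural numbers; `ρ / δ ≥ 4`, `L / δ ≥ 32 ρ / δ ≥ 128`): `ρ + δ + δ m ≤ δ r`, `δ R + δ + δ m ≤ L`, so `travI_of_vis` applies for every `ω ⊆ box` with `mk (icurve .. ω) ∈ S` (`mvis_mk`; `hx`:
`x.2 ≥ x0.2 - ρ ≥ 2 L - ρ ≥ L`). `r ≤ 2 (ρ / δ + 1) + 2 ≤ 3 ρ / δ`, `R ≥ L / δ - 2 - (ρ / δ + 2) ≥ L / δ - 2 ρ / δ ≥ 15 L / (16 δ)`, so `1 ≤ r ≤ R` and `r / R ≤ 8 ρ / L`. `R < z.1`: `z.1 > x0.1 / δ - 1 ≥ 2 L / δ - 1 ≥ L / δ ≥ R`.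
`z.1 + R < a`: `z.1 + R ≤ (x0.1 + L) / δ ≤ (A - L) / δ < A / δ - 1 < a`. The same for the second coordinates. So `Pr ≤ C1 (r / R) ^ al ≤ C1 (8 / L) ^ al ρ ^ al` (`FKP.Pr` is monotone: `Pr_mono`, for `ω ⊆ box`).
-/

set_option autoImplicit false

noncomputable section

namespace DimLim

open MeasureTheory Filter Topology Set Metric ENNReal FKI FKP FKN

private theorem WH_coord {A δ ρ L y : ℝ} {k q : ℕ} (hδ : 0 < δ) (hP : 4 < ρ / δ)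
    (hQ : 32 * (ρ / δ) ≤ L / δ) (hk : ρ / δ ≤ k) (hkq : k + 2 ≤ q) (hq : (q : ℝ) ≤ L / δ)
    (h1 : 2 * L ≤ y) (h2 : y + 2 * L ≤ A) :
    ((q - (k + 2) : ℕ) : ℤ) < ⌊y / δ⌋ ∧ ⌊y / δ⌋ + ((q - (k + 2) : ℕ) : ℤ) < (⌊A / δ⌋₊ : ℕ) ∧
      ∀ x : ℝ, |x - y| ≤ ρ → |δ * ((⌊y / δ⌋ : ℤ) : ℝ) - x| ≤ δ * ((k + 1 : ℕ) : ℝ) := by
  have hR : ((q - (k + 2) : ℕ) : ℝ) = q - (k + 2) := by
    rw [Nat.cast_sub hkq]
    push_cast
    ring
  have e1 : 2 * (L / δ) ≤ y / δ := by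
    rw [← mul_div_assoc]
    exact div_le_div_of_nonneg_right h1 hδ.le
  have e2 : y / δ + 2 * (L / δ) ≤ A / δ := by
    rw [← mul_div_assoc, ← add_div]
    exact div_le_div_of_nonneg_right h2 hδ.le
  have f1 : ((⌊y / δ⌋ : ℤ) : ℝ) ≤ y / δ := Int.floor_le _
  have f2 : y / δ < ((⌊y / δ⌋ : ℤ) : ℝ) + 1 := Int.lt_floor_add_one _
  have f3 : A / δ < ((⌊A / δ⌋₊ : ℕ) : ℝ) + 1 := Nat.lt_floor_add_one _
  refine ⟨?_, ?_, fun x hx => ?_⟩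
  · have h3 : ((q - (k + 2) : ℕ) : ℝ) < ((⌊y / δ⌋ : ℤ) : ℝ) := by
      rw [hR]
      linarith
    exact_mod_cast h3
  · have h3 : ((⌊y / δ⌋ : ℤ) : ℝ) + ((q - (k + 2) : ℕ) : ℝ) < ((⌊A / δ⌋₊ : ℕ) : ℝ) := by
      rw [hR]
      linarith
    exact_mod_cast h3
  · have g1 : δ * ((⌊y / δ⌋ : ℤ) : ℝ) ≤ y := by
      have h3 := (le_div_iff₀ hδ).1 f1
      linarith
    have g2 : y < δ * ((⌊y / δ⌋ : ℤ) : ℝ) + δ := by
      have h3 := (div_lt_iff₀ hδ).1 f2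
      linarith
    have g3 : ρ ≤ k * δ := (div_le_iff₀ hδ).1 hk
    have g4 := abs_le.1 hx
    push_cast
    rw [abs_le]
    constructor
    · linarith [g4.2]
    · linarith [g4.1]

/-- The probability that the interface visits a ball `l` times with excursions. -/
theorem claw_mvis {l : ℕ} (hl : 1 ≤ l) (hE : HypE l) {A B : ℝ} (hA : 0 < A) (hB : 0 < B) [MeasurableSpace (Curve (Rect A B))]
    [BorelSpace (Curve (Rect A B))] {L : ℝ} (hL : 0 < L) : ∃ C : ℝ, 0 < C ∧ ∀ (ρ : ℝ) (x0 : Rect A B), 0 < ρ →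
      2 * L ≤ (x0.1 : ℝ) → 2 * L ≤ (x0.2 : ℝ) → (x0.1 : ℝ) + 2 * L ≤ A → (x0.2 : ℝ) + 2 * L ≤ B →
      ∃ δ0 : ℝ, 0 < δ0 ∧ ∀ δ : ℝ, 0 < δ → δ < δ0 →
        (claw hA.le hB.le δ : Measure (Curve (Rect A B))) {c | ∃ x ∈ closedBall x0 ρ, MVis l ρ L c x} ≤
          ENNReal.ofReal (C * ρ ^ EV.al l) := by
  have hal : 0 ≤ EV.al l := by
    unfold EV.al
    have h1 : (1 : ℝ) ≤ l := by exact_mod_cast hl
    have h2 : (1 : ℝ) ≤ (l : ℝ) ^ 2 := by nlinarith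
    exact div_nonneg (by linarith) (by norm_num)
  obtain ⟨C1, hC1, hT⟩ := travI_prob hE
  have hc1 : 0 < (32 / L) ^ EV.al l := Real.rpow_pos_of_pos (by positivity) _
  have hc2 : 0 < (8 / L) ^ EV.al l := Real.rpow_pos_of_pos (by positivity) _
  refine ⟨(32 / L) ^ EV.al l + C1 * (8 / L) ^ EV.al l, by positivity, ?_⟩
  intro ρ x0 hρ h1 h2 h3 h4
  have hρa : 0 < ρ ^ EV.al l := Real.rpow_pos_of_pos hρ _
  rcases lt_or_ge (L / 32) ρ with hcase | hcase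
  · refine ⟨1, one_pos, fun δ _ _ => ?_⟩
    refine prob_le_one.trans ?_
    rw [← ENNReal.ofReal_one]
    refine ENNReal.ofReal_le_ofReal ?_
    have e1 : (1 : ℝ) ≤ (32 / L) ^ EV.al l * ρ ^ EV.al l := by
      rw [← Real.mul_rpow (by positivity) hρ.le]
      refine Real.one_le_rpow ?_ hal
      rw [div_mul_eq_mul_div, le_div_iff₀ hL]
      linarith
    rw [add_mul]
    have e2 : 0 < C1 * (8 / L) ^ EV.al l * ρ ^ EV.al l := by positivity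
    linarith
  · refine ⟨ρ / 4, by positivity, fun δ hδ hδρ => ?_⟩
    have hP : 4 < ρ / δ := by
      rw [lt_div_iff₀ hδ]
      linarith
    have hQ : 32 * (ρ / δ) ≤ L / δ := by
      rw [← mul_div_assoc]
      exact div_le_div_of_nonneg_right (by linarith) hδ.le
    obtain ⟨k, hk⟩ : ∃ k : ℕ, k = ⌈ρ / δ⌉₊ := ⟨_, rfl⟩
    obtain ⟨q, hq⟩ : ∃ q : ℕ, q = ⌊L / δ⌋₊ := ⟨_, rfl⟩
    have hk1 : ρ / δ ≤ k := by
      rw [hk]
      exact Nat.le_ceil _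
    have hk2 : (k : ℝ) < ρ / δ + 1 := by
      rw [hk]
      exact Nat.ceil_lt_add_one (by positivity)
    have hq1 : (q : ℝ) ≤ L / δ := by
      rw [hq]
      exact Nat.floor_le (by positivity)
    have hq2 : L / δ < q + 1 := by
      rw [hq]
      exact Nat.lt_floor_add_one _
    have hkq : k + 2 ≤ q := by
      have h5 : (k : ℝ) + 2 ≤ q := by linarith
      exact_mod_cast h5
    have hR : ((q - (k + 2) : ℕ) : ℝ) = q - (k + 2) := by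
      rw [Nat.cast_sub hkq]
      push_cast
      ring
    obtain ⟨u1, u2, u3⟩ := WH_coord (A := A) hδ hP hQ hk1 hkq hq1 h1 h3
    obtain ⟨v1, v2, v3⟩ := WH_coord (A := B) hδ hP hQ hk1 hkq hq1 h2 h4
    have hrR : 2 * k + 2 ≤ q - (k + 2) := by
      have h5 : ((2 * k + 2 : ℕ) : ℝ) ≤ ((q - (k + 2) : ℕ) : ℝ) := by
        rw [hR]
        push_cast
        linarith
      exact_mod_cast h5
    have hlaw : (claw hA.le hB.le δ : Measure (Curve (Rect A B)))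
        {c | ∃ x ∈ closedBall x0 ρ, MVis l ρ L c x} =
        ENNReal.ofReal (FKP.Pr (box 0 (⌊A / δ⌋₊ : ℤ) 0 (⌊B / δ⌋₊ : ℤ)) (fun ω =>
          (SeparationQuotient.mk (icurve hA.le hB.le δ ⌊A / δ⌋₊ ⌊B / δ⌋₊ ω) : Curve (Rect A B)) ∈
            {c : Curve (Rect A B) | ∃ x ∈ closedBall x0 ρ, MVis l ρ L c x})) :=
      lawM_apply _ _ _
    rw [hlaw]
    refine ENNReal.ofReal_le_ofReal ?_
    refine (Pr_mono (B := fun ω => TravI ⌊A / δ⌋₊ ⌊B / δ⌋₊ ω (⌊(x0.1 : ℝ) / δ⌋, ⌊(x0.2 : ℝ) / δ⌋)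
      ((2 * k + 2 : ℕ) : ℤ) ((q - (k + 2) : ℕ) : ℤ) l) ?_).trans
      ((hT ⌊A / δ⌋₊ ⌊B / δ⌋₊ (2 * k + 2) (q - (k + 2)) (⌊(x0.1 : ℝ) / δ⌋, ⌊(x0.2 : ℝ) / δ⌋)
        (by omega) hrR u1 v1 u2 v2).trans ?_)
    · rintro ω hω ⟨x, hx, hv⟩
      rw [mvis_mk] at hv
      have hx1 : dist x x0 ≤ ρ := hx
      rw [Prod.dist_eq, max_le_iff, Subtype.dist_eq, Subtype.dist_eq, Real.dist_eq,
        Real.dist_eq] at hx1
      refine travI_of_vis hA.le hB.le hδ rfl rfl hω (m := k + 1) ?_ hv (u3 _ hx1.1) (v3 _ hx1.2) ?_ ?_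
      · have h5 := (abs_le.1 hx1.2).1
        linarith
      · have g3 : ρ ≤ k * δ := (div_le_iff₀ hδ).1 hk1
        push_cast
        linarith
      · have g3 : (q : ℝ) * δ ≤ L := (le_div_iff₀ hδ).1 hq1
        rw [hR]
        push_cast
        linarith
    · have hRpos : (0 : ℝ) < ((q - (k + 2) : ℕ) : ℝ) := by
        rw [hR]
        linarith
      have e1 : ((2 * k + 2 : ℕ) : ℝ) / ((q - (k + 2) : ℕ) : ℝ) ≤ 8 / L * ρ := by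
        have e2 : 8 / L * ρ = 8 * (ρ / δ) / (L / δ) := by
          field_simp
        rw [e2, div_le_div_iff₀ hRpos (by positivity), hR]
        push_cast
        have hP0 : 0 < ρ / δ := by positivity
        nlinarith
      have e3 : (((2 * k + 2 : ℕ) : ℝ) / ((q - (k + 2) : ℕ) : ℝ)) ^ EV.al l ≤
          (8 / L) ^ EV.al l * ρ ^ EV.al l := by
        rw [← Real.mul_rpow (by positivity) hρ.le]
        exact Real.rpow_le_rpow (by positivity) e1 hal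
      have e4 : C1 * (((2 * k + 2 : ℕ) : ℝ) / ((q - (k + 2) : ℕ) : ℝ)) ^ EV.al l ≤
          C1 * ((8 / L) ^ EV.al l * ρ ^ EV.al l) := mul_le_mul_of_nonneg_left e3 hC1.le
      have e5 : 0 < (32 / L) ^ EV.al l * ρ ^ EV.al l := by positivity
      calc _ ≤ C1 * ((8 / L) ^ EV.al l * ρ ^ EV.al l) := e4
        _ ≤ ((32 / L) ^ EV.al l + C1 * (8 / L) ^ EV.al l) * ρ ^ EV.al l := by
            rw [add_mul]
            linarith

end DimLim
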