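import Pool.Agent.Lib.MP_216314_pr.IC.WJ

/-!
# Leaf WI: no triple points (medium-)

PROOF. `vis_null` (IC/VU) with `K = Kin A B`: given `m`, `L > 0`, `ε > 0`. `cell_mvis` with `l = 3` (`EV.al 3 = 35 / 12`): `C`. For every `j`, by `vis_port` (`K = Kin A B m ∩ gb .. j i`), `μ {c | ∃ x ∈ Kin m ∩ gb j i, MVis 3 ((1/2)^j) L c x} ≤ ofReal (C ((1/2)^j)^(35/12))`; the
union over the `(nc A j + 1) (nc B j + 1) ≤ (A + 1) (B + 1) 4 ^ j` cells (`gb_cover`, `measure_iUnion_fintype_le` or `measure_biUnion_finset_le`) contains `{c | ∃ x ∈ Kin m, MVis 3 ((1/2)^j) L c x}`, whose measure is at most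
`ofReal ((A + 1) (B + 1) C (4 * (1/2)^(35/12)) ^ j) → 0` as `4 (1/2)^(35/12) = 2^(2 - 35/12) < 1`; take `j` with the bound `≤ ε`, `ρ = (1/2)^j`. Conclusion: an `x` in the open rectangle is in `Kin A B m` for some `m` (`exists_nat_one_div_lt` for the minimum of the four distances).
(`[SecondCountableTopology (Rect A B)]` is found by instances.)
-/

set_option autoImplicit false

noncomputable section

namespace DimLim

open MeasureTheory Filter Topology Set Metric ENNReal FKI FKP FKN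

/-- **no triple points** -/
theorem no_triple (hE : HypE 3) {A B : ℝ} (hA : 0 < A) (hB : 0 < B) [MeasurableSpace (Curve (Rect A B))]
    [BorelSpace (Curve (Rect A B))] {μ : ProbabilityMeasure (Curve (Rect A B))} {δ : ℕ → ℝ} (hδ : ∀ k, 0 < δ k)
    (hδ0 : Tendsto δ atTop (𝓝 0)) (hμ : Tendsto (fun k => claw hA.le hB.le (δ k)) atTop (𝓝 μ)) :
    ∀ᵐ (c : Curve (Rect A B)) ∂(μ : Measure (Curve (Rect A B))), ∀ x : Rect A B, 0 < (x.1 : ℝ) → (x.1 : ℝ) < A → 0 < (x.2 : ℝ) →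
      (x.2 : ℝ) < B → ¬ Visits 3 c x := by
  have hal : EV.al 3 = 35 / 12 := by unfold EV.al; norm_num
  have hy0 : (0 : ℝ) < 4 * (1 / 2 : ℝ) ^ EV.al 3 := by positivity
  have hy1 : 4 * (1 / 2 : ℝ) ^ EV.al 3 < 1 := by
    have h1 : (1 / 2 : ℝ) ^ EV.al 3 < (1 / 2 : ℝ) ^ (2 : ℝ) :=
      Real.rpow_lt_rpow_of_exponent_gt (by norm_num) (by norm_num) (by rw [hal]; norm_num)
    have h2 : (1 / 2 : ℝ) ^ (2 : ℝ) = 1 / 4 := by norm_num
    linarith
  have key := vis_null (ν := μ) (l := 3) (Kin A B) (fun m L hL ε hε => by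
    obtain ⟨C, hC, hCb⟩ := cell_mvis (l := 3) (by norm_num) hE hA hB hδ hδ0 m hL
    have hD : 0 < (A + 1) * (B + 1) * C := by positivity
    obtain ⟨j, hj⟩ := exists_pow_lt_of_lt_one (div_pos hε hD) hy1
    refine ⟨(1 / 2) ^ j, by positivity, ?_⟩
    have h1 : ∀ i : Fin (nc A j + 1) × Fin (nc B j + 1), (μ : Measure (Curve (Rect A B)))
        {c | ∃ x ∈ Kin A B m ∩ gb hA.le hB.le j i, MVis 3 ((1 / 2) ^ j) L c x} ≤
        ENNReal.ofReal (C * (((1 / 2 : ℝ) ^ j) ^ EV.al 3)) := fun i => vis_port hμ (hCb j i)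
    have h2 : {c : Curve (Rect A B) | ∃ x ∈ Kin A B m, MVis 3 ((1 / 2) ^ j) L c x} ⊆
        ⋃ i, {c | ∃ x ∈ Kin A B m ∩ gb hA.le hB.le j i, MVis 3 ((1 / 2) ^ j) L c x} := by
      rintro c ⟨x, hx, hc⟩
      obtain ⟨i, hi⟩ := mem_iUnion.1 ((gb_cover hA.le hB.le j).symm ▸ mem_univ x :
        x ∈ ⋃ i, gb hA.le hB.le j i)
      exact mem_iUnion.2 ⟨i, x, ⟨hx, hi⟩, hc⟩
    have hn : ∀ {A : ℝ}, 0 < A → (nc A j : ℝ) + 1 ≤ (A + 1) * 2 ^ j := by
      intro A hA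
      have h3 : (nc A j : ℝ) ≤ A * 2 ^ j := Nat.floor_le (by positivity)
      have h4 : (1 : ℝ) ≤ 2 ^ j := one_le_pow₀ (by norm_num)
      linarith
    have hpow : ((1 / 2 : ℝ) ^ j) ^ EV.al 3 = ((1 / 2 : ℝ) ^ EV.al 3) ^ j := by
      rw [← Real.rpow_natCast, ← Real.rpow_mul (by norm_num), ← Real.rpow_natCast,
        ← Real.rpow_mul (by norm_num), mul_comm]
    refine (measure_mono h2).trans ((measure_iUnion_fintype_le _ _).trans ?_)
    refine (Finset.sum_le_sum fun i _ => h1 i).trans ?_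
    rw [Finset.sum_const, Finset.card_univ, Fintype.card_prod, Fintype.card_fin, Fintype.card_fin,
      nsmul_eq_mul, ← ENNReal.ofReal_natCast, ← ENNReal.ofReal_mul (Nat.cast_nonneg _)]
    refine ENNReal.ofReal_le_ofReal ?_
    rw [lt_div_iff₀ hD] at hj
    have h5 : ((((nc A j + 1) * (nc B j + 1) : ℕ)) : ℝ) ≤ ((A + 1) * 2 ^ j) * ((B + 1) * 2 ^ j) := by
      push_cast
      exact mul_le_mul (hn hA) (hn hB) (by positivity) (by positivity)
    have h6 : (0 : ℝ) ≤ C * (((1 / 2 : ℝ) ^ j) ^ EV.al 3) := by positivity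
    refine (mul_le_mul_of_nonneg_right h5 h6).trans ?_
    have h7 : ((A + 1) * 2 ^ j) * ((B + 1) * 2 ^ j) * (C * (((1 / 2 : ℝ) ^ j) ^ EV.al 3)) =
        (4 * (1 / 2 : ℝ) ^ EV.al 3) ^ j * ((A + 1) * (B + 1) * C) := by
      rw [hpow, mul_pow, show (4 : ℝ) = 2 * 2 by norm_num, mul_pow]
      ring
    rw [h7]
    exact hj.le)
  filter_upwards [key] with c hc x h1 h2 h3 h4
  obtain ⟨m, hm⟩ := exists_nat_one_div_lt (lt_min (lt_min h1 (sub_pos.2 h2)) (lt_min h3 (sub_pos.2 h4)))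
  rw [lt_min_iff, lt_min_iff, lt_min_iff] at hm
  obtain ⟨⟨h5, h6⟩, h7, h8⟩ := hm
  exact hc m x ⟨h5.le, h7.le, by linarith, by linarith⟩

end DimLim
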