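import Pool.Agent.Lib.MP_216314_pr.IC.WH
import Pool.Agent.Lib.MP_216314_pr.I.DimB

/-!
# Leaf WJ: the bound for the cells of the grid (medium-)

`Kin m`: the points of the rectangle at distance at least `1 / (m + 1)` from its sides.
PROOF. Let `L' = min L (1 / (2 (m + 1)))`, `C1` from `claw_mvis hl hE hA hB (L := L')`, `C = 2 ^ al * C1`. If `Kin m ∩ gb hA.le hB.le j i` is empty the set of the curves is empty, its measure is `0`. Otherwise let `x0` be one of its points. Every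
`x` in it satisfies `dist x x0 < 2 (1 / 2) ^ j` (both are in the ball of radius `(2⁻¹) ^ j`), so the set is contained in `{c | ∃ x ∈ closedBall x0 ρ, MVis l ρ L' c x}` with `ρ = 2 (1 / 2) ^ j` (`mvis_mono`), and `2 L' ≤ 1 / (m + 1) ≤ x0.1` etc. For all large `k`
`δ k < δ0`. `C1 * ρ ^ al = C1 * 2 ^ al * ((1 / 2) ^ j) ^ al` (`Real.mul_rpow`).
-/

set_option autoImplicit false

noncomputable section

namespace DimLim

open MeasureTheory Filter Topology Set Metric ENNReal FKI FKP FKN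

/-- The points at distance at least `1 / (m + 1)` from the sides. -/
def Kin (A B : ℝ) (m : ℕ) : Set (Rect A B) := {x | 1 / ((m : ℝ) + 1) ≤ (x.1 : ℝ) ∧ 1 / ((m : ℝ) + 1) ≤ (x.2 : ℝ) ∧
  (x.1 : ℝ) + 1 / ((m : ℝ) + 1) ≤ A ∧ (x.2 : ℝ) + 1 / ((m : ℝ) + 1) ≤ B}

theorem cell_mvis {l : ℕ} (hl : 1 ≤ l) (hE : HypE l) {A B : ℝ} (hA : 0 < A) (hB : 0 < B) [MeasurableSpace (Curve (Rect A B))]
    [BorelSpace (Curve (Rect A B))] {δ : ℕ → ℝ} (hδ : ∀ k, 0 < δ k) (hδ0 : Tendsto δ atTop (𝓝 0)) (m : ℕ) {L : ℝ} (hL : 0 < L) :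
    ∃ C : ℝ, 0 < C ∧ ∀ (j : ℕ) (i : Fin (nc A j + 1) × Fin (nc B j + 1)), ∀ᶠ k in atTop,
      (claw hA.le hB.le (δ k) : Measure (Curve (Rect A B))) {c | ∃ x ∈ Kin A B m ∩ gb hA.le hB.le j i, MVis l ((1 / 2) ^ j) L c x} ≤
        ENNReal.ofReal (C * (((1 / 2 : ℝ) ^ j) ^ EV.al l)) := by
  have hm0 : (0 : ℝ) < (m : ℝ) + 1 := by positivity
  obtain ⟨L', hL'⟩ : ∃ L' : ℝ, L' = min L (1 / (2 * ((m : ℝ) + 1))) := ⟨_, rfl⟩
  have hL'0 : 0 < L' := by
    rw [hL']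
    exact lt_min hL (by positivity)
  have hL'L : L' ≤ L := by
    rw [hL']
    exact min_le_left _ _
  have h2L : 2 * L' ≤ 1 / ((m : ℝ) + 1) := by
    have h3 : L' ≤ 1 / (2 * ((m : ℝ) + 1)) := by
      rw [hL']
      exact min_le_right _ _
    calc 2 * L' ≤ 2 * (1 / (2 * ((m : ℝ) + 1))) := by linarith
      _ = 1 / ((m : ℝ) + 1) := by
          field_simp
  obtain ⟨C1, hC1, h1⟩ := claw_mvis hl hE hA hB (L := L') hL'0
  refine ⟨(2 : ℝ) ^ EV.al l * C1, by positivity, fun j i => ?_⟩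
  by_cases hne : (Kin A B m ∩ gb hA.le hB.le j i).Nonempty
  · obtain ⟨x0, hx0K, hx0g⟩ := hne
    have hj : (0 : ℝ) < (1 / 2 : ℝ) ^ j := by positivity
    obtain ⟨δ0, hδ00, h2⟩ := h1 (2 * (1 / 2 : ℝ) ^ j) x0 (by positivity) (h2L.trans hx0K.1)
      (h2L.trans hx0K.2.1) (by have := hx0K.2.2.1; linarith) (by have := hx0K.2.2.2; linarith)
    have hev : ∀ᶠ k in atTop, δ k < δ0 := hδ0.eventually_lt_const hδ00
    filter_upwards [hev] with k hk
    refine (measure_mono ?_).trans ((h2 (δ k) (hδ k) hk).trans_eq ?_)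
    · rintro c ⟨x, ⟨-, hxg⟩, hx⟩
      refine ⟨x, ?_, mvis_mono (by linarith) hL'L hx⟩
      unfold gb at hx0g hxg
      rw [Metric.mem_ball] at hx0g hxg
      rw [Metric.mem_closedBall]
      have h4 : (2⁻¹ : ℝ) ^ j = (1 / 2 : ℝ) ^ j := by rw [one_div]
      rw [h4] at hx0g hxg
      refine (dist_triangle_right x x0 _).trans ((add_le_add hxg.le hx0g.le).trans ?_)
      linarith
    · congr 1
      rw [Real.mul_rpow (by norm_num) hj.le]
      ring
  · refine Filter.Eventually.of_forall fun k => ?_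
    have h3 : {c : Curve (Rect A B) | ∃ x ∈ Kin A B m ∩ gb hA.le hB.le j i, MVis l ((1 / 2) ^ j) L c x} = ∅ := by
      rw [Set.eq_empty_iff_forall_notMem]
      rintro c ⟨x, hx, -⟩
      exact hne ⟨x, hx⟩
    rw [h3, measure_empty]
    exact zero_le

end DimLim
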