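import Pool.Agent.Lib.MP_216314_pr.IC.WJ
import Pool.Agent.Lib.MP_216314_pr.IC.VD

/-!
# Leaf WK: the dimension of the double points (medium-)

PROOF. `vis_dim` (IC/VD) with `E = Rect A B`, `K = Kin A B`, `ι j = Fin (nc A j + 1) × Fin (nc B j + 1)`, `U = gb hA.le hB.le`, `D = 2` (`gb_diam`), cover by `gb_cover`, `s = 3/4`, `μ := fun k => claw hA.le hB.le (δ k)`. Given `m`, `L > 0`: `cell_mvis` with `l = 2`
(`EV.al 2 = 5 / 4`) gives `C1`; `b j i = ofReal (C1 ((1/2)^j)^(5/4))`; `∑ i, b j i = (nc A j + 1) (nc B j + 1) ofReal (..) ≤ ofReal ((A + 1) (B + 1) 4 ^ j C1 (2 ^ (-5/4)) ^ j) = ofReal ((A + 1) (B + 1) C1) (2 ^ (3/4)) ^ j` (as at the end of `law_dim_upper`, I/DimB: `nc_le`,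
`ENNReal.ofReal_rpow_of_pos`). Conclusion: the set in question is contained in `{x | (∃ m, x ∈ Kin A B m) ∧ Visits 2 c x}` (`dimH_mono`; `exists_nat_one_div_lt` for the minimum of the four distances). `MeasurableSpace (Rect A B)`, `BorelSpace (Rect A B)` are found by instances
(otherwise `letI := borel _`).
-/

set_option autoImplicit false

noncomputable section

namespace DimLim

open MeasureTheory Filter Topology Set Metric ENNReal FKI FKP FKN

/-- **the double points have dimension at most `3/4`** -/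
theorem double_dim (hE : HypE 2) {A B : ℝ} (hA : 0 < A) (hB : 0 < B) [MeasurableSpace (Curve (Rect A B))]
    [BorelSpace (Curve (Rect A B))] {μ : ProbabilityMeasure (Curve (Rect A B))} {δ : ℕ → ℝ} (hδ : ∀ k, 0 < δ k)
    (hδ0 : Tendsto δ atTop (𝓝 0)) (hμ : Tendsto (fun k => claw hA.le hB.le (δ k)) atTop (𝓝 μ)) :
    ∀ᵐ (c : Curve (Rect A B)) ∂(μ : Measure (Curve (Rect A B))), dimH {x : Rect A B | 0 < (x.1 : ℝ) ∧ (x.1 : ℝ) < A ∧ 0 < (x.2 : ℝ) ∧
      (x.2 : ℝ) < B ∧ Visits 2 c x} ≤ 3 / 4 := by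
  have hal : EV.al 2 = 5 / 4 := by
    unfold EV.al
    norm_num
  have hv := vis_dim (E := Rect A B) hμ (l := 2) (Kin A B) (ι := fun j => Fin (nc A j + 1) × Fin (nc B j + 1))
    (gb hA.le hB.le) 2 (gb_diam hA.le hB.le) (fun m j y _ => by
      have h1 : y ∈ ⋃ i, gb hA.le hB.le j i := by
        rw [gb_cover hA.le hB.le j]
        exact mem_univ y
      exact mem_iUnion.1 h1) (3 / 4) (fun m L hL => by
      obtain ⟨C1, hC1, hcell⟩ := cell_mvis (l := 2) (by norm_num) hE hA hB hδ hδ0 m hL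
      obtain ⟨D, hD⟩ : ∃ D : ℝ, D = (A + 1) * (B + 1) * C1 := ⟨_, rfl⟩
      have hD0 : 0 ≤ D := by
        rw [hD]
        positivity
      refine ⟨D.toNNReal, fun j _ => ENNReal.ofReal (C1 * (((1 / 2 : ℝ) ^ j) ^ EV.al 2)), hcell, fun j => ?_⟩
      rw [Finset.sum_const, Finset.card_univ, Fintype.card_prod, Fintype.card_fin, Fintype.card_fin, nsmul_eq_mul,
        ← ENNReal.ofReal_natCast, ← ENNReal.ofReal_mul (Nat.cast_nonneg _), hal]
      have h2 : (1 : ℝ) ≤ 2 ^ j := one_le_pow₀ (by norm_num)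
      have h3 : ((nc A j + 1 : ℕ) : ℝ) ≤ (A + 1) * 2 ^ j := by
        have h3 : (nc A j : ℝ) ≤ A * 2 ^ j := Nat.floor_le (by positivity)
        push_cast
        linarith
      have h4 : ((nc B j + 1 : ℕ) : ℝ) ≤ (B + 1) * 2 ^ j := by
        have h3 : (nc B j : ℝ) ≤ B * 2 ^ j := Nat.floor_le (by positivity)
        push_cast
        linarith
      have h5 : ((1 / 2 : ℝ) ^ j) ^ (5 / 4 : ℝ) = (2 : ℝ) ^ (-(5 / 4 * (j : ℝ))) := by
        rw [one_div, inv_pow, ← Real.rpow_natCast, ← Real.rpow_neg (by norm_num), ← Real.rpow_mul (by norm_num)]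
        congr 1
        ring
      have h6 : (2 : ℝ) ^ j * 2 ^ j * ((1 / 2 : ℝ) ^ j) ^ (5 / 4 : ℝ) = ((2 : ℝ) ^ (3 / 4 : ℝ)) ^ j := by
        rw [h5, ← Real.rpow_natCast, ← Real.rpow_add (by norm_num), ← Real.rpow_add (by norm_num), ← Real.rpow_natCast,
          ← Real.rpow_mul (by norm_num)]
        congr 1
        ring
      have h7 : (((nc A j + 1) * (nc B j + 1) : ℕ) : ℝ) * (C1 * ((1 / 2 : ℝ) ^ j) ^ (5 / 4 : ℝ)) ≤
          D * ((2 : ℝ) ^ (3 / 4 : ℝ)) ^ j := by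
        rw [← h6, Nat.cast_mul, hD]
        have h8 : ((nc A j + 1 : ℕ) : ℝ) * ((nc B j + 1 : ℕ) : ℝ) ≤ ((A + 1) * 2 ^ j) * ((B + 1) * 2 ^ j) :=
          mul_le_mul h3 h4 (Nat.cast_nonneg _) (by positivity)
        have h9 : 0 ≤ C1 * ((1 / 2 : ℝ) ^ j) ^ (5 / 4 : ℝ) := by positivity
        calc _ ≤ ((A + 1) * 2 ^ j) * ((B + 1) * 2 ^ j) * (C1 * ((1 / 2 : ℝ) ^ j) ^ (5 / 4 : ℝ)) :=
              mul_le_mul_of_nonneg_right h8 h9
          _ = _ := by ring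
      refine (ENNReal.ofReal_le_ofReal h7).trans (le_of_eq ?_)
      rw [ENNReal.ofReal_mul hD0, ENNReal.ofReal_pow (by positivity), ← ENNReal.ofReal_rpow_of_pos (by norm_num)]
      have h8 : ENNReal.ofReal 2 = 2 := by simp
      have h9 : (((3 / 4 : NNReal)) : ℝ) = 3 / 4 := by norm_num
      rw [h8, h9]
      rfl)
  filter_upwards [hv] with c hc
  have h1 : (((3 / 4 : NNReal)) : ℝ≥0∞) = 3 / 4 := by
    rw [ENNReal.coe_div (by norm_num)]
    norm_num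
  rw [h1] at hc
  refine (dimH_mono ?_).trans hc
  rintro x ⟨hx1, hx2, hx3, hx4, hx5⟩
  obtain ⟨m, hm⟩ := exists_nat_one_div_lt (K := ℝ)
    (show (0 : ℝ) < min (min (x.1 : ℝ) (x.2 : ℝ)) (min (A - (x.1 : ℝ)) (B - (x.2 : ℝ))) from
      lt_min (lt_min hx1 hx3) (lt_min (sub_pos.2 hx2) (sub_pos.2 hx4)))
  rw [lt_min_iff, lt_min_iff, lt_min_iff] at hm
  refine ⟨⟨m, hm.1.1.le, hm.1.2.le, ?_, ?_⟩, hx5⟩
  · linarith [hm.2.1]
  · linarith [hm.2.2]

end DimLim
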