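import Pool.Agent.Lib.MP_216314_pr.IC.S0
import Pool.Agent.Lib.MP_216314_pr.IC.W0
import Pool.Agent.Lib.MP_216314_pr.IC.WF
import Pool.Agent.Lib.MP_216314_pr.IC.VU
import Pool.Agent.Lib.MP_216314_pr.I.DimG
import Pool.Agent.Lib.MP_216314_pr.I.IVc
import Pool.Agent.Lib.MP_216314_pr.Y.YEdge

/-!
# Lower bounds for the dimensions of the double points and of the intersection with the sides: definitions
-/

set_option autoImplicit false

noncomputable section

namespace DimLim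

open Finset FKI FKP

/-- The curve comes `l` times to a distance at most `ρ` of `x`, with excursions to a distance at least `L` (closed version of `MVis`). -/
def CVis {E : Type*} [MetricSpace E] (l : ℕ) (ρ L : ℝ) (c : Curve E) (x : E) : Prop :=
  ∃ f : PCurve E, SeparationQuotient.mk f = c ∧ ∃ t s : ℕ → unitInterval, (∀ i < l, dist (f.fn (t i)) x ≤ ρ) ∧
    ∀ i, i + 1 < l → t i ≤ s i ∧ s i ≤ t (i + 1) ∧ L ≤ dist (f.fn (s i)) x

/-- Local events with a well distributed set of vertices which satisfy `W l a b ω`. -/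
def HypG (W : ℕ → ℕ → ℕ → Finset Edge → V → Prop) (α : ℝ) : Prop :=
  ∃ (c M : ℝ) (l0 : ℕ), 0 < c ∧ 0 < M ∧ ∀ (a b l : ℕ), l0 ≤ l → 2 * l ≤ a → 2 * l ≤ b →
    ∃ G : Finset Edge → Prop, Dep (qan a l) G ∧ c ≤ Pr (box 0 a 0 b) G ∧
      ∀ ω, ω ⊆ box 0 a 0 b → G ω → ∃ S : Finset V, (∀ v ∈ S, (0 ≤ v.1 ∧ v.1 ≤ a ∧ 0 ≤ v.2 ∧ v.2 ≤ b) ∧ W l a b ω v) ∧ S.Nonempty ∧
        ∀ (v : V) (r : ℕ), 1 ≤ r →
          ((S.filter (fun w => sd v w ≤ r)).card : ℝ) ≤ M * ((r : ℝ) / l) ^ α * S.card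

/-- The vertex is on the right side and in the cluster of the wired sides. -/
def WSd (_l a b : ℕ) (ω : Finset Edge) (v : V) : Prop := v.1 = a ∧ WC a b v ω

/-- The interface comes twice to a distance at most one of `v`, and it goes to the distance `l / 64` between these times. -/
def DV (l a b : ℕ) (ω : Finset Edge) (v : V) : Prop :=
  ∃ t1 s t2 : ℕ, t1 ≤ s ∧ s ≤ t2 ∧ t2 ≤ steps a b ω ∧ sd v (vx a b ω t1) ≤ 1 ∧ sd v (vx a b ω t2) ≤ 1 ∧
    (l : ℤ) ≤ 64 * sd v (vx a b ω s)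

/-- The vertex is connected to the lower side inside the quarter annulus. -/
def VS (a l : ℕ) (v : V) (ω : Finset Edge) : Prop :=
  ∃ x : ℤ, (a : ℤ) - 2 * l ≤ x ∧ x ≤ a ∧ Conn (qan a l) ω v (x, 0)

/-- The horizontal edge with the left end `v`. -/
def ev (v : V) : Edge := (v.1, v.2, false)

/-- The local event of a double point at the edge `ev v`: it is open, one of its ends is connected to the lower side, the other one to distance
`l / 32`, both without this edge, and its two faces are connected to the right side by dual edges. -/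
def VE (a l : ℕ) (v : V) (ω : Finset Edge) : Prop :=
  ev v ∈ ω ∧
  (∃ p p' : V, ((p = v ∧ p' = (v.1 + 1, v.2)) ∨ (p = (v.1 + 1, v.2) ∧ p' = v)) ∧
    (∃ x : ℤ, (a : ℤ) - 2 * l ≤ x ∧ x ≤ a ∧ Conn (qan a l \ {ev v}) ω p (x, 0)) ∧
    ∃ w : V, (l : ℤ) ≤ 32 * sd v w ∧ Conn (qan a l \ {ev v}) ω p' w) ∧
  (∃ g : V, g.1 = a ∧ (gr (FKN.dc (qan a l \ {ev v}) (ω ∪ wsq a l))).Reachable v g) ∧
  ∃ g : V, g.1 = a ∧ (gr (FKN.dc (qan a l \ {ev v}) (ω ∪ wsq a l))).Reachable (v.1, v.2 - 1) g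

/-- An open path across the half annulus between the distances `r` and `R` of `u`. -/
def ArmA (u : V) (r R : ℕ) (ω : Finset Edge) : Prop :=
  ∃ v w : V, sd u v ≤ r ∧ (R : ℤ) ≤ sd u w ∧ Conn (hx 0 u R \ hx 0 u r) ω v w

/-- Four arms across the annulus around `v`. -/
def F4 (v : V) (r R : ℕ) (ω : Finset Edge) : Prop := EV.Cl 2 r R (tw (-v) ω)

/-- Input: the upper bound for four arms. -/
def HP2 : Prop := ∃ (r0 : ℕ) (C : ℝ), 0 < C ∧ ∀ r n : ℕ, r0 ≤ r → 2 * r ≤ n →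
  EV.pil 2 r n ≤ C * ((r : ℝ) / n) ^ (5 / 4 : ℝ)

/-- Input: the lower bound for the canonical four-arm state at an edge. -/
def HW4 : Prop := ∃ (c : ℝ) (n0 : ℕ), 0 < c ∧ ∀ n : ℕ, n0 ≤ n →
  c * (n : ℝ) ^ (-(5 / 4) : ℝ) ≤ FKN.wO (1 / 2) n

end DimLim
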