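import Pool.Agent.Lib.MP_216314_pr.IC.Y0

/-!
# Leaf YA: the closed condition for multiple points (medium)

Read `visits_mk` (IC/VU) first: the same compactness argument. `cvis_mk`: if `mk g = mk f` then `dist g f = 0`, `φ n` with `dist g.fn (f.rep (φ n)) < 1 / (n + 1)` (`pc_lt`), the times `φ n (t i)`, `φ n (s i)` converge along a subsequence in `(ℕ → unitInterval) × (ℕ → unitInterval)`; the limits satisfy the conditions
for `f` (`le_of_tendsto_of_tendsto'`; the distances to `x` converge). `cvis_closed`: `IsSeqClosed`/`isClosed_of_closure_subset` or `isClosed_iff_frequently`; let `(c n, x n) → (c, x)`, `c n = mk (g n)` with the witnesses `t n`, `s n` (by definition), `c = mk f` (`SeparationQuotient.surjective_mk`); `dist (g n) f = dist (c n) c → 0` (`SeparationQuotient.dist_mk`), `φ n` with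
`dist (g n).fn (f.rep (φ n)) < dist (g n) f + 1 / (n + 1)`; the times `φ n (t n i)` converge along a subsequence to `T i`, and `f.fn (φ n (t n i)) - (g n).fn (t n i) → 0`, so `dist (f.fn (T i)) x ≤ ρ` and `L ≤ dist (f.fn (S i)) x`. `cvis_visits`: `c = mk f`; by `cvis_mk` for every `n` times `t n`, `s n` for `f` with `ρ = 1 / (n + 1)`; a
convergent subsequence: `f.fn (T i) = x`, `L ≤ dist (f.fn (S i)) x`, so `f.fn (S i) ≠ x`; `visits_mk`. (One general lemma about sequences gives the three statements.)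
-/

set_option autoImplicit false

noncomputable section

namespace DimLim

open MeasureTheory Filter Topology Set Metric TopologicalSpace

private theorem YA_key {E : Type*} [MetricSpace E] {l : ℕ} {ρ L : ℝ} (f : PCurve E) {x : E}
    (g : ℕ → PCurve E) (y : ℕ → E) (r : ℕ → ℝ) (hg : Tendsto (fun n => dist (g n) f) atTop (𝓝 0))
    (hy : Tendsto y atTop (𝓝 x)) (hr : Tendsto r atTop (𝓝 ρ)) (t s : ℕ → ℕ → unitInterval)
    (h1 : ∀ n, ∀ i < l, dist ((g n).fn (t n i)) (y n) ≤ r n)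
    (h2 : ∀ n i, i + 1 < l → t n i ≤ s n i ∧ s n i ≤ t n (i + 1) ∧ L ≤ dist ((g n).fn (s n i)) (y n)) :
    ∃ T S : ℕ → unitInterval, (∀ i < l, dist (f.fn (T i)) x ≤ ρ) ∧
      ∀ i, i + 1 < l → T i ≤ S i ∧ S i ≤ T (i + 1) ∧ L ≤ dist (f.fn (S i)) x := by
  have h4 : ∀ n : ℕ, ∃ φ : unitInterval ≃o unitInterval,
      dist (g n).fn (f.rep φ) < dist (g n) f + 1 / ((n : ℝ) + 1) := fun n =>
    pc_lt (lt_add_of_pos_right _ (by positivity))
  choose φ hφ using h4
  obtain ⟨p, -, ψ, hψ, hp⟩ := (isCompact_univ (X := (ℕ → unitInterval) × (ℕ → unitInterval))).tendsto_subseq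
    (x := fun n => ((fun i => φ n (t n i)), (fun i => φ n (s n i)))) fun _ => mem_univ _
  have ht : ∀ i, Tendsto (fun n => φ (ψ n) (t (ψ n) i)) atTop (𝓝 (p.1 i)) := fun i =>
    ((continuous_apply i).comp continuous_fst).continuousAt.tendsto.comp hp
  have hs : ∀ i, Tendsto (fun n => φ (ψ n) (s (ψ n) i)) atTop (𝓝 (p.2 i)) := fun i =>
    ((continuous_apply i).comp continuous_snd).continuousAt.tendsto.comp hp
  -- the errors
  have he : Tendsto (fun n => dist (g (ψ n)) f + 1 / ((ψ n : ℝ) + 1)) atTop (𝓝 0) := by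
    have h5 : Tendsto (fun n => dist (g (ψ n)) f) atTop (𝓝 0) := hg.comp hψ.tendsto_atTop
    have h6 : Tendsto (fun n => 1 / ((ψ n : ℝ) + 1)) atTop (𝓝 0) :=
      tendsto_one_div_add_atTop_nhds_zero_nat.comp hψ.tendsto_atTop
    have h7 := h5.add h6
    rwa [add_zero] at h7
  have hy' : Tendsto (fun n => y (ψ n)) atTop (𝓝 x) := hy.comp hψ.tendsto_atTop
  have hd : ∀ (n : ℕ) (u : unitInterval),
      dist ((g n).fn u) (f.fn (φ n u)) ≤ dist (g n) f + 1 / ((n : ℝ) + 1) := fun n u =>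
    (ContinuousMap.dist_apply_le_dist (f := (g n).fn) (g := f.rep (φ n)) u).trans (hφ n).le
  -- the limit of the distances
  have hlim : ∀ (u : ℕ → unitInterval) (v : unitInterval), Tendsto (fun n => φ (ψ n) (u n)) atTop (𝓝 v) →
      Tendsto (fun n => dist ((g (ψ n)).fn (u n)) (y (ψ n))) atTop (𝓝 (dist (f.fn v) x)) := by
    intro u v huv
    have h5 : Tendsto (fun n => f.fn (φ (ψ n) (u n))) atTop (𝓝 (f.fn v)) :=
      (f.fn.continuous.tendsto v).comp huv
    have h6 : Tendsto (fun n => (g (ψ n)).fn (u n)) atTop (𝓝 (f.fn v)) := by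
      rw [tendsto_iff_dist_tendsto_zero]
      have h7 := he.add (tendsto_iff_dist_tendsto_zero.1 h5)
      rw [add_zero] at h7
      refine squeeze_zero (fun _ => dist_nonneg) (fun n => ?_) h7
      exact (dist_triangle _ (f.fn (φ (ψ n) (u n))) _).trans (add_le_add (hd (ψ n) (u n)) le_rfl)
    exact h6.dist hy'
  refine ⟨p.1, p.2, fun i hi => ?_, fun i hi => ?_⟩
  · exact le_of_tendsto_of_tendsto' (hlim _ _ (ht i)) (hr.comp hψ.tendsto_atTop)
      fun n => h1 (ψ n) i hi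
  · exact ⟨le_of_tendsto_of_tendsto' (ht i) (hs i) fun n => (φ (ψ n)).monotone (h2 (ψ n) i hi).1,
      le_of_tendsto_of_tendsto' (hs i) (ht (i + 1)) fun n => (φ (ψ n)).monotone (h2 (ψ n) i hi).2.1,
      ge_of_tendsto' (hlim _ _ (hs i)) fun n => (h2 (ψ n) i hi).2.2⟩

theorem cvis_mk {E : Type*} [MetricSpace E] {l : ℕ} {ρ L : ℝ} (f : PCurve E) (x : E) :
    CVis l ρ L (SeparationQuotient.mk f) x ↔ ∃ t s : ℕ → unitInterval, (∀ i < l, dist (f.fn (t i)) x ≤ ρ) ∧
      ∀ i, i + 1 < l → t i ≤ s i ∧ s i ≤ t (i + 1) ∧ L ≤ dist (f.fn (s i)) x := by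
  refine ⟨?_, fun h => ⟨f, rfl, h⟩⟩
  rintro ⟨g, hg, t, s, h1, h2⟩
  have h3 : dist g f = 0 := Metric.inseparable_iff.1 (SeparationQuotient.mk_eq_mk.1 hg)
  refine YA_key f (fun _ => g) (fun _ => x) (fun _ => ρ) ?_ tendsto_const_nhds tendsto_const_nhds
    (fun _ => t) (fun _ => s) (fun _ => h1) fun _ => h2
  rw [h3]
  exact tendsto_const_nhds

theorem cvis_closed {E : Type*} [MetricSpace E] (l : ℕ) (ρ L : ℝ) : IsClosed {p : Curve E × E | CVis l ρ L p.1 p.2} := by
  refine IsSeqClosed.isClosed ?_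
  intro c p hc hp
  have hc' : ∀ n, ∃ (g : PCurve E) (t s : ℕ → unitInterval), SeparationQuotient.mk g = (c n).1 ∧
      (∀ i < l, dist (g.fn (t i)) (c n).2 ≤ ρ) ∧
      ∀ i, i + 1 < l → t i ≤ s i ∧ s i ≤ t (i + 1) ∧ L ≤ dist (g.fn (s i)) (c n).2 := by
    intro n
    obtain ⟨g, hg, t, s, h1, h2⟩ := hc n
    exact ⟨g, t, s, hg, h1, h2⟩
  choose g t s hg h1 h2 using hc'
  obtain ⟨f, hf⟩ := SeparationQuotient.surjective_mk p.1
  have hp1 : Tendsto (fun n => (c n).1) atTop (𝓝 p.1) := (continuous_fst.tendsto p).comp hp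
  have hp2 : Tendsto (fun n => (c n).2) atTop (𝓝 p.2) := (continuous_snd.tendsto p).comp hp
  have hd : Tendsto (fun n => dist (g n) f) atTop (𝓝 0) := by
    have h3 := tendsto_iff_dist_tendsto_zero.1 hp1
    refine h3.congr fun n => ?_
    rw [← hf, ← hg n, SeparationQuotient.dist_mk]
  exact ⟨f, hf, YA_key f g (fun n => (c n).2) (fun _ => ρ) hd hp2 tendsto_const_nhds t s h1 h2⟩

theorem cvis_visits {E : Type*} [MetricSpace E] {l : ℕ} {L : ℝ} (hL : 0 < L) {c : Curve E} {x : E}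
    (h : ∀ r : ℝ, 0 < r → CVis l r L c x) : Visits l c x := by
  obtain ⟨f, rfl⟩ := SeparationQuotient.surjective_mk c
  have h0 : ∀ n : ℕ, ∃ t s : ℕ → unitInterval, (∀ i < l, dist (f.fn (t i)) x ≤ 1 / ((n : ℝ) + 1)) ∧
      ∀ i, i + 1 < l → t i ≤ s i ∧ s i ≤ t (i + 1) ∧ L ≤ dist (f.fn (s i)) x := fun n =>
    (cvis_mk f x).1 (h _ (by positivity))
  choose t s h1 h2 using h0
  obtain ⟨T, S, h3, h4⟩ := YA_key f (fun _ => f) (fun _ => x) (fun n => 1 / ((n : ℝ) + 1)) (ρ := 0)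
    (by simp only [dist_self]; exact tendsto_const_nhds) tendsto_const_nhds
    tendsto_one_div_add_atTop_nhds_zero_nat t s h1 h2
  refine ⟨f, rfl, T, S, fun i hi => ?_, fun i hi => ?_⟩
  · exact dist_le_zero.1 (h3 i hi)
  · obtain ⟨h5, h6, h7⟩ := h4 i hi
    exact ⟨h5, h6, dist_pos.1 (hL.trans_le h7)⟩

end DimLim
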