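import Pool.Agent.Lib.MP_216314_pr.I.DimL

/-!
# Leaf YB: lower bound for the dimension of the sections of a closed relation (medium+, abstract; read `dim_lower`, `isClosed_fro`, `fro_all`, `dim_of_fro` in I/DimL first)

Let `G m M s = {c | ∃ K : NonemptyCompacts E, (∀ x ∈ K, (c, x) ∈ R m s) ∧ Fro α M s K}`. STEP 1. `G m M s` is closed: it is the image under `Prod.snd` of the closed set `{(K, c) | (∀ x ∈ K, (c, x) ∈ R m s) ∧ Fro α M s K}` of `NonemptyCompacts E × X` (`isClosedMap_snd_of_compactSpace`; the second condition is closed by `isClosed_fro`;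
the first: if `(K', c') → (K, c)` along an ultrafilter (or a sequence: both spaces are metric) and `x ∈ K`, there are `x' ∈ K'` with `x' → x` (`exists_near`, I/DimU), so `(c, x) ∈ R m s`). STEP 2. `G m M s ⊆ G m M s'` for `s ≤ s'` (`hmono`, `Fro.mono`). STEP 3. as in `dim_lower`: for `ρ > 0` take `m`, `M` from `h`; for every `s > 0`
`μ (G m M s)ᶜ ≤ ρ` (`ProbabilityMeasure.le_liminf_measure_open_of_tendsto`, `r n < s` for large `n`); the sets `(G m M (1 / (j + 1)))ᶜ` increase with `j`, so `μ (⋃ j, (G m M (1 / (j + 1)))ᶜ) ≤ ρ`. STEP 4. If `c ∈ G m M (1 / (j + 1))` for all `j`, choose `K j`; along an ultrafilter `K j → K` (`NonemptyCompacts E` is compact). For every `s > 0` and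
`x ∈ K`: `x = lim x j`, `x j ∈ K j`, `(c, x j) ∈ R m (1 / (j + 1)) ⊆ R m s` for large `j`, so `(c, x) ∈ R m s`. `Fro α M s (K j)` for large `j`, so `Fro α M s K` (`isClosed_fro`), `Fro α M 0 K` (`fro_all`), `α ≤ dimH K` (`dim_of_fro`) `≤ dimH {x | ∃ m, ∀ s > 0, (c, x) ∈ R m s}`. STEP 5. So the set of the `c` for which the conclusion fails has measure `≤ ρ` for every `ρ > 0`.
-/

set_option autoImplicit false

noncomputable section

namespace DimLim

open MeasureTheory Filter Topology Set ENNReal NNReal TopologicalSpace Metric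

private theorem YB_closed {X : Type*} [MetricSpace X] {E : Type*} [MetricSpace E] [CompactSpace E]
    [MeasurableSpace E] [BorelSpace E] (α : ℝ) (M : ℝ≥0) (s : ℝ) {R : Set (X × E)} (hR : IsClosed R) :
    IsClosed {c : X | ∃ K : NonemptyCompacts E, (∀ x ∈ K, (c, x) ∈ R) ∧ Fro α M s K} := by
  have h1 : IsClosed {p : NonemptyCompacts E × X | ∀ x ∈ p.1, (p.2, x) ∈ R} := by
    rw [← isOpen_compl_iff, Metric.isOpen_iff]
    intro p0 hp0
    have hp0' : ¬ ∀ x ∈ p0.1, (p0.2, x) ∈ R := hp0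
    rw [not_forall] at hp0'
    obtain ⟨x0, hx0⟩ := hp0'
    rw [Classical.not_imp] at hx0
    obtain ⟨hx0, hx1⟩ := hx0
    obtain ⟨ε, hε, hball⟩ := Metric.isOpen_iff.1 hR.isOpen_compl (p0.2, x0) hx1
    refine ⟨ε, hε, fun p hp hA => ?_⟩
    have hA' : ∀ x ∈ p.1, (p.2, x) ∈ R := hA
    rw [Metric.mem_ball, Prod.dist_eq, max_lt_iff] at hp
    obtain ⟨y, hy, hxy⟩ := exists_near (by rw [dist_comm]; exact hp.1) hx0
    have h2 : (p.2, y) ∈ ball (p0.2, x0) ε := by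
      rw [Metric.mem_ball, Prod.dist_eq, max_lt_iff]
      exact ⟨hp.2, by rw [dist_comm]; exact hxy⟩
    exact hball h2 (hA' y hy)
  have h2 : IsClosed {p : NonemptyCompacts E × X | Fro α M s p.1} :=
    (isClosed_fro α M s).preimage continuous_fst
  have h3 := isClosedMap_snd_of_compactSpace _ (h1.inter h2)
  have h4 : Prod.snd '' ({p : NonemptyCompacts E × X | ∀ x ∈ p.1, (p.2, x) ∈ R} ∩
      {p : NonemptyCompacts E × X | Fro α M s p.1}) =
      {c : X | ∃ K : NonemptyCompacts E, (∀ x ∈ K, (c, x) ∈ R) ∧ Fro α M s K} := by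
    ext c
    constructor
    · rintro ⟨⟨K, c'⟩, ⟨h5, h6⟩, rfl⟩
      exact ⟨K, h5, h6⟩
    · rintro ⟨K, h5, h6⟩
      exact ⟨(K, c), ⟨h5, h6⟩, rfl⟩
  rw [← h4]
  exact h3

private theorem YB_limit {X : Type*} [MetricSpace X] {E : Type*} [MetricSpace E] [CompactSpace E]
    [MeasurableSpace E] [BorelSpace E] {α : ℝ≥0} (hα : 0 < α) (M : ℝ≥0) (R : ℝ → Set (X × E))
    (hR : ∀ s, IsClosed (R s)) (hmono : ∀ s s', s ≤ s' → R s ⊆ R s') (c : X)
    (h : ∀ j : ℕ, ∃ K : NonemptyCompacts E, (∀ x ∈ K, (c, x) ∈ R (1 / ((j : ℝ) + 1))) ∧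
      Fro α M (1 / ((j : ℝ) + 1)) K) :
    (α : ℝ≥0∞) ≤ dimH {x : E | ∀ s : ℝ, 0 < s → (c, x) ∈ R s} := by
  choose Ks hK1 hK2 using h
  obtain ⟨K, -, hK⟩ := isCompact_univ.ultrafilter_le_nhds ((Ultrafilter.of atTop).map Ks) (by simp)
  have hT : Tendsto Ks (Ultrafilter.of (atTop : Filter ℕ)) (𝓝 K) := hK
  have hsmall : ∀ s : ℝ, 0 < s → ∀ᶠ j : ℕ in (Ultrafilter.of (atTop : Filter ℕ) : Filter ℕ),
      1 / ((j : ℝ) + 1) ≤ s := by
    intro s hs
    have h6 : ∀ᶠ m : ℕ in atTop, 1 / ((m : ℝ) + 1) ≤ s :=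
      (tendsto_one_div_add_atTop_nhds_zero_nat.eventually (gt_mem_nhds hs)).mono fun m hm => le_of_lt hm
    exact Ultrafilter.of_le atTop h6
  have h1 : ∀ x ∈ K, ∀ s : ℝ, 0 < s → (c, x) ∈ R s := by
    intro x hx s hs
    rw [← (hR s).closure_eq, Metric.mem_closure_iff]
    intro ε hε
    have h2 : ∀ᶠ j in (Ultrafilter.of (atTop : Filter ℕ) : Filter ℕ), dist (Ks j) K < ε :=
      hT.eventually (Metric.ball_mem_nhds K hε)
    obtain ⟨j, hj1, hj2⟩ := (h2.and (hsmall s hs)).exists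
    obtain ⟨y, hy, hxy⟩ := exists_near (by rw [dist_comm]; exact hj1) hx
    refine ⟨(c, y), hmono _ _ hj2 (hK1 j y hy), ?_⟩
    rw [Prod.dist_eq, dist_self]
    exact max_lt hε hxy
  have h2 : Fro (α : ℝ) M 0 K := by
    refine fro_all fun m => ?_
    refine (isClosed_fro (α : ℝ) M (1 / ((m : ℝ) + 1))).mem_of_tendsto hT ?_
    filter_upwards [hsmall (1 / ((m : ℝ) + 1)) (by positivity)] with j hj
    exact Fro.mono hj (hK2 j)
  exact (dim_of_fro hα h2).trans (dimH_mono fun x hx => h1 x hx)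

theorem rel_lower {X : Type*} [MetricSpace X] [MeasurableSpace X] [BorelSpace X]
    {E : Type*} [MetricSpace E] [CompactSpace E] [MeasurableSpace E] [BorelSpace E]
    {α : ℝ≥0} (hα : 0 < α) {P : ℕ → ProbabilityMeasure X} {μ : ProbabilityMeasure X} (hμ : Tendsto P atTop (𝓝 μ))
    {r : ℕ → ℝ} (hr : Tendsto r atTop (𝓝 0)) (R : ℕ → ℝ → Set (X × E)) (hR : ∀ m s, IsClosed (R m s))
    (hmono : ∀ m s s', s ≤ s' → R m s ⊆ R m s')
    (h : ∀ ρ : ℝ≥0∞, 0 < ρ → ∃ (m : ℕ) (M : ℝ≥0), ∀ᶠ n in atTop,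
      (P n : Measure X) {c | ∃ K : NonemptyCompacts E, (∀ x ∈ K, (c, x) ∈ R m (r n)) ∧ Fro α M (r n) K}ᶜ ≤ ρ) :
    ∀ᵐ (c : X) ∂(μ : Measure X), (α : ℝ≥0∞) ≤ dimH {x : E | ∃ m, ∀ s : ℝ, 0 < s → (c, x) ∈ R m s} := by
  classical
  have key : ∀ ρ : ℝ≥0∞, 0 < ρ → ∃ (m : ℕ) (M : ℝ≥0), ∀ s : ℝ, 0 < s →
      (μ : Measure X) {c | ∃ K : NonemptyCompacts E, (∀ x ∈ K, (c, x) ∈ R m s) ∧ Fro α M s K}ᶜ ≤ ρ := by
    intro ρ hρ
    obtain ⟨m, M, hM⟩ := h ρ hρ
    refine ⟨m, M, fun s hs => ?_⟩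
    refine (ProbabilityMeasure.le_liminf_measure_open_of_tendsto hμ
      (YB_closed (α : ℝ) M s (hR m s)).isOpen_compl).trans ?_
    refine liminf_le_of_le (by isBoundedDefault) fun c hc => ?_
    have h3 : ∀ᶠ n in atTop, r n < s := hr.eventually (gt_mem_nhds hs)
    obtain ⟨n, hn1, hn2, hn3⟩ := (hc.and (hM.and h3)).exists
    refine hn1.trans (le_trans (measure_mono ?_) hn2)
    refine compl_subset_compl.2 ?_
    rintro c' ⟨K, hK1, hK2⟩
    exact ⟨K, fun x hx => hmono m _ _ hn3.le (hK1 x hx), Fro.mono hn3.le hK2⟩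
  have h5 : (μ : Measure X)
      {c : X | ¬ (α : ℝ≥0∞) ≤ dimH {x : E | ∃ m, ∀ s : ℝ, 0 < s → (c, x) ∈ R m s}} ≤ 0 := by
    refine le_of_forall_gt_imp_ge_of_dense fun ρ hρ => ?_
    obtain ⟨m, M, hM⟩ := key ρ hρ
    have h4 : {c : X | ¬ (α : ℝ≥0∞) ≤ dimH {x : E | ∃ m, ∀ s : ℝ, 0 < s → (c, x) ∈ R m s}} ⊆
        ⋃ j : ℕ, {c | ∃ K : NonemptyCompacts E, (∀ x ∈ K, (c, x) ∈ R m (1 / ((j : ℝ) + 1))) ∧
          Fro (α : ℝ) M (1 / ((j : ℝ) + 1)) K}ᶜ := by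
      intro c hc
      by_contra hcon
      apply hc
      refine (YB_limit hα M (R m) (hR m) (hmono m) c fun j => ?_).trans
        (dimH_mono fun x hx => ⟨m, hx⟩)
      by_contra hj
      exact hcon (mem_iUnion.2 ⟨j, hj⟩)
    refine (measure_mono h4).trans ?_
    have hmon : Monotone fun j : ℕ => {c : X | ∃ K : NonemptyCompacts E,
        (∀ x ∈ K, (c, x) ∈ R m (1 / ((j : ℝ) + 1))) ∧ Fro (α : ℝ) M (1 / ((j : ℝ) + 1)) K}ᶜ := by
      intro j j' hj
      refine compl_subset_compl.2 ?_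
      have h6 : 1 / ((j' : ℝ) + 1) ≤ 1 / ((j : ℝ) + 1) :=
        one_div_le_one_div_of_le (by positivity) (by
          have : (j : ℝ) ≤ j' := by exact_mod_cast hj
          linarith)
      rintro c' ⟨K, hK1, hK2⟩
      exact ⟨K, fun x hx => hmono m _ _ h6 (hK1 x hx), Fro.mono h6 hK2⟩
    rw [hmon.measure_iUnion]
    exact iSup_le fun j => hM _ (by positivity)
  exact ae_iff.2 (le_antisymm h5 bot_le)

end DimLim
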