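import Pool.Agent.Lib.MP_216314_pr.I.DimE

/-!
# Leaf YC: the second moment method, general exponents (medium)

A copy of `sum_sd`, `sum_kn` and `frostman_event` (I/DimE) with `2 - 1/4` replaced by `D - σ`: `D` the dimension of the set `Q`, `σ` the exponent of the one point function. `sum_sd`: `∑ v ∈ Q, f (sd u v).toNat ≤ ∑ r ∈ range l, 8 (r + 1) ^ (D - 1) f r` by `hQ4` (natural exponent `D - 1`). `sum_kn`: the general term is `8 C l ^ (α - σ) (r + 1) ^ (D - 1 - σ - α)`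
and with `s = σ + α - (D - 1) ∈ [0, 1)` (`sum_rpow`) the sum is at most `8 C (1 - s)⁻¹ l ^ (D - 2 σ)`. The mean of the energy is at most `D' (L L)` with `L = l ^ (D - σ)`, `D' = 8 C (D - σ - α)⁻¹`; the rest is literally the same (`wd_of`, `Ex_pz`).
-/

set_option autoImplicit false

noncomputable section

namespace DimLim

open Finset FKI FKP

/-- sums over a set of vertices of a function of the distance -/
private theorem YC_sum_sd {D l : ℕ} {Q : Finset V} {u : V} (hl : ∀ v ∈ Q, sd u v < l)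
    (hQ : ∀ r : ℕ, ((Q.filter (fun v => (sd u v).toNat = r)).card : ℝ) ≤ 8 * ((r : ℝ) + 1) ^ (D - 1))
    (f : ℕ → ℝ) (hf : ∀ r, 0 ≤ f r) :
    ∑ v ∈ Q, f (sd u v).toNat ≤ ∑ r ∈ range l, 8 * ((r : ℝ) + 1) ^ (D - 1) * f r := by
  have h1 : ∀ v ∈ Q, (sd u v).toNat ∈ range l := by
    intro v hv
    have h2 := hl v hv
    have h3 := sd_nonneg u v
    rw [mem_range]
    omega
  rw [← sum_fiberwise_of_maps_to h1]
  refine sum_le_sum fun r _ => ?_
  have h3 : ∑ v ∈ Q.filter (fun v => (sd u v).toNat = r), f (sd u v).toNat =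
      (Q.filter (fun v => (sd u v).toNat = r)).card * f r := by
    rw [← nsmul_eq_mul, ← sum_const]
    exact sum_congr rfl fun v hv => by rw [(mem_filter.1 hv).2]
  rw [h3]
  exact mul_le_mul_of_nonneg_right (hQ r) (hf r)

/-- the sum of the kernel against the two point function -/
private theorem YC_sum_kn {D : ℕ} (hD : 1 ≤ D) {σ α : ℝ} (hα1 : (D : ℝ) - 1 ≤ σ + α) (hα2 : σ + α < D) {C : ℝ}
    (hC : 0 ≤ C) {l : ℕ} (hl : 1 ≤ l) :
    ∑ r ∈ range l, 8 * ((r : ℝ) + 1) ^ (D - 1) * (C * ((r : ℝ) + 1) ^ (-σ) * (l : ℝ) ^ (-σ) * kn α l r) ≤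
      8 * C * ((D : ℝ) - σ - α)⁻¹ * (l : ℝ) ^ ((D : ℝ) - 2 * σ) := by
  have hl0 : (0 : ℝ) < l := by exact_mod_cast hl
  have hDc : ((D - 1 : ℕ) : ℝ) = (D : ℝ) - 1 := by
    rw [Nat.cast_sub hD, Nat.cast_one]
  have h1 : ∀ r ∈ range l, 8 * ((r : ℝ) + 1) ^ (D - 1) * (C * ((r : ℝ) + 1) ^ (-σ) * (l : ℝ) ^ (-σ) * kn α l r) =
      8 * C * (l : ℝ) ^ (α - σ) * ((r : ℝ) + 1) ^ (-(σ + α - ((D : ℝ) - 1))) := by
    intro r _
    have hr : (0 : ℝ) < (r : ℝ) + 1 := by positivity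
    unfold kn
    rw [Real.div_rpow hr.le hl0.le, Real.rpow_neg hl0.le α, div_inv_eq_mul]
    have e1 : (l : ℝ) ^ (α - σ) = (l : ℝ) ^ (-σ) * (l : ℝ) ^ α := by
      rw [← Real.rpow_add hl0]
      congr 1
      ring
    have e2 : ((r : ℝ) + 1) ^ (-(σ + α - ((D : ℝ) - 1))) =
        ((r : ℝ) + 1) ^ (D - 1) * ((r : ℝ) + 1) ^ (-σ) * ((r : ℝ) + 1) ^ (-α) := by
      rw [← Real.rpow_natCast ((r : ℝ) + 1) (D - 1), hDc, ← Real.rpow_add hr, ← Real.rpow_add hr]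
      congr 1
      ring
    rw [e1, e2]
    ring
  rw [sum_congr rfl h1, ← mul_sum]
  have h2 := sum_rpow (s := σ + α - ((D : ℝ) - 1)) (by linarith) (by linarith) l
  have e3 : (l : ℝ) ^ (α - σ) * (l : ℝ) ^ (1 - (σ + α - ((D : ℝ) - 1))) = (l : ℝ) ^ ((D : ℝ) - 2 * σ) := by
    rw [← Real.rpow_add hl0]
    congr 1
    ring
  calc 8 * C * (l : ℝ) ^ (α - σ) * ∑ r ∈ range l, ((r : ℝ) + 1) ^ (-(σ + α - ((D : ℝ) - 1)))
      ≤ 8 * C * (l : ℝ) ^ (α - σ) * ((1 - (σ + α - ((D : ℝ) - 1)))⁻¹ * (l : ℝ) ^ (1 - (σ + α - ((D : ℝ) - 1)))) := by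
        gcongr
    _ = 8 * C * (1 - (σ + α - ((D : ℝ) - 1)))⁻¹ * ((l : ℝ) ^ (α - σ) * (l : ℝ) ^ (1 - (σ + α - ((D : ℝ) - 1)))) := by
        ring
    _ = 8 * C * ((D : ℝ) - σ - α)⁻¹ * (l : ℝ) ^ ((D : ℝ) - 2 * σ) := by
        rw [e3, show (1 - (σ + α - ((D : ℝ) - 1))) = (D : ℝ) - σ - α by ring]

theorem fro_event {D : ℕ} (hD : 1 ≤ D) {σ α : ℝ} (hα0 : 0 ≤ α) (hα1 : (D : ℝ) - 1 ≤ σ + α) (hα2 : σ + α < D) {c C κ : ℝ} (hc : 0 < c)
    (hC : 0 < C) (hκ : 0 < κ) : ∃ c' M : ℝ, 0 < c' ∧ 0 < M ∧ ∀ (l : ℕ) (E : Finset Edge) (Q : Finset V)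
      (VL : V → Finset Edge → Prop), 1 ≤ l → κ * (l : ℝ) ^ D ≤ Q.card → (Q.card : ℝ) ≤ (l : ℝ) ^ D →
      (∀ u ∈ Q, ∀ v ∈ Q, sd u v < l) →
      (∀ u ∈ Q, ∀ r : ℕ, ((Q.filter (fun v => (sd u v).toNat = r)).card : ℝ) ≤ 8 * ((r : ℝ) + 1) ^ (D - 1)) →
      (∀ p ∈ Q, c * (l : ℝ) ^ (-σ) ≤ Pr E (VL p)) →
      (∀ p ∈ Q, ∀ p' ∈ Q, Pr E (fun ω => VL p ω ∧ VL p' ω) ≤
        C * (((sd p p').toNat : ℝ) + 1) ^ (-σ) * (l : ℝ) ^ (-σ)) →
      c' ≤ Pr E (WD M α l Q VL) := by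
  classical
  obtain ⟨D', hD'⟩ : ∃ D' : ℝ, D' = 8 * C * ((D : ℝ) - σ - α)⁻¹ := ⟨_, rfl⟩
  have hD0 : 0 < D' := by
    rw [hD']
    have : 0 < (D : ℝ) - σ - α := by linarith
    positivity
  obtain ⟨s, hs⟩ : ∃ s : ℝ, s = c * κ / 2 := ⟨_, rfl⟩
  have hs0 : 0 < s := by rw [hs]; positivity
  obtain ⟨p0, hp0⟩ : ∃ p0 : ℝ, p0 = s ^ 2 / D' := ⟨_, rfl⟩
  have hp00 : 0 < p0 := by rw [hp0]; positivity
  obtain ⟨T1, hT1⟩ : ∃ T1 : ℝ, T1 = 2 * D' / p0 := ⟨_, rfl⟩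
  have hT10 : 0 < T1 := by rw [hT1]; positivity
  obtain ⟨T2, hT2⟩ : ∃ T2 : ℝ, T2 = 2 * T1 / s := ⟨_, rfl⟩
  have hT20 : 0 < T2 := by rw [hT2]; positivity
  refine ⟨p0 / 2, T2 * 3 ^ α * (2 / s), by positivity, by positivity, ?_⟩
  intro l E Q VL hl hQ1 hQ2 hQ3 hQ4 hP1 hP2
  have hl0 : (0 : ℝ) < l := by exact_mod_cast hl
  obtain ⟨L, hL⟩ : ∃ L : ℝ, L = (l : ℝ) ^ ((D : ℝ) - σ) := ⟨_, rfl⟩
  have hL0 : 0 < L := by rw [hL]; positivity
  have hLD : (l : ℝ) ^ D * (l : ℝ) ^ ((D : ℝ) - 2 * σ) = L * L := by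
    rw [hL, ← Real.rpow_natCast (l : ℝ) D, ← Real.rpow_add hl0, ← Real.rpow_add hl0]
    congr 1
    ring
  obtain ⟨R, hR⟩ : ∃ R : Finset Edge → Finset V, R = fun ω => Q.filter (fun p => VL p ω) := ⟨_, rfl⟩
  obtain ⟨U, hU⟩ : ∃ U : Finset Edge → ℝ,
    U = fun ω => ∑ p ∈ R ω, ∑ p' ∈ R ω, kn α l (sd p p').toNat := ⟨_, rfl⟩
  have hU0 : ∀ ω, 0 ≤ U ω := by
    intro ω
    rw [hU]
    exact sum_nonneg fun _ _ => sum_nonneg fun _ _ => kn_nonneg _ _ _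
  -- the mean of the energy
  have hEU : Ex E U ≤ D' * (L * L) := by
    have h1 : U = fun ω => ∑ p ∈ Q, ∑ p' ∈ Q, kn α l (sd p p').toNat * (if VL p ω ∧ VL p' ω then (1 : ℝ) else 0) := by
      rw [hU, hR]
      funext ω
      simp only
      rw [sum_filter]
      refine sum_congr rfl fun p _ => ?_
      by_cases h : VL p ω
      · rw [if_pos h, sum_filter]
        refine sum_congr rfl fun p' _ => ?_
        by_cases h' : VL p' ω
        · rw [if_pos h', if_pos ⟨h, h'⟩, mul_one]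
        · rw [if_neg h', if_neg (fun h2 => h' h2.2), mul_zero]
      · rw [if_neg h]
        refine (sum_eq_zero fun p' _ => ?_).symm
        rw [if_neg (fun h2 => h h2.1), mul_zero]
    rw [h1, Ex_sum]
    have h2 : ∀ p ∈ Q, Ex E (fun ω => ∑ p' ∈ Q, kn α l (sd p p').toNat * (if VL p ω ∧ VL p' ω then (1 : ℝ) else 0)) ≤
        D' * (l : ℝ) ^ ((D : ℝ) - 2 * σ) := by
      intro p hp
      rw [Ex_sum]
      have h3 : ∀ p' ∈ Q, Ex E (fun ω => kn α l (sd p p').toNat * (if VL p ω ∧ VL p' ω then (1 : ℝ) else 0)) ≤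
          (fun r : ℕ => C * ((r : ℝ) + 1) ^ (-σ) * (l : ℝ) ^ (-σ) * kn α l r) (sd p p').toNat := by
        intro p' hp'
        have h5 : FKP.Ex E (fun ω => if VL p ω ∧ VL p' ω then (1 : ℝ) else 0) = Pr E (fun ω => VL p ω ∧ VL p' ω) := by
          rw [← Ex_ind]
          congr 1
          funext ω
          by_cases h : VL p ω ∧ VL p' ω
          · rw [if_pos h, if_pos h]
          · rw [if_neg h, if_neg h]
        rw [FKP.Ex_smul, h5]
        simp only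
        rw [mul_comm]
        exact mul_le_mul_of_nonneg_right (hP2 p hp p' hp') (kn_nonneg _ _ _)
      refine (sum_le_sum h3).trans ?_
      refine (YC_sum_sd (hQ3 p hp) (hQ4 p hp) (fun r : ℕ => C * ((r : ℝ) + 1) ^ (-σ) * (l : ℝ) ^ (-σ) * kn α l r)
        (fun r => ?_)).trans ?_
      · have := kn_nonneg α l r
        positivity
      · rw [hD']
        exact YC_sum_kn hD hα1 hα2 hC.le hl
    refine (sum_le_sum h2).trans ?_
    rw [sum_const, nsmul_eq_mul]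
    calc (Q.card : ℝ) * (D' * (l : ℝ) ^ ((D : ℝ) - 2 * σ)) ≤ (l : ℝ) ^ D * (D' * (l : ℝ) ^ ((D : ℝ) - 2 * σ)) := by gcongr
      _ = D' * ((l : ℝ) ^ D * (l : ℝ) ^ ((D : ℝ) - 2 * σ)) := by ring
      _ = D' * (L * L) := by rw [hLD]
  -- the mean of the number
  have hEN : 2 * (s * L) ≤ Ex E (fun ω => ((R ω).card : ℝ)) := by
    rw [hR, Ex_card Q VL]
    have h1 : (Q.card : ℝ) * (c * (l : ℝ) ^ (-σ)) ≤ ∑ p ∈ Q, Pr E (VL p) := by
      rw [← nsmul_eq_mul, ← sum_const]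
      exact sum_le_sum hP1
    refine le_trans ?_ h1
    have h2 : L = (l : ℝ) ^ D * (l : ℝ) ^ (-σ) := by
      rw [hL, ← Real.rpow_natCast (l : ℝ) D, ← Real.rpow_add hl0]
      congr 1
    rw [h2, hs]
    calc 2 * (c * κ / 2 * ((l : ℝ) ^ D * (l : ℝ) ^ (-σ)))
        = (κ * (l : ℝ) ^ D) * (c * (l : ℝ) ^ (-σ)) := by ring
      _ ≤ (Q.card : ℝ) * (c * (l : ℝ) ^ (-σ)) := by gcongr
  -- the square of the number is at most the energy
  have hNU : ∀ ω, ((R ω).card : ℝ) ^ 2 ≤ U ω := by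
    intro ω
    rw [hU]
    simp only
    have h1 : ∀ p ∈ R ω, ∀ p' ∈ R ω, (1 : ℝ) ≤ kn α l (sd p p').toNat := by
      intro p hp p' hp'
      rw [hR] at hp hp'
      have h2 := hQ3 p (mem_filter.1 hp).1 p' (mem_filter.1 hp').1
      have h3 := sd_nonneg p p'
      have h4 : (sd p p').toNat + 1 ≤ l := by omega
      have h5 : (((sd p p').toNat : ℝ) + 1) / l ≤ 1 := by
        rw [div_le_one hl0]
        exact_mod_cast h4
      unfold kn
      exact Real.one_le_rpow_of_pos_of_le_one_of_nonpos (by positivity) h5 (by linarith)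
    calc ((R ω).card : ℝ) ^ 2 = ∑ p ∈ R ω, ∑ p' ∈ R ω, (1 : ℝ) := by
          rw [sum_const, sum_const, nsmul_eq_mul, nsmul_eq_mul]
          ring
      _ ≤ _ := sum_le_sum fun p hp => sum_le_sum fun p' hp' => h1 p hp p' hp'
  have hpz : p0 ≤ Pr E (fun ω => s * L ≤ ((R ω).card : ℝ)) := by
    have h1 := Ex_pz (E := E) (f := fun ω => ((R ω).card : ℝ)) (fun ω _ => by positivity) (t := s * L)
      (by positivity) hEN
    have h2 : Ex E (fun ω => ((R ω).card : ℝ) ^ 2) ≤ D' * (L * L) :=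
      (Ex_mono fun ω _ => hNU ω).trans hEU
    have h3 := Pr_nonneg E (fun ω => s * L ≤ ((R ω).card : ℝ))
    have h4 : (s * L) ^ 2 ≤ D' * (L * L) * Pr E (fun ω => s * L ≤ ((R ω).card : ℝ)) :=
      h1.trans (mul_le_mul_of_nonneg_right h2 h3)
    have h5 : (0 : ℝ) < D' * (L * L) := by positivity
    rw [hp0]
    have h6 : s ^ 2 / D' = (s * L) ^ 2 / (D' * (L * L)) := by field_simp
    rw [h6, div_le_iff₀ h5]
    linarith
  have hmk : Pr E (fun ω => T1 * (L * L) ≤ U ω) ≤ p0 / 2 := by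
    have h1 := Ex_markov (E := E) (f := U) (fun ω _ => hU0 ω) (t := T1 * (L * L))
      (fun ω => T1 * (L * L) ≤ U ω) (fun ω _ h => h)
    have h2 : T1 * (L * L) * Pr E (fun ω => T1 * (L * L) ≤ U ω) ≤ D' * (L * L) := h1.trans hEU
    have h3 : D' * (L * L) = T1 * (L * L) * (p0 / 2) := by
      rw [hT1]
      field_simp
    rw [h3] at h2
    exact le_of_mul_le_mul_left h2 (by positivity)
  have hsub : Pr E (fun ω => s * L ≤ ((R ω).card : ℝ)) ≤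
      Pr E (WD (T2 * 3 ^ α * (2 / s)) α l Q VL) + Pr E (fun ω => T1 * (L * L) ≤ U ω) := by
    refine le_trans (Pr_mono fun ω _ h => ?_) (Pr_or_le _ _ _)
    by_cases h1 : T1 * (L * L) ≤ U ω
    · exact Or.inr h1
    · left
      have h2 : U ω ≤ T1 * (L * L) := (not_le.1 h1).le
      have h3 := wd_of (α := α) hα0 hl (Q := Q) (VL := VL) (ω := ω) (t := s * L) (T := T1 * (L * L))
        (T' := T2 * L) (by positivity) (by positivity) (by
          rw [hT2]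
          apply le_of_eq
          field_simp) (by
          rw [hR] at h
          exact h) (by
          rw [hU, hR] at h2
          exact h2)
      have h4 : T2 * L * 3 ^ α * (2 / (s * L)) = T2 * 3 ^ α * (2 / s) := by field_simp
      rw [h4] at h3
      exact h3
  linarith


end DimLim
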