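import Pool.Agent.Lib.MP_216314_pr.IC.Y0
import Pool.Agent.Lib.MP_216314_pr.IC.YB
import Pool.Agent.Lib.MP_216314_pr.I.DimC

/-!
# Leaf YD: from the local events to the limits of the curves (medium+)

A copy of the proof of `law_dim_lower` (I/DimC) with `rel_lower` (IC/YB) in place of `dim_lower`, `r n = 4 δ n`. Given `ρ > 0`: `k` with `ofReal ((1 - c) ^ k) ≤ ρ`, `s = min A B / 2 ^ (k + 1)`, `hW (s / 2)` gives `m`, `δ1`; `M' = ((M * (2 / s) ^ α) * 2 ^ α).toNNReal`. For large `k'` (also `δ k' < δ1`) with `n = (δ k')⁻¹`, `a = ⌊A n⌋₊`, `b = ⌊B n⌋₊`, `q = ⌊s n⌋₊`,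
the scales `l = 2 ^ i q`, `i < k` (so `δ l ≥ s / 2`), are as there, with the local events `G i` of `HypG`. The law: `claw hA.le hB.le (δ k') S = ofReal (Pr (box 0 a 0 b) (fun ω => mk (icurve .. ω) ∈ S))` (`claw` (IC/IF), `lawM_apply`). For `ω ⊆ box 0 a 0 b` with `G i ω`: the set `S` of `HypG`, `K = embS hA.le hB.le δ S` (I/DimP; take `T = S` in `fro_of_set`), so
`Fro α M' δ K`, `Fro.mono` for `4 δ`, and every `x ∈ K` is `emb .. v` with `v ∈ S` (`embS_coe`), so `(mk (icurve .. ω), x) ∈ R m (4 δ)` by `hW`. So the event of `rel_lower` holds if some `G i` holds; `trials`.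
-/

set_option autoImplicit false

noncomputable section

namespace DimLim

open MeasureTheory Filter Topology Set ENNReal NNReal TopologicalSpace Metric FKI FKP

theorem curve_lower {A B : ℝ} (hA : 0 < A) (hB : 0 < B) [MeasurableSpace (Curve (Rect A B))] [BorelSpace (Curve (Rect A B))]
    {μ : ProbabilityMeasure (Curve (Rect A B))} {δ : ℕ → ℝ} (hδ : ∀ k, 0 < δ k) (hδ0 : Tendsto δ atTop (𝓝 0))
    (hμ : Tendsto (fun k => claw hA.le hB.le (δ k)) atTop (𝓝 μ)) {α : ℝ≥0} (hα : 0 < α)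
    {W : ℕ → ℕ → ℕ → Finset Edge → V → Prop} (hG : HypG W α) (R : ℕ → ℝ → Set (Curve (Rect A B) × Rect A B))
    (hR : ∀ m s, IsClosed (R m s)) (hmono : ∀ m s s', s ≤ s' → R m s ⊆ R m s')
    (hW : ∀ s : ℝ, 0 < s → ∃ (m : ℕ) (δ1 : ℝ), 0 < δ1 ∧ ∀ (δ : ℝ) (l a b : ℕ) (ω : Finset Edge) (v : V), 0 < δ → δ < δ1 →
      a = ⌊A / δ⌋₊ → b = ⌊B / δ⌋₊ → s ≤ δ * l → 2 * l ≤ a → 2 * l ≤ b → ω ⊆ box 0 a 0 b →
      (0 ≤ v.1 ∧ v.1 ≤ a ∧ 0 ≤ v.2 ∧ v.2 ≤ b) → W l a b ω v →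
      ((SeparationQuotient.mk (icurve hA.le hB.le δ a b ω) : Curve (Rect A B)), emb hA.le hB.le δ v) ∈ R m (4 * δ)) :
    ∀ᵐ (c : Curve (Rect A B)) ∂(μ : Measure (Curve (Rect A B))),
      (α : ℝ≥0∞) ≤ dimH {x : Rect A B | ∃ m, ∀ s : ℝ, 0 < s → (c, x) ∈ R m s} := by
  classical
  obtain ⟨c, M, l0, hc, hM, hG⟩ := hG
  have hc1 : c ≤ 1 := by
    obtain ⟨G, -, h1, -⟩ := hG (2 * l0) (2 * l0) l0 le_rfl le_rfl le_rfl
    exact h1.trans (Pr_le_one _ _)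
  have hα' : (0 : ℝ) ≤ α := α.2
  have hr4 : Tendsto (fun k => 4 * δ k) atTop (𝓝 0) := by
    have := hδ0.const_mul 4
    rwa [mul_zero] at this
  refine rel_lower hα hμ hr4 R hR hmono ?_
  intro ρ hρ
  obtain ⟨k, hk⟩ : ∃ k : ℕ, ENNReal.ofReal ((1 - c) ^ k) ≤ ρ := by
    have h1 : Tendsto (fun k : ℕ => ENNReal.ofReal ((1 - c) ^ k)) atTop (𝓝 0) := by
      rw [← ENNReal.ofReal_zero]
      exact ENNReal.tendsto_ofReal (tendsto_pow_atTop_nhds_zero_of_lt_one (by linarith) (by linarith))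
    obtain ⟨k, hk⟩ := (h1.eventually (gt_mem_nhds hρ)).exists
    exact ⟨k, hk.le⟩
  -- the smallest scale
  obtain ⟨s, hs⟩ : ∃ s : ℝ, s = min A B / 2 ^ (k + 1) := ⟨_, rfl⟩
  have hs0 : 0 < s := by
    rw [hs]
    have := lt_min hA hB
    positivity
  obtain ⟨m, δ1, hδ1, hW1⟩ := hW (s / 2) (by positivity)
  refine ⟨m, ((M * (2 / s) ^ (α : ℝ)) * 2 ^ (α : ℝ)).toNNReal, ?_⟩
  have hp0 : 0 < 1 + ((l0 : ℝ) + 1 + 1) / s := by positivity
  filter_upwards [hδ0.eventually (gt_mem_nhds (show 0 < (1 + ((l0 : ℝ) + 1 + 1) / s)⁻¹ by positivity)),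
    hδ0.eventually (gt_mem_nhds hδ1)] with k' hk' hk1
  obtain ⟨n, hn⟩ : ∃ n : ℝ, n = (δ k')⁻¹ := ⟨_, rfl⟩
  have hnN : (1 + ((l0 : ℝ) + 1 + 1) / s) ≤ n := by
    rw [hn]
    exact (lt_inv_comm₀ (hδ k') hp0).1 hk' |>.le
  have hdn : ∀ x : ℝ, x / δ k' = x * n := fun x => by rw [hn, div_eq_mul_inv]
  have hp1 : 0 < ((l0 : ℝ) + 1 + 1) / s := by positivity
  have hn' : (0 : ℝ) < n := by linarith
  have hsn : (l0 : ℝ) + 1 + 1 ≤ s * n := by
    have h1 : ((l0 : ℝ) + 1 + 1) / s ≤ n := by linarith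
    rw [div_le_iff₀ hs0] at h1
    linarith
  obtain ⟨a, ha⟩ : ∃ a, a = ⌊A * n⌋₊ := ⟨_, rfl⟩
  obtain ⟨b, hb⟩ : ∃ b, b = ⌊B * n⌋₊ := ⟨_, rfl⟩
  obtain ⟨q, hq⟩ : ∃ q, q = ⌊s * n⌋₊ := ⟨_, rfl⟩
  have hq1 : (q : ℝ) ≤ s * n := by
    rw [hq]
    exact Nat.floor_le (by positivity)
  have hq2 : s * n / 2 ≤ q := by
    have := Nat.lt_floor_add_one (s * n)
    rw [← hq] at this
    have hl0 : (0 : ℝ) ≤ l0 := by positivity
    linarith
  have hq3 : l0 ≤ q := by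
    rw [hq]
    refine Nat.le_floor ?_
    linarith
  have hqa : 2 ^ (k + 1) * q ≤ a := by
    rw [ha]
    refine Nat.le_floor ?_
    push_cast
    calc (2 : ℝ) ^ (k + 1) * q ≤ 2 ^ (k + 1) * (s * n) := by gcongr
      _ = min A B * n := by
          rw [hs]
          field_simp
      _ ≤ A * n := by
          gcongr
          exact min_le_left _ _
  have hqb : 2 ^ (k + 1) * q ≤ b := by
    rw [hb]
    refine Nat.le_floor ?_
    push_cast
    calc (2 : ℝ) ^ (k + 1) * q ≤ 2 ^ (k + 1) * (s * n) := by gcongr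
      _ = min A B * n := by
          rw [hs]
          field_simp
      _ ≤ B * n := by
          gcongr
          exact min_le_right _ _
  have hl : ∀ i < k, l0 ≤ 2 ^ i * q ∧ 2 * (2 ^ i * q) ≤ a ∧ 2 * (2 ^ i * q) ≤ b := by
    intro i hi
    have h1 : 1 ≤ 2 ^ i := Nat.one_le_two_pow
    have h2 : 2 ^ (i + 1) ≤ 2 ^ (k + 1) := Nat.pow_le_pow_right (by norm_num) (by omega)
    have h3 : 2 * (2 ^ i * q) = 2 ^ (i + 1) * q := by ring
    have h4 : 2 ^ (i + 1) * q ≤ 2 ^ (k + 1) * q := Nat.mul_le_mul_right _ h2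
    refine ⟨?_, ?_, ?_⟩
    · calc l0 ≤ 1 * q := by omega
        _ ≤ 2 ^ i * q := Nat.mul_le_mul_right _ h1
    · rw [h3]
      exact h4.trans hqa
    · rw [h3]
      exact h4.trans hqb
  have hex : ∀ i, ∃ G : Finset Edge → Prop, i < k → Dep (qan a (2 ^ i * q)) G ∧ c ≤ Pr (box 0 a 0 b) G ∧
      ∀ ω, ω ⊆ box 0 a 0 b → G ω → ∃ S : Finset V,
        (∀ v ∈ S, (0 ≤ v.1 ∧ v.1 ≤ a ∧ 0 ≤ v.2 ∧ v.2 ≤ b) ∧ W (2 ^ i * q) a b ω v) ∧ S.Nonempty ∧
        ∀ (v : V) (r : ℕ), 1 ≤ r →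
          ((S.filter (fun w => sd v w ≤ r)).card : ℝ) ≤ M * ((r : ℝ) / (2 ^ i * q : ℕ)) ^ (α : ℝ) * S.card := by
    intro i
    by_cases hi : i < k
    · obtain ⟨h1, h2, h3⟩ := hl i hi
      obtain ⟨G, hG1, hG2, hG3⟩ := hG a b (2 ^ i * q) h1 h2 h3
      exact ⟨G, fun _ => ⟨hG1, hG2, hG3⟩⟩
    · exact ⟨fun _ => True, fun h => absurd h hi⟩
  choose G hG' using hex
  have hE : ∀ S : Set (Curve (Rect A B)), (claw hA.le hB.le (δ k') : Measure (Curve (Rect A B))) S =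
      ENNReal.ofReal (Pr (box 0 (⌊A * n⌋₊ : ℤ) 0 (⌊B * n⌋₊ : ℤ))
        (fun ω => (SeparationQuotient.mk (icurve hA.le hB.le (δ k') ⌊A * n⌋₊ ⌊B * n⌋₊ ω) :
          Curve (Rect A B)) ∈ S)) := by
    intro S
    simp only [← hdn]
    exact lawM_apply _ _ _
  rw [hE, ← ha, ← hb]
  refine le_trans (ENNReal.ofReal_le_ofReal ?_) hk
  refine le_trans (Pr_mono (B := fun ω => ∀ i < k, ¬ G i ω) ?_)
    (trials hc1 (fun i => qan a (2 ^ i * q)) G k (fun i hi => qan_sub (hl i hi).2.1 (hl i hi).2.2)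
      (fun i j hij hj => ?_) (fun i hi => (hG' i hi).1) (fun i hi => (hG' i hi).2.1))
  · intro ω hω hF i hi hGi
    obtain ⟨S, hS1, hS2, hS3⟩ := (hG' i hi).2.2 ω hω hGi
    have hqn : (s * n / 2) ≤ ((2 ^ i * q : ℕ) : ℝ) := by
      refine hq2.trans ?_
      have h1 : 1 * q ≤ 2 ^ i * q := Nat.mul_le_mul_right _ Nat.one_le_two_pow
      rw [one_mul] at h1
      exact_mod_cast h1
    have hpos : (0 : ℝ) < ((2 ^ i * q : ℕ) : ℝ) := lt_of_lt_of_le (by positivity) hqn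
    have hδk := hδ k'
    have hsl : s / 2 ≤ δ k' * ((2 ^ i * q : ℕ) : ℝ) := by
      calc s / 2 = δ k' * (s * n / 2) := by
            rw [hn]
            field_simp
        _ ≤ δ k' * ((2 ^ i * q : ℕ) : ℝ) := by gcongr
    refine hF ⟨embS hA.le hB.le (δ k') S, ?_, Fro.mono (r0 := δ k') (by linarith) ?_⟩
    · intro x hx
      have hx' : x ∈ ((embS hA.le hB.le (δ k') S : NonemptyCompacts (Rect A B)) : Set (Rect A B)) := hx
      rw [embS_coe hA.le hB.le hS2] at hx'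
      obtain ⟨v, hv, rfl⟩ := hx'
      obtain ⟨hv1, hv2⟩ := hS1 v hv
      exact hW1 (δ k') (2 ^ i * q) a b ω v hδk hk1 (by rw [hdn]; exact ha) (by rw [hdn]; exact hb) hsl
        (hl i hi).2.1 (hl i hi).2.2 hω hv1 hv2
    · refine fro_of_set hA.le hB.le hδk (by rw [hdn]; exact ha) (by rw [hdn]; exact hb) hS2 subset_rfl
        (fun w hw => (hS1 w hw).1) hα' (by positivity) fun v r hr => ?_
      refine (hS3 v r hr).trans ?_
      have h2 : ((r : ℝ) / (2 ^ i * q : ℕ)) ^ (α : ℝ) ≤ (2 / s) ^ (α : ℝ) * ((r : ℝ) * δ k') ^ (α : ℝ) := by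
        rw [← Real.mul_rpow (by positivity) (by positivity)]
        refine Real.rpow_le_rpow (by positivity) ?_ hα'
        rw [div_le_iff₀ hpos]
        calc (r : ℝ) = 2 / s * (r * δ k') * (s * n / 2) := by
              rw [hn]
              field_simp
          _ ≤ 2 / s * (r * δ k') * ((2 ^ i * q : ℕ) : ℝ) := by gcongr
      calc M * ((r : ℝ) / (2 ^ i * q : ℕ)) ^ (α : ℝ) * S.card
          ≤ M * ((2 / s) ^ (α : ℝ) * ((r : ℝ) * δ k') ^ (α : ℝ)) * S.card := by gcongr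
        _ = M * (2 / s) ^ (α : ℝ) * ((r : ℝ) * δ k') ^ (α : ℝ) * S.card := by ring
  · refine qan_disj ?_
    have h1 : 2 ^ (i + 1) ≤ 2 ^ j := Nat.pow_le_pow_right (by norm_num) (by omega)
    calc 2 * (2 ^ i * q) = 2 ^ (i + 1) * q := by ring
      _ ≤ 2 ^ j * q := Nat.mul_le_mul_right _ h1

end DimLim
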