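import Pool.Agent.Lib.MP_216314_pr.IC.Y0
import Pool.Agent.Lib.MP_216314_pr.IC.SA

/-!
# Leaf YE: one point estimate on the right side (medium)

`h : HalfArm` gives `piH d ≥ c d ^ (-1/3)`. Let `u = (a, y)` with `5 l / 4 ≤ y ≤ 7 l / 4`, `r = l / 16`, `d = 2 r` (so `y - d > l`, `y + d < 2 l` for large `l`). As in `WC_right_ge` (Cy/CyO), with `E = qan a l` (I/DimP: `box (a - 2 l) a 0 (2 l) \ box (a - l) a 0 l`): the increasing events `RA u d`, `HC (a - d) a (y + r) (y + d)`, `VC (a - d) (a - r) (y - d) (y + d)`, `HC (a - d) a (y - d) (y - r)` (the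
circuit), and `HC (a - 2 l) a (y - d) (y + d)`, `VC (a - 2 l) (a - l - 1) 0 (2 l)` have supports contained in `qan a l` and probabilities `piH d` (`Pr_RA`) and at least `c` (`Pr_HC`, `Pr_VC`, `rsw 64`); FKG (`pup_fkg`, `pup_and`): all of them with probability at least `piH d c ^ 5`. Deterministic: `u` is joined to the circuit (the first
step of the proof of `arm_glue`, IC/SA, or of `half_geo`, Cy/CyO), the vertical crossing of the circuit meets the long horizontal crossing (`cross`), which meets the vertical crossing of the left leg (`cross`), which ends at a point `(x, 0)`. All the connections are in `ω ∩ qan a l` (replace `ω` by `ω ∩ qan a l` first). So `VS a l u ω`. Here `Pr (qan a l) = Pr E`.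
-/

set_option autoImplicit false

noncomputable section

namespace DimLim

open Finset FKI FKP

/-- an arm of a half annulus is joined to the lower crossing -/
private theorem YE_step {ux uy : ℤ} {r d : ℕ} {ω : Finset Edge} {p q : V}
    (hp : ux - r ≤ p.1 ∧ p.1 ≤ ux ∧ uy - r ≤ p.2 ∧ p.2 ≤ uy + r)
    (hq : q.1 = ux - d ∨ q.2 = uy - d ∨ q.2 = uy + d)
    (hw2 : Conn (box (ux - d) ux (uy - d) (uy + d)) ω p q)
    {yt yt' xl xl' yb yb' : ℤ}
    (t1 : uy + r ≤ yt) (t2 : yt ≤ uy + d) (t3 : uy + r ≤ yt') (t4 : yt' ≤ uy + d)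
    (hT : Conn (box (ux - d) ux (uy + r) (uy + d)) ω (ux - d, yt) (ux, yt'))
    (l1 : ux - d ≤ xl) (l2 : xl ≤ ux - r) (l3 : ux - d ≤ xl') (l4 : xl' ≤ ux - r)
    (hL : Conn (box (ux - d) (ux - r) (uy - d) (uy + d)) ω (xl, uy - d) (xl', uy + d))
    (b1 : uy - d ≤ yb) (b2 : yb ≤ uy - r) (b3 : uy - d ≤ yb') (b4 : yb' ≤ uy - r)
    (hB : Conn (box (ux - d) ux (uy - d) (uy - r)) ω (ux - d, yb) (ux, yb')) :
    (gr ω).Reachable p (ux - d, yb) := by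
  have bl := cross (ω := ω) (x1 := ux - d) (x2 := ux) (y1 := uy - d) (y2 := uy - r)
    (x3 := ux - d) (x4 := ux - r) (y3 := uy - d) (y4 := uy + d) le_rfl (by omega) le_rfl
    (by omega) ⟨b1, b2⟩ ⟨b3, b4⟩ ⟨l1, l2⟩ ⟨l3, l4⟩ hB hL
  have tl := cross (ω := ω) (x1 := ux - d) (x2 := ux) (y1 := uy + r) (y2 := uy + d)
    (x3 := ux - d) (x4 := ux - r) (y3 := uy - d) (y4 := uy + d) le_rfl (by omega) (by omega)
    le_rfl ⟨t1, t2⟩ ⟨t3, t4⟩ ⟨l1, l2⟩ ⟨l3, l4⟩ hT hL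
  have hm := conn_mem_box hw2 ⟨by omega, by omega, by omega, by omega⟩
  obtain ⟨wx, wy⟩ := q
  simp only at hq hm
  rcases hq with h1 | h1 | h1
  · subst h1
    obtain ⟨y0, h1, h2, h3, h4⟩ := pgeo_left (t := ux - r) hw2 (by omega)
      ⟨by omega, by omega, by omega, by omega⟩
    have h5 := cross (ω := ω) le_rfl le_rfl le_rfl le_rfl ⟨hm.2.2.1, hm.2.2.2⟩ ⟨h1, h2⟩
      ⟨l1, l2⟩ ⟨l3, l4⟩ h4 hL
    exact (hw2.reach.trans h5).trans bl.symm
  · subst h1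
    obtain ⟨x0, h1, h2, h3, h4⟩ := pgeo_down (t := uy - r) hw2 (by omega)
      ⟨by omega, by omega, by omega, by omega⟩
    have h5 := cross (ω := ω) le_rfl le_rfl le_rfl le_rfl ⟨b1, b2⟩ ⟨b3, b4⟩ ⟨hm.1, hm.2.1⟩
      ⟨h1, h2⟩ hB h4
    exact hw2.reach.trans h5.symm
  · subst h1
    obtain ⟨x0, h1, h2, h3, h4⟩ := pgeo_up (t := uy + r) hw2 (by omega)
      ⟨by omega, by omega, by omega, by omega⟩
    have h5 := cross (ω := ω) le_rfl le_rfl le_rfl le_rfl ⟨t1, t2⟩ ⟨t3, t4⟩ ⟨h1, h2⟩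
      ⟨hm.1, hm.2.1⟩ hT h4
    exact ((h3.reach.trans h5.symm).trans tl).trans bl.symm

/-- the geometric part -/
private theorem YE_geo {ux uy : ℤ} {a l r d : ℕ} (hua : ux = a) (hr : 1 ≤ r) (hd : d = 2 * r) (hdl : d ≤ l)
    (hy1 : 0 ≤ uy - d) (hy2 : uy + d ≤ 2 * l) {ω : Finset Edge} (hA : RA (ux, uy) d ω)
    (hT : HC (ux - d) ux (uy + r) (uy + d) ω) (hL : VC (ux - d) (ux - r) (uy - d) (uy + d) ω)
    (hB : HC (ux - d) ux (uy - d) (uy - r) ω) (hH : HC (ux - 2 * l) ux (uy - d) (uy + d) ω)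
    (hV : VC (ux - 2 * l) (ux - l - 1) 0 (2 * l) ω) :
    ∃ x : ℤ, (a : ℤ) - 2 * l ≤ x ∧ x ≤ a ∧ (gr ω).Reachable (ux, uy) (x, 0) := by
  obtain ⟨w, hw1, hw2⟩ := hA
  obtain ⟨yt, yt', t1, t2, t3, t4, hT⟩ := hT
  obtain ⟨xl, xl', l1, l2, l3, l4, hL⟩ := hL
  obtain ⟨yb, yb', b1, b2, b3, b4, hB⟩ := hB
  obtain ⟨yh, yh', m1, m2, m3, m4, hH⟩ := hH
  obtain ⟨xv, xv', v1, v2, v3, v4, hV⟩ := hV
  have h1 : (gr ω).Reachable (ux, uy) (ux - d, yb) :=
    YE_step (r := r) (d := d) (p := (ux, uy)) (q := w) ⟨by simp only; omega, by simp only; omega,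
      by simp only; omega, by simp only; omega⟩ hw1 hw2 t1 t2 t3 t4 hT l1 l2 l3 l4 hL b1 b2 b3 b4 hB
  have bl := cross (ω := ω) (x1 := ux - d) (x2 := ux) (y1 := uy - d) (y2 := uy - r)
    (x3 := ux - d) (x4 := ux - r) (y3 := uy - d) (y4 := uy + d) le_rfl (by omega) le_rfl
    (by omega) ⟨b1, b2⟩ ⟨b3, b4⟩ ⟨l1, l2⟩ ⟨l3, l4⟩ hB hL
  have hl := cross (ω := ω) (x1 := ux - 2 * l) (x2 := ux) (y1 := uy - d) (y2 := uy + d)
    (x3 := ux - d) (x4 := ux - r) (y3 := uy - d) (y4 := uy + d) (by omega) (by omega) le_rfl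
    le_rfl ⟨m1, m2⟩ ⟨m3, m4⟩ ⟨l1, l2⟩ ⟨l3, l4⟩ hH hL
  have hv := cross (ω := ω) (x1 := ux - 2 * l) (x2 := ux) (y1 := uy - d) (y2 := uy + d)
    (x3 := ux - 2 * l) (x4 := ux - l - 1) (y3 := 0) (y4 := 2 * l) le_rfl (by omega) (by omega)
    (by omega) ⟨m1, m2⟩ ⟨m3, m4⟩ ⟨v1, v2⟩ ⟨v3, v4⟩ hH hV
  exact ⟨xv, by omega, by omega, ((h1.trans bl).trans hl.symm).trans hv⟩

theorem side_one (h : HalfArm) : ∃ (c : ℝ) (l0 : ℕ), 0 < c ∧ ∀ (a l : ℕ) (y : ℤ), l0 ≤ l → 2 * l ≤ a → (5 * l : ℤ) ≤ 4 * y → 4 * y ≤ 7 * l →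
    c * (l : ℝ) ^ (-(1 / 3) : ℝ) ≤ Pr (qan a l) (VS a l ((a : ℤ), y)) := by
  obtain ⟨c0, C0, hc0, -, hpi⟩ := h
  obtain ⟨c, hc, hrsw⟩ := rsw 64
  refine ⟨c0 * c ^ 5, 32, by positivity, fun a l y hl ha hy1 hy2 => ?_⟩
  obtain ⟨r, hr⟩ : ∃ r, r = l / 16 := ⟨_, rfl⟩
  obtain ⟨d, hd⟩ : ∃ d, d = 2 * r := ⟨_, rfl⟩
  have hr1 : 2 ≤ r := by omega
  have hr2 : 16 * r ≤ l := by omega
  have hr3 : l ≤ 32 * r := by omega
  have hyd1 : (l : ℤ) < y - d := by omega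
  have hyd2 : y + d ≤ 2 * l := by omega
  have hsub : ∀ {x1 x2 y1 y2 : ℤ}, (a : ℤ) - 2 * l ≤ x1 → x2 ≤ a → 0 ≤ y1 → y2 ≤ 2 * l →
      ((l : ℤ) < y1 ∨ x2 < (a : ℤ) - l) → box x1 x2 y1 y2 ⊆ qan a l := by
    intro x1 x2 y1 y2 h1 h2 h3 h4 h5 e he
    unfold qan
    rw [mem_sdiff]
    refine ⟨box_mono h1 h2 h3 h4 he, fun he' => ?_⟩
    have h6 := mem_box' he
    have h7 := mem_box' he'
    omega
  have pA : c0 * (l : ℝ) ^ (-(1 / 3) : ℝ) ≤ Pr (qan a l) (RA ((a : ℤ), y) d) := by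
    refine le_trans ((hpi l (by omega)).1.trans (piH_anti (by omega))) (Pr_RA ?_).ge
    unfold hb
    exact hsub (by simp only; omega) le_rfl (by simp only; omega) (by simp only; omega)
      (Or.inl (by simp only; omega))
  have pT : c ≤ Pr (qan a l) (HC ((a : ℤ) - d) a (y + r) (y + d)) := by
    rw [Pr_HC d r (by omega) (by omega)
      (hsub (by omega) (by omega) (by omega) (by omega) (Or.inl (by omega)))]
    exact hrsw _ _ (by omega) (by omega)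
  have pL : c ≤ Pr (qan a l) (VC ((a : ℤ) - d) ((a : ℤ) - r) (y - d) (y + d)) := by
    rw [Pr_VC r (2 * d) (by omega) (by omega)
      (hsub (by omega) (by omega) (by omega) (by omega) (Or.inl (by omega)))]
    exact hrsw _ _ (by omega) (by omega)
  have pB : c ≤ Pr (qan a l) (HC ((a : ℤ) - d) a (y - d) (y - r)) := by
    rw [Pr_HC d r (by omega) (by omega)
      (hsub (by omega) (by omega) (by omega) (by omega) (Or.inl (by omega)))]
    exact hrsw _ _ (by omega) (by omega)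
  have pH : c ≤ Pr (qan a l) (HC ((a : ℤ) - 2 * l) a (y - d) (y + d)) := by
    rw [Pr_HC (2 * l) (2 * d) (by push_cast; omega) (by push_cast; omega)
      (hsub (by omega) (by omega) (by omega) (by omega) (Or.inl (by omega)))]
    exact hrsw _ _ (by omega) (by omega)
  have pV : c ≤ Pr (qan a l) (VC ((a : ℤ) - 2 * l) ((a : ℤ) - l - 1) 0 (2 * l)) := by
    rw [Pr_VC (l - 1) (2 * l) (by omega) (by push_cast; omega)
      (hsub (by omega) (by omega) (by omega) (by omega) (Or.inr (by omega)))]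
    exact hrsw _ _ (by omega) (by omega)
  have iA := inc_RA ((a : ℤ), y) d
  have iT := inc_HC ((a : ℤ) - d) a (y + r) (y + d)
  have iL := inc_VC ((a : ℤ) - d) ((a : ℤ) - r) (y - d) (y + d)
  have iB := inc_HC ((a : ℤ) - d) a (y - d) (y - r)
  have iH := inc_HC ((a : ℤ) - 2 * l) a (y - d) (y + d)
  have iV := inc_VC ((a : ℤ) - 2 * l) ((a : ℤ) - l - 1) 0 (2 * l)
  have f1 := pup_fkg iA iT hc.le pA pT
  have f2 := pup_fkg (pup_and iA iT) iL hc.le f1 pL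
  have f3 := pup_fkg (pup_and (pup_and iA iT) iL) iB hc.le f2 pB
  have f4 := pup_fkg (pup_and (pup_and (pup_and iA iT) iL) iB) iH hc.le f3 pH
  have f5 := pup_fkg (pup_and (pup_and (pup_and (pup_and iA iT) iL) iB) iH) iV hc.le f4 pV
  refine le_trans (le_of_eq (by ring)) (f5.trans (Pr_mono fun ω hω hω' => ?_))
  obtain ⟨⟨⟨⟨⟨h5, h6⟩, h7⟩, h8⟩, h9⟩, h10⟩ := hω'
  obtain ⟨x, x1, x2, x3⟩ := YE_geo (a := a) (l := l) (r := r) (d := d) rfl (by omega) hd (by omega)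
    (by omega) hyd2 h5 h6 h7 h8 h9 h10
  exact ⟨x, x1, x2, Conn.of_reach hω x3⟩

end DimLim
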