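import Pool.Agent.Lib.MP_216314_pr.IC.Y0
import Pool.Agent.Lib.MP_216314_pr.IC.SC

/-!
# Leaf YF: two point estimate on the right side (medium)

Let `v = (a, y)`, `v' = (a, y')`, `D = |y - y'|`, `R = l / 8`. `VS a l v ω` implies `RA v k ω` for `k ≤ R` (Cy/CyN: `RA_of_conn`, the lower side is at distance `> R` of `v`; `hb v k ⊆ qan a l`) and `ArmA v k R ω` for `k ≤ R` (`last_exit` (P/PExit) with `f = sd v`, level `k`, then `reach_level` (I/IVa), level `R`; the edges used have both ends at distance `≥ k`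
and one end at distance `< R`, so they are in `hx 0 v R \ hx 0 v k`). `ArmA` implies `Arm 0` (`Conn.mono`), so `Pr E (ArmA v k R) ≤ C (k / R) ^ (1/3)` (`arm_pr`, IC/SC, `s = 0`) for `1 ≤ k ≤ R`; `Dep (hx 0 v R \ hx 0 v k) (ArmA v k R)` (`dep_Conn`). `piH k ≤ C k ^ (-1/3)` for `1 ≤ k` (`HalfArm`), `Pr_RA`.
Case `D ≤ 8`: `Pr ≤ Pr (RA v R) = piH R ≤ C' l ^ (-1/3)`. Case `8 < D`, `4 D ≤ R`: `k = D / 3`; `RA v k`, `RA v' k`, `ArmA v (2 D) R` depend on the disjoint sets `hb v k`, `hb v' k`, `hx 0 v R \ hx 0 v (2 D)` (`Pr_indep` twice): `Pr ≤ C k ^ (-2/3) (2 D / R) ^ (1/3) ≤ C' D ^ (-1/3) l ^ (-1/3)`. Case `R < 4 D`: `k = min (D / 3) R ≥ R / 16`, `RA v k`, `RA v' k` only: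
`C k ^ (-2/3) ≤ C' l ^ (-2/3) ≤ C'' (D + 1) ^ (-1/3) l ^ (-1/3)` (`D ≤ l`).
-/

set_option autoImplicit false

noncomputable section

namespace DimLim

open Finset FKI FKP

private theorem YF_box {x1 x2 y1 y2 : ℤ} {e : Edge} (h1 : x1 ≤ (ea e).1) (h2 : (eb e).1 ≤ x2) (h3 : y1 ≤ (ea e).2)
    (h4 : (eb e).2 ≤ y2) : e ∈ box x1 x2 y1 y2 := by
  obtain ⟨x, y, t⟩ := e
  rw [mem_box]
  cases t
  · simp only [ea, eb, Bool.false_eq_true, if_false] at h1 h2 h3 h4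
    left
    refine ⟨rfl, ?_⟩
    simp only
    omega
  · simp only [ea, eb, if_true] at h1 h2 h3 h4
    right
    refine ⟨rfl, ?_⟩
    simp only
    omega

/-- The edges of the half annulus. -/
private def YF_S (v : V) (r R : ℕ) : Finset Edge :=
  (hx 0 v R).filter (fun e => (r : ℤ) ≤ sd v (ea e) ∧ (r : ℤ) ≤ sd v (eb e))

/-- An open path across the half annulus. -/
private def YF_A (v : V) (r R : ℕ) (ω : Finset Edge) : Prop :=
  ∃ c w : V, sd v c ≤ r ∧ (R : ℤ) ≤ sd v w ∧ Conn (YF_S v r R) ω c w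

private theorem YF_dep (v : V) (r R : ℕ) : Dep (YF_S v r R) (YF_A v r R) := by
  intro ω
  constructor
  · rintro ⟨c, w, h1, h2, h3⟩
    exact ⟨c, w, h1, h2, (dep_Conn (Finset.Subset.refl _) c w ω).1 h3⟩
  · rintro ⟨c, w, h1, h2, h3⟩
    exact ⟨c, w, h1, h2, (dep_Conn (Finset.Subset.refl _) c w ω).2 h3⟩

private theorem YF_far {a l : ℕ} {y x : ℤ} (hy : (5 * l : ℤ) ≤ 4 * y) {k : ℕ} (hk : 8 * k ≤ l) :
    (k : ℤ) ≤ sd ((a : ℤ), y) (x, 0) := by
  unfold sd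
  rw [le_max_iff]
  right
  simp only
  rw [abs_sub_comm]
  exact le_trans (by omega) (le_abs_self _)

private theorem YF_RA {a l : ℕ} {y : ℤ} (hy : (5 * l : ℤ) ≤ 4 * y) {k : ℕ} (hk : 8 * k ≤ l) {ω : Finset Edge}
    (h : VS a l ((a : ℤ), y) ω) : RA ((a : ℤ), y) k ω := by
  obtain ⟨x, _, _, hc⟩ := h
  exact RA_of_conn (u := ((a : ℤ), y)) (x1 := (a : ℤ) - 2 * l) (y1 := 0) (y2 := 2 * l)
    (hc.mono Finset.sdiff_subset (Finset.Subset.refl _)) (YF_far hy hk)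

private theorem YF_arm {a l : ℕ} {y : ℤ} (hy : (5 * l : ℤ) ≤ 4 * y) {r R : ℕ} (hr : r ≤ R) (hR : 8 * R ≤ l)
    {ω : Finset Edge} (h : VS a l ((a : ℤ), y) ω) : YF_A ((a : ℤ), y) r R ω := by
  obtain ⟨x, _, _, hc⟩ := h
  obtain ⟨c, hc1, _, hc2⟩ := last_exit (F := qan a l) (ω := ω) (sd ((a : ℤ), y)) (fun e _ => sd_edge _ e)
    (t := (r : ℤ)) (by rw [sd_self]; omega) (YF_far hy (by omega)) hc
  obtain ⟨w, hw1, hw2⟩ := reach_level (lv := sd ((a : ℤ), y)) (fun e _ => sd_edge _ e) hc2 (R := (R : ℤ))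
    (by rw [hc1]; exact_mod_cast hr) (YF_far hy hR)
  refine ⟨c, w, hc1.le, hw1.ge, SimpleGraph.Reachable.mono (gr_mono fun e he => ?_) hw2⟩
  rw [mem_filter, mem_inter, mem_filter] at he
  obtain ⟨⟨h1, h2, h3⟩, h4⟩ := he
  rw [mem_inter]
  refine ⟨h1, ?_⟩
  unfold YF_S
  rw [mem_filter]
  refine ⟨?_, h3⟩
  have h5 := sd_edge ((a : ℤ), y) e
  have h6 : sd ((a : ℤ), y) (ea e) ≤ R ∧ sd ((a : ℤ), y) (eb e) ≤ R := by omega
  rw [sd_le, sd_le] at h6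
  have h7 := pexit_box (Finset.sdiff_subset h2)
  simp only at h6
  exact YF_box (by simp only; omega) (by simp only; omega) (by simp only; omega) (by simp only; omega)

private theorem YF_hb {a l : ℕ} {y : ℤ} (hl : 1 ≤ l) (hy : (5 * l : ℤ) ≤ 4 * y) (hy2 : 4 * y ≤ 7 * l) {k : ℕ}
    (hk : 8 * k ≤ l) : hb ((a : ℤ), y) k ⊆ qan a l := by
  intro e he
  have h1 := pexit_box he
  simp only at h1
  unfold qan
  rw [mem_sdiff]
  refine ⟨YF_box (by omega) (by omega) (by omega) (by omega), fun h2 => ?_⟩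
  have h3 := pexit_box h2
  omega

private theorem YF_rp {x y K : ℝ} (hy : 0 < y) (hK : 1 ≤ K) (h : y ≤ K * x) :
    x ^ (-(1 / 3) : ℝ) ≤ K * y ^ (-(1 / 3) : ℝ) := by
  have hK0 : 0 < K := lt_of_lt_of_le one_pos hK
  have h1 : y / K ≤ x := by rwa [div_le_iff₀' hK0]
  have h2 : 0 < y / K := div_pos hy hK0
  refine (Real.rpow_le_rpow_of_nonpos h2 h1 (by norm_num)).trans ?_
  rw [Real.div_rpow hy.le hK0.le, Real.rpow_neg hK0.le, div_inv_eq_mul, mul_comm]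
  refine mul_le_mul_of_nonneg_right ?_ (Real.rpow_nonneg hy.le _)
  calc K ^ (1 / 3 : ℝ) ≤ K ^ (1 : ℝ) := Real.rpow_le_rpow_of_exponent_le hK (by norm_num)
    _ = K := Real.rpow_one K

theorem side_two (h : HalfArm) : ∃ (C : ℝ) (l0 : ℕ), 0 < C ∧ ∀ (a l : ℕ) (y y' : ℤ), l0 ≤ l → 2 * l ≤ a → (5 * l : ℤ) ≤ 4 * y → 4 * y ≤ 7 * l →
    (5 * l : ℤ) ≤ 4 * y' → 4 * y' ≤ 7 * l →
    Pr (qan a l) (fun ω => VS a l ((a : ℤ), y) ω ∧ VS a l ((a : ℤ), y') ω) ≤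
      C * (((sd ((a : ℤ), y) ((a : ℤ), y')).toNat : ℝ) + 1) ^ (-(1 / 3) : ℝ) * (l : ℝ) ^ (-(1 / 3) : ℝ) := by
  obtain ⟨c0, C, _, hC, hp⟩ := h
  obtain ⟨CA, hCA, harm⟩ := arm_pr ⟨c0, C, by assumption, hC, hp⟩
  refine ⟨C * 144 + C ^ 2 * 800 * CA + C ^ 2 * 65536, 128, by positivity, ?_⟩
  intro a l y y' hl ha hy1 hy2 hy3 hy4
  obtain ⟨D, hD⟩ : ∃ D : ℕ, D = (sd ((a : ℤ), y) ((a : ℤ), y')).toNat := ⟨_, rfl⟩
  have hD1 : (D : ℤ) = |y' - y| := by
    have h1 : sd ((a : ℤ), y) ((a : ℤ), y') = |y' - y| := by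
      unfold sd
      simp only
      rw [sub_self, abs_zero, max_eq_right (abs_nonneg _)]
    rw [hD, h1, Int.toNat_of_nonneg (abs_nonneg _)]
  have hDc : (D : ℤ) = y' - y ∨ (D : ℤ) = y - y' := by
    rw [hD1]
    rcases abs_cases (y' - y) with h1 | h1
    · left
      exact h1.1
    · right
      rw [h1.1]
      ring
  have hD0 : (0 : ℤ) ≤ D := Int.natCast_nonneg D
  rw [← hD]
  obtain ⟨R, hR⟩ : ∃ R : ℕ, R = l / 8 := ⟨_, rfl⟩
  have hR8 : 8 * R ≤ l := by omega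
  have hRl : l ≤ 16 * R := by omega
  have hR1 : 1 ≤ R := by omega
  have hlR : (0 : ℝ) < l := by
    have : 0 < l := by omega
    exact_mod_cast this
  have hDR : (0 : ℝ) < (D : ℝ) + 1 := by positivity
  have hRR : (R : ℝ) ^ (-(1 / 3) : ℝ) ≤ 16 * (l : ℝ) ^ (-(1 / 3) : ℝ) :=
    YF_rp hlR (by norm_num) (by exact_mod_cast hRl)
  have hX0 : 0 ≤ ((D : ℝ) + 1) ^ (-(1 / 3) : ℝ) := Real.rpow_nonneg hDR.le _
  have hY0 : 0 ≤ (l : ℝ) ^ (-(1 / 3) : ℝ) := Real.rpow_nonneg hlR.le _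
  have hl1 : 1 ≤ l := by omega
  have hfin : ∀ x K : ℝ, K ≤ C * 144 + C ^ 2 * 800 * CA + C ^ 2 * 65536 →
      x ≤ K * ((D : ℝ) + 1) ^ (-(1 / 3) : ℝ) * (l : ℝ) ^ (-(1 / 3) : ℝ) →
      x ≤ (C * 144 + C ^ 2 * 800 * CA + C ^ 2 * 65536) * ((D : ℝ) + 1) ^ (-(1 / 3) : ℝ) *
        (l : ℝ) ^ (-(1 / 3) : ℝ) := by
    intro x K hK hx
    refine hx.trans ?_
    gcongr
  rcases Nat.lt_or_ge 8 D with hD8 | hD8
  · -- the distance is at least nine
    rcases Nat.lt_or_ge R (4 * D) with hRD | hRD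
    · -- close to the scale of the annulus
      obtain ⟨k, hk⟩ : ∃ k : ℕ, k = min (D / 3) R := ⟨_, rfl⟩
      have hk8 : 8 * k ≤ l := by omega
      have hk1 : 1 ≤ k := by omega
      have hkD : 2 * k < D := by omega
      have hkl : l ≤ 256 * k := by omega
      have hDl : D + 1 ≤ l := by omega
      have h1 : Pr (qan a l) (fun ω => VS a l ((a : ℤ), y) ω ∧ VS a l ((a : ℤ), y') ω) ≤
          Pr (qan a l) (fun ω => RA ((a : ℤ), y) k ω ∧ RA ((a : ℤ), y') k ω) :=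
        Pr_mono fun ω _ hω => ⟨YF_RA hy1 hk8 hω.1, YF_RA hy3 hk8 hω.2⟩
      have hdis : Disjoint (hb ((a : ℤ), y) k) (hb ((a : ℤ), y') k) := by
        rw [Finset.disjoint_left]
        intro e h2 h3
        have h4 := pexit_box h2
        have h5 := pexit_box h3
        simp only at h4 h5
        omega
      rw [Pr_indep (YF_hb hl1 hy1 hy2 hk8) (YF_hb hl1 hy3 hy4 hk8) hdis (dep_RA (Finset.Subset.refl _))
        (dep_RA (Finset.Subset.refl _)), Pr_RA (YF_hb hl1 hy1 hy2 hk8), Pr_RA (YF_hb hl1 hy3 hy4 hk8)] at h1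
      have h2 : piH k ≤ C * (256 * (l : ℝ) ^ (-(1 / 3) : ℝ)) := by
        refine ((hp k hk1).2).trans ?_
        refine mul_le_mul_of_nonneg_left ?_ hC.le
        exact YF_rp hlR (by norm_num) (by exact_mod_cast hkl)
      have h3 : piH k ≤ C * (256 * ((D : ℝ) + 1) ^ (-(1 / 3) : ℝ)) := by
        refine ((hp k hk1).2).trans ?_
        refine mul_le_mul_of_nonneg_left ?_ hC.le
        refine YF_rp hDR (by norm_num) ?_
        have h4 : D + 1 ≤ 256 * k := by omega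
        exact_mod_cast h4
      refine hfin _ (C ^ 2 * 65536) (by nlinarith [mul_pos (pow_pos hC 2) hCA]) (h1.trans ?_)
      calc piH k * piH k ≤ (C * (256 * ((D : ℝ) + 1) ^ (-(1 / 3) : ℝ))) * (C * (256 * (l : ℝ) ^ (-(1 / 3) : ℝ))) :=
            mul_le_mul h3 h2 (piH_nonneg k) (by positivity)
        _ = C ^ 2 * 65536 * ((D : ℝ) + 1) ^ (-(1 / 3) : ℝ) * (l : ℝ) ^ (-(1 / 3) : ℝ) := by ring
    · -- the three events
      obtain ⟨k, hk⟩ : ∃ k : ℕ, k = D / 3 := ⟨_, rfl⟩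
      have hk8 : 8 * k ≤ l := by omega
      have hk1 : 1 ≤ k := by omega
      have hkD : 2 * k < D := by omega
      have hkD5 : D + 1 ≤ 5 * k := by omega
      have h1 : Pr (qan a l) (fun ω => VS a l ((a : ℤ), y) ω ∧ VS a l ((a : ℤ), y') ω) ≤
          Pr (qan a l) (fun ω => (RA ((a : ℤ), y) k ω ∧ RA ((a : ℤ), y') k ω) ∧ YF_A ((a : ℤ), y) (2 * D) R ω) :=
        Pr_mono fun ω _ hω => ⟨⟨YF_RA hy1 hk8 hω.1, YF_RA hy3 hk8 hω.2⟩, YF_arm hy1 (by omega) hR8 hω.1⟩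
      have hdis : Disjoint (hb ((a : ℤ), y) k) (hb ((a : ℤ), y') k) := by
        rw [Finset.disjoint_left]
        intro e h2 h3
        have h4 := pexit_box h2
        have h5 := pexit_box h3
        simp only at h4 h5
        omega
      have hS : YF_S ((a : ℤ), y) (2 * D) R ⊆ qan a l :=
        (Finset.filter_subset _ _).trans (YF_hb hl1 hy1 hy2 hR8)
      have hdis2 : Disjoint (hb ((a : ℤ), y) k ∪ hb ((a : ℤ), y') k) (YF_S ((a : ℤ), y) (2 * D) R) := by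
        rw [Finset.disjoint_left]
        intro e h2 h3
        unfold YF_S at h3
        rw [mem_filter] at h3
        have h6 : sd ((a : ℤ), y) (ea e) ≤ 2 * D - 1 := by
          rw [sd_le]
          simp only
          rcases mem_union.1 h2 with h4 | h4
          · have h5 := pexit_box h4
            simp only at h5
            omega
          · have h5 := pexit_box h4
            simp only at h5
            omega
        have h7 := h3.2.1
        push_cast at h7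
        omega
      have hdep : Dep (hb ((a : ℤ), y) k ∪ hb ((a : ℤ), y') k)
          (fun ω => RA ((a : ℤ), y) k ω ∧ RA ((a : ℤ), y') k ω) := fun ω =>
        and_congr (dep_RA Finset.subset_union_left ω) (dep_RA Finset.subset_union_right ω)
      rw [Pr_indep (Finset.union_subset (YF_hb hl1 hy1 hy2 hk8) (YF_hb hl1 hy3 hy4 hk8)) hS hdis2 hdep (YF_dep _ _ _),
        Pr_indep (YF_hb hl1 hy1 hy2 hk8) (YF_hb hl1 hy3 hy4 hk8) hdis (dep_RA (Finset.Subset.refl _))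
        (dep_RA (Finset.Subset.refl _)), Pr_RA (YF_hb hl1 hy1 hy2 hk8), Pr_RA (YF_hb hl1 hy3 hy4 hk8)] at h1
      have h2 : piH k ≤ C * (5 * ((D : ℝ) + 1) ^ (-(1 / 3) : ℝ)) := by
        refine ((hp k hk1).2).trans ?_
        refine mul_le_mul_of_nonneg_left ?_ hC.le
        exact YF_rp hDR (by norm_num) (by exact_mod_cast hkD5)
      have h3 : Pr (qan a l) (YF_A ((a : ℤ), y) (2 * D) R) ≤
          CA * (2 * ((D : ℝ) + 1) ^ (1 / 3 : ℝ) * (16 * (l : ℝ) ^ (-(1 / 3) : ℝ))) := by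
        have h4 : Pr (qan a l) (YF_A ((a : ℤ), y) (2 * D) R) ≤ Pr (qan a l) (Arm 0 ((a : ℤ), y) (2 * D) R) := by
          refine Pr_mono fun ω _ hω => ?_
          obtain ⟨c, w, h5, h6, h7⟩ := hω
          exact ⟨c, w, h5, h6, h7.mono (Finset.filter_subset _ _) (Finset.Subset.refl _)⟩
        refine h4.trans ((harm 0 ((a : ℤ), y) (2 * D) R (qan a l) (by omega) (by omega)
          (YF_hb hl1 hy1 hy2 hR8)).trans ?_)
        refine mul_le_mul_of_nonneg_left ?_ hCA.le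
        have hR0 : (0 : ℝ) < R := by exact_mod_cast hR1
        rw [Real.div_rpow (Nat.cast_nonneg _) hR0.le, div_eq_mul_inv, ← Real.rpow_neg hR0.le]
        refine mul_le_mul ?_ hRR (Real.rpow_nonneg hR0.le _) (by positivity)
        calc (((2 * D : ℕ)) : ℝ) ^ (1 / 3 : ℝ) ≤ (2 * ((D : ℝ) + 1)) ^ (1 / 3 : ℝ) := by
              refine Real.rpow_le_rpow (Nat.cast_nonneg _) ?_ (by norm_num)
              push_cast
              linarith
          _ = 2 ^ (1 / 3 : ℝ) * ((D : ℝ) + 1) ^ (1 / 3 : ℝ) := Real.mul_rpow (by norm_num) hDR.le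
          _ ≤ 2 * ((D : ℝ) + 1) ^ (1 / 3 : ℝ) := by
              refine mul_le_mul_of_nonneg_right ?_ (Real.rpow_nonneg hDR.le _)
              calc (2 : ℝ) ^ (1 / 3 : ℝ) ≤ 2 ^ (1 : ℝ) :=
                    Real.rpow_le_rpow_of_exponent_le (by norm_num) (by norm_num)
                _ = 2 := Real.rpow_one 2
      have h4 : ((D : ℝ) + 1) ^ (-(1 / 3) : ℝ) * ((D : ℝ) + 1) ^ (1 / 3 : ℝ) = 1 := by
        rw [← Real.rpow_add hDR]
        norm_num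
      refine hfin _ (C ^ 2 * 800 * CA) (by nlinarith [pow_pos hC 2]) (h1.trans ?_)
      calc piH k * piH k * Pr (qan a l) (YF_A ((a : ℤ), y) (2 * D) R) ≤
            (C * (5 * ((D : ℝ) + 1) ^ (-(1 / 3) : ℝ))) * (C * (5 * ((D : ℝ) + 1) ^ (-(1 / 3) : ℝ))) *
              (CA * (2 * ((D : ℝ) + 1) ^ (1 / 3 : ℝ) * (16 * (l : ℝ) ^ (-(1 / 3) : ℝ)))) :=
            mul_le_mul (mul_le_mul h2 h2 (piH_nonneg k) (by positivity)) h3 (Pr_nonneg _ _) (by positivity)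
        _ = C ^ 2 * 800 * CA * ((D : ℝ) + 1) ^ (-(1 / 3) : ℝ) * (l : ℝ) ^ (-(1 / 3) : ℝ) *
              (((D : ℝ) + 1) ^ (-(1 / 3) : ℝ) * ((D : ℝ) + 1) ^ (1 / 3 : ℝ)) := by ring
        _ = C ^ 2 * 800 * CA * ((D : ℝ) + 1) ^ (-(1 / 3) : ℝ) * (l : ℝ) ^ (-(1 / 3) : ℝ) := by rw [h4, mul_one]
  · -- close points
    have h1 : Pr (qan a l) (fun ω => VS a l ((a : ℤ), y) ω ∧ VS a l ((a : ℤ), y') ω) ≤
        Pr (qan a l) (RA ((a : ℤ), y) R) := Pr_mono fun ω _ hω => YF_RA hy1 hR8 hω.1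
    rw [Pr_RA (YF_hb hl1 hy1 hy2 hR8)] at h1
    have h2 : (1 : ℝ) ≤ 9 * ((D : ℝ) + 1) ^ (-(1 / 3) : ℝ) := by
      have h3 := YF_rp (x := 1) (K := 9) hDR (by norm_num) (by
        have h4 : (D : ℝ) ≤ 8 := by exact_mod_cast hD8
        linarith)
      rwa [Real.one_rpow] at h3
    refine hfin _ (C * 144) (by nlinarith [mul_pos (pow_pos hC 2) hCA, pow_pos hC 2]) (h1.trans ?_)
    calc piH R ≤ C * (16 * (l : ℝ) ^ (-(1 / 3) : ℝ)) :=
          ((hp R hR1).2).trans (mul_le_mul_of_nonneg_left hRR hC.le)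
      _ = C * (16 * (l : ℝ) ^ (-(1 / 3) : ℝ)) * 1 := (mul_one _).symm
      _ ≤ C * (16 * (l : ℝ) ^ (-(1 / 3) : ℝ)) * (9 * ((D : ℝ) + 1) ^ (-(1 / 3) : ℝ)) :=
          mul_le_mul_of_nonneg_left h2 (by positivity)
      _ = C * 144 * ((D : ℝ) + 1) ^ (-(1 / 3) : ℝ) * (l : ℝ) ^ (-(1 / 3) : ℝ) := by ring

end DimLim
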