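import Pool.Agent.Lib.MP_216314_pr.IC.YC
import Pool.Agent.Lib.MP_216314_pr.IC.YE
import Pool.Agent.Lib.MP_216314_pr.IC.YF

/-!
# Leaf YG: well distributed sets on the right side (medium-)

As `hypL_of_loc` (I/DimG), with `fro_event` (IC/YC), `D = 1`, `σ = 1/3`, `κ = 1/8`, `Q` = the vertices `(a, y)` with `5 l ≤ 4 y ≤ 7 l` (`{(a : ℤ)} ×ˢ Icc _ _`; between `l / 8` and `l` elements for large `l`; at most two at a given distance), `VL = VS a l`. `Dep (qan a l) (WD ..)`: from `Dep (qan a l) (VS a l v)` (`dep_Conn`) as there. `Pr (box 0 a 0 b) = Pr (qan a l)` for this event (`Pr_dep`, `qan_sub`).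
`VS a l v ω` with `v ∈ Q` gives `WSd l a b ω v`: `WC_of_conn` as in `vis_of_VL` (I/IVc).
-/

set_option autoImplicit false

noncomputable section

namespace DimLim

open Finset FKI FKP

/-- the vertices `(a, y)` of the right side with `5 l ≤ 4 y ≤ 7 l` -/
private def YG_Q (a l : ℕ) : Finset V :=
  ({(a : ℤ)} : Finset ℤ) ×ˢ Finset.Icc ((5 * (l : ℤ) + 3) / 4) (7 * (l : ℤ) / 4)

private theorem YG_mem {a l : ℕ} {v : V} :
    v ∈ YG_Q a l ↔ v.1 = a ∧ (5 * l : ℤ) ≤ 4 * v.2 ∧ 4 * v.2 ≤ 7 * l := by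
  unfold YG_Q
  rw [Finset.mem_product, Finset.mem_singleton, Finset.mem_Icc]
  constructor
  · rintro ⟨h1, h2, h3⟩
    exact ⟨h1, by omega, by omega⟩
  · rintro ⟨h1, h2, h3⟩
    exact ⟨h1, by omega, by omega⟩

private theorem YG_card (a l : ℕ) : (YG_Q a l).card = (7 * (l : ℤ) / 4 + 1 - (5 * (l : ℤ) + 3) / 4).toNat := by
  unfold YG_Q
  rw [Finset.card_product, Finset.card_singleton, one_mul, Int.card_Icc]

private theorem YG_dep (a l : ℕ) (v : V) : Dep (qan a l) (VS a l v) := by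
  intro ω
  unfold VS
  constructor
  · rintro ⟨x, h1, h2, h3⟩
    exact ⟨x, h1, h2, (dep_Conn (Finset.Subset.refl (qan a l)) v (x, 0) ω).1 h3⟩
  · rintro ⟨x, h1, h2, h3⟩
    exact ⟨x, h1, h2, (dep_Conn (Finset.Subset.refl (qan a l)) v (x, 0) ω).2 h3⟩

theorem hypG_side (h : HalfArm) {α : ℝ} (hα0 : 0 ≤ α) (hα1 : α < 2 / 3) : HypG WSd α := by
  obtain ⟨c, l1, hc, h1⟩ := side_one h
  obtain ⟨C, l2, hC, h2⟩ := side_two h
  obtain ⟨c', M, hc', hM, hF⟩ := fro_event (D := 1) le_rfl (σ := 1 / 3) hα0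
    (by rw [Nat.cast_one]; linarith) (by rw [Nat.cast_one]; linarith) hc hC (κ := 1 / 8)
    (by norm_num)
  refine ⟨c', M, max (max l1 l2) 8, hc', hM, ?_⟩
  intro a b l hl hla hlb
  have hl1 : l1 ≤ l := ((le_max_left _ _).trans (le_max_left _ _)).trans hl
  have hl2 : l2 ≤ l := ((le_max_right _ _).trans (le_max_left _ _)).trans hl
  have hl8 : 8 ≤ l := (le_max_right _ _).trans hl
  have hQ1 : (1 / 8 : ℝ) * (l : ℝ) ^ 1 ≤ (YG_Q a l).card := by
    have h5 : l ≤ 8 * (YG_Q a l).card := by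
      rw [YG_card]
      omega
    have h6 : (l : ℝ) ≤ 8 * ((YG_Q a l).card : ℝ) := by exact_mod_cast h5
    rw [pow_one]
    linarith
  have hQ2 : (((YG_Q a l).card : ℕ) : ℝ) ≤ (l : ℝ) ^ 1 := by
    have h5 : (YG_Q a l).card ≤ l := by
      rw [YG_card]
      omega
    rw [pow_one]
    exact_mod_cast h5
  have hQ3 : ∀ u ∈ YG_Q a l, ∀ v ∈ YG_Q a l, sd u v < l := by
    intro u hu v hv
    rw [YG_mem] at hu hv
    have h5 : sd u v ≤ (l : ℤ) - 1 := by
      rw [sd_le]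
      constructor <;> constructor <;> omega
    omega
  have hQ4 : ∀ u ∈ YG_Q a l, ∀ r : ℕ,
      (((YG_Q a l).filter (fun v => (sd u v).toNat = r)).card : ℝ) ≤ 8 * ((r : ℝ) + 1) ^ (1 - 1) := by
    intro u hu r
    have h5 : (YG_Q a l).filter (fun v => (sd u v).toNat = r) ⊆
        {((a : ℤ), u.2 + r), ((a : ℤ), u.2 - r)} := by
      intro v hv
      rw [Finset.mem_filter] at hv
      obtain ⟨hv1, hv2⟩ := hv
      rw [YG_mem] at hu hv1
      have h6 : sd u v = |v.2 - u.2| := by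
        unfold sd
        rw [hu.1, hv1.1, sub_self, abs_zero]
        exact max_eq_right (abs_nonneg _)
      rw [h6] at hv2
      have h7 : v = (v.1, v.2) := rfl
      rw [Finset.mem_insert, Finset.mem_singleton, h7, hv1.1, Prod.mk.injEq, Prod.mk.injEq]
      rcases abs_cases (v.2 - u.2) with h8 | h8
      · left
        exact ⟨rfl, by omega⟩
      · right
        exact ⟨rfl, by omega⟩
    have h6 : ((YG_Q a l).filter (fun v => (sd u v).toNat = r)).card ≤ 2 :=
      (Finset.card_le_card h5).trans Finset.card_le_two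
    have h7 : (((YG_Q a l).filter (fun v => (sd u v).toNat = r)).card : ℝ) ≤ 2 := by
      exact_mod_cast h6
    rw [Nat.sub_self, pow_zero]
    linarith
  have hG := hF l (qan a l) (YG_Q a l) (VS a l) (by omega) hQ1 hQ2 hQ3 hQ4
    (fun p hp => by
      rw [YG_mem] at hp
      have h5 := h1 a l p.2 hl1 hla hp.2.1 hp.2.2
      have h6 : ((a : ℤ), p.2) = p := by
        rw [← hp.1]
      rw [h6] at h5
      exact h5)
    (fun p hp p' hp' => by
      rw [YG_mem] at hp hp'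
      have h5 := h2 a l p.2 p'.2 hl2 hla hp.2.1 hp.2.2 hp'.2.1 hp'.2.2
      have h6 : ((a : ℤ), p.2) = p := by
        rw [← hp.1]
      have h7 : ((a : ℤ), p'.2) = p' := by
        rw [← hp'.1]
      rw [h6, h7] at h5
      exact h5)
  have hdep : Dep (qan a l) (WD M α l (YG_Q a l) (VS a l)) := by
    intro ω
    unfold WD
    constructor
    · rintro ⟨S, hS1, hS2, hS3⟩
      exact ⟨S, hS1, fun p hp => (YG_dep a l p ω).1 (hS2 p hp), hS3⟩
    · rintro ⟨S, hS1, hS2, hS3⟩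
      exact ⟨S, hS1, fun p hp => (YG_dep a l p ω).2 (hS2 p hp), hS3⟩
  refine ⟨WD M α l (YG_Q a l) (VS a l), hdep, ?_, ?_⟩
  · rw [Pr_dep (qan_sub hla hlb) hdep]
    exact hG
  · intro ω hω hW
    obtain ⟨S, hS1, hS2, hS3, hS4⟩ := hW
    refine ⟨S, fun p hp => ?_, hS3, hS4⟩
    have hpQ := hS1 hp
    rw [YG_mem] at hpQ
    refine ⟨⟨by omega, by omega, by omega, by omega⟩, hpQ.1, ?_⟩
    obtain ⟨x, hx1, hx2, hx3⟩ := hS2 p hp
    exact WC_of_conn (x := x) (by omega) hx2 (hx3.mono (qan_sub hla hlb) (Finset.Subset.refl _))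

end DimLim
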