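import Pool.Agent.Lib.MP_216314_pr.IC.Y0

/-!
# Leaf YH: the times of the vertices; connection outside of a square; the plaquettes along the interface (medium, 3 theorems)

`icurve_time`: `T = steps a b ω`. If `T = 0` take `τ = 0` (`icurve_idx`-like: `pl 0 x s = x 0` by `pl_eq` with `i = 0`, `θ = 0`). Otherwise `τ k = projIcc 0 1 (k / T)`; for `k ≤ T` `pl T x (k / T) = x k` (`pl_eq` (IC/PL) with `i = k`, `θ = 0`; see `icurve` in IC/IF).
`far_conn`: from a vertex `u` with `ρ ≤ sd v u ≤ N` go straight away from `v` in the direction of a coordinate with `|u.j - v.j| = sd v u` up to the distance `N` (all the edges have both ends at distance `≥ ρ`), then along the boundary of the square of radius `N` to its corner `(v.1 + N, v.2 + N)` (`ρ ≤ N`; lines: `box_line_h`, `box_line_v`-like lemmas of I/IVb, or induction).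
`face_path`: induction on `t2`; `p = crn a b ω s`, `crn a b ω (s + 1) = next η p` (`crn_succ`), `η = ω ∪ wsd a b`. By `corner_cases`: if `edgeOf p ∈ η` then `fc (next η p) = fc p`; if not, the vertex stays, `fc p` and `fc (next η p)` are the two faces of `edgeOf p` (`next_SE_closed` etc., as in `T6_fc`, IC/TVa), and `edgeOf p` has the end `vtx p` (`vtx_mem`) at distance
`< ρ` of `v`, so `edgeOf p ∉ θ` by `hθ`; `FKY.dgr_adj` (Y/YDual; `fa_v`, `fb_v`, `fa_h`, `fb_h`).
-/

set_option autoImplicit false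

noncomputable section

namespace DimLim

open Finset FKI FKP FKN

theorem icurve_time {A B : ℝ} (hA : 0 ≤ A) (hB : 0 ≤ B) (δ : ℝ) (a b : ℕ) (ω : Finset Edge) :
    ∃ τ : ℕ → unitInterval, (∀ i j, i ≤ j → τ i ≤ τ j) ∧
      ∀ k ≤ steps a b ω, (icurve hA hB δ a b ω).fn (τ k) = emb hA hB δ (vx a b ω k) := by
  have key : ∀ τ : ℕ → unitInterval, (∀ k ≤ steps a b ω, ∀ x : ℕ → ℝ, pl (steps a b ω) x (τ k) = x k) →
      ∀ k ≤ steps a b ω, (icurve hA hB δ a b ω).fn (τ k) = emb hA hB δ (vx a b ω k) := by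
    intro τ h k hk
    show (Set.projIcc 0 A hA (pl (steps a b ω) (fun i => δ * (vx a b ω i).1) (τ k)),
        Set.projIcc 0 B hB (pl (steps a b ω) (fun i => δ * (vx a b ω i).2) (τ k))) = _
    rw [h k hk, h k hk]
    rfl
  rcases Nat.eq_zero_or_pos (steps a b ω) with h0 | h0
  · refine ⟨fun _ => 0, fun _ _ _ => le_rfl, key _ ?_⟩
    intro k hk x
    rw [h0] at hk ⊢
    have h1 : k = 0 := by omega
    subst h1
    simp [pl]
  · have hT : (0 : ℝ) < steps a b ω := by exact_mod_cast h0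
    refine ⟨fun k => Set.projIcc 0 1 zero_le_one ((k : ℝ) / steps a b ω), ?_, key _ ?_⟩
    · intro i j hij
      have h1 : (i : ℝ) ≤ j := by exact_mod_cast hij
      exact Set.monotone_projIcc _ (div_le_div_of_nonneg_right h1 hT.le)
    · intro k hk x
      have hk' : (k : ℝ) / steps a b ω ∈ Set.Icc (0 : ℝ) 1 :=
        ⟨by positivity, (div_le_one hT).2 (by exact_mod_cast hk)⟩
      have h2 : ((Set.projIcc 0 1 zero_le_one ((k : ℝ) / steps a b ω) : unitInterval) : ℝ) =
          (k : ℝ) / steps a b ω := by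
        rw [Set.projIcc_of_mem _ hk']
      rw [h2, pl_eq hk le_rfl zero_le_one (fun _ => rfl) (by rw [add_zero]; field_simp) x, zero_mul, add_zero]

private theorem YH_ge {v u : V} {m : ℤ} : m ≤ sd v u ↔
    m ≤ u.1 - v.1 ∨ m ≤ v.1 - u.1 ∨ m ≤ u.2 - v.2 ∨ m ≤ v.2 - u.2 := by
  unfold sd
  rw [le_max_iff, le_abs, le_abs]
  constructor
  · rintro ((h | h) | (h | h)) <;> omega
  · rintro (h | h | h | h)
    · exact Or.inl (Or.inl h)
    · exact Or.inl (Or.inr (by omega))
    · exact Or.inr (Or.inl h)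
    · exact Or.inr (Or.inr (by omega))

private theorem YH_h (v : V) (ρ N : ℤ) (x1 y : ℤ) (k : ℕ)
    (hP : ∀ x, x1 ≤ x → x ≤ x1 + k → ρ ≤ sd v (x, y) ∧ sd v (x, y) ≤ N) :
    (gr ((bxa v N).filter (fun e => ρ ≤ sd v (ea e) ∧ ρ ≤ sd v (eb e)))).Reachable (x1, y) (x1 + k, y) := by
  induction k with
  | zero =>
    simp only [Nat.cast_zero, add_zero]
    exact SimpleGraph.Reachable.refl _
  | succ k ih =>
    refine (ih (fun x h1 h2 => hP x h1 (by push_cast; omega))).trans ?_
    have h3 := hP (x1 + k) (by omega) (by push_cast; omega)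
    have h4 := hP (x1 + k + 1) (by omega) (by push_cast; omega)
    have he : ((x1 + k, y, false) : Edge) ∈ (bxa v N).filter (fun e => ρ ≤ sd v (ea e) ∧ ρ ≤ sd v (eb e)) := by
      rw [mem_filter]
      refine ⟨?_, h3.1, h4.1⟩
      have h5 := sd_le.1 h3.2
      have h6 := sd_le.1 h4.2
      unfold bxa
      rw [mem_box]
      left
      simp only at h5 h6 ⊢
      exact ⟨trivial, by omega, by omega, by omega, by omega⟩
    have h7 := (FKY.gr_adj he).reachable
    have h8 : eb ((x1 + k, y, false) : Edge) = (x1 + ((k + 1 : ℕ) : ℤ), y) := by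
      show ((x1 + k + 1, y) : V) = _
      rw [Prod.mk.injEq]
      exact ⟨by push_cast; ring, rfl⟩
    rw [h8] at h7
    exact h7

private theorem YH_v (v : V) (ρ N : ℤ) (x y1 : ℤ) (k : ℕ)
    (hP : ∀ y, y1 ≤ y → y ≤ y1 + k → ρ ≤ sd v (x, y) ∧ sd v (x, y) ≤ N) :
    (gr ((bxa v N).filter (fun e => ρ ≤ sd v (ea e) ∧ ρ ≤ sd v (eb e)))).Reachable (x, y1) (x, y1 + k) := by
  induction k with
  | zero =>
    simp only [Nat.cast_zero, add_zero]
    exact SimpleGraph.Reachable.refl _
  | succ k ih =>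
    refine (ih (fun y h1 h2 => hP y h1 (by push_cast; omega))).trans ?_
    have h3 := hP (y1 + k) (by omega) (by push_cast; omega)
    have h4 := hP (y1 + k + 1) (by omega) (by push_cast; omega)
    have he : ((x, y1 + k, true) : Edge) ∈ (bxa v N).filter (fun e => ρ ≤ sd v (ea e) ∧ ρ ≤ sd v (eb e)) := by
      rw [mem_filter]
      refine ⟨?_, h3.1, h4.1⟩
      have h5 := sd_le.1 h3.2
      have h6 := sd_le.1 h4.2
      unfold bxa
      rw [mem_box]
      right
      simp only at h5 h6 ⊢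
      exact ⟨trivial, by omega, by omega, by omega, by omega⟩
    have h7 := (FKY.gr_adj he).reachable
    have h8 : eb ((x, y1 + k, true) : Edge) = (x, y1 + ((k + 1 : ℕ) : ℤ)) := by
      show ((x, y1 + k + 1) : V) = _
      rw [Prod.mk.injEq]
      exact ⟨rfl, by push_cast; ring⟩
    rw [h8] at h7
    exact h7

private theorem YH_h2 (v : V) (ρ N : ℤ) {x1 x2 y : ℤ} (h : x1 ≤ x2)
    (hP : ∀ x, x1 ≤ x → x ≤ x2 → ρ ≤ sd v (x, y) ∧ sd v (x, y) ≤ N) :
    (gr ((bxa v N).filter (fun e => ρ ≤ sd v (ea e) ∧ ρ ≤ sd v (eb e)))).Reachable (x1, y) (x2, y) := by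
  obtain ⟨k, rfl⟩ := Int.le.dest h
  exact YH_h v ρ N x1 y k hP

private theorem YH_v2 (v : V) (ρ N : ℤ) {x y1 y2 : ℤ} (h : y1 ≤ y2)
    (hP : ∀ y, y1 ≤ y → y ≤ y2 → ρ ≤ sd v (x, y) ∧ sd v (x, y) ≤ N) :
    (gr ((bxa v N).filter (fun e => ρ ≤ sd v (ea e) ∧ ρ ≤ sd v (eb e)))).Reachable (x, y1) (x, y2) := by
  obtain ⟨k, rfl⟩ := Int.le.dest h
  exact YH_v v ρ N x y1 k hP

private theorem YH_corner (v : V) {ρ N : ℤ} (hN : ρ ≤ N) {u : V} (hu : ρ ≤ sd v u) (hu' : sd v u ≤ N) :
    (gr ((bxa v N).filter (fun e => ρ ≤ sd v (ea e) ∧ ρ ≤ sd v (eb e)))).Reachable u (v.1 + N, v.2 + N) := by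
  obtain ⟨x, y⟩ := u
  rw [YH_ge] at hu
  rw [sd_le] at hu'
  simp only at hu hu'
  rcases hu with h | h | h | h
  · refine (YH_h2 v ρ N (x2 := v.1 + N) (by omega) ?_).trans (YH_v2 v ρ N (by omega) ?_)
    · intro z h1 h2
      rw [YH_ge, sd_le]
      simp only
      omega
    · intro z h1 h2
      rw [YH_ge, sd_le]
      simp only
      omega
  · refine (YH_h2 v ρ N (x1 := v.1 - N) (x2 := x) (by omega) ?_).symm.trans
      ((YH_v2 v ρ N (y2 := v.2 + N) (by omega) ?_).trans (YH_h2 v ρ N (by omega) ?_))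
    · intro z h1 h2
      rw [YH_ge, sd_le]
      simp only
      omega
    · intro z h1 h2
      rw [YH_ge, sd_le]
      simp only
      omega
    · intro z h1 h2
      rw [YH_ge, sd_le]
      simp only
      omega
  · refine (YH_v2 v ρ N (y2 := v.2 + N) (by omega) ?_).trans (YH_h2 v ρ N (by omega) ?_)
    · intro z h1 h2
      rw [YH_ge, sd_le]
      simp only
      omega
    · intro z h1 h2
      rw [YH_ge, sd_le]
      simp only
      omega
  · refine (YH_v2 v ρ N (y1 := v.2 - N) (y2 := y) (by omega) ?_).symm.trans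
      ((YH_h2 v ρ N (x2 := v.1 + N) (by omega) ?_).trans (YH_v2 v ρ N (by omega) ?_))
    · intro z h1 h2
      rw [YH_ge, sd_le]
      simp only
      omega
    · intro z h1 h2
      rw [YH_ge, sd_le]
      simp only
      omega
    · intro z h1 h2
      rw [YH_ge, sd_le]
      simp only
      omega

/-- The vertices outside of a square are connected outside of it. -/
theorem far_conn (v : V) {ρ N : ℤ} (hN : ρ ≤ N) {u w : V} (hu : ρ ≤ sd v u) (hu' : sd v u ≤ N) (hw : ρ ≤ sd v w) (hw' : sd v w ≤ N) :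
    (gr ((bxa v N).filter (fun e => ρ ≤ sd v (ea e) ∧ ρ ≤ sd v (eb e)))).Reachable u w := by
  exact (YH_corner v hN hu hu').trans (YH_corner v hN hw hw').symm

private theorem YH_step (η : Finset Edge) (p : V) :
    (edgeOf p ∈ η ∧ fc (next η p) = fc p) ∨
    (edgeOf p ∉ η ∧ ((fc p = FKY.fa (edgeOf p) ∧ fc (next η p) = FKY.fb (edgeOf p)) ∨
      (fc p = FKY.fb (edgeOf p) ∧ fc (next η p) = FKY.fa (edgeOf p)))) := by
  rcases corner_cases p with ⟨x, y, rfl⟩ | ⟨x, y, rfl⟩ | ⟨x, y, rfl⟩ | ⟨x, y, rfl⟩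
  · rw [edgeOf_SE]
    by_cases h : (x, y, false) ∈ η
    · refine Or.inl ⟨h, ?_⟩
      rw [next_SE_open h]
      unfold fc
      ext <;> simp only <;> omega
    · refine Or.inr ⟨h, Or.inl ⟨?_, ?_⟩⟩
      · rw [FKY.fa_h]
        unfold fc
        ext <;> simp only <;> omega
      · rw [next_SE_closed h, FKY.fb_h]
        unfold fc
        ext <;> simp only <;> omega
  · rw [edgeOf_NE]
    by_cases h : (x, y, true) ∈ η
    · refine Or.inl ⟨h, ?_⟩
      rw [next_NE_open h]
      unfold fc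
      ext <;> simp only <;> omega
    · refine Or.inr ⟨h, Or.inr ⟨?_, ?_⟩⟩
      · rw [FKY.fb_v]
        unfold fc
        ext <;> simp only <;> omega
      · rw [next_NE_closed h, FKY.fa_v]
        unfold fc
        ext <;> simp only <;> omega
  · rw [edgeOf_NW]
    by_cases h : (x - 1, y, false) ∈ η
    · refine Or.inl ⟨h, ?_⟩
      rw [next_NW_open h]
      unfold fc
      ext <;> simp only <;> omega
    · refine Or.inr ⟨h, Or.inr ⟨?_, ?_⟩⟩
      · rw [FKY.fb_h]
        unfold fc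
        ext <;> simp only <;> omega
      · rw [next_NW_closed h, FKY.fa_h]
        unfold fc
        ext <;> simp only <;> omega
  · rw [edgeOf_SW]
    by_cases h : (x, y - 1, true) ∈ η
    · refine Or.inl ⟨h, ?_⟩
      rw [next_SW_open h]
      unfold fc
      ext <;> simp only <;> omega
    · refine Or.inr ⟨h, Or.inl ⟨?_, ?_⟩⟩
      · rw [FKY.fa_v]
        unfold fc
        ext <;> simp only <;> omega
      · rw [next_SW_closed h, FKY.fb_v]
        unfold fc
        ext <;> simp only <;> omega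

private theorem YH_vtx (p : V) : vtx p = ea (edgeOf p) ∨ vtx p = eb (edgeOf p) := by
  rcases corner_cases p with ⟨x, y, rfl⟩ | ⟨x, y, rfl⟩ | ⟨x, y, rfl⟩ | ⟨x, y, rfl⟩
  · left
    rw [edgeOf_SE]
    show ((2 * x + 1) / 2, 2 * y / 2) = (x, y)
    rw [Prod.mk.injEq]
    omega
  · left
    rw [edgeOf_NE]
    show ((2 * x + 1) / 2, (2 * y + 1) / 2) = (x, y)
    rw [Prod.mk.injEq]
    omega
  · right
    rw [edgeOf_NW]
    show (2 * x / 2, (2 * y + 1) / 2) = (x - 1 + 1, y)
    rw [Prod.mk.injEq]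
    omega
  · right
    rw [edgeOf_SW]
    show (2 * x / 2, 2 * y / 2) = (x, y - 1 + 1)
    rw [Prod.mk.injEq]
    omega

/-- The plaquettes along a piece of the interface near `v` are connected by dual edges crossing edges which are not in `θ`. -/
theorem face_path {a b : ℕ} {ω : Finset Edge} {v : V} {ρ : ℤ} {t1 t2 : ℕ} (h12 : t1 ≤ t2)
    (hs : ∀ s, t1 ≤ s → s ≤ t2 → sd v (vx a b ω s) < ρ) {θ : Finset Edge}
    (hθ : ∀ e ∈ θ, (sd v (ea e) < ρ ∨ sd v (eb e) < ρ) → e ∈ ω ∪ wsd a b) :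
    (FKY.dgr θ).Reachable (fc (crn a b ω t1)) (fc (crn a b ω t2)) := by
  induction t2, h12 using Nat.le_induction with
  | base => exact SimpleGraph.Reachable.refl _
  | succ n hn ih =>
    refine (ih (fun s h1 h2 => hs s h1 (by omega))).trans ?_
    rw [crn_succ]
    have h1 := hs n hn (by omega)
    rw [vx_eq] at h1
    rcases YH_step (ω ∪ wsd a b) (crn a b ω n) with ⟨-, h2⟩ | ⟨h2, h3⟩
    · rw [h2]
    · have h4 : edgeOf (crn a b ω n) ∉ θ := by
        intro h5
        refine h2 (hθ _ h5 ?_)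
        rcases YH_vtx (crn a b ω n) with h6 | h6
        · rw [h6] at h1
          exact Or.inl h1
        · rw [h6] at h1
          exact Or.inr h1
      have h5 := FKY.dgr_adj h4
      rcases h3 with ⟨h6, h7⟩ | ⟨h6, h7⟩
      · rw [h6, h7]
        exact h5.reachable
      · rw [h6, h7]
        exact h5.symm.reachable

end DimLim
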