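import Pool.Agent.Lib.MP_216314_pr.IC.YH

/-!
# Leaf YI: the local event gives a double visit (medium+)

Let `η = ω ∪ wsd a b`, `e = ev v`, `(x, y) = v`, `p`, `p'` from `VE`. TIMES. The two corners of `p` next to `e`: for `p = v` they are `(2 x + 1, 2 y + 1)` and `(2 x + 1, 2 y)`, for `p = (x + 1, y)` they are `(2 (x + 1), 2 y + 1)` and `(2 (x + 1), 2 y)`; their plaquettes (`fc`) are `v` and `(x, y - 1)`, `vtx = p`. `WC a b p ω` (`WC_of_conn`, as in `vis_of_VL`, I/IVc); `FD a b ω v` and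
`FD a b ω (x, y - 1)`: the dual edges of `dc (qan a l \ {e}) (ω ∪ wsq a l)` are in `dc (box 0 a 0 b) (ω ∪ wsd a b)` (as in `vis_of_VL`: `qan_sub`, `qan_wsd`), `g.1 = a`. `gam_iff` (I/Curve): `Gam` at both corners, so `crn a b ω t = q`, `crn a b ω t' = q'` with `t, t' ≤ steps a b ω` (`steps_hits`: the end is reached at the time `steps`, so a time after it is excluded by `Gam`),
`t ≠ t'` (`q ≠ q'`). Let `t1 < t2` be the two times; `sd v p ≤ 1`. EXCURSION. Suppose `64 sd v (vx a b ω s) < l` for all `t1 ≤ s ≤ t2`. Let `ρ = (l + 63) / 64` (integer division; `sd < ρ` for these `s`, `2 ≤ ρ`, `ρ ≤ l / 32` for `l ≥ 128`), `N` large, `far = (bxa v N).filter (both ends at distance ≥ ρ)`, `θ0 = (η \ {e}) ∪ far`, `θ = insert e θ0`. `e ∉ far` (its ends are at distance `≤ 1 < ρ`),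
so `e ∉ θ0`. An edge of `θ` with an end at distance `< ρ` is in `η` (`e ∈ η`). So `face_path` (IC/YH): `(FKY.dgr θ).Reachable` between the plaquettes of the two corners, i.e. between `fb e = v` and `fa e = (x, y - 1)` (`FKY.fa_h`, `FKY.fb_h`), in one of the two orders (`symm`). But `(gr θ0).Reachable p p'`: `p` is joined to `(x', 0)` in `ω \ {e}` (`Conn (qan a l \ {e}) ω`),
`sd v (x', 0) ≥ v.2 ≥ l ≥ ρ`; `p'` is joined to `w` with `32 sd v w ≥ l`, so `sd v w ≥ ρ`; `far_conn` joins `(x', 0)` and `w` (`N ≥` both distances). `{p, p'} = {ea e, eb e}`. This contradicts `FKY.edge_dual_not` (Y/YEdge). So some `s` has `l ≤ 64 sd v (vx s)`.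
-/

set_option autoImplicit false

noncomputable section

namespace DimLim

open Finset FKI FKP FKN

private theorem YI_FD {a b l : ℕ} (ha : 2 * l ≤ a) (hb : 2 * l ≤ b) {ω : Finset Edge} {e : Edge} {f g : V} (hg : g.1 = a)
    (h : (gr (FKN.dc (qan a l \ {e}) (ω ∪ wsq a l))).Reachable f g) : FD a b ω f := by
  refine ⟨g, Or.inl hg, h.mono (gr_mono ?_)⟩
  unfold FKN.dc
  refine map_subset_map.2 ?_
  intro e' he'
  rw [mem_sdiff, mem_union] at he' ⊢
  have h1 := (mem_sdiff.1 he'.1).1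
  refine ⟨qan_sub ha hb h1, ?_⟩
  rintro (h2 | h2)
  · exact he'.2 (Or.inl h2)
  · exact he'.2 (Or.inr (qan_wsd ha h1 h2))

private theorem YI_time {a b : ℕ} {ω : Finset Edge} (hω : ω ⊆ box 0 a 0 b) {q : V} (h : Gam a b ω q) :
    ∃ t ≤ steps a b ω, crn a b ω t = q := by
  obtain ⟨t, ht, hne⟩ := h
  refine ⟨t, ?_, ht⟩
  by_contra hc
  push Not at hc
  exact hne _ hc (steps_hits hω).1

private theorem YI_core {a b l : ℕ} (hl : 128 ≤ l) {ω : Finset Edge} {v : V} (hv2 : (l : ℤ) ≤ v.2)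
    (he : ev v ∈ ω) {p p' : V} (hp : (p = v ∧ p' = (v.1 + 1, v.2)) ∨ (p = (v.1 + 1, v.2) ∧ p' = v)) {x : ℤ} {w : V}
    (h1 : Conn (qan a l \ {ev v}) ω p (x, 0)) (hw : (l : ℤ) ≤ 32 * sd v w) (h2 : Conn (qan a l \ {ev v}) ω p' w)
    {t1 t2 : ℕ} (h12 : t1 ≤ t2) (hs : ∀ s, t1 ≤ s → s ≤ t2 → ¬ (l : ℤ) ≤ 64 * sd v (vx a b ω s))
    (hf : (fc (crn a b ω t1) = v ∧ fc (crn a b ω t2) = (v.1, v.2 - 1)) ∨
      (fc (crn a b ω t1) = (v.1, v.2 - 1) ∧ fc (crn a b ω t2) = v)) : False := by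
  classical
  obtain ⟨ρ, hρ⟩ : ∃ ρ : ℤ, ρ = (((l + 63) / 64 : ℕ) : ℤ) := ⟨_, rfl⟩
  have hρ2 : 2 ≤ ρ := by omega
  have hρl : ρ ≤ l := by omega
  have hx : (l : ℤ) ≤ sd v (x, 0) := by
    unfold sd
    rw [le_max_iff]
    right
    simp only [zero_sub, abs_neg]
    exact hv2.trans (le_abs_self _)
  obtain ⟨N, hN⟩ : ∃ N : ℤ, N = ρ + sd v (x, 0) + sd v w := ⟨_, rfl⟩
  have hn1 := sd_nonneg v (x, 0)
  have hn2 := sd_nonneg v w
  have hfar := far_conn v (ρ := ρ) (N := N) (u := (x, 0)) (w := w) (by omega) (by omega) (by omega) (by omega) (by omega)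
  obtain ⟨far, hfe⟩ : ∃ far, far = (bxa v N).filter (fun e => ρ ≤ sd v (ea e) ∧ ρ ≤ sd v (eb e)) := ⟨_, rfl⟩
  rw [← hfe] at hfar
  obtain ⟨θ, hθ⟩ : ∃ θ, θ = ((ω ∪ wsd a b) \ {ev v}) ∪ far := ⟨_, rfl⟩
  have hea : ea (ev v) = v := rfl
  have heb : eb (ev v) = (v.1 + 1, v.2) := rfl
  have hefar : ev v ∉ far := by
    rw [hfe, mem_filter, hea, sd_self]
    intro h
    omega
  have heθ : ev v ∉ θ := by
    rw [hθ, mem_union, mem_sdiff, mem_singleton]
    rintro (h | h)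
    · exact h.2 rfl
    · exact hefar h
  have hsub1 : ω ∩ (qan a l \ {ev v}) ⊆ θ := by
    intro e' he'
    rw [mem_inter, mem_sdiff] at he'
    rw [hθ]
    exact mem_union_left _ (mem_sdiff.2 ⟨mem_union_left _ he'.1, he'.2.2⟩)
  have hsub2 : far ⊆ θ := by
    rw [hθ]
    exact subset_union_right
  have hr : (gr θ).Reachable p p' :=
    ((SimpleGraph.Reachable.mono (gr_mono hsub1) h1).trans (hfar.mono (gr_mono hsub2))).trans
      (SimpleGraph.Reachable.mono (gr_mono hsub1) h2).symm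
  have hr2 : (gr θ).Reachable (ea (ev v)) (eb (ev v)) := by
    rw [hea, heb]
    rcases hp with ⟨rfl, rfl⟩ | ⟨rfl, rfl⟩
    · exact hr
    · exact hr.symm
  have hnot := FKY.edge_dual_not heθ hr2
  have hfp : (FKY.dgr (insert (ev v) θ)).Reachable (fc (crn a b ω t1)) (fc (crn a b ω t2)) := by
    refine face_path (v := v) (ρ := ρ) h12 (fun s hs1 hs2 => ?_) ?_
    · have h3 := hs s hs1 hs2
      omega
    · intro e' he' hd
      rw [mem_insert, hθ, mem_union, mem_sdiff] at he'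
      rcases he' with rfl | h3 | h3
      · exact mem_union_left _ he
      · exact h3.1
      · rw [hfe, mem_filter] at h3
        omega
  apply hnot
  have hfa : FKY.fa (ev v) = (v.1, v.2 - 1) := FKY.fa_h _ _
  have hfb : FKY.fb (ev v) = v := FKY.fb_h _ _
  rw [hfa, hfb]
  rcases hf with ⟨h3, h4⟩ | ⟨h3, h4⟩
  · rw [h3, h4] at hfp
    exact hfp.symm
  · rw [h3, h4] at hfp
    exact hfp

theorem dv_of_ve {a b l : ℕ} (hl : 128 ≤ l) (ha : 2 * l ≤ a) (hb : 2 * l ≤ b) {ω : Finset Edge} (hω : ω ⊆ box 0 a 0 b) {v : V}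
    (hv : v ∈ qs a l) (h : VE a l v ω) : DV l a b ω v := by
  classical
  obtain ⟨he, ⟨p, p', hp, ⟨x, hx1, hx2, hx3⟩, w, hw, hw2⟩, ⟨g, hg, hgr⟩, g', hg', hgr'⟩ := h
  rw [mem_qs] at hv
  obtain ⟨⟨hv1, hv2⟩, hv3, hv4⟩ := hv
  have hWC : WC a b p ω := WC_of_conn (x := x) (by omega) hx2
    (hx3.mono (sdiff_subset.trans (qan_sub ha hb)) (Finset.Subset.refl _))
  have hF1 : FD a b ω v := YI_FD ha hb hg hgr
  have hF2 : FD a b ω (v.1, v.2 - 1) := YI_FD ha hb hg' hgr'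
  -- the two corners
  obtain ⟨c, hc⟩ : ∃ c : ℤ, (c = 2 * v.1 + 1 ∧ p = v) ∨ (c = 2 * (v.1 + 1) ∧ p = (v.1 + 1, v.2)) := by
    rcases hp with ⟨h, -⟩ | ⟨h, -⟩
    · exact ⟨_, Or.inl ⟨rfl, h⟩⟩
    · exact ⟨_, Or.inr ⟨rfl, h⟩⟩
  have hc2 : c / 2 = p.1 ∧ (c - 1) / 2 = v.1 ∧ p.2 = v.2 ∧ 1 ≤ c ∧ c ≤ 2 * a + 1 := by
    rcases hc with ⟨h, h'⟩ | ⟨h, h'⟩
    · rw [h, h']
      refine ⟨by omega, by omega, rfl, by omega, by omega⟩
    · rw [h, h']
      refine ⟨by simp only; omega, by omega, rfl, by omega, by omega⟩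
  obtain ⟨hc3, hc4, hc5, hc6, hc7⟩ := hc2
  have hv1' : vtx (c, 2 * v.2 + 1) = p := by
    unfold vtx
    simp only
    ext
    · simp only
      omega
    · simp only
      omega
  have hv2' : vtx (c, 2 * v.2) = p := by
    unfold vtx
    simp only
    ext
    · simp only
      omega
    · simp only
      omega
  have hf1' : fc (c, 2 * v.2 + 1) = v := by
    unfold fc
    simp only
    ext
    · simp only
      omega
    · simp only
      omega
  have hf2' : fc (c, 2 * v.2) = (v.1, v.2 - 1) := by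
    unfold fc
    simp only
    ext
    · simp only
      omega
    · simp only
      omega
  have hG1 : Gam a b ω (c, 2 * v.2 + 1) :=
    (gam_iff hω hc6 (by simp only; omega) hc7 (by simp only; omega)).2 ⟨by rw [hv1']; exact hWC, by rw [hf1']; exact hF1⟩
  have hG2 : Gam a b ω (c, 2 * v.2) :=
    (gam_iff hω hc6 (by simp only; omega) hc7 (by simp only; omega)).2 ⟨by rw [hv2']; exact hWC, by rw [hf2']; exact hF2⟩
  obtain ⟨t, ht, hct⟩ := YI_time hω hG1
  obtain ⟨t', ht', hct'⟩ := YI_time hω hG2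
  have hsd : sd v p ≤ 1 := by
    rw [sd_le]
    rcases hc with ⟨-, h'⟩ | ⟨-, h'⟩
    · rw [h']
      omega
    · rw [h']
      simp only
      omega
  have hvt : vx a b ω t = p := by rw [vx_eq, hct, hv1']
  have hvt' : vx a b ω t' = p := by rw [vx_eq, hct', hv2']
  have hl2 : (l : ℤ) ≤ v.2 := by omega
  by_contra hcon
  rcases le_total t t' with h12 | h12
  · refine YI_core (a := a) (b := b) hl hl2 he hp hx3 hw hw2 h12 (fun s hs1 hs2 h3 => hcon ?_) (Or.inl ⟨by rw [hct, hf1'], by rw [hct', hf2']⟩)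
    exact ⟨t, s, t', hs1, hs2, ht', by rw [hvt]; exact hsd, by rw [hvt']; exact hsd, h3⟩
  · refine YI_core (a := a) (b := b) hl hl2 he hp hx3 hw hw2 h12 (fun s hs1 hs2 h3 => hcon ?_) (Or.inr ⟨by rw [hct', hf2'], by rw [hct, hf1']⟩)
    exact ⟨t', s, t, hs1, hs2, ht, by rw [hvt']; exact hsd, by rw [hvt]; exact hsd, h3⟩

end DimLim
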