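import Pool.Agent.Lib.MP_216314_pr.IC.Y0
import Pool.Agent.Lib.MP_216314_pr.IC.WB
import Pool.Agent.Lib.MP_216314_pr.EV.DMul

/-!
# Leaf YJ: the local event of a double point gives four arms in all annuli (medium+)

Let `e = ev v`, `F = qan a l \ {e}`; `bu v R ⊆ qan a l` (`bu_qan`, I/IVc), `FKN.anz v r R ⊆ F` (`mem_anz`, N/CA; `e` is in the ball of radius `1 ≤ r`). Work first around `v` and translate by `-v` at the end (`tw (-v) ω = ω.map (shE (-v).1 (-v).2)`, `anz v r R` is mapped to `an r R`, `conn_map`, `cp_sh`; for the dual configuration `dc_sh`, I/IVa), or translate everything first.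
CROSSINGS. `p` and `p'` (ends of `e`, at distance `≤ 1 ≤ r` of `v`) are joined in `F` to `(x, 0)` (`v.2 ≥ l`, so at distance `≥ R`) and to `w` (`32 sd v w ≥ l ≥ 32 R`). `FKN.cross_ann` (N/CA; `sd v u = nrm (u - v)`) or `EV.exitB` (used in `EV.Cl_split`, EV/DMul) gives `u 0`, `u 1` with `nrm (u i - v) = r`, joined in `F` to `p`, `p'` and in `anz v r R` to points at distance `R`
(`exitB` gives both; `cross_ann` loses the connection to `p`, so use `exitB` after the translation or copy its proof: `last_leave`, `last_exit`, `first_hit`). DIFFERENT. If `u 0`, `u 1` were joined in `anz v r R ⊆ F` then `p`, `p'` would be joined in `θ0 = ω ∩ F`. But `e ∉ θ0` and the plaquettes `v = fb e`, `(v.1, v.2 - 1) = fa e` are joined in `FKY.dgr (insert e θ0)`: the two dual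
paths of `VE` cross edges of `F` which are not in `ω`, and lead to `(a, y1)`, `(a, y2)`; `(a, y)` and `(a, y + 1)` are joined in `dgr` because the edge `(a, y + 1, false)` is not in `qan a l` (`mem_box`: `x < a`) and is not `e`. `FKY.edge_dual_not` (Y/YEdge). DUAL CROSSING. The dual path from `v` (translated: the plaquette `(0, 0)`, `lvf = 1 ≤ 2 r + 1`) to `g` with `g.1 = a` (`lvf (g - v) ≥ 2 R + 1` as `a - v.1 ≥ R`):
`FKN.dual_exit` (N/DTopA) cuts it at the level `2 R + 1` inside `bx R`, `EV.dual_in` (EV/DMul) for the reversed path at the level `2 r + 1` outside of `bx r`; both as in the proof of `EV.Cl_split`. `dc F (ω ∪ wsq a l) ⊆ dc F ω`.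
-/

set_option autoImplicit false

noncomputable section

namespace DimLim

open Finset FKI FKP

private theorem YJ_col {a : ℕ} {S : Finset Edge} (h : ∀ y : ℤ, ((a : ℤ), y + 1, false) ∉ S) (y y' : ℤ) :
    (FKY.dgr S).Reachable ((a : ℤ), y) ((a : ℤ), y') := by
  have step : ∀ y : ℤ, (FKY.dgr S).Reachable ((a : ℤ), y) ((a : ℤ), y + 1) := by
    intro y
    have h2 := FKY.dgr_adj (h y)
    rw [FKY.fa_h, FKY.fb_h, add_sub_cancel_right] at h2
    exact h2.reachable
  have many : ∀ (y : ℤ) (k : ℕ), (FKY.dgr S).Reachable ((a : ℤ), y) ((a : ℤ), y + k) := by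
    intro y k
    induction k with
    | zero => simp
    | succ k ih =>
      refine ih.trans ?_
      have h3 := step (y + k)
      have e1 : y + (k : ℤ) + 1 = y + ((k + 1 : ℕ) : ℤ) := by push_cast; ring
      rwa [e1] at h3
  rcases le_total y y' with h1 | h1
  · obtain ⟨k, hk⟩ := Int.eq_ofNat_of_zero_le (sub_nonneg.2 h1)
    have e1 : y' = y + k := by omega
    rw [e1]
    exact many y k
  · obtain ⟨k, hk⟩ := Int.eq_ofNat_of_zero_le (sub_nonneg.2 h1)
    have e1 : y = y' + k := by omega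
    rw [e1]
    exact (many y' k).symm

/-- the two ends of `ev v` are not connected without `ev v` -/
private theorem YJ_not {a l : ℕ} {v : V} (hva : v.1 < a) {ω : Finset Edge}
    (h1 : ∃ g : V, g.1 = a ∧ (gr (FKN.dc (qan a l \ {ev v}) (ω ∪ wsq a l))).Reachable v g)
    (h2 : ∃ g : V, g.1 = a ∧ (gr (FKN.dc (qan a l \ {ev v}) (ω ∪ wsq a l))).Reachable (v.1, v.2 - 1) g) :
    ¬ Conn (qan a l \ {ev v}) ω v (v.1 + 1, v.2) := by
  classical
  intro hc
  obtain ⟨g1, hg1, hr1⟩ := h1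
  obtain ⟨g2, hg2, hr2⟩ := h2
  have he : ev v ∉ ω ∩ (qan a l \ {ev v}) := by
    intro h
    exact (mem_sdiff.1 (mem_inter.1 h).2).2 (mem_singleton_self _)
  have hdc : ∀ e ∈ qan a l \ {ev v}, e ∉ ω ∪ wsq a l → e ∉ insert (ev v) (ω ∩ (qan a l \ {ev v})) := by
    intro e h3 h4 h5
    rw [mem_insert] at h5
    rcases h5 with h5 | h5
    · exact (mem_sdiff.1 h3).2 (mem_singleton.2 h5)
    · exact h4 (mem_union_left _ (mem_inter.1 h5).1)
  have e1 : ea (ev v) = v := rfl
  have e2 : eb (ev v) = (v.1 + 1, v.2) := by simp [ev, eb]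
  have e3 : FKY.fa (ev v) = (v.1, v.2 - 1) := FKY.fa_h v.1 v.2
  have e4 : FKY.fb (ev v) = v := FKY.fb_h v.1 v.2
  have hc2 : (gr (ω ∩ (qan a l \ {ev v}))).Reachable (ea (ev v)) (eb (ev v)) := by
    rw [e1, e2]
    exact hc
  refine FKY.edge_dual_not he hc2 ?_
  rw [e3, e4]
  have r1 := FKN.dc_dgr hdc hr1
  have r2 := FKN.dc_dgr hdc hr2
  have hcol := YJ_col (a := a) (S := insert (ev v) (ω ∩ (qan a l \ {ev v}))) (by
    intro y h5
    rw [mem_insert] at h5
    rcases h5 with h5 | h5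
    · unfold ev at h5
      have h6 : (a : ℤ) = v.1 := congrArg Prod.fst h5
      omega
    · have h6 := (mem_sdiff.1 (mem_sdiff.1 (mem_inter.1 h5).2).1).1
      rw [mem_box] at h6
      simp only [true_and, Bool.false_eq_true, false_and, or_false] at h6
      omega) g2.2 g1.2
  have e5 : ((a : ℤ), g2.2) = g2 := Prod.ext hg2.symm rfl
  have e6 : ((a : ℤ), g1.2) = g1 := Prod.ext hg1.symm rfl
  rw [e5, e6] at hcol
  exact (r2.trans hcol).trans r1.symm

private theorem YJ_sub {a l r R : ℕ} (hl : 128 ≤ l) (hr : 1 ≤ r) (hR : 32 * R ≤ l) {v : V} (hv : v ∈ qs a l) :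
    FKN.an r R ⊆ (qan a l \ {ev v}).map (shE (-v).1 (-v).2).toEmbedding := by
  intro e he
  have h1 : shE v.1 v.2 e ∈ FKN.anz v r R := mem_map_of_mem _ he
  have h2 := FKN.mem_anz.1 h1
  have h3 : shE v.1 v.2 e ∈ bu v R := mem_bu.2 h2.1
  have h4 : shE v.1 v.2 e ∈ qan a l := bu_qan (by omega) (by omega) hv h3
  have h5 : shE v.1 v.2 e ≠ ev v := by
    intro h6
    rw [h6] at h2
    refine h2.2 ⟨?_, ?_⟩
    · show max |v.1 - v.1| |v.2 - v.2| ≤ (r : ℤ)
      simp
    · have e2 : eb (ev v) = (v.1 + 1, v.2) := by simp [ev, eb]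
      rw [e2]
      show max |v.1 + 1 - v.1| |v.2 - v.2| ≤ (r : ℤ)
      simp only [add_sub_cancel_left, sub_self, abs_one, abs_zero]
      have : (1 : ℤ) ≤ r := by exact_mod_cast hr
      exact max_le this (by omega)
  refine mem_map.2 ⟨shE v.1 v.2 e, mem_sdiff.2 ⟨h4, fun h6 => h5 (mem_singleton.1 h6)⟩, ?_⟩
  obtain ⟨x, y, t⟩ := e
  show (x + v.1 + -v.1, y + v.2 + -v.2, t) = (x, y, t)
  rw [add_neg_cancel_right, add_neg_cancel_right]

private theorem YJ_mono {F F' ω : Finset Edge} (h : F ⊆ F') {u v : V} (hc : Conn F ω u v) : Conn F' ω u v :=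
  hc.mono h (Finset.Subset.refl _)

/-- a crossing of the annulus by the cluster of a point near `v` -/
private theorem YJ_cross {F ω : Finset Edge} {r R : ℕ} {v p w : V} (hrR : r < R) (hp : sd v p ≤ r) (hw : (R : ℤ) ≤ sd v w)
    (h : Conn F ω p w) : ∃ u z : V, FKN.nrm u = r ∧ FKN.nrm z = R ∧ Conn (FKN.an r R) (tw (-v) ω) u z ∧
      Conn (F.map (shE (-v).1 (-v).2).toEmbedding) (tw (-v) ω) (shV (-v).1 (-v).2 p) u := by
  have h1 := (conn_map (cp_sh (-v).1 (-v).2) F ω p w).2 h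
  exact FKN.exitB hrR.le Finset.inter_subset_right h1 hp hw

theorem f4_of_ve {a l r R : ℕ} (hl : 128 ≤ l) (ha : 2 * l ≤ a) (hr : 1 ≤ r) (hrR : r < R) (hR : 32 * R ≤ l) {v : V} (hv : v ∈ qs a l)
    {ω : Finset Edge} (h : VE a l v ω) : F4 v r R ω := by
  classical
  have hv' := hv
  rw [mem_qs] at hv'
  have hrZ : (1 : ℤ) ≤ r := by exact_mod_cast hr
  have hrR' : (r : ℤ) < R := by exact_mod_cast hrR
  have hlR : 32 * (R : ℤ) ≤ l := by exact_mod_cast hR
  have hva : v.1 + R ≤ a := by omega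
  have hva' : v.1 < a := by omega
  have hv2 : (R : ℤ) ≤ v.2 := by omega
  obtain ⟨-, ⟨p, p', hpp, ⟨x, -, -, hx⟩, w, hw, hw2⟩, hd1, hd2⟩ := h
  have hnot := YJ_not hva' hd1 hd2
  have hn1 : sd v v ≤ r := by
    unfold sd
    simp
  have hn2 : sd v (v.1 + 1, v.2) ≤ r := by
    unfold sd
    simp only [add_sub_cancel_left, sub_self, abs_one, abs_zero]
    exact max_le hrZ (by omega)
  have hnp : sd v p ≤ r ∧ sd v p' ≤ r := by
    rcases hpp with ⟨rfl, rfl⟩ | ⟨rfl, rfl⟩
    · exact ⟨hn1, hn2⟩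
    · exact ⟨hn2, hn1⟩
  have hnc : ¬ Conn (qan a l \ {ev v}) ω p p' := by
    rcases hpp with ⟨rfl, rfl⟩ | ⟨rfl, rfl⟩
    · exact hnot
    · exact fun h => hnot h.symm
  have hwx : (R : ℤ) ≤ sd v (x, 0) := by
    unfold sd
    rw [le_max_iff]
    right
    simp only [zero_sub, abs_neg]
    exact hv2.trans (le_abs_self _)
  obtain ⟨u0, z0, a1, a2, a3, a4⟩ := YJ_cross hrR hnp.1 hwx hx
  obtain ⟨u1, z1, b1, b2, b3, b4⟩ := YJ_cross hrR hnp.2 (by omega) hw2
  have hsub := YJ_sub hl hr hR hv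
  have hno : ¬ Conn (FKN.an r R) (tw (-v) ω) u0 u1 := by
    intro h
    refine hnc ((conn_map (cp_sh (-v).1 (-v).2) (qan a l \ {ev v}) ω p p').1 ?_)
    exact (a4.trans (YJ_mono hsub h)).trans b4.symm
  refine ⟨⟨![u0, u1], ?_, ?_⟩, ?_⟩
  · intro i
    fin_cases i
    · exact ⟨a1, z0, a2, a3⟩
    · exact ⟨b1, z1, b2, b3⟩
  · intro i j hij
    fin_cases i <;> fin_cases j
    · exact absurd rfl hij
    · exact hno
    · exact fun h => hno h.symm
    · exact absurd rfl hij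
  · obtain ⟨g, hg, hr1⟩ := hd1
    have hr2 : (gr (FKN.dc (qan a l \ {ev v}) ω)).Reachable v g := by
      refine hr1.mono (gr_mono ?_)
      unfold FKN.dc
      refine map_subset_map.2 ?_
      intro e he
      rw [mem_sdiff] at he ⊢
      exact ⟨he.1, fun h => he.2 (mem_union_left _ h)⟩
    have hr3 := (reach_map (cp_sh (-v).1 (-v).2) (FKN.dc (qan a l \ {ev v}) ω) v g).2 hr2
    rw [dc_sh] at hr3
    have e0 : shV (-v).1 (-v).2 v = (0, 0) := by
      show ((v.1 + -v.1, v.2 + -v.2) : V) = (0, 0)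
      rw [add_neg_cancel, add_neg_cancel]
    rw [e0] at hr3
    have hl0 : FKN.lvf ((0, 0) : V) = 1 := by
      unfold FKN.lvf
      simp
    have hlg : 2 * (R : ℤ) + 1 ≤ FKN.lvf (shV (-v).1 (-v).2 g) := by
      unfold FKN.lvf
      rw [le_max_iff]
      left
      refine le_trans ?_ (le_abs_self _)
      show 2 * (R : ℤ) + 1 ≤ 2 * (g.1 + -v.1) + 1
      rw [hg]
      omega
    obtain ⟨z, hz1, hz2⟩ := FKN.dual_exit (F' := (qan a l \ {ev v}).map (shE (-v).1 (-v).2).toEmbedding ∩ FKN.bx R)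
      (r := R) (Finset.Subset.refl _) hr3 (by rw [hl0]; omega) hlg
    obtain ⟨y, hy1, hy2⟩ := EV.dual_in (F' := FKN.an r R) (r := r) (by
        intro e he he'
        exact mem_sdiff.2 ⟨(mem_inter.1 he).2, he'⟩) hz2.symm (by rw [hz1]; omega) (by rw [hl0]; omega)
    exact ⟨y, z, hy1, hz1, hy2.symm⟩

end DimLim
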