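import Pool.Agent.Lib.MP_216314_pr.IC.Y0
import Pool.Agent.Lib.MP_216314_pr.IC.WB
import Pool.Agent.Lib.MP_216314_pr.EV.DMul
import Pool.Agent.Lib.MP_216314_pr.N.CA

/-!
# Leaf YK: the probability of four arms around a vertex (medium-)

`F4 v r R ω = EV.Cl 2 r R (tw (-v) ω)`, `tw z ω = ω.map (shE z.1 z.2)`, `FKN.anz v r R = (an r R).map (shE v.1 v.2)` (N/CA). `dep_F4`: `EV.Cl_inter` (EV/DMul) and `tw (-v) (ω ∩ anz v r R) = tw (-v) ω ∩ an r R` (`Finset.map_inter`, `tw (-v) (anz v r R) = an r R`). `f4_pr`: `Pr_dep`, then `Pr_map` (P/PSymA) for `σ = shE v.1 v.2`: `Pr (anz v r R) (F4 v r R) = Pr (an r R) (fun ω => EV.Cl 2 r R (tw (-v) (ω.map σ)))`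
`= Pr (an r R) (EV.Cl 2 r R)` (the two translations cancel), `= EV.pil 2 r R` (`FKN.pr_half`, N/NBase), then `HP2`.
-/

set_option autoImplicit false

noncomputable section

namespace DimLim

open Finset FKI FKP

private theorem YK_tw (v : V) (ω : Finset Edge) : tw (-v) (tw v ω) = ω := by
  have h : ∀ e : Edge, shE (-v).1 (-v).2 (shE v.1 v.2 e) = e := by
    intro e
    refine Prod.ext ?_ (Prod.ext ?_ rfl)
    · show e.1 + v.1 + -v.1 = e.1
      ring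
    · show e.2.1 + v.2 + -v.2 = e.2.1
      ring
  unfold tw
  ext e
  rw [Finset.mem_map]
  constructor
  · rintro ⟨e', he', rfl⟩
    obtain ⟨e'', he'', rfl⟩ := Finset.mem_map.1 he'
    show shE (-v).1 (-v).2 (shE v.1 v.2 e'') ∈ ω
    rw [h]
    exact he''
  · intro he
    exact ⟨shE v.1 v.2 e, Finset.mem_map_of_mem _ he, h e⟩

private theorem YK_an (v : V) (r R : ℕ) : tw (-v) (FKN.anz v r R) = FKN.an r R :=
  YK_tw v (FKN.an r R)

theorem dep_F4 (v : V) (r R : ℕ) : Dep (FKN.anz v r R) (F4 v r R) := by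
  intro ω
  have h : tw (-v) (ω ∩ FKN.anz v r R) = tw (-v) ω ∩ FKN.an r R := by
    rw [← YK_an v r R]
    exact Finset.map_inter _ _
  show EV.Cl 2 r R (tw (-v) ω) ↔ EV.Cl 2 r R (tw (-v) (ω ∩ FKN.anz v r R))
  rw [h]
  exact EV.Cl_inter _

theorem f4_pr (hP : HP2) : ∃ (r0 : ℕ) (C : ℝ), 0 < C ∧ ∀ (v : V) (r R : ℕ) (E : Finset Edge), r0 ≤ r → 2 * r ≤ R → FKN.anz v r R ⊆ E →
    Pr E (F4 v r R) ≤ C * ((r : ℝ) / R) ^ (5 / 4 : ℝ) := by
  obtain ⟨r0, C, hC, h⟩ := hP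
  refine ⟨r0, C, hC, fun v r R E h1 h2 hE => ?_⟩
  rw [Pr_dep hE (dep_F4 v r R)]
  have h3 : (fun ω : Finset Edge => F4 v r R (ω.map (shE v.1 v.2).toEmbedding)) = EV.Cl 2 r R := by
    funext ω
    show EV.Cl 2 r R (tw (-v) (tw v ω)) = EV.Cl 2 r R ω
    rw [YK_tw]
  have h4 : Pr (FKN.anz v r R) (F4 v r R) = EV.pil 2 r R := by
    unfold FKN.anz
    rw [Pr_map, h3, FKN.pr_half]
    rfl
  rw [h4]
  exact h r R h1 h2

end DimLim
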