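import Pool.Agent.Lib.MP_216314_pr.IC.YJ
import Pool.Agent.Lib.MP_216314_pr.IC.YK

/-!
# Leaf YL: two point estimate for the double points (medium; a copy of `two_point`, I/IVc)

`f4_pr hP`: `r0`, `C`; replace `r0` by `max 1 r0`. `R0 = l / 32`, `d = sd v v'`. `f4_of_ve` (IC/YJ): `VE a l v ω` implies `F4 v r R ω` for `1 ≤ r < R ≤ R0`. `FKN.anz v r R ⊆ qan a l` for `R ≤ R0` (`bu_qan`, `mem_anz`). CASE `d ≤ 8 r0`: `Pr ≤ Pr (F4 v r0 R0) ≤ C (r0 / R0) ^ (5/4) ≤ C' l ^ (-5/4)`. CASE `8 r0 < d`, `8 d ≤ R0`: `k = d / 3 ≥ 2 r0`; `F4 v r0 k`, `F4 v' r0 k`, `F4 v (2 d) R0` depend (`dep_F4`) on the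
disjoint sets `anz v r0 k`, `anz v' r0 k` (`2 k < d`), `anz v (2 d) R0` (its edges are not in the ball of radius `2 d` around `v`, which contains the balls of radius `k` around `v` and `v'`); `Pr_indep` twice: `≤ C ^ 3 (r0 / k) ^ (5/4) (r0 / k) ^ (5/4) (2 d / R0) ^ (5/4) ≤ C' d ^ (-5/4) l ^ (-5/4)`. CASE `R0 < 8 d`: `k = min (d / 3) R0`, `k ≥ R0 / 48` (large `l`), `2 r0 ≤ k`:
`F4 v r0 k`, `F4 v' r0 k` only: `≤ C ^ 2 (r0 / k) ^ (5/2) ≤ C' l ^ (-5/2) ≤ C'' (d + 1) ^ (-5/4) l ^ (-5/4)` (`d + 1 ≤ l`, both are in `qs a l`).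
-/

set_option autoImplicit false

noncomputable section

namespace DimLim

open Finset FKI FKP

private theorem YL_anz {v : V} {r R : ℕ} : FKN.anz v r R ⊆ bu v R := by
  intro e he
  rw [FKN.mem_anz] at he
  rw [mem_bu]
  exact he.1

private theorem YL_anz_out {v : V} {r R : ℕ} : Disjoint (bu v r) (FKN.anz v r R) := by
  rw [disjoint_left]
  intro e h1 h2
  rw [FKN.mem_anz] at h2
  rw [mem_bu] at h1
  exact h2.2 h1

private theorem YL_fin {K x d l : ℝ} (hd : 0 < d) (hl : 0 < l) (hx : 0 ≤ x) (hK : 0 ≤ K) (h : x * (d * l) ≤ K) :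
    x ^ (5 / 4 : ℝ) ≤ K ^ (5 / 4 : ℝ) * (d ^ (-(5 / 4) : ℝ) * l ^ (-(5 / 4) : ℝ)) := by
  have h1 : x ≤ K / (d * l) := by
    rw [le_div_iff₀ (mul_pos hd hl)]
    exact h
  refine (Real.rpow_le_rpow hx h1 (by norm_num)).trans (le_of_eq ?_)
  rw [Real.div_rpow hK (by positivity), Real.mul_rpow hd.le hl.le, Real.rpow_neg hd.le, Real.rpow_neg hl.le]
  field_simp

/-- two disjoint annuli -/
private theorem YL_pair {C : ℝ} (hC : 0 < C) {r0 : ℕ} (h4 : ∀ (v : V) (r R : ℕ) (E : Finset Edge), r0 ≤ r → 2 * r ≤ R →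
    FKN.anz v r R ⊆ E → Pr E (F4 v r R) ≤ C * ((r : ℝ) / R) ^ (5 / 4 : ℝ)) {E : Finset Edge} {v v' : V} {r k : ℕ}
    (hr : r0 ≤ r) (hk : 2 * r ≤ k) (hd : (2 * k : ℤ) < sd v v') (b1 : bu v k ⊆ E) (b2 : bu v' k ⊆ E) :
    Pr E (fun ω => F4 v r k ω ∧ F4 v' r k ω) ≤ C ^ 2 * (((r : ℝ) / k) ^ 2) ^ (5 / 4 : ℝ) := by
  have hdis : Disjoint (FKN.anz v r k) (FKN.anz v' r k) :=
    Finset.disjoint_of_subset_left YL_anz (Finset.disjoint_of_subset_right YL_anz (bu_disj hd))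
  rw [Pr_indep (YL_anz.trans b1) (YL_anz.trans b2) hdis (dep_F4 v r k) (dep_F4 v' r k)]
  have e1 := h4 v r k E hr hk (YL_anz.trans b1)
  have e2 := h4 v' r k E hr hk (YL_anz.trans b2)
  have hp : 0 ≤ ((r : ℝ) / k) ^ (5 / 4 : ℝ) := by positivity
  have e3 : (((r : ℝ) / k) ^ 2) ^ (5 / 4 : ℝ) = ((r : ℝ) / k) ^ (5 / 4 : ℝ) * ((r : ℝ) / k) ^ (5 / 4 : ℝ) := by
    rw [sq, Real.mul_rpow (by positivity) (by positivity)]
  calc Pr E (F4 v r k) * Pr E (F4 v' r k)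
      ≤ (C * ((r : ℝ) / k) ^ (5 / 4 : ℝ)) * (C * ((r : ℝ) / k) ^ (5 / 4 : ℝ)) :=
        mul_le_mul e1 e2 (Pr_nonneg _ _) (by positivity)
    _ = C ^ 2 * (((r : ℝ) / k) ^ 2) ^ (5 / 4 : ℝ) := by
        rw [e3]
        ring

/-- three annuli -/
private theorem YL_triple {C : ℝ} (hC : 0 < C) {r0 : ℕ} (h4 : ∀ (v : V) (r R : ℕ) (E : Finset Edge), r0 ≤ r → 2 * r ≤ R →
    FKN.anz v r R ⊆ E → Pr E (F4 v r R) ≤ C * ((r : ℝ) / R) ^ (5 / 4 : ℝ)) {E : Finset Edge} {v v' : V} {r k d R : ℕ}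
    (hr : r0 ≤ r) (hk : 2 * r ≤ k) (hkd : 2 * k < d) (hd : sd v v' = d) (hdR : 2 * (2 * d) ≤ R) (b1 : bu v k ⊆ E)
    (b2 : bu v' k ⊆ E) (b3 : bu v R ⊆ E) :
    Pr E (fun ω => (F4 v r k ω ∧ F4 v' r k ω) ∧ F4 v (2 * d) R ω) ≤
      C ^ 3 * (((r : ℝ) / k) ^ 2 * (((2 * d : ℕ) : ℝ) / R)) ^ (5 / 4 : ℝ) := by
  have hsub : bu v k ∪ bu v' k ⊆ bu v (2 * d) := by
    refine union_subset (bu_sub ?_) (bu_sub ?_)
    · rw [sd_self]
      push_cast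
      omega
    · rw [hd]
      push_cast
      omega
  have hsub2 : FKN.anz v r k ∪ FKN.anz v' r k ⊆ bu v k ∪ bu v' k :=
    union_subset_union YL_anz YL_anz
  have hdis : Disjoint (FKN.anz v r k ∪ FKN.anz v' r k) (FKN.anz v (2 * d) R) :=
    Finset.disjoint_of_subset_left (hsub2.trans hsub) YL_anz_out
  have hdep : Dep (FKN.anz v r k ∪ FKN.anz v' r k) (fun ω => F4 v r k ω ∧ F4 v' r k ω) := by
    intro ω
    exact and_congr (dep_up subset_union_left (dep_F4 v r k) ω) (dep_up subset_union_right (dep_F4 v' r k) ω)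
  rw [Pr_indep (hsub2.trans (union_subset b1 b2)) (YL_anz.trans b3) hdis hdep (dep_F4 v (2 * d) R)]
  have e1 := YL_pair hC h4 hr hk (v := v) (v' := v') (E := E) (by rw [hd]; exact_mod_cast hkd) b1 b2
  have e2 := h4 v (2 * d) R E (by omega) hdR (YL_anz.trans b3)
  have e3 : (((r : ℝ) / k) ^ 2 * (((2 * d : ℕ) : ℝ) / R)) ^ (5 / 4 : ℝ) =
      (((r : ℝ) / k) ^ 2) ^ (5 / 4 : ℝ) * (((2 * d : ℕ) : ℝ) / R) ^ (5 / 4 : ℝ) :=
    Real.mul_rpow (by positivity) (by positivity)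
  calc Pr E (fun ω => F4 v r k ω ∧ F4 v' r k ω) * Pr E (F4 v (2 * d) R)
      ≤ (C ^ 2 * (((r : ℝ) / k) ^ 2) ^ (5 / 4 : ℝ)) * (C * (((2 * d : ℕ) : ℝ) / R) ^ (5 / 4 : ℝ)) :=
        mul_le_mul e1 e2 (Pr_nonneg _ _) (by positivity)
    _ = C ^ 3 * (((r : ℝ) / k) ^ 2 * (((2 * d : ℕ) : ℝ) / R)) ^ (5 / 4 : ℝ) := by
        rw [e3]
        ring

theorem edge_two (hP : HP2) : ∃ (C : ℝ) (l0 : ℕ), 0 < C ∧ ∀ (a l : ℕ) (v v' : V), l0 ≤ l → 2 * l ≤ a → v ∈ qs a l → v' ∈ qs a l →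
    Pr (qan a l) (fun ω => VE a l v ω ∧ VE a l v' ω) ≤
      C * (((sd v v').toNat : ℝ) + 1) ^ (-(5 / 4) : ℝ) * (l : ℝ) ^ (-(5 / 4) : ℝ) := by
  obtain ⟨r0, C, hC, h4⟩ := f4_pr hP
  obtain ⟨r, hr⟩ : ∃ r : ℕ, r = max 1 r0 := ⟨_, rfl⟩
  have hr1 : 1 ≤ r := by
    rw [hr]
    exact le_max_left _ _
  have hr0 : r0 ≤ r := by
    rw [hr]
    exact le_max_right _ _
  have hrR : (1 : ℝ) ≤ r := by exact_mod_cast hr1
  obtain ⟨K, hK⟩ : ∃ K : ℝ, K = 9437184 * (r : ℝ) ^ 2 := ⟨_, rfl⟩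
  have hK0 : 0 < K := by rw [hK]; positivity
  have hKp : 0 < K ^ (5 / 4 : ℝ) := Real.rpow_pos_of_pos hK0 _
  refine ⟨(C + C ^ 2 + C ^ 3) * K ^ (5 / 4 : ℝ), 6400 * r + 128, by positivity, ?_⟩
  intro a l v v' hl ha hv hv'
  obtain ⟨d, hd⟩ : ∃ d : ℕ, sd v v' = d := ⟨(sd v v').toNat, (Int.toNat_of_nonneg (sd_nonneg _ _)).symm⟩
  rw [hd, Int.toNat_natCast]
  have hl128 : 128 ≤ l := by omega
  have hl0 : (0 : ℝ) < l := by
    have : 0 < l := by omega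
    exact_mod_cast this
  have hd1 : (0 : ℝ) < (d : ℝ) + 1 := by positivity
  have hdl : d ≤ l / 4 := by
    rw [mem_qs] at hv hv'
    have h1 : sd v v' ≤ 2 * (l / 8 : ℕ) := by
      rw [sd_le]
      constructor <;> constructor <;> omega
    omega
  obtain ⟨R0, hR0⟩ : ∃ R0 : ℕ, R0 = l / 32 := ⟨_, rfl⟩
  have hR1 : 200 * r ≤ R0 := by omega
  have hR2 : l ≤ 64 * R0 := by omega
  have hR3 : 32 * R0 ≤ l := by omega
  have hR0p : (0 : ℝ) < R0 := by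
    have : 0 < R0 := by omega
    exact_mod_cast this
  have hlR : (l : ℝ) ≤ 64 * R0 := by exact_mod_cast hR2
  have hbu : ∀ (w : V) (k : ℕ), w ∈ qs a l → k ≤ R0 → bu w k ⊆ qan a l := fun w k hw hk =>
    bu_qan (by omega) (by omega) hw
  have hX : 0 < ((d : ℝ) + 1) ^ (-(5 / 4) : ℝ) * (l : ℝ) ^ (-(5 / 4) : ℝ) :=
    mul_pos (Real.rpow_pos_of_pos hd1 _) (Real.rpow_pos_of_pos hl0 _)
  have hfinal : ∀ (D x : ℝ), 0 < D → D ≤ C + C ^ 2 + C ^ 3 → 0 ≤ x → x * (((d : ℝ) + 1) * l) ≤ K →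
      D * x ^ (5 / 4 : ℝ) ≤ (C + C ^ 2 + C ^ 3) * K ^ (5 / 4 : ℝ) * ((d : ℝ) + 1) ^ (-(5 / 4) : ℝ) *
        (l : ℝ) ^ (-(5 / 4) : ℝ) := by
    intro D x hD hD1 hx hxK
    have h1 := YL_fin hd1 hl0 hx hK0.le hxK
    have h2 : 0 ≤ K ^ (5 / 4 : ℝ) * (((d : ℝ) + 1) ^ (-(5 / 4) : ℝ) * (l : ℝ) ^ (-(5 / 4) : ℝ)) := by positivity
    calc D * x ^ (5 / 4 : ℝ)
        ≤ D * (K ^ (5 / 4 : ℝ) * (((d : ℝ) + 1) ^ (-(5 / 4) : ℝ) * (l : ℝ) ^ (-(5 / 4) : ℝ))) :=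
          mul_le_mul_of_nonneg_left h1 hD.le
      _ ≤ (C + C ^ 2 + C ^ 3) * (K ^ (5 / 4 : ℝ) * (((d : ℝ) + 1) ^ (-(5 / 4) : ℝ) * (l : ℝ) ^ (-(5 / 4) : ℝ))) :=
          mul_le_mul_of_nonneg_right hD1 h2
      _ = _ := by ring
  have hC2 : 0 < C ^ 2 := by positivity
  have hC3 : 0 < C ^ 3 := by positivity
  have hrn : (0 : ℝ) < (r : ℝ) ^ 2 := by positivity
  rcases le_or_gt d (8 * r) with hc | hc
  · -- the points are close
    have h1 : Pr (qan a l) (fun ω => VE a l v ω ∧ VE a l v' ω) ≤ Pr (qan a l) (F4 v r R0) :=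
      Pr_mono fun ω _ h => f4_of_ve hl128 ha hr1 (by omega) hR3 hv h.1
    refine (h1.trans (h4 v r R0 _ hr0 (by omega) (YL_anz.trans (hbu v R0 hv le_rfl)))).trans ?_
    refine hfinal C _ hC (by linarith) (by positivity) ?_
    have h2 : (d : ℝ) ≤ 8 * r := by exact_mod_cast hc
    have h3 : (r : ℝ) / R0 * (((d : ℝ) + 1) * l) ≤ r * (((d : ℝ) + 1) * 64) := by
      rw [div_mul_eq_mul_div, div_le_iff₀ hR0p]
      have h4 : (r : ℝ) * (((d : ℝ) + 1) * l) ≤ r * (((d : ℝ) + 1) * (64 * R0)) := by gcongr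
      linarith
    refine h3.trans ?_
    rw [hK]
    have h5 : (r : ℝ) * (((d : ℝ) + 1) * 64) ≤ r * ((9 * r) * 64) := by
      gcongr
      linarith
    refine h5.trans ?_
    nlinarith
  · rcases le_or_gt (8 * d) R0 with hc2 | hc2
    · -- the third annulus
      obtain ⟨k, hk⟩ : ∃ k : ℕ, k = d / 3 := ⟨_, rfl⟩
      have hk1 : 2 * r ≤ k := by omega
      have hk2 : 2 * k < d := by omega
      have hk3 : d ≤ 6 * k := by omega
      have hkR : k ≤ R0 := by omega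
      have hkp : (0 : ℝ) < k := by
        have : 0 < k := by omega
        exact_mod_cast this
      have h1 : Pr (qan a l) (fun ω => VE a l v ω ∧ VE a l v' ω) ≤
          Pr (qan a l) (fun ω => (F4 v r k ω ∧ F4 v' r k ω) ∧ F4 v (2 * d) R0 ω) :=
        Pr_mono fun ω _ h => ⟨⟨f4_of_ve hl128 ha hr1 (by omega) (by omega) hv h.1,
          f4_of_ve hl128 ha hr1 (by omega) (by omega) hv' h.2⟩,
          f4_of_ve hl128 ha (by omega) (by omega) hR3 hv h.1⟩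
      refine (h1.trans (YL_triple hC h4 hr0 hk1 hk2 hd (by omega) (hbu v k hv hkR) (hbu v' k hv' hkR)
        (hbu v R0 hv le_rfl))).trans ?_
      refine hfinal _ _ hC3 (by linarith) (by positivity) ?_
      obtain ⟨x1, hx1⟩ : ∃ x1 : ℝ, x1 = (r : ℝ) / k := ⟨_, rfl⟩
      obtain ⟨x2, hx2⟩ : ∃ x2 : ℝ, x2 = ((2 * d : ℕ) : ℝ) / R0 := ⟨_, rfl⟩
      have hx10 : 0 ≤ x1 := by rw [hx1]; positivity
      have hx20 : 0 ≤ x2 := by rw [hx2]; positivity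
      have e1 : x1 * d ≤ 6 * r := by
        rw [hx1, div_mul_eq_mul_div, div_le_iff₀ hkp]
        have h5 : (d : ℝ) ≤ 6 * k := by exact_mod_cast hk3
        have h6 : (r : ℝ) * d ≤ r * (6 * k) := by gcongr
        linarith
      have e2 : x2 * l ≤ 128 * d := by
        rw [hx2, div_mul_eq_mul_div, div_le_iff₀ hR0p]
        push_cast
        have h6 : 2 * (d : ℝ) * l ≤ 2 * d * (64 * R0) := by gcongr
        linarith
      have hdp : (1 : ℝ) ≤ d := by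
        have : 1 ≤ d := by omega
        exact_mod_cast this
      rw [← hx1, ← hx2]
      have e3 : x1 ^ 2 * x2 * (((d : ℝ) + 1) * l) = x1 ^ 2 * (((d : ℝ) + 1) * (x2 * l)) := by ring
      have e4 : x1 ^ 2 * (((d : ℝ) + 1) * (x2 * l)) ≤ x1 ^ 2 * ((2 * d) * (128 * d)) := by
        gcongr
        linarith
      have e5 : x1 ^ 2 * ((2 * (d : ℝ)) * (128 * d)) = 256 * (x1 * d) ^ 2 := by ring
      have e6 : (x1 * d) ^ 2 ≤ (6 * r) ^ 2 := by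
        gcongr
      rw [e3]
      refine e4.trans ?_
      rw [e5, hK]
      nlinarith
    · -- the points are far apart
      obtain ⟨k, hk⟩ : ∃ k : ℕ, k = min (d / 3) R0 := ⟨_, rfl⟩
      have hk1 : 2 * r ≤ k := by omega
      have hk2 : 2 * k < d := by omega
      have hk3 : l ≤ 3072 * k := by omega
      have hkR : k ≤ R0 := by omega
      have hkp : (0 : ℝ) < k := by
        have : 0 < k := by omega
        exact_mod_cast this
      have h1 : Pr (qan a l) (fun ω => VE a l v ω ∧ VE a l v' ω) ≤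
          Pr (qan a l) (fun ω => F4 v r k ω ∧ F4 v' r k ω) :=
        Pr_mono fun ω _ h => ⟨f4_of_ve hl128 ha hr1 (by omega) (by omega) hv h.1,
          f4_of_ve hl128 ha hr1 (by omega) (by omega) hv' h.2⟩
      refine (h1.trans (YL_pair hC h4 hr0 hk1 (by rw [hd]; exact_mod_cast hk2) (hbu v k hv hkR)
        (hbu v' k hv' hkR))).trans ?_
      refine hfinal _ _ hC2 (by linarith) (by positivity) ?_
      obtain ⟨x1, hx1⟩ : ∃ x1 : ℝ, x1 = (r : ℝ) / k := ⟨_, rfl⟩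
      have hx10 : 0 ≤ x1 := by rw [hx1]; positivity
      have e1 : x1 * l ≤ 3072 * r := by
        rw [hx1, div_mul_eq_mul_div, div_le_iff₀ hkp]
        have h5 : (l : ℝ) ≤ 3072 * k := by exact_mod_cast hk3
        have h6 : (r : ℝ) * l ≤ r * (3072 * k) := by gcongr
        linarith
      have hdl' : (d : ℝ) + 1 ≤ l := by
        have : d + 1 ≤ l := by omega
        exact_mod_cast this
      rw [← hx1]
      have e4 : x1 ^ 2 * (((d : ℝ) + 1) * l) ≤ x1 ^ 2 * (l * l) := by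
        gcongr
      have e5 : x1 ^ 2 * ((l : ℝ) * l) = (x1 * l) ^ 2 := by ring
      have e6 : (x1 * l) ^ 2 ≤ (3072 * r) ^ 2 := by
        gcongr
      refine e4.trans ?_
      rw [e5, hK]
      refine e6.trans (le_of_eq ?_)
      ring

end DimLim
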