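import Pool.Agent.Lib.MP_216314_pr.IC.YM0

/-!
# Leaf YM: the extension of the canonical four-arm state (medium+, a copy of I/Low1 for `l = 2`)

Read I/Low1 (all of it). `cO_two`: `thO 2 0 = 1`, `thO 2 1 = 5`, so `cO 2 n 0 = (n, 0)`, `cO 2 n 1 = (-n, 0)`; `thD 2 0 = 3`, `thD 2 1 = 7`: `cD 2 n 0 = (0, n)`, `cD 2 n 1 = (0, -n)` (`ptR`, `gw 1 = 1`, `gw (-1) = 0`, `gw 3 = 0`, `gw 1 = 1`, `gw 5 = -1`, `gw 7 = 0` ...; `gw θ` is `8`-periodic; compute as in `gw_vals`). `rr 2 (800 r) = 4 r`, `800 r - 5 (4 r) = 780 r`, `10 (4 r) = 40 r`, so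
`CanO 2 {e0} SeP SeD (800 r) = StE (Kp2 r) (Km2 r) SeP (ringT (cO 2 (800 r)) (4 r)) SeD (ringT (cD 2 (800 r)) (4 r))` and `wO (1/2) (800 r)` is its probability in `bx (2 (800 r))` (`pr_StE`, `CanO_region` as in `corr`). `key := ext_rings` with `Fp = Kp2 r`, `Fm = Km2 r`, `Lp = Ch (lw r) 10600 r`, `Lm = Ch (lu r) 10600 r ∪ Ch (lb r) 10600 r`, `M = 2 * 10601`,
`A = StG SeP (ringT (cO 2 (800 r)) (4 r))`, `A' = FarO r`, `D = StG SeD (ringT (cD 2 (800 r)) (4 r))`, `D' = FarF r`. Disjointness: `RN (Ch (lw r) ..)` has `x ∈ [-803 r, -797 r]`, `y ≤ 3 r`; `Km2 r` has `|x| ≤ 780 r + 1` (core) or is near `(0, ± 800 r)` (`|x| ≤ 40 r + 1`); the dual corridors have `x ≥ -3 r - 1`, `||y| - 800 r| ≤ 3 r + 1`; `Kp2 r` has `|y| ≤ 780 r`.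
Links: `FarO`: `s` the sources of the arms; `i = 0`: the end `v 0` of the arm is joined to a circuit around `(800 r, 0)`: by `RP` to a vertex at distance `≤ 12 r` of `(800 r, 0)` (`RP_near`, or one of the four crossings), so `nrm ≥ 788 r ≥ 700 r`; `i = 1`: `Ch_link` for `lw` (`j1 = 5`) to a vertex at distance `≤ 3 r` of `(-800 r, -42400 r)`. `FarF`: `Ch_link` for `lu` (`i = 0`) and `lb` (`i = 1`), `j1 = 5`.
`c0 = cr ^ (8 * M)`, `cr` from `rb_half`. `e0_far`: `e0 = (0, 0, false)` is not in the regions (`1 ≤ r`).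
-/

set_option autoImplicit false

noncomputable section

namespace FKN

open Finset FKI FKP

private theorem YM_gw : gw 3 = 0 ∧ gw (3 - 2) = 1 ∧ gw 7 = 0 ∧ gw (7 - 2) = -1 := by
  obtain ⟨g1, -, g3, g4⟩ := gw_vals
  have f1 : Int.fract ((3 / 4 : ℝ)) = 3 / 4 := by
    rw [Int.fract_eq_iff]
    refine ⟨by norm_num, by norm_num, 0, by norm_num⟩
  refine ⟨?_, ?_, ?_, ?_⟩
  · have e : (5 : ℝ) - 2 = 3 := by norm_num
    rw [e] at g4
    exact g4
  · have e : (3 : ℝ) - 2 = 1 := by norm_num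
    rw [e]
    exact g1
  · unfold gw
    rw [show ((7 : ℝ) - 1) / 8 = 3 / 4 by norm_num, f1]
    norm_num
  · have e : (7 : ℝ) - 2 = 5 := by norm_num
    rw [e]
    exact g3

private theorem YM_cO0 (n : ℕ) : cO 2 n 0 = ((n : ℤ), 0) := by
  obtain ⟨h1, h2, -, -⟩ := gw_vals
  have e : thO 2 0 = 1 := by
    unfold thO
    norm_num
  unfold cO ptR
  rw [e, h1, h2]
  simp

private theorem YM_cO1 (n : ℕ) : cO 2 n 1 = (-(n : ℤ), 0) := by
  obtain ⟨-, -, h1, h2⟩ := gw_vals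
  have e : thO 2 1 = 5 := by
    unfold thO
    norm_num
  unfold cO ptR
  rw [e, h1, h2]
  simp
  rw [← Int.cast_natCast, ← Int.cast_neg, round_intCast]

private theorem YM_cD0 (n : ℕ) : cD 2 n 0 = (0, (n : ℤ)) := by
  obtain ⟨h1, h2, -, -⟩ := YM_gw
  have e : thD 2 0 = 3 := by
    unfold thD
    norm_num
  unfold cD ptR
  rw [e, h1, h2]
  simp

private theorem YM_cD1 (n : ℕ) : cD 2 n 1 = (0, -(n : ℤ)) := by
  obtain ⟨-, -, h1, h2⟩ := YM_gw
  have e : thD 2 1 = 7 := by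
    unfold thD
    norm_num
  unfold cD ptR
  rw [e, h1, h2]
  simp
  rw [← Int.cast_natCast, ← Int.cast_neg, round_intCast]

private theorem YM_bxs {a : Fin 2 → V} {w : ℤ} {e : Edge} (h : e ∈ bxs a w) : e ∈ bxa (a 0) w ∨ e ∈ bxa (a 1) w := by
  unfold bxs at h
  rw [mem_biUnion] at h
  obtain ⟨i, -, h⟩ := h
  fin_cases i
  · exact Or.inl h
  · exact Or.inr h

private theorem YM_bxs_ud {a : Fin 2 → V} {w : ℤ} {e : Edge} (h : e ∈ ud (bxs a w)) : e ∈ ud (bxa (a 0) w) ∨ e ∈ ud (bxa (a 1) w) := by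
  rcases YM_bxs (mem_ud.1 h) with h | h
  · exact Or.inl (mem_ud.2 h)
  · exact Or.inr (mem_ud.2 h)

private theorem YM_core {r : ℕ} {e : Edge} (he : e ∈ bx (780 * r) \ {e0}) : e ≠ e0 ∧
    (-(780 * (r : ℤ)) ≤ e.1 ∧ e.1 ≤ 780 * r) ∧ (-(780 * (r : ℤ)) ≤ e.2.1 ∧ e.2.1 ≤ 780 * r) := by
  obtain ⟨h1, h2⟩ := mem_sdiff.1 he
  have h3 := bx_near' h1
  push_cast at h3
  exact ⟨fun h => h2 (mem_singleton.2 h), h3⟩

private theorem YM_Kp2 {r : ℕ} (hr : 1 ≤ r) {e : Edge} (he : e ∈ Kp2 r) : e ≠ e0 ∧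
    (-(840 * (r : ℤ)) ≤ e.1 ∧ e.1 ≤ 840 * r) ∧ (-(780 * (r : ℤ)) ≤ e.2.1 ∧ e.2.1 ≤ 780 * r) := by
  rcases mem_union.1 he with h | h
  · obtain ⟨h1, h2, h3⟩ := YM_core h
    exact ⟨h1, by omega, h3⟩
  · rcases YM_bxs h with h | h
    · have h1 := nrm_le'.1 (bxa_near h)
      rw [YM_cO0] at h1
      simp only [Prod.fst_sub, Prod.snd_sub] at h1
      push_cast at h1
      refine ⟨?_, by omega, by omega⟩
      rintro rfl
      simp only [e0] at h1
      omega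
    · have h1 := nrm_le'.1 (bxa_near h)
      rw [YM_cO1] at h1
      simp only [Prod.fst_sub, Prod.snd_sub] at h1
      push_cast at h1
      refine ⟨?_, by omega, by omega⟩
      rintro rfl
      simp only [e0] at h1
      omega

private theorem YM_Km2 {r : ℕ} (hr : 1 ≤ r) {e : Edge} (he : e ∈ Km2 r) : e ≠ e0 ∧
    (-(780 * (r : ℤ)) - 1 ≤ e.1 ∧ e.1 ≤ 780 * r + 1) ∧ (-(840 * (r : ℤ)) - 1 ≤ e.2.1 ∧ e.2.1 ≤ 840 * r + 1) := by
  rcases mem_union.1 he with h | h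
  · obtain ⟨h1, h2, h3⟩ := YM_core h
    exact ⟨h1, by omega, by omega⟩
  · rcases YM_bxs_ud h with h | h
    · have h1 := nrm_le'.1 (ud_bxa_near h)
      rw [YM_cD0] at h1
      simp only [Prod.fst_sub, Prod.snd_sub] at h1
      push_cast at h1
      refine ⟨?_, by omega, by omega⟩
      rintro rfl
      simp only [e0] at h1
      omega
    · have h1 := nrm_le'.1 (ud_bxa_near h)
      rw [YM_cD1] at h1
      simp only [Prod.fst_sub, Prod.snd_sub] at h1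
      push_cast at h1
      refine ⟨?_, by omega, by omega⟩
      rintro rfl
      simp only [e0] at h1
      omega

private theorem YM_lw {r : ℕ} (hr : 1 ≤ r) {T : ℕ} {e : Edge} (he : e ∈ RN (Ch (lw r) T r)) :
    -(803 * (r : ℤ)) ≤ e.1 ∧ e.1 ≤ -(797 * (r : ℤ)) ∧ e.2.1 ≤ 3 * r := by
  obtain ⟨j, hj, he⟩ := mem_RN_Ch.1 he
  have h := nrm_le'.1 (bxa_near he)
  unfold lw at h
  simp only [Prod.fst_sub, Prod.snd_sub] at h
  have h2 : 0 ≤ 4 * (r : ℤ) * (j : ℤ) := by positivity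
  refine ⟨by linarith, by linarith, by linarith⟩

private theorem YM_RN_union {L L' : Finset (V × ℤ)} {e : Edge} (h : e ∈ ud (RN (L ∪ L'))) : e ∈ ud (RN L) ∨ e ∈ ud (RN L') := by
  have h1 := mem_ud.1 h
  unfold RN at h1
  rw [mem_biUnion] at h1
  obtain ⟨p, hp, h2⟩ := h1
  rcases mem_union.1 hp with h3 | h3
  · left
    refine mem_ud.2 ?_
    unfold RN
    exact mem_biUnion.2 ⟨p, h3, h2⟩
  · right
    refine mem_ud.2 ?_
    unfold RN
    exact mem_biUnion.2 ⟨p, h3, h2⟩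

private theorem YM_lub {r : ℕ} {T : ℕ} {e : Edge} (he : e ∈ ud (RN (Ch (lu r) T r ∪ Ch (lb r) T r))) :
    -(3 * (r : ℤ)) - 1 ≤ e.1 ∧ ((797 * (r : ℤ) - 1 ≤ e.2.1 ∧ e.2.1 ≤ 803 * r + 1) ∨
      (797 * (r : ℤ) - 1 ≤ -e.2.1 ∧ -e.2.1 ≤ 803 * r + 1)) := by
  rcases YM_RN_union he with he | he
  · obtain ⟨j, hj, he⟩ := mem_RN_Ch.1 (mem_ud.1 he)
    have h := nrm_le'.1 (ud_bxa_near (mem_ud.2 he))
    unfold lu at h
    simp only [Prod.fst_sub, Prod.snd_sub] at h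
    have h2 : 0 ≤ 4 * (r : ℤ) * (j : ℤ) := by positivity
    refine ⟨by linarith, Or.inl ⟨by linarith, by linarith⟩⟩
  · obtain ⟨j, hj, he⟩ := mem_RN_Ch.1 (mem_ud.1 he)
    have h := nrm_le'.1 (ud_bxa_near (mem_ud.2 he))
    unfold lb at h
    simp only [Prod.fst_sub, Prod.snd_sub] at h
    have h2 : 0 ≤ 4 * (r : ℤ) * (j : ℤ) := by positivity
    refine ⟨by linarith, Or.inr ⟨by linarith, by linarith⟩⟩

private theorem YM_CanO (r : ℕ) : CanO 2 {e0} SeP SeD (800 * r) =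
    StE (Kp2 r) (Km2 r) SeP (ringT (cO 2 (800 * r)) (4 * r : ℕ)) SeD (ringT (cD 2 (800 * r)) (4 * r : ℕ)) := by
  have e0 : rr 2 (800 * r) = 4 * r := by
    unfold rr
    omega
  have e1 : 10 * ((4 * r : ℕ) : ℤ) = 40 * r := by
    push_cast
    ring
  have e3 : 800 * r - 5 * (4 * r) = 780 * r := by omega
  funext ω
  unfold CanO
  rw [e0, e1, e3]
  rfl

private theorem YM_T (r : ℕ) : ∃ T : ℕ, T = 10600 ∧ Gp2 r = Kp2 r ∪ RN (Ch (lw r) T r) ∧
    Gm2 r = Km2 r ∪ ud (RN (Ch (lu r) T r ∪ Ch (lb r) T r)) := ⟨10600, rfl, rfl, rfl⟩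

private theorem YM_FarO_inc (r : ℕ) : Inc (FarO r) := by
  rintro ω ω' hs ⟨s, h1, ⟨w, h2, h3⟩, ⟨w', h4, h5⟩⟩
  exact ⟨s, h1, ⟨w, h2, h3.mono (gr_mono hs)⟩, ⟨w', h4, h5.mono (gr_mono hs)⟩⟩

private theorem YM_FarF_inc (r : ℕ) : Inc (FarF r) := by
  rintro ω ω' hs ⟨s, h1, h2⟩
  refine ⟨s, h1, fun i => ?_⟩
  obtain ⟨w, h3, h4⟩ := h2 i
  exact ⟨w, h3, h4.mono (gr_mono hs)⟩

private theorem YM_linkO {r T : ℕ} (hr : 1 ≤ r) (hT : T = 10600) (η : Finset Edge)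
    (h : StG SeP (ringT (cO 2 (800 * r)) (4 * r : ℕ)) η) (hR : Rings (Ch (lw r) T r) η) : FarO r η := by
  obtain ⟨s, v, hs, hv, hc⟩ := h
  refine ⟨s, hs, ⟨v 0, ?_, hc 0⟩, ?_⟩
  · have h1 := nrm_le'.1 (RP_near (by positivity) (hv 0))
    rw [YM_cO0] at h1
    simp only [Prod.fst_sub, Prod.snd_sub] at h1
    push_cast at h1
    exact le_nrm_fst (Or.inl (by omega))
  · have h1 : RP (lw (r : ℤ) 0) ((4 * r : ℕ) : ℤ) η (v 1) := by
      have h0 : lw (r : ℤ) 0 = cO 2 (800 * r) 1 := by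
        rw [YM_cO1]
        unfold lw
        push_cast
        simp
      rw [h0]
      exact hv 1
    obtain ⟨w, hw1, hw2⟩ := Ch_link (c := lw r) (r := r) (R := ((4 * r : ℕ) : ℤ)) (by omega) (by push_cast; omega)
      (fun j _ => by
        rw [nrm_le']
        unfold lw
        simp only [Prod.fst_sub, Prod.snd_sub]
        push_cast
        constructor <;> constructor <;> nlinarith) (j1 := 5) (by omega) (by
        refine le_nrm_snd (Or.inr ?_)
        unfold lw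
        simp only [Prod.snd_sub]
        push_cast
        omega) hR h1
    refine ⟨w, ?_, (hc 1).trans hw2⟩
    have h2 := (nrm_le'.1 hw1).2.2
    rw [hT] at h2
    unfold lw at h2
    simp only [Prod.snd_sub] at h2
    push_cast at h2
    omega

private theorem YM_linkF {r T : ℕ} (hr : 1 ≤ r) (hT : T = 10600) (η : Finset Edge)
    (h : StG SeD (ringT (cD 2 (800 * r)) (4 * r : ℕ)) η)
    (hR : Rings (Ch (lu r) T r ∪ Ch (lb r) T r) η) : FarF r η := by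
  obtain ⟨s, v, hs, hv, hc⟩ := h
  have hR1 : Rings (Ch (lu r) T r) η := fun p hp => hR p (mem_union_left _ hp)
  have hR2 : Rings (Ch (lb r) T r) η := fun p hp => hR p (mem_union_right _ hp)
  refine ⟨s, hs, fun i => ?_⟩
  fin_cases i
  · have h1 : RP (lu (r : ℤ) 0) ((4 * r : ℕ) : ℤ) η (v 0) := by
      have h0 : lu (r : ℤ) 0 = cD 2 (800 * r) 0 := by
        rw [YM_cD0]
        unfold lu
        push_cast
        simp
      rw [h0]
      exact hv 0
    obtain ⟨w, hw1, hw2⟩ := Ch_link (c := lu r) (r := r) (R := ((4 * r : ℕ) : ℤ)) (by omega) (by push_cast; omega)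
      (fun j _ => by
        rw [nrm_le']
        unfold lu
        simp only [Prod.fst_sub, Prod.snd_sub]
        push_cast
        constructor <;> constructor <;> nlinarith) (j1 := 5) (by omega) (by
        refine le_nrm_fst (Or.inl ?_)
        unfold lu
        simp only [Prod.fst_sub]
        push_cast
        omega) hR1 h1
    refine ⟨w, ?_, (hc 0).trans hw2⟩
    have h2 := (nrm_le'.1 hw1).1.1
    rw [hT] at h2
    unfold lu at h2
    simp only [Prod.fst_sub] at h2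
    push_cast at h2
    omega
  · have h1 : RP (lb (r : ℤ) 0) ((4 * r : ℕ) : ℤ) η (v 1) := by
      have h0 : lb (r : ℤ) 0 = cD 2 (800 * r) 1 := by
        rw [YM_cD1]
        unfold lb
        push_cast
        simp
      rw [h0]
      exact hv 1
    obtain ⟨w, hw1, hw2⟩ := Ch_link (c := lb r) (r := r) (R := ((4 * r : ℕ) : ℤ)) (by omega) (by push_cast; omega)
      (fun j _ => by
        rw [nrm_le']
        unfold lb
        simp only [Prod.fst_sub, Prod.snd_sub]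
        push_cast
        constructor <;> constructor <;> nlinarith) (j1 := 5) (by omega) (by
        refine le_nrm_fst (Or.inl ?_)
        unfold lb
        simp only [Prod.fst_sub]
        push_cast
        omega) hR2 h1
    refine ⟨w, ?_, (hc 1).trans hw2⟩
    have h2 := (nrm_le'.1 hw1).1.1
    rw [hT] at h2
    unfold lb at h2
    simp only [Prod.fst_sub] at h2
    push_cast at h2
    omega

private theorem YM_corr {c : ℝ} (hc : 0 < c) (hc1 : c ≤ 1) {r : ℕ} (hr : 1 ≤ r) (hRB : RB c (1 / 2) r) {E : Finset Edge}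
    (hE : Gp2 r ∪ Gm2 r ⊆ E) :
    wO (1 / 2) (800 * r) * c ^ (8 * (2 * 10601)) ≤
      IPC.Pr (1 / 2) E (fun ω => FarO r (ω ∩ Gp2 r) ∧ FarF r (dc (Gm2 r) ω)) := by
  obtain ⟨T, hT, gp, gm⟩ := YM_T r
  rw [gp, gm] at hE ⊢
  have hGp : Kp2 r ∪ RN (Ch (lw r) T r) ⊆ E := subset_union_left.trans hE
  have hGm : Km2 r ∪ ud (RN (Ch (lu r) T r ∪ Ch (lb r) T r)) ⊆ E := subset_union_right.trans hE
  have hKp : Kp2 r ⊆ E := subset_union_left.trans hGp
  have hKm : Km2 r ⊆ E := subset_union_left.trans hGm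
  have hX : {e0} ⊆ bx (800 * r) := by
    rw [singleton_subset_iff]
    unfold bx e0
    rw [mem_box]
    left
    refine ⟨rfl, ?_, ?_, ?_, ?_⟩ <;> push_cast <;> omega
  have hreg := CanO_region (l := 2) (by norm_num) {e0} (800 * r) hX
  have hR0 : (0 : ℤ) < r := by exact_mod_cast hr
  have hr1 : (1 : ℤ) ≤ r := by exact_mod_cast hr
  have d1 : Disjoint (RN (Ch (lw r) T r)) (Km2 r) := by
    rw [disjoint_left]
    intro e h1 h2
    have h3 := YM_lw hr h1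
    have h4 := YM_Km2 hr h2
    omega
  have d2 : Disjoint (ud (RN (Ch (lu r) T r ∪ Ch (lb r) T r))) (Kp2 r) := by
    rw [disjoint_left]
    intro e h1 h2
    have h3 := YM_lub h1
    have h4 := YM_Kp2 hr h2
    omega
  have d3 : Disjoint (RN (Ch (lw r) T r)) (ud (RN (Ch (lu r) T r ∪ Ch (lb r) T r))) := by
    rw [disjoint_left]
    intro e h1 h2
    have h3 := YM_lw hr h1
    have h4 := YM_lub h2
    omega
  have cL : (Ch (lw r) T r).card ≤ 2 * 10601 := (Ch_card _ _ _).trans (by omega)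
  have cM : (Ch (lu r) T r ∪ Ch (lb r) T r).card ≤ 2 * 10601 := by
    refine (card_union_le _ _).trans ?_
    have h1 := Ch_card (lu r) T r
    have h2 := Ch_card (lb r) T r
    omega
  have key := ext_rings hc hc1 (by norm_num) (by norm_num) hRB (E := E) (Fp := Kp2 r) (Fm := Km2 r)
    (Lp := Ch (lw r) T r) (Lm := Ch (lu r) T r ∪ Ch (lb r) T r) (M := 2 * 10601)
    cL cM
    (fun p hp => by
      obtain ⟨j, -, rfl⟩ := mem_Ch.1 hp
      exact ⟨hr1, le_rfl⟩)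
    (fun p hp => by
      rcases mem_union.1 hp with hp | hp
      · obtain ⟨j, -, rfl⟩ := mem_Ch.1 hp
        exact ⟨hr1, le_rfl⟩
      · obtain ⟨j, -, rfl⟩ := mem_Ch.1 hp
        exact ⟨hr1, le_rfl⟩)
    hKp hKm (subset_union_right.trans hGp) (subset_union_right.trans hGm) d1 d2 d3
    (A := StG SeP (ringT (cO 2 (800 * r)) (4 * r : ℕ))) (A' := FarO r)
    (D := StG SeD (ringT (cD 2 (800 * r)) (4 * r : ℕ))) (D' := FarF r)
    (StG_inc SeP_inc (ringT_inc _ _)) (StG_inc SeD_inc (ringT_inc _ _)) (YM_FarO_inc _) (YM_FarF_inc _)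
    (YM_linkO hr hT) (YM_linkF hr hT)
  have e1 : wO (1 / 2) (800 * r) =
      IPC.Pr (1 / 2) E (StE (Kp2 r) (Km2 r) SeP (ringT (cO 2 (800 * r)) (4 * r : ℕ)) SeD (ringT (cD 2 (800 * r)) (4 * r : ℕ))) := by
    unfold wO
    rw [YM_CanO]
    refine pr_StE _ _ _ _ _ ?_ (union_subset hKp hKm)
    intro e he
    refine hreg ?_
    have e2 : rr 2 (800 * r) = 4 * r := by
      unfold rr
      omega
    have e3 : 800 * r - 5 * (4 * r) = 780 * r := by omega
    have e4 : (10 * ((4 * r : ℕ) : ℤ)) = 40 * r := by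
      push_cast
      ring
    rw [e2, e3, e4]
    exact he
  rw [e1]
  exact key

theorem four_far : ∃ c0 : ℝ, 0 < c0 ∧ ∀ (r : ℕ) (E : Finset Edge), 1 ≤ r → Gp2 r ∪ Gm2 r ⊆ E →
    c0 * wO (1 / 2) (800 * r) ≤ IPC.Pr (1 / 2) E (fun ω => FarO r (ω ∩ Gp2 r) ∧ FarF r (dc (Gm2 r) ω)) := by
  obtain ⟨c, hc, hc1, hRB⟩ := rb_half
  refine ⟨c ^ (8 * (2 * 10601)), by positivity, fun r E hr hE => ?_⟩
  rw [mul_comm]
  exact YM_corr hc hc1 hr (hRB r) hE

theorem e0_far {r : ℕ} (hr : 1 ≤ r) : e0 ∉ Gp2 r ∪ Gm2 r := by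
  intro h
  obtain ⟨T, hT, gp, gm⟩ := YM_T r
  rw [gp, gm] at h
  rcases mem_union.1 h with h | h
  · rcases mem_union.1 h with h | h
    · exact (YM_Kp2 hr h).1 rfl
    · have h1 := YM_lw hr h
      simp only [e0] at h1
      omega
  · rcases mem_union.1 h with h | h
    · exact (YM_Km2 hr h).1 rfl
    · have h1 := YM_lub h
      simp only [e0] at h1
      omega

/-- position of the open region -/
theorem Gp2_pos {r : ℕ} (hr : 1 ≤ r) {e : Edge} (he : e ∈ Gp2 r) : e ≠ e0 ∧ (-(840 * (r : ℤ)) ≤ e.1 ∧ e.1 ≤ 840 * r) ∧ e.2.1 ≤ 780 * r ∧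
    (-(780 * (r : ℤ)) ≤ e.2.1 ∨ (-(803 * (r : ℤ)) ≤ e.1 ∧ e.1 ≤ -(797 * (r : ℤ)))) := by
  refine ⟨fun h => e0_far hr (mem_union_left _ (h ▸ he)), ?_⟩
  obtain ⟨T, hT, gp, gm⟩ := YM_T r
  rw [gp] at he
  rcases mem_union.1 he with h | h
  · have h1 := YM_Kp2 hr h
    omega
  · have h1 := YM_lw hr h
    omega

/-- position of the dual region -/
theorem Gm2_pos {r : ℕ} (hr : 1 ≤ r) {e : Edge} (he : e ∈ Gm2 r) : e ≠ e0 ∧ -(780 * (r : ℤ)) - 1 ≤ e.1 ∧
    (-(840 * (r : ℤ)) - 1 ≤ e.2.1 ∧ e.2.1 ≤ 840 * r + 1) ∧ (e.1 ≤ 780 * r + 1 ∨ 797 * (r : ℤ) - 1 ≤ |e.2.1|) := by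
  refine ⟨fun h => e0_far hr (mem_union_right _ (h ▸ he)), ?_⟩
  obtain ⟨T, hT, gp, gm⟩ := YM_T r
  rw [gm] at he
  rcases mem_union.1 he with h | h
  · have h1 := YM_Km2 hr h
    omega
  · have h1 := YM_lub h
    have h2 := le_abs_self e.2.1
    have h3 := neg_le_abs e.2.1
    omega

end FKN
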