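import Pool.Agent.Lib.MP_216314_pr.I.Low1

/-!
# The corridors of the four arms from an edge: definitions

Canonical state at the scale `800 r`: open arms from the ends of the edge `e0` to the circuits at `(800 r, 0)` and `(-800 r, 0)`, dual arms from its two plaquettes to the circuits at
`(0, 800 r)` and `(0, -800 r)`. Corridors: from `(-800 r, 0)` downwards (open), from `(0, 800 r)` and from `(0, -800 r)` to the right (dual).
-/

set_option autoImplicit false

noncomputable section

namespace FKN

open Finset FKI FKP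

/-- centres of the open corridor -/
def lw (r : ℤ) (j : ℕ) : V := (-(800 * r), -(4 * r * (j : ℤ)))

/-- centres of the upper dual corridor -/
def lu (r : ℤ) (j : ℕ) : V := (4 * r * (j : ℤ), 800 * r)

/-- centres of the lower dual corridor -/
def lb (r : ℤ) (j : ℕ) : V := (4 * r * (j : ℤ), -(800 * r))

/-- the core and the end boxes of the open arms -/
def Kp2 (r : ℕ) : Finset Edge := (bx (780 * r) \ {e0}) ∪ bxs (cO 2 (800 * r)) (40 * r)

/-- the core and the end boxes of the dual arms -/
def Km2 (r : ℕ) : Finset Edge := (bx (780 * r) \ {e0}) ∪ ud (bxs (cD 2 (800 * r)) (40 * r))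

/-- the regions of the arms with their corridors -/
def Gp2 (r : ℕ) : Finset Edge := Kp2 r ∪ RN (Ch (lw r) 10600 r)
def Gm2 (r : ℕ) : Finset Edge := Km2 r ∪ ud (RN (Ch (lu r) 10600 r ∪ Ch (lb r) 10600 r))

/-- an open arm from one end of `e0` to distance `700 r` and one from the other end far down -/
def FarO (r : ℕ) (η : Finset Edge) : Prop := ∃ s : Fin 2 → V, SeP η s ∧
  (∃ w : V, 700 * (r : ℤ) ≤ nrm w ∧ (gr η).Reachable (s 0) w) ∧ ∃ w : V, w.2 ≤ -(42000 * (r : ℤ)) ∧ (gr η).Reachable (s 1) w

/-- dual arms from the two plaquettes of `e0` far to the right -/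
def FarF (r : ℕ) (η : Finset Edge) : Prop := ∃ s : Fin 2 → V, SeD η s ∧
  ∀ i, ∃ w : V, 42000 * (r : ℤ) ≤ w.1 ∧ (gr η).Reachable (s i) w

end FKN
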