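import Pool.Agent.Lib.MP_216314_pr.IC.Y0
import Pool.Agent.Lib.MP_216314_pr.IC.YM
import Pool.Agent.Lib.MP_216314_pr.I.Low3

/-!
# Leaf YN: the four far arms give the local event (medium+, a copy of `VL_of`, I/Low3)

Let `σ = shE v.1 v.2`, `ω' = ω.map σ`, `σ e0 = ev v` (`e0 = (0, 0, false)`), so `ev v ∈ ω'`. `l / 12800 - 1 < r ≤ l / 12800`; `v.1 ∈ a - 3 l / 2 ± l / 8`, `v.2 ∈ 3 l / 2 ± l / 8` (`mem_qs`, natural divisions, errors `≤ 1`), so `v.2 ≤ 42000 r`, `a - v.1 ≤ 42000 r`, `840 r + 2 ≤ l / 15`. `s` from `FarO`: `SeP`: `s 0`, `s 1` are `(0,0)`, `(1,0)` in some order (`nearS .. 0`: `nrm (s i - y (σ i)) ≤ 0`); `p = s 1 + v`, `p' = s 0 + v`.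
OPEN, DOWN. `reach_map` (`cp_sh`) of the path from `s 1` to `w`, `reach_level` (I/IVa) with `lv u = -u.2`, level `0`, as in `VL_of`: a path from `p` to `(x, 0)` with edges of `(ω ∩ Gp2 r).map σ` with an end with `y > 0`; by `Gp2_pos` they are in `qan a l \ {ev v}` (`mem_qan_of`, I/Low3: `x ≤ v.1 + 840 r < a - l - 1`; `y < 2 l`). OPEN, SHORT. `reach_level` for `s 0` with `lv = sd (0,0)` (`nrm`), level `700 r` (before the translation):
a vertex `w` with `nrm w = 700 r` and a path with edges of `ω ∩ Gp2 r` inside the square of radius `700 r`, translated in `qan a l \ {ev v}`; `32 * 700 r ≥ l` for `r ≥ 2`. DUAL (both). `reach_map` of the path in `dc (Gm2 r) ω` from `s i` to `w`, `w.1 ≥ 42000 r`, `dc_sh` (I/IVa), `reach_level` with `lv u = u.1`, level `a`: a path to a plaquette `g` with `g.1 = a`, the crossed edges `e3 + v` with `e3 ∈ Gm2 r` have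
`x ≤ a` (`x < a` for horizontal edges), and by `Gm2_pos` `e3 + v ∈ qan a l \ {ev v}`, not in `wsq a l` (`x > a - 2 l`, `y > 0`): copy of the second half of `VL_of`. `SeD`: the sources are the plaquettes `(0,0)`, `(0,-1)` in some order, translated `v`, `(v.1, v.2 - 1)`.
-/

set_option autoImplicit false

noncomputable section

namespace DimLim

open Finset FKI FKP

private theorem YN_nrm0 {u w : V} (h : FKN.nrm (u - w) ≤ 0) : u = w := by
  unfold FKN.nrm at h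
  have h1 := (le_max_left |(u - w).1| |(u - w).2|).trans h
  have h2 := (le_max_right |(u - w).1| |(u - w).2|).trans h
  have h3 := abs_nonpos_iff.1 h1
  have h4 := abs_nonpos_iff.1 h2
  have h5 : u.1 - w.1 = 0 := h3
  have h6 : u.2 - w.2 = 0 := h4
  ext
  · linarith
  · linarith

/-- the two sources in some order -/
private theorem YN_src {y0 y1 : V} {η : Finset Edge} {s : Fin 2 → V} (h : FKN.nearS ![y0, y1] 0 η s) :
    (s 0 = y0 ∧ s 1 = y1) ∨ (s 0 = y1 ∧ s 1 = y0) := by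
  obtain ⟨σ, hσ⟩ := h
  have h0 := YN_nrm0 (hσ 0)
  have h1 := YN_nrm0 (hσ 1)
  have hne : σ 0 ≠ σ 1 := fun h => absurd (σ.injective h) (by decide)
  have h2 : (σ 0 = 0 ∧ σ 1 = 1) ∨ (σ 0 = 1 ∧ σ 1 = 0) := by
    generalize σ 0 = i at hne
    generalize σ 1 = j at hne
    revert hne
    fin_cases i <;> fin_cases j <;> decide
  rcases h2 with ⟨h3, h4⟩ | ⟨h3, h4⟩
  · left
    rw [h3] at h0
    rw [h4] at h1
    exact ⟨h0, h1⟩
  · right
    rw [h3] at h0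
    rw [h4] at h1
    exact ⟨h0, h1⟩

private theorem YN_ev (v : V) : shE v.1 v.2 FKN.e0 = ev v := by
  show ((0 + v.1, 0 + v.2, false) : Edge) = (v.1, v.2, false)
  rw [zero_add, zero_add]

private theorem YN_ne {v : V} {e : Edge} (h : e ≠ FKN.e0) : shE v.1 v.2 e ≠ ev v := by
  rw [← YN_ev v]
  exact fun h1 => h ((shE v.1 v.2).injective h1)

/-- the open arm downwards -/
private theorem YN_down {a l r : ℕ} (hr : 2 ≤ r) (h1 : 12800 * r ≤ l) (h2 : l < 12800 * (r + 1)) {v : V} (hv : v ∈ qs a l)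
    {ω : Finset Edge} {p0 : V} (hp0 : 0 ≤ p0.1 ∧ p0.1 ≤ 1 ∧ p0.2 = 0)
    (hP : ∃ w : V, w.2 ≤ -(42000 * (r : ℤ)) ∧ (gr (ω ∩ FKN.Gp2 r)).Reachable p0 w) :
    ∃ x : ℤ, (a : ℤ) - 2 * l ≤ x ∧ x ≤ a ∧
      Conn (qan a l \ {ev v}) (ω.map (shE v.1 v.2).toEmbedding) (p0.1 + v.1, p0.2 + v.2) (x, 0) := by
  rw [mem_qs] at hv
  obtain ⟨⟨p1, p2⟩, p3, p4⟩ := hv
  obtain ⟨q1, q2, q3⟩ := hp0
  have hr1 : 1 ≤ r := by omega
  have hr2 : (2 : ℤ) ≤ r := by exact_mod_cast hr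
  obtain ⟨w, hw1, hw2⟩ := hP
  have h3 := (reach_map (cp_sh v.1 v.2) (ω ∩ FKN.Gp2 r) p0 w).2 hw2
  obtain ⟨x, hx1, hx2⟩ := reach_level (lv := fun u => -u.2) (R := 0) (fun e _ => by
    obtain ⟨x, y, t⟩ := e
    cases t
    · show -y - -y ≤ 1 ∧ -y - -y ≤ 1
      omega
    · show -y - -(y + 1) ≤ 1 ∧ -(y + 1) - -y ≤ 1
      omega) h3 (by
      show -(p0.2 + v.2) ≤ 0
      omega) (by
      show 0 ≤ -(w.2 + v.2)
      omega)
  simp only [neg_eq_zero] at hx1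
  have hc : Conn (qan a l \ {ev v}) (ω.map (shE v.1 v.2).toEmbedding) (p0.1 + v.1, p0.2 + v.2) (x.1, 0) := by
    have hx : x = (x.1, 0) := by
      ext
      · rfl
      · exact hx1
    rw [← hx]
    unfold Conn
    refine hx2.mono (gr_mono ?_)
    intro e he
    rw [mem_filter, mem_map] at he
    obtain ⟨⟨e1, he1, rfl⟩, he2⟩ := he
    rw [mem_inter] at he1 ⊢
    refine ⟨mem_map_of_mem _ he1.1, ?_⟩
    obtain ⟨s1, s2, s3⟩ := ea_sh v.1 v.2 e1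
    have hy : 0 ≤ e1.2.1 + v.2 := by
      obtain ⟨x, y, t⟩ := e1
      cases t
      · have he3 : -(y + v.2) < 0 ∨ -(y + v.2) < 0 := he2
        show 0 ≤ y + v.2
        omega
      · have he3 : -(y + v.2) < 0 ∨ -(y + v.2 + 1) < 0 := he2
        show 0 ≤ y + v.2
        omega
    obtain ⟨g1, g2, g3, -⟩ := FKN.Gp2_pos hr1 he1.2
    rw [mem_sdiff, mem_singleton]
    refine ⟨mem_qan_of ?_ ?_ ?_ ?_ ?_ ?_, YN_ne g1⟩
    · show (a : ℤ) - 2 * l ≤ e1.1 + v.1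
      omega
    · show e1.1 + v.1 ≤ a
      omega
    · intro _
      show e1.1 + v.1 < a
      omega
    · exact hy
    · show e1.2.1 + v.2 < 2 * l
      omega
    · left
      show e1.1 + v.1 + 1 < (a : ℤ) - l
      omega
  have hm := conn_mem_box (x1 := (a : ℤ) - 2 * l) (x2 := a) (y1 := 0) (y2 := 2 * l)
    (hc.mono (F' := box ((a : ℤ) - 2 * l) a 0 (2 * l)) (by unfold qan; exact sdiff_subset.trans sdiff_subset) (Finset.Subset.refl _))
    ⟨by omega, by omega, by omega, by omega⟩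
  exact ⟨x.1, hm.1, hm.2.1, hc⟩

private theorem YN_abs (x : ℤ) : |x + 1| ≤ |x| + 1 ∧ |x| ≤ |x + 1| + 1 := by
  have h1 := abs_add_le x 1
  have h2 := abs_add_le (x + 1) (-1)
  rw [abs_one] at h1
  rw [abs_neg, abs_one, add_neg_cancel_right] at h2
  exact ⟨h1, h2⟩

private theorem YN_abs2 (x : ℤ) : x ≤ |x| ∧ -x ≤ |x| := ⟨le_abs_self x, neg_le_abs x⟩

/-- the short open arm -/
private theorem YN_short {a l r : ℕ} (hr : 2 ≤ r) (h1 : 12800 * r ≤ l) (h2 : l < 12800 * (r + 1)) {v : V} (hv : v ∈ qs a l)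
    {ω : Finset Edge} {p0 : V} (hp0 : 0 ≤ p0.1 ∧ p0.1 ≤ 1 ∧ p0.2 = 0)
    (hP : ∃ w : V, 700 * (r : ℤ) ≤ FKN.nrm w ∧ (gr (ω ∩ FKN.Gp2 r)).Reachable p0 w) :
    ∃ w : V, (l : ℤ) ≤ 32 * sd v w ∧
      Conn (qan a l \ {ev v}) (ω.map (shE v.1 v.2).toEmbedding) (p0.1 + v.1, p0.2 + v.2) w := by
  rw [mem_qs] at hv
  obtain ⟨⟨p1, p2⟩, p3, p4⟩ := hv
  obtain ⟨q1, q2, q3⟩ := hp0
  have hr1 : 1 ≤ r := by omega
  have hr2 : (2 : ℤ) ≤ r := by exact_mod_cast hr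
  obtain ⟨w, hw1, hw2⟩ := hP
  obtain ⟨x, hx1, hx2⟩ := reach_level (lv := FKN.nrm) (R := 700 * (r : ℤ)) (fun e _ => by
    obtain ⟨x, y, t⟩ := e
    cases t
    · show max |x| |y| - max |x + 1| |y| ≤ 1 ∧ max |x + 1| |y| - max |x| |y| ≤ 1
      have ha := YN_abs x
      omega
    · show max |x| |y| - max |x| |y + 1| ≤ 1 ∧ max |x| |y + 1| - max |x| |y| ≤ 1
      have ha := YN_abs y
      omega) hw2 (by
      show max |p0.1| |p0.2| ≤ _
      rw [q3, abs_zero, abs_of_nonneg q1]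
      omega) hw1
  have h3 := (reach_map (cp_sh v.1 v.2) _ p0 x).2 hx2
  refine ⟨(x.1 + v.1, x.2 + v.2), ?_, ?_⟩
  · rw [sd_sh, hx1]
    omega
  · unfold Conn
    refine SimpleGraph.Reachable.mono (gr_mono ?_) h3
    intro e he
    rw [mem_map] at he
    obtain ⟨e1, he1, rfl⟩ := he
    rw [mem_filter, mem_inter] at he1
    obtain ⟨⟨he3, he4⟩, he5⟩ := he1
    rw [mem_inter]
    refine ⟨mem_map_of_mem _ he3, ?_⟩
    obtain ⟨s1, s2, s3⟩ := ea_sh v.1 v.2 e1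
    obtain ⟨g1, -, -, -⟩ := FKN.Gp2_pos hr1 he4
    have hb : -(700 * (r : ℤ)) ≤ e1.1 ∧ e1.1 ≤ 700 * r ∧ -(700 * (r : ℤ)) ≤ e1.2.1 ∧ e1.2.1 ≤ 700 * r := by
      obtain ⟨x, y, t⟩ := e1
      cases t
      · have he6 : max |x| |y| < 700 * (r : ℤ) ∨ max |x + 1| |y| < 700 * (r : ℤ) := he5
        have ha := YN_abs x
        have hb := YN_abs2 x
        have hc := YN_abs2 y
        show -(700 * (r : ℤ)) ≤ x ∧ x ≤ 700 * r ∧ -(700 * (r : ℤ)) ≤ y ∧ y ≤ 700 * r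
        omega
      · have he6 : max |x| |y| < 700 * (r : ℤ) ∨ max |x| |y + 1| < 700 * (r : ℤ) := he5
        have ha := YN_abs y
        have hb := YN_abs2 x
        have hc := YN_abs2 y
        show -(700 * (r : ℤ)) ≤ x ∧ x ≤ 700 * r ∧ -(700 * (r : ℤ)) ≤ y ∧ y ≤ 700 * r
        omega
    rw [mem_sdiff, mem_singleton]
    refine ⟨mem_qan_of ?_ ?_ ?_ ?_ ?_ ?_, YN_ne g1⟩
    · show (a : ℤ) - 2 * l ≤ e1.1 + v.1
      omega
    · show e1.1 + v.1 ≤ a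
      omega
    · intro _
      show e1.1 + v.1 < a
      omega
    · show 0 ≤ e1.2.1 + v.2
      omega
    · show e1.2.1 + v.2 < 2 * l
      omega
    · left
      show e1.1 + v.1 + 1 < (a : ℤ) - l
      omega

/-- the dual arms to the right side -/
private theorem YN_dual {a l r : ℕ} (hr : 2 ≤ r) (h1 : 12800 * r ≤ l) (h2 : l < 12800 * (r + 1)) {v : V} (hv : v ∈ qs a l)
    {ω : Finset Edge} {f0 : V} (hf0 : f0.1 = 0)
    (hD : ∃ w : V, 42000 * (r : ℤ) ≤ w.1 ∧ (gr (FKN.dc (FKN.Gm2 r) ω)).Reachable f0 w) :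
    ∃ g : V, g.1 = a ∧ (gr (FKN.dc (qan a l \ {ev v}) (ω.map (shE v.1 v.2).toEmbedding ∪ wsq a l))).Reachable
      (f0.1 + v.1, f0.2 + v.2) g := by
  rw [mem_qs] at hv
  obtain ⟨⟨p1, p2⟩, p3, p4⟩ := hv
  have hr1 : 1 ≤ r := by omega
  have hr2 : (2 : ℤ) ≤ r := by exact_mod_cast hr
  obtain ⟨w, hw1, hw2⟩ := hD
  have h3 := (reach_map (cp_sh v.1 v.2) (FKN.dc (FKN.Gm2 r) ω) f0 w).2 hw2
  rw [dc_sh] at h3
  obtain ⟨x, hx1, hx2⟩ := reach_level (lv := fun u => u.1) (R := (a : ℤ)) (fun e _ => by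
    obtain ⟨x, y, t⟩ := e
    cases t
    · show x - (x + 1) ≤ 1 ∧ x + 1 - x ≤ 1
      omega
    · show x - x ≤ 1 ∧ x - x ≤ 1
      omega) h3 (by
      show f0.1 + v.1 ≤ a
      omega) (by
      show (a : ℤ) ≤ w.1 + v.1
      omega)
  refine ⟨x, hx1, hx2.mono (gr_mono ?_)⟩
  intro e he
  rw [mem_filter] at he
  obtain ⟨he1, he2⟩ := he
  unfold FKN.dc at he1 ⊢
  rw [mem_map] at he1 ⊢
  obtain ⟨e1, he1, rfl⟩ := he1
  refine ⟨e1, ?_, rfl⟩
  rw [mem_sdiff] at he1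
  obtain ⟨he3, he4⟩ := he1
  rw [mem_map] at he3
  obtain ⟨e3, he5, rfl⟩ := he3
  obtain ⟨s1, s2, s3⟩ := ea_sh v.1 v.2 e3
  -- the crossed edge is to the left of the right side
  have hx : e3.1 + v.1 ≤ a ∧ (e3.2.2 = false → e3.1 + v.1 < a) := by
    obtain ⟨x, y, t⟩ := e3
    cases t
    · have he6 : x + v.1 < a ∨ x + v.1 < a := he2
      show x + v.1 ≤ a ∧ (false = false → x + v.1 < a)
      constructor
      · omega
      · intro _
        omega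
    · have he6 : x + v.1 - 1 < a ∨ x + v.1 - 1 + 1 < a := he2
      show x + v.1 ≤ a ∧ (true = false → x + v.1 < a)
      constructor
      · omega
      · intro h
        exact absurd h (by simp)
  obtain ⟨g1, g2, ⟨g3, g4⟩, -⟩ := FKN.Gm2_pos hr1 he5
  have hpos : (a : ℤ) - 2 * l < e3.1 + v.1 ∧ 0 < e3.2.1 + v.2 ∧ e3.2.1 + v.2 < 2 * l ∧ (l : ℤ) < e3.2.1 + v.2 := by
    refine ⟨by omega, by omega, by omega, by omega⟩
  rw [mem_sdiff]
  constructor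
  · rw [mem_sdiff, mem_singleton]
    refine ⟨mem_qan_of ?_ hx.1 hx.2 ?_ hpos.2.2.1 (Or.inr hpos.2.2.2), YN_ne g1⟩
    · show (a : ℤ) - 2 * l ≤ e3.1 + v.1
      omega
    · show 0 ≤ e3.2.1 + v.2
      omega
  · rw [mem_union]
    rintro (h6 | h6)
    · exact he4 h6
    · unfold wsq at h6
      rw [mem_union, mem_box, mem_box] at h6
      simp only [Equiv.coe_toEmbedding, s1, s2, s3] at h6
      omega

theorem ve_of_far {a l r : ℕ} (hr : 2 ≤ r) (h1 : 12800 * r ≤ l) (h2 : l < 12800 * (r + 1)) (ha : 2 * l ≤ a) {v : V} (hv : v ∈ qs a l)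
    {ω : Finset Edge} (h0 : FKN.e0 ∈ ω) (hP : FKN.FarO r (ω ∩ FKN.Gp2 r)) (hD : FKN.FarF r (FKN.dc (FKN.Gm2 r) ω)) :
    VE a l v (ω.map (shE v.1 v.2).toEmbedding) := by
  obtain ⟨s, hs, hs0, hs1⟩ := hP
  obtain ⟨t, ht, htw⟩ := hD
  have hs' := YN_src hs
  have ht' := YN_src ht
  refine ⟨?_, ?_, ?_, ?_⟩
  · rw [← YN_ev v]
    exact mem_map_of_mem _ h0
  · refine ⟨((s 1).1 + v.1, (s 1).2 + v.2), ((s 0).1 + v.1, (s 0).2 + v.2), ?_, ?_, ?_⟩
    · rcases hs' with ⟨h3, h4⟩ | ⟨h3, h4⟩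
      · right
        rw [h3, h4]
        constructor
        · show ((1 + v.1, 0 + v.2) : V) = (v.1 + 1, v.2)
          rw [zero_add, add_comm]
        · show ((0 + v.1, 0 + v.2) : V) = v
          rw [zero_add, zero_add]
      · left
        rw [h3, h4]
        constructor
        · show ((0 + v.1, 0 + v.2) : V) = v
          rw [zero_add, zero_add]
        · show ((1 + v.1, 0 + v.2) : V) = (v.1 + 1, v.2)
          rw [zero_add, add_comm]
    · refine YN_down hr h1 h2 hv ?_ hs1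
      rcases hs' with ⟨h3, h4⟩ | ⟨h3, h4⟩
      · rw [h4]
        exact ⟨zero_le_one, le_rfl, rfl⟩
      · rw [h4]
        exact ⟨le_rfl, zero_le_one, rfl⟩
    · refine YN_short hr h1 h2 hv ?_ hs0
      rcases hs' with ⟨h3, h4⟩ | ⟨h3, h4⟩
      · rw [h3]
        exact ⟨le_rfl, zero_le_one, rfl⟩
      · rw [h3]
        exact ⟨zero_le_one, le_rfl, rfl⟩
  · obtain ⟨i, hi⟩ : ∃ i, t i = (0, 0) := by
      rcases ht' with ⟨h3, h4⟩ | ⟨h3, h4⟩
      · exact ⟨0, h3⟩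
      · exact ⟨1, h4⟩
    have h5 := YN_dual hr h1 h2 hv (by rw [hi]) (htw i)
    rw [hi] at h5
    have h6 : (((0 : ℤ), (0 : ℤ)).1 + v.1, ((0 : ℤ), (0 : ℤ)).2 + v.2) = v := by
      show ((0 + v.1, 0 + v.2) : V) = v
      rw [zero_add, zero_add]
    rw [h6] at h5
    exact h5
  · obtain ⟨i, hi⟩ : ∃ i, t i = (0, -1) := by
      rcases ht' with ⟨h3, h4⟩ | ⟨h3, h4⟩
      · exact ⟨1, h4⟩
      · exact ⟨0, h3⟩
    have h5 := YN_dual hr h1 h2 hv (by rw [hi]) (htw i)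
    rw [hi] at h5
    have h6 : (((0 : ℤ), (-1 : ℤ)).1 + v.1, ((0 : ℤ), (-1 : ℤ)).2 + v.2) = (v.1, v.2 - 1) := by
      show ((0 + v.1, -1 + v.2) : V) = (v.1, v.2 - 1)
      rw [zero_add, neg_add_eq_sub]
    rw [h6] at h5
    exact h5

end DimLim
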