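import Pool.Agent.Lib.MP_216314_pr.IC.YN

/-!
# Leaf YO: one point estimate for the double points (medium, a copy of `twoLow_of_co`, I/Low3)

`dep_VE`: as `dep_VL` (I/IVc); `ev v ∈ qan a l` (`hv`, `mem_qan_of`). `edge_one`: `HW4`: `c`, `n0`; `four_far`: `c0`. `r = l / 12800 ≥ 2`, `800 r ≥ n0`. `E = ((Gp2 r ∪ Gm2 r) ∪ {e0}) ∪ (qan a l).map (shE (-v.1) (-v.2))`. `Pr (qan a l) (VE a l v) = IPC.Pr (1/2) E (fun ω => VE a l v (ω.map (shE v.1 v.2)))` (`Pr_dep`, `Pr_map`, `pr_half`, as there). The event `FarO r (ω ∩ Gp2 r) ∧ FarF r (dc (Gm2 r) ω)` depends on `Gp2 r ∪ Gm2 r`,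
the event `e0 ∈ ω` on `{e0}`, disjoint (`e0_far`): with `Pr_indep` (go to `FKP.Pr` by `pr_half`) the probability of both is the product, `Pr E (fun ω => e0 ∈ ω) = 1/2` (`Pr_dep` to `{e0}`, two subsets). `ve_of_far`, monotonicity: `Pr (VE) ≥ (1/2) c0 wO (1/2) (800 r) ≥ (1/2) c0 c (800 r) ^ (-5/4) ≥ (1/2) c0 c l ^ (-5/4)`.
-/

set_option autoImplicit false

noncomputable section

namespace DimLim

open Finset FKI FKP

private theorem YO_ev {a l : ℕ} (hl : 128 ≤ l) {v : V} (hv : v ∈ qs a l) : ev v ∈ qan a l := by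
  rw [mem_qs] at hv
  refine mem_qan_of ?_ ?_ ?_ ?_ ?_ ?_
  · show (a : ℤ) - 2 * l ≤ v.1
    omega
  · show v.1 ≤ (a : ℤ)
    omega
  · intro _
    show v.1 < (a : ℤ)
    omega
  · show 0 ≤ v.2
    omega
  · show v.2 < 2 * (l : ℤ)
    omega
  · right
    show (l : ℤ) < v.2
    omega

theorem dep_VE {a l : ℕ} (hl : 128 ≤ l) (ha : 2 * l ≤ a) {v : V} (hv : v ∈ qs a l) : Dep (qan a l) (VE a l v) := by
  intro ω
  have _ := ha
  have h0 := YO_ev hl hv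
  have h1 : ∀ p w : V, Conn (qan a l \ {ev v}) (ω ∩ qan a l) p w ↔ Conn (qan a l \ {ev v}) ω p w := by
    intro p w
    unfold Conn
    rw [inter_assoc, inter_eq_right.2 (sdiff_subset : qan a l \ {ev v} ⊆ qan a l)]
  have h2 : FKN.dc (qan a l \ {ev v}) ((ω ∩ qan a l) ∪ wsq a l) =
      FKN.dc (qan a l \ {ev v}) (ω ∪ wsq a l) := by
    unfold FKN.dc
    congr 1
    ext e
    simp only [mem_inter, mem_sdiff, mem_union]
    tauto
  have h3 : ev v ∈ ω ∩ qan a l ↔ ev v ∈ ω := by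
    rw [mem_inter]
    exact and_iff_left h0
  unfold VE
  rw [h2, h3]
  simp only [h1]

private theorem YO_depA (r : ℕ) : Dep (FKN.Gp2 r ∪ FKN.Gm2 r)
    (fun ω => FKN.FarO r (ω ∩ FKN.Gp2 r) ∧ FKN.FarF r (FKN.dc (FKN.Gm2 r) ω)) := by
  intro ω
  have h1 : ω ∩ (FKN.Gp2 r ∪ FKN.Gm2 r) ∩ FKN.Gp2 r = ω ∩ FKN.Gp2 r := by
    rw [inter_assoc, inter_eq_right.2 (subset_union_left : FKN.Gp2 r ⊆ FKN.Gp2 r ∪ FKN.Gm2 r)]
  have h2 : FKN.dc (FKN.Gm2 r) (ω ∩ (FKN.Gp2 r ∪ FKN.Gm2 r)) = FKN.dc (FKN.Gm2 r) ω := by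
    generalize FKN.Gp2 r = P
    generalize FKN.Gm2 r = Q
    unfold FKN.dc
    congr 1
    ext e
    simp only [mem_inter, mem_sdiff, mem_union]
    tauto
  show (FKN.FarO r (ω ∩ FKN.Gp2 r) ∧ FKN.FarF r (FKN.dc (FKN.Gm2 r) ω)) ↔
    (FKN.FarO r (ω ∩ (FKN.Gp2 r ∪ FKN.Gm2 r) ∩ FKN.Gp2 r) ∧
      FKN.FarF r (FKN.dc (FKN.Gm2 r) (ω ∩ (FKN.Gp2 r ∪ FKN.Gm2 r))))
  rw [h1, h2]

private theorem YO_depE (e : Edge) : Dep {e} (fun ω : Finset Edge => e ∈ ω) := by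
  intro ω
  show e ∈ ω ↔ e ∈ ω ∩ {e}
  rw [mem_inter, mem_singleton]
  exact (and_iff_left rfl).symm

private theorem YO_half {E : Finset Edge} {e : Edge} (he : e ∈ E) : Pr E (fun ω => e ∈ ω) = 1 / 2 := by
  classical
  rw [Pr_dep (singleton_subset_iff.2 he) (YO_depE e)]
  have h1 : ∀ inst : DecidablePred fun ω : Finset Edge => e ∈ ω,
      @Finset.filter _ (fun ω : Finset Edge => e ∈ ω) inst ({e} : Finset Edge).powerset = {{e}} := by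
    intro inst
    ext ω
    rw [mem_filter, mem_powerset, mem_singleton, subset_singleton_iff]
    constructor
    · rintro ⟨rfl | rfl, h⟩
      · exact absurd h (by simp)
      · rfl
    · rintro rfl
      exact ⟨Or.inr rfl, mem_singleton_self e⟩
  unfold FKP.Pr
  rw [h1, card_singleton, card_singleton]
  norm_num

theorem edge_one (hW : HW4) : ∃ (c : ℝ) (l0 : ℕ), 0 < c ∧ ∀ (a l : ℕ) (v : V), l0 ≤ l → 2 * l ≤ a → v ∈ qs a l →
    c * (l : ℝ) ^ (-(5 / 4) : ℝ) ≤ Pr (qan a l) (VE a l v) := by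
  obtain ⟨c, n0, hc, hco⟩ := hW
  obtain ⟨c0, hc0, hfar⟩ := FKN.four_far
  refine ⟨1 / 2 * c0 * c, 12800 * (n0 + 2), by positivity, ?_⟩
  intro a l v hl ha hv
  obtain ⟨r, hr⟩ : ∃ r, r = l / 12800 := ⟨_, rfl⟩
  have hr2 : 2 ≤ r := by omega
  have h1 : 12800 * r ≤ l := by omega
  have h2 : l < 12800 * (r + 1) := by omega
  have hrn : n0 ≤ 800 * r := by omega
  obtain ⟨E, hE⟩ : ∃ E, E = ((FKN.Gp2 r ∪ FKN.Gm2 r) ∪ {FKN.e0}) ∪
    (qan a l).map (shE (-v.1) (-v.2)).toEmbedding := ⟨_, rfl⟩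
  have hqE : qan a l ⊆ E.map (shE v.1 v.2).toEmbedding := by
    intro e he
    rw [mem_map]
    refine ⟨shE (-v.1) (-v.2) e, ?_, ?_⟩
    · rw [hE]
      exact mem_union_right _ (mem_map_of_mem _ he)
    · obtain ⟨x, y, t⟩ := e
      show ((x + -v.1 + v.1, y + -v.2 + v.2, t) : Edge) = (x, y, t)
      simp
  have hGE : FKN.Gp2 r ∪ FKN.Gm2 r ⊆ E := by
    rw [hE]
    exact subset_union_left.trans subset_union_left
  have h0E : FKN.e0 ∈ E := by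
    rw [hE]
    exact mem_union_left _ (mem_union_right _ (mem_singleton_self _))
  have e1 : Pr (qan a l) (VE a l v) =
      Pr E (fun ω => VE a l v (ω.map (shE v.1 v.2).toEmbedding)) := by
    rw [← Pr_dep hqE (dep_VE (by omega) ha hv), Pr_map]
  have key := hfar r E (by omega) hGE
  have hdis : Disjoint (FKN.Gp2 r ∪ FKN.Gm2 r) {FKN.e0} := by
    rw [disjoint_singleton_right]
    exact FKN.e0_far (by omega)
  have e3 := Pr_indep hGE (singleton_subset_iff.2 h0E) hdis (YO_depA r) (YO_depE FKN.e0)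
  rw [YO_half h0E] at e3
  have e2 : Pr E (fun ω => (FKN.FarO r (ω ∩ FKN.Gp2 r) ∧ FKN.FarF r (FKN.dc (FKN.Gm2 r) ω)) ∧ FKN.e0 ∈ ω) ≤
      Pr E (fun ω => VE a l v (ω.map (shE v.1 v.2).toEmbedding)) :=
    Pr_mono fun ω _ h => ve_of_far hr2 h1 h2 ha hv h.2 h.1.1 h.1.2
  have e5 : c0 * FKN.wO (1 / 2) (800 * r) ≤
      Pr E (fun ω => FKN.FarO r (ω ∩ FKN.Gp2 r) ∧ FKN.FarF r (FKN.dc (FKN.Gm2 r) ω)) := by
    rw [FKN.pr_half]
    exact key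
  have e6 := hco (800 * r) hrn
  have hl0 : (0 : ℝ) < l := by
    have : 0 < l := by omega
    exact_mod_cast this
  have hn0 : (0 : ℝ) < ((800 * r : ℕ) : ℝ) := by
    have : 0 < 800 * r := by omega
    exact_mod_cast this
  have e4 : (l : ℝ) ^ (-(5 / 4) : ℝ) ≤ (((800 * r : ℕ) : ℕ) : ℝ) ^ (-(5 / 4) : ℝ) := by
    refine Real.rpow_le_rpow_of_nonpos hn0 ?_ (by norm_num)
    have : 800 * r ≤ l := by omega
    exact_mod_cast this
  rw [e1]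
  refine le_trans ?_ e2
  rw [e3]
  calc 1 / 2 * c0 * c * (l : ℝ) ^ (-(5 / 4) : ℝ) = c0 * (c * (l : ℝ) ^ (-(5 / 4) : ℝ)) * (1 / 2) := by ring
    _ ≤ c0 * (c * ((800 * r : ℕ) : ℝ) ^ (-(5 / 4) : ℝ)) * (1 / 2) := by gcongr
    _ ≤ c0 * FKN.wO (1 / 2) (800 * r) * (1 / 2) := by gcongr
    _ ≤ _ := by gcongr

end DimLim
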