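import Pool.Agent.Lib.MP_216314_pr.IC.YC
import Pool.Agent.Lib.MP_216314_pr.IC.YI
import Pool.Agent.Lib.MP_216314_pr.IC.YL
import Pool.Agent.Lib.MP_216314_pr.IC.YO

/-!
# Leaf YP: well distributed sets of double points (medium-, a copy of `hypL_of_loc`, I/DimG)

`fro_event` (IC/YC) with `D = 2`, `σ = 5/4`, `κ = 1/64`, `Q = qs a l`, `VL = VE a l`, the constants of `edge_one`, `edge_two` (IC/YO, IC/YL). The number of vertices at a given distance: `card_sphere` (as in `sum_sd`, I/DimE): at most `8 r` for `r ≥ 1`, one for `r = 0`. `G = WD M α l (qs a l) (VE a l)`, `Dep (qan a l) G` from `dep_VE` (IC/YO), `Pr (box 0 a 0 b) G = Pr (qan a l) G` (`Pr_dep`, `qan_sub`).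
The elements of the set `S` of `WD` are in `qs a l` (so in the box) and satisfy `VE a l v ω`, so `DV l a b ω v` (`dv_of_ve`, IC/YI).
-/

set_option autoImplicit false

noncomputable section

namespace DimLim

open Finset FKI FKP

private theorem YP_sphere (u : V) (r : ℕ) (Q : Finset V) :
    ((Q.filter (fun v => (sd u v).toNat = r)).card : ℝ) ≤ 8 * ((r : ℝ) + 1) := by
  by_cases h0 : r = 0
  · subst h0
    have h1 : (Q.filter (fun v => (sd u v).toNat = 0)).card ≤ 1 := by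
      refine card_le_one.2 fun v hv w hw => ?_
      rw [mem_filter] at hv hw
      have h2 : ∀ z : V, (sd u z).toNat = 0 → z = u := by
        intro z hz
        have h3 : sd u z ≤ ((0 : ℕ) : ℤ) := by
          have := sd_nonneg u z
          omega
        rw [sd_le] at h3
        exact Prod.ext (by omega) (by omega)
      rw [h2 v hv.2, h2 w hw.2]
    have h2 : ((Q.filter (fun v => (sd u v).toNat = 0)).card : ℝ) ≤ 1 := by exact_mod_cast h1
    push_cast
    linarith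
  · have h4 : (Q.filter (fun v => (sd u v).toNat = r)).card ≤ 8 * r := by
      refine le_trans (card_le_card fun v hv => ?_) (card_sphere u r (by omega) Q)
      rw [mem_filter] at hv ⊢
      refine ⟨hv.1, ?_⟩
      have h5 := sd_nonneg u v
      omega
    have h5 : ((Q.filter (fun v => (sd u v).toNat = r)).card : ℝ) ≤ 8 * r := by exact_mod_cast h4
    linarith

theorem hypG_edge (hP : HP2) (hW : HW4) {α : ℝ} (hα0 : 0 ≤ α) (hα1 : α < 3 / 4) :
    HypG (fun l a b ω v => v ∈ qs a l ∧ DV l a b ω v) α := by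
  obtain ⟨c, l1, hc, h1⟩ := edge_one hW
  obtain ⟨C, l2, hC, h2⟩ := edge_two hP
  obtain ⟨c', M, hc', hM, hF⟩ := fro_event (D := 2) (σ := 5 / 4) (α := α) (by norm_num) hα0
    (by norm_num; linarith) (by norm_num; linarith) hc hC (κ := 1 / 64) (by norm_num)
  refine ⟨c', M, max (max l1 l2) 128, hc', hM, ?_⟩
  intro a b l hl hla hlb
  have hl1 : l1 ≤ l := ((le_max_left _ _).trans (le_max_left _ _)).trans hl
  have hl2 : l2 ≤ l := ((le_max_right _ _).trans (le_max_left _ _)).trans hl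
  have hl8 : 128 ≤ l := (le_max_right _ _).trans hl
  have hQ1 : (1 / 64 : ℝ) * (l : ℝ) ^ 2 ≤ (qs a l).card := by
    rw [card_qs]
    have h5 : l ≤ 16 * (l / 8) := by omega
    have h6 : (l : ℝ) ≤ 16 * ((l / 8 : ℕ) : ℝ) := by exact_mod_cast h5
    have h7 : (0 : ℝ) ≤ (l : ℝ) := by positivity
    have h8 : ((l : ℝ)) ^ 2 ≤ (16 * ((l / 8 : ℕ) : ℝ)) ^ 2 := by gcongr
    push_cast
    nlinarith
  have hQ2 : (((qs a l).card : ℕ) : ℝ) ≤ (l : ℝ) ^ 2 := by
    rw [card_qs]
    have h5 : 2 * (l / 8) + 1 ≤ l := by omega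
    have h6 : (2 * (l / 8) + 1) ^ 2 ≤ l ^ 2 := Nat.pow_le_pow_left h5 2
    exact_mod_cast h6
  have hQ3 : ∀ u ∈ qs a l, ∀ v ∈ qs a l, sd u v < l := by
    intro u hu v hv
    rw [mem_qs] at hu hv
    have h5 : sd u v ≤ 2 * (l / 8 : ℕ) := by
      rw [sd_le]
      constructor <;> constructor <;> omega
    omega
  have hQ4 : ∀ u ∈ qs a l, ∀ r : ℕ, (((qs a l).filter (fun v => (sd u v).toNat = r)).card : ℝ) ≤
      8 * ((r : ℝ) + 1) ^ (2 - 1) := by
    intro u _ r
    rw [show (2 - 1 : ℕ) = 1 from rfl, pow_one]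
    exact YP_sphere u r _
  have hG := hF l (qan a l) (qs a l) (VE a l) (by omega) hQ1 hQ2 hQ3 hQ4
    (fun p hp => h1 a l p hl1 hla hp) (fun p hp p' hp' => h2 a l p p' hl2 hla hp hp')
  have hdep : Dep (qan a l) (WD M α l (qs a l) (VE a l)) := by
    intro ω
    unfold WD
    constructor
    · rintro ⟨S, hS1, hS2, hS3⟩
      exact ⟨S, hS1, fun p hp => (dep_VE hl8 hla (hS1 hp) ω).1 (hS2 p hp), hS3⟩
    · rintro ⟨S, hS1, hS2, hS3⟩
      exact ⟨S, hS1, fun p hp => (dep_VE hl8 hla (hS1 hp) ω).2 (hS2 p hp), hS3⟩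
  refine ⟨WD M α l (qs a l) (VE a l), hdep, ?_, ?_⟩
  · rw [Pr_dep (qan_sub hla hlb) hdep]
    exact hG
  · intro ω hω hWD
    obtain ⟨S, hS1, hS2, hS3, hS4⟩ := hWD
    refine ⟨S, fun v hv => ⟨?_, hS1 hv, dv_of_ve hl8 hla hlb hω (hS1 hv) (hS2 v hv)⟩, hS3, hS4⟩
    have h5 := mem_qs.1 (hS1 hv)
    omega

end DimLim
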