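import Pool.Agent.Lib.MP_216314_pr.IC.YA
import Pool.Agent.Lib.MP_216314_pr.IC.YD
import Pool.Agent.Lib.MP_216314_pr.IC.YP

/-!
# Leaf YQ: the double points have dimension at least `3/4` (medium)

For every `α : ℝ≥0` with `0 < α < 3/4`: `curve_lower` (IC/YD) with `W = fun l a b ω v => v ∈ qs a l ∧ DV l a b ω v` (`hypG_edge`, IC/YP) and `R m s = {p | CVis 2 s (1 / (m + 1)) p.1 p.2 ∧ 1 / (m + 1) ≤ p.2.1 ∧ p.2.1 + 1 / (m + 1) ≤ A ∧ 1 / (m + 1) ≤ p.2.2 ∧ p.2.2 + 1 / (m + 1) ≤ B}`: closed (`cvis_closed`, `isClosed_le`), increasing in `s`. `hW`: given `s > 0`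
take `m` with `1 / (m + 1) ≤ s / 100`, `δ1 = s / 100`. Let `v ∈ qs a l` (`mem_qs`), `x = emb .. v`: its coordinates are `δ v.1`, `δ v.2` (`projIcc_of_mem`), `3 l / 8 - 2 ≤ v.1 ≤ a - 11 l / 8 + 2`, the same bounds for `v.2`, `b - v.2`; `δ a ≤ A`, `δ b ≤ B`, `δ l ≥ s`: the conditions on the distances to the sides. `t1 ≤ s' ≤ t2` from `DV`, `τ` from `icurve_time` (IC/YH): the times
`t 0 = τ t1`, `s 0 = τ s'`, `t 1 = τ t2`; `dist (emb u) (emb v) = δ sd v u` for `u`, `v` in `[0,a] × [0,b]` (`vx` is in the box: `curve_cor` as in `mem_trc`), so `≤ δ ≤ 4 δ` for the visits and `≥ δ l / 64 ≥ s / 64 ≥ 1 / (m + 1)` for the excursion. So almost surely `α ≤ dimH` of the set of the `x` with `∃ m, ∀ s > 0, (c, x) ∈ R m s`, which is contained in the set of the double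
points in the open rectangle (`cvis_visits`). Take `α = 3/4 - 1 / (m + 1)`-like (as in `law_dim`, I/DimF) and `ae_all_iff`.
-/

set_option autoImplicit false

noncomputable section

namespace DimLim

open MeasureTheory Filter Topology Set ENNReal NNReal TopologicalSpace Metric FKI FKP

private theorem YQ_floor {A δ : ℝ} (hA : 0 ≤ A) (hδ : 0 < δ) : δ * (⌊A / δ⌋₊ : ℝ) ≤ A := by
  have h1 : (⌊A / δ⌋₊ : ℝ) ≤ A / δ := Nat.floor_le (by positivity)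
  rw [le_div_iff₀ hδ] at h1
  linarith

private theorem YQ_box {a b : ℕ} {ω : Finset Edge} (hω : ω ⊆ box 0 a 0 b) (i : ℕ) :
    0 ≤ (vx a b ω i).1 ∧ (vx a b ω i).1 ≤ a ∧ 0 ≤ (vx a b ω i).2 ∧ (vx a b ω i).2 ≤ b := by
  have h1 := FKN.curve_cor hω i
  unfold cor at h1
  rw [Finset.mem_product, Finset.mem_Icc, Finset.mem_Icc] at h1
  unfold vx vtx
  simp only
  omega

private theorem YQ_emb1 {A δ : ℝ} (hA : 0 ≤ A) (hδ : 0 < δ) {w : ℤ} (h0 : 0 ≤ w) (h1 : w ≤ (⌊A / δ⌋₊ : ℤ)) :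
    ((Set.projIcc 0 A hA (δ * w) : Set.Icc (0 : ℝ) A) : ℝ) = δ * w := by
  have h2 : δ * (w : ℝ) ∈ Set.Icc (0 : ℝ) A := by
    have h3 : (w : ℝ) ≤ ⌊A / δ⌋₊ := by exact_mod_cast h1
    have h4 : (0 : ℝ) ≤ w := by exact_mod_cast h0
    exact ⟨by positivity, (mul_le_mul_of_nonneg_left h3 hδ.le).trans (YQ_floor hA hδ)⟩
  rw [Set.projIcc_of_mem hA h2]

private theorem YQ_dist {A B δ : ℝ} (hA : 0 ≤ A) (hB : 0 ≤ B) (hδ : 0 < δ) {u v : V}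
    (hu : 0 ≤ u.1 ∧ u.1 ≤ (⌊A / δ⌋₊ : ℤ) ∧ 0 ≤ u.2 ∧ u.2 ≤ (⌊B / δ⌋₊ : ℤ))
    (hv : 0 ≤ v.1 ∧ v.1 ≤ (⌊A / δ⌋₊ : ℤ) ∧ 0 ≤ v.2 ∧ v.2 ≤ (⌊B / δ⌋₊ : ℤ)) :
    dist (emb hA hB δ u) (emb hA hB δ v) = δ * ((sd v u : ℤ) : ℝ) := by
  have e1 := YQ_emb1 hA hδ hu.1 hu.2.1
  have e2 := YQ_emb1 hA hδ hv.1 hv.2.1
  have e3 := YQ_emb1 hB hδ hu.2.2.1 hu.2.2.2
  have e4 := YQ_emb1 hB hδ hv.2.2.1 hv.2.2.2
  have h1 : dist (emb hA hB δ u) (emb hA hB δ v) = max |δ * (u.1 : ℝ) - δ * v.1| |δ * (u.2 : ℝ) - δ * v.2| := by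
    show max (dist (Set.projIcc 0 A hA (δ * u.1)) (Set.projIcc 0 A hA (δ * v.1)))
      (dist (Set.projIcc 0 B hB (δ * u.2)) (Set.projIcc 0 B hB (δ * v.2))) = _
    rw [Subtype.dist_eq, Subtype.dist_eq, Real.dist_eq, Real.dist_eq, e1, e2, e3, e4]
  have h2 : ((sd v u : ℤ) : ℝ) = max |(u.1 : ℝ) - v.1| |(u.2 : ℝ) - v.2| := by
    unfold sd
    push_cast
    rfl
  rw [h1, h2, ← mul_sub, ← mul_sub, abs_mul, abs_mul, abs_of_pos hδ, mul_max_of_nonneg _ _ hδ.le]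

/-- the closed sets -/
private def YQ_R (A B : ℝ) (m : ℕ) (s : ℝ) : Set (Curve (Rect A B) × Rect A B) :=
  {p | CVis 2 s (1 / ((m : ℝ) + 1)) p.1 p.2 ∧ 1 / ((m : ℝ) + 1) ≤ (p.2.1 : ℝ) ∧ (p.2.1 : ℝ) + 1 / ((m : ℝ) + 1) ≤ A ∧
    1 / ((m : ℝ) + 1) ≤ (p.2.2 : ℝ) ∧ (p.2.2 : ℝ) + 1 / ((m : ℝ) + 1) ≤ B}

private theorem YQ_closed (A B : ℝ) (m : ℕ) (s : ℝ) : IsClosed (YQ_R A B m s) := by
  have c1 : Continuous fun p : Curve (Rect A B) × Rect A B => (p.2.1 : ℝ) :=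
    continuous_subtype_val.comp (continuous_fst.comp continuous_snd)
  have c2 : Continuous fun p : Curve (Rect A B) × Rect A B => (p.2.2 : ℝ) :=
    continuous_subtype_val.comp (continuous_snd.comp continuous_snd)
  exact (cvis_closed 2 s (1 / ((m : ℝ) + 1))).inter ((isClosed_le continuous_const c1).inter
    ((isClosed_le (c1.add continuous_const) continuous_const).inter ((isClosed_le continuous_const c2).inter
      (isClosed_le (c2.add continuous_const) continuous_const))))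

private theorem YQ_mono (A B : ℝ) (m : ℕ) (s s' : ℝ) (h : s ≤ s') : YQ_R A B m s ⊆ YQ_R A B m s' := by
  rintro p ⟨⟨f, hf, t, u, h1, h2⟩, h3⟩
  exact ⟨⟨f, hf, t, u, fun i hi => (h1 i hi).trans h, h2⟩, h3⟩

private theorem YQ_hW {A B : ℝ} (hA : 0 < A) (hB : 0 < B) (s : ℝ) (hs : 0 < s) :
    ∃ (m : ℕ) (δ1 : ℝ), 0 < δ1 ∧ ∀ (δ : ℝ) (l a b : ℕ) (ω : Finset Edge) (v : V), 0 < δ → δ < δ1 →
      a = ⌊A / δ⌋₊ → b = ⌊B / δ⌋₊ → s ≤ δ * l → 2 * l ≤ a → 2 * l ≤ b → ω ⊆ box 0 a 0 b →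
      (0 ≤ v.1 ∧ v.1 ≤ a ∧ 0 ≤ v.2 ∧ v.2 ≤ b) → (v ∈ qs a l ∧ DV l a b ω v) →
      ((SeparationQuotient.mk (icurve hA.le hB.le δ a b ω) : Curve (Rect A B)), emb hA.le hB.le δ v) ∈
        YQ_R A B m (4 * δ) := by
  obtain ⟨m, hm⟩ := exists_nat_one_div_lt (K := ℝ) (ε := s / 100) (by positivity)
  refine ⟨m, s / 100, by positivity, ?_⟩
  rintro δ l a b ω v hδ hδ1 ha hb hsl hla hlb hω hv ⟨hq, t1, s', t2, h12, h23, h3, d1, d2, d3⟩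
  rw [mem_qs] at hq
  have hv' : 0 ≤ v.1 ∧ v.1 ≤ (⌊A / δ⌋₊ : ℤ) ∧ 0 ≤ v.2 ∧ v.2 ≤ (⌊B / δ⌋₊ : ℤ) := by
    rw [← ha, ← hb]
    exact hv
  have hbx : ∀ i, 0 ≤ (vx a b ω i).1 ∧ (vx a b ω i).1 ≤ (⌊A / δ⌋₊ : ℤ) ∧ 0 ≤ (vx a b ω i).2 ∧
      (vx a b ω i).2 ≤ (⌊B / δ⌋₊ : ℤ) := by
    intro i
    rw [← ha, ← hb]
    exact YQ_box hω i
  have e1 : (((emb hA.le hB.le δ v).1 : Set.Icc (0 : ℝ) A) : ℝ) = δ * v.1 := YQ_emb1 hA.le hδ hv'.1 hv'.2.1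
  have e2 : (((emb hA.le hB.le δ v).2 : Set.Icc (0 : ℝ) B) : ℝ) = δ * v.2 := YQ_emb1 hB.le hδ hv'.2.2.1 hv'.2.2.2
  have fa : δ * (a : ℝ) ≤ A := by
    rw [ha]
    exact YQ_floor hA.le hδ
  have fb : δ * (b : ℝ) ≤ B := by
    rw [hb]
    exact YQ_floor hB.le hδ
  have hl100 : (100 : ℝ) < l := by
    by_contra hcon
    push Not at hcon
    have h5 : δ * (l : ℝ) ≤ δ * 100 := mul_le_mul_of_nonneg_left hcon hδ.le
    linarith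
  have hl : 100 < l := by exact_mod_cast hl100
  have i1 : (3 * l : ℤ) ≤ 8 * v.1 := by omega
  have i2 : 8 * v.1 + l ≤ (8 * a : ℤ) := by omega
  have i3 : (l : ℤ) ≤ 8 * v.2 := by omega
  have i4 : 8 * v.2 + 3 * l ≤ (8 * b : ℤ) := by omega
  have r1 : (3 * l : ℝ) ≤ 8 * (v.1 : ℝ) := by exact_mod_cast i1
  have r2 : 8 * (v.1 : ℝ) + l ≤ 8 * a := by exact_mod_cast i2
  have r3 : (l : ℝ) ≤ 8 * (v.2 : ℝ) := by exact_mod_cast i3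
  have r4 : 8 * (v.2 : ℝ) + 3 * l ≤ 8 * b := by exact_mod_cast i4
  have q1 : δ * (3 * (l : ℝ)) ≤ δ * (8 * (v.1 : ℝ)) := mul_le_mul_of_nonneg_left r1 hδ.le
  have q2 : δ * (8 * (v.1 : ℝ) + l) ≤ δ * (8 * a) := mul_le_mul_of_nonneg_left r2 hδ.le
  have q3 : δ * (l : ℝ) ≤ δ * (8 * (v.2 : ℝ)) := mul_le_mul_of_nonneg_left r3 hδ.le
  have q4 : δ * (8 * (v.2 : ℝ) + 3 * l) ≤ δ * (8 * b) := mul_le_mul_of_nonneg_left r4 hδ.le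
  obtain ⟨τ, hτ, hτ2⟩ := icurve_time hA.le hB.le δ a b ω
  refine ⟨⟨icurve hA.le hB.le δ a b ω, rfl, fun i => if i = 0 then τ t1 else τ t2, fun _ => τ s', ?_, ?_⟩, ?_, ?_, ?_, ?_⟩
  · intro i hi
    have key : ∀ t ≤ steps a b ω, sd v (vx a b ω t) ≤ 1 →
        dist ((icurve hA.le hB.le δ a b ω).fn (τ t)) (emb hA.le hB.le δ v) ≤ 4 * δ := by
      intro t ht hd
      rw [hτ2 t ht, YQ_dist hA.le hB.le hδ (hbx t) hv']
      have h5 : ((sd v (vx a b ω t) : ℤ) : ℝ) ≤ 1 := by exact_mod_cast hd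
      nlinarith
    show dist ((icurve hA.le hB.le δ a b ω).fn (if i = 0 then τ t1 else τ t2)) (emb hA.le hB.le δ v) ≤ 4 * δ
    split_ifs with hi0
    · exact key t1 (by omega) d1
    · exact key t2 h3 d2
  · intro i hi
    have hi0 : i = 0 := by omega
    subst hi0
    refine ⟨?_, ?_, ?_⟩
    · show (if 0 = 0 then τ t1 else τ t2) ≤ τ s'
      rw [if_pos rfl]
      exact hτ _ _ h12
    · show τ s' ≤ (if 0 + 1 = 0 then τ t1 else τ t2)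
      rw [if_neg (by norm_num)]
      exact hτ _ _ h23
    · show 1 / ((m : ℝ) + 1) ≤ dist ((icurve hA.le hB.le δ a b ω).fn (τ s')) (emb hA.le hB.le δ v)
      rw [hτ2 s' (h23.trans h3), YQ_dist hA.le hB.le hδ (hbx s') hv']
      have h5 : (l : ℝ) ≤ 64 * ((sd v (vx a b ω s') : ℤ) : ℝ) := by exact_mod_cast d3
      have h6 := mul_le_mul_of_nonneg_left h5 hδ.le
      linarith
  · rw [e1]
    linarith
  · rw [e1]
    linarith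
  · rw [e2]
    linarith
  · rw [e2]
    linarith

private theorem YQ_sub {A B : ℝ} (c : Curve (Rect A B)) :
    {x : Rect A B | ∃ m, ∀ s : ℝ, 0 < s → (c, x) ∈ YQ_R A B m s} ⊆
      {x : Rect A B | 0 < (x.1 : ℝ) ∧ (x.1 : ℝ) < A ∧ 0 < (x.2 : ℝ) ∧ (x.2 : ℝ) < B ∧ Visits 2 c x} := by
  rintro x ⟨m, hm⟩
  have hp : (0 : ℝ) < 1 / ((m : ℝ) + 1) := by positivity
  obtain ⟨-, h1, h2, h3, h4⟩ := hm 1 one_pos
  exact ⟨lt_of_lt_of_le hp h1, by linarith, lt_of_lt_of_le hp h3, by linarith,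
    cvis_visits hp fun r hr => (hm r hr).1⟩

theorem double_lower (hP : HP2) (hW : HW4) {A B : ℝ} (hA : 0 < A) (hB : 0 < B) [MeasurableSpace (Curve (Rect A B))]
    [BorelSpace (Curve (Rect A B))] {μ : ProbabilityMeasure (Curve (Rect A B))} {δ : ℕ → ℝ} (hδ : ∀ k, 0 < δ k)
    (hδ0 : Tendsto δ atTop (𝓝 0)) (hμ : Tendsto (fun k => claw hA.le hB.le (δ k)) atTop (𝓝 μ)) :
    ∀ᵐ (c : Curve (Rect A B)) ∂(μ : Measure (Curve (Rect A B))), 3 / 4 ≤ dimH {x : Rect A B | 0 < (x.1 : ℝ) ∧ (x.1 : ℝ) < A ∧ 0 < (x.2 : ℝ) ∧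
      (x.2 : ℝ) < B ∧ Visits 2 c x} := by
  have h34 : (((3 / 4 : ℝ≥0)) : ℝ≥0∞) = 3 / 4 := by
    rw [ENNReal.coe_div (by norm_num)]
    norm_num
  have h2 : ∀ᵐ (c : Curve (Rect A B)) ∂(μ : Measure (Curve (Rect A B))),
      ∀ m : ℕ, ((3 / 4 - 1 / ((m : ℝ≥0) + 1) : ℝ≥0) : ℝ≥0∞) ≤
        dimH {x : Rect A B | 0 < (x.1 : ℝ) ∧ (x.1 : ℝ) < A ∧ 0 < (x.2 : ℝ) ∧ (x.2 : ℝ) < B ∧ Visits 2 c x} := by
    rw [ae_all_iff]
    intro m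
    rcases eq_or_ne (3 / 4 - 1 / ((m : ℝ≥0) + 1) : ℝ≥0) 0 with h0 | h0
    · rw [h0]
      exact Eventually.of_forall fun c => bot_le
    · have h3 : (0 : ℝ≥0) < 3 / 4 - 1 / ((m : ℝ≥0) + 1) := pos_iff_ne_zero.2 h0
      have h4 : (3 / 4 - 1 / ((m : ℝ≥0) + 1) : ℝ≥0) < 3 / 4 := by
        refine tsub_lt_self (by positivity) (by positivity)
      have h5 : ((3 / 4 - 1 / ((m : ℝ≥0) + 1) : ℝ≥0) : ℝ) < 3 / 4 := by exact_mod_cast h4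
      have h6 := curve_lower hA hB hδ hδ0 hμ h3 (hypG_edge hP hW (NNReal.coe_nonneg _) h5) (YQ_R A B)
        (YQ_closed A B) (YQ_mono A B) (YQ_hW hA hB)
      filter_upwards [h6] with c hc
      exact hc.trans (dimH_mono (YQ_sub c))
  filter_upwards [h2] with c hc
  rw [← h34]
  refine ENNReal.le_of_forall_pos_le_add fun ε hε _ => ?_
  obtain ⟨m, hm⟩ := exists_nat_one_div_lt (K := ℝ≥0) hε
  calc ((3 / 4 : ℝ≥0) : ℝ≥0∞) ≤ (((3 / 4 - 1 / ((m : ℝ≥0) + 1)) + 1 / ((m : ℝ≥0) + 1) : ℝ≥0) : ℝ≥0∞) := by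
        exact_mod_cast le_tsub_add
    _ ≤ dimH {x : Rect A B | 0 < (x.1 : ℝ) ∧ (x.1 : ℝ) < A ∧ 0 < (x.2 : ℝ) ∧ (x.2 : ℝ) < B ∧ Visits 2 c x} + ε := by
        rw [ENNReal.coe_add]
        exact add_le_add (hc m) (by exact_mod_cast hm.le)

end DimLim
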