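import Pool.Agent.Lib.MP_216314_pr.IC.YA
import Pool.Agent.Lib.MP_216314_pr.IC.YD
import Pool.Agent.Lib.MP_216314_pr.IC.YG
import Pool.Agent.Lib.MP_216314_pr.IC.YH

/-!
# Leaf YR: the intersection with the right side has dimension at least `2/3` (medium)

For every `α : ℝ≥0` with `0 < α < 2/3`: `curve_lower` (IC/YD) with `W = WSd` (`hypG_side`, IC/YG) and `R m s = {p | CVis 1 s 1 p.1 p.2 ∧ A - s ≤ p.2.1}` (the same for all `m`): closed (`cvis_closed`), increasing in `s`. `hW`: `m = 0`, `δ1 = 1`. Let `v.1 = a`, `WC a b v ω`, `0 ≤ v.2 ≤ b`: `gam_ne` (I/Curve): the interface passes at the corner `(2 v.1 + 1, 2 v.2 + 1)` (`FD a b ω v` with `g = v`, `g.1 = a`), so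
`v = vx a b ω t` with `t ≤ steps a b ω` (as in the proof of `mem_trc`, IC/IF), and `τ t` (`icurve_time`, IC/YH) is a time with `dist = 0`. `x = emb .. v`, `x.1 = δ a ≥ A - δ ≥ A - 4 δ`. The set of the `x` with `∀ s > 0, CVis 1 s 1 c x ∧ A - s ≤ x.1` is contained in `{x | x ∈ trace c ∧ x.1 = A}`: `cvis_visits` with `L = 1`, `l = 1` gives `Visits 1 c x`, that is `x ∈ trace c` (by definition: `f`, `t 0`).
`α → 2/3` as in `law_dim` (I/DimF), `ae_all_iff`.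
-/

set_option autoImplicit false

noncomputable section

namespace DimLim

open MeasureTheory Filter Topology Set ENNReal NNReal TopologicalSpace Metric FKI FKP

private theorem YR_trc {a b : ℕ} {ω : Finset Edge} (hω : ω ⊆ box 0 a 0 b) {v : V} (h0 : 0 ≤ v.1)
    (h1 : v.1 = a) (h2 : 0 ≤ v.2) (h3 : v.2 ≤ b) (hv : WC a b v ω) : v ∈ Trc a b ω := by
  classical
  unfold Trc
  rw [Finset.mem_filter, mem_rv]
  refine ⟨⟨⟨h0, h1.le⟩, h2, h3⟩, (2 * v.1 + 1, 2 * v.2 + 1), ?_, ?_⟩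
  · unfold vtx
    simp only
    ext
    · simp only
      omega
    · simp only
      omega
  · exact (FKN.gam_ne hω h0 h1.le h2 h3).2 ⟨hv, v, Or.inl h1, SimpleGraph.Reachable.refl _⟩

/-- The closed relation. -/
private def YR_R (A B : ℝ) (s : ℝ) : Set (Curve (Rect A B) × Rect A B) :=
  {p | CVis 1 s 1 p.1 p.2 ∧ A - s ≤ (p.2.1 : ℝ)}

private theorem YR_closed (A B : ℝ) (s : ℝ) : IsClosed (YR_R A B s) := by
  have h1 := cvis_closed (E := Rect A B) 1 s 1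
  have h2 : IsClosed {p : Curve (Rect A B) × Rect A B | A - s ≤ (p.2.1 : ℝ)} :=
    isClosed_le continuous_const
      (continuous_subtype_val.comp (continuous_fst.comp continuous_snd))
  exact h1.inter h2

private theorem YR_mono (A B : ℝ) {s s' : ℝ} (h : s ≤ s') : YR_R A B s ⊆ YR_R A B s' := by
  rintro p ⟨⟨f, hf, t, u, h1, h2⟩, h3⟩
  exact ⟨⟨f, hf, t, u, fun i hi => (h1 i hi).trans h, h2⟩, by linarith⟩

private theorem YR_sub {A B : ℝ} (c : Curve (Rect A B)) :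
    {x : Rect A B | ∃ _m : ℕ, ∀ s : ℝ, 0 < s → (c, x) ∈ YR_R A B s} ⊆
      {x : Rect A B | x ∈ trace c ∧ (x.1 : ℝ) = A} := by
  rintro x ⟨-, hx⟩
  have h1 : Visits 1 c x := cvis_visits one_pos fun r hr => (hx r hr).1
  obtain ⟨f, hf, t, u, h2, -⟩ := h1
  refine ⟨⟨f, hf, t 0, h2 0 Nat.one_pos⟩, le_antisymm x.1.2.2 ?_⟩
  refine le_of_forall_pos_le_add fun s hs => ?_
  have h3 : A - s ≤ (x.1 : ℝ) := (hx s hs).2
  linarith

private theorem YR_vis {A B : ℝ} (hA : 0 < A) (hB : 0 < B) {δ : ℝ} (hδ : 0 < δ) {a b : ℕ}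
    (ha : a = ⌊A / δ⌋₊) {ω : Finset Edge} (hω : ω ⊆ box 0 a 0 b) {v : V} (h0 : 0 ≤ v.1)
    (h2 : 0 ≤ v.2) (h3 : v.2 ≤ b) (hv : v.1 = a ∧ WC a b v ω) :
    ((SeparationQuotient.mk (icurve hA.le hB.le δ a b ω) : Curve (Rect A B)),
      emb hA.le hB.le δ v) ∈ YR_R A B (4 * δ) := by
  obtain ⟨i, hi, hiv⟩ := (mem_trc hω v).1 (YR_trc hω h0 hv.1 h2 h3 hv.2)
  obtain ⟨τ, -, hτ⟩ := icurve_time hA.le hB.le δ a b ω
  have h4 := hτ i hi
  rw [hiv] at h4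
  refine ⟨⟨_, rfl, fun _ => τ i, fun _ => τ i, fun j _ => ?_, fun j hj => ?_⟩, ?_⟩
  · show dist ((icurve hA.le hB.le δ a b ω).fn (τ i)) (emb hA.le hB.le δ v) ≤ 4 * δ
    rw [h4, dist_self]
    positivity
  · omega
  · show A - 4 * δ ≤ ((Set.projIcc 0 A hA.le (δ * v.1) : Set.Icc (0 : ℝ) A) : ℝ)
    rw [Set.coe_projIcc, hv.1]
    have h5 : A / δ < (a : ℝ) + 1 := by
      rw [ha]
      exact Nat.lt_floor_add_one _
    rw [div_lt_iff₀ hδ] at h5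
    have h6 : A - 4 * δ ≤ min A (δ * ((a : ℤ) : ℝ)) := by
      rw [Int.cast_natCast]
      refine le_min ?_ ?_
      · linarith
      · nlinarith
    exact h6.trans (le_max_right _ _)

private theorem YR_alpha (h : HalfArm) {A B : ℝ} (hA : 0 < A) (hB : 0 < B)
    [MeasurableSpace (Curve (Rect A B))] [BorelSpace (Curve (Rect A B))]
    {μ : ProbabilityMeasure (Curve (Rect A B))} {δ : ℕ → ℝ} (hδ : ∀ k, 0 < δ k)
    (hδ0 : Tendsto δ atTop (𝓝 0)) (hμ : Tendsto (fun k => claw hA.le hB.le (δ k)) atTop (𝓝 μ))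
    {α : ℝ≥0} (hα : 0 < α) (hα1 : α < 2 / 3) :
    ∀ᵐ (c : Curve (Rect A B)) ∂(μ : Measure (Curve (Rect A B))),
      (α : ℝ≥0∞) ≤ dimH {x : Rect A B | x ∈ trace c ∧ (x.1 : ℝ) = A} := by
  have h1 : (α : ℝ) < 2 / 3 := by exact_mod_cast hα1
  have h2 := curve_lower hA hB hδ hδ0 hμ hα (hypG_side h α.2 h1)
    (fun _ s => YR_R A B s) (fun _ s => YR_closed A B s) (fun _ s s' hs => YR_mono A B hs)
    (fun s hs => ⟨0, 1, one_pos, fun δ' l a b ω v hδ' _ ha _ _ _ _ hω hv hW =>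
      YR_vis hA hB hδ' ha hω hv.1 hv.2.2.1 hv.2.2.2 hW⟩)
  filter_upwards [h2] with c hc
  exact hc.trans (dimH_mono (YR_sub c))

theorem side_lower (h : HalfArm) {A B : ℝ} (hA : 0 < A) (hB : 0 < B) [MeasurableSpace (Curve (Rect A B))]
    [BorelSpace (Curve (Rect A B))] {μ : ProbabilityMeasure (Curve (Rect A B))} {δ : ℕ → ℝ} (hδ : ∀ k, 0 < δ k)
    (hδ0 : Tendsto δ atTop (𝓝 0)) (hμ : Tendsto (fun k => claw hA.le hB.le (δ k)) atTop (𝓝 μ)) :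
    ∀ᵐ (c : Curve (Rect A B)) ∂(μ : Measure (Curve (Rect A B))), 2 / 3 ≤ dimH {x : Rect A B | x ∈ trace c ∧ (x.1 : ℝ) = A} := by
  have h74 : (((2 / 3 : ℝ≥0)) : ℝ≥0∞) = 2 / 3 := by
    rw [ENNReal.coe_div (by norm_num)]
    norm_num
  have h2 : ∀ᵐ (c : Curve (Rect A B)) ∂(μ : Measure (Curve (Rect A B))),
      ∀ m : ℕ, ((2 / 3 - 1 / ((m : ℝ≥0) + 1) : ℝ≥0) : ℝ≥0∞) ≤
        dimH {x : Rect A B | x ∈ trace c ∧ (x.1 : ℝ) = A} := by
    rw [ae_all_iff]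
    intro m
    rcases eq_or_ne (2 / 3 - 1 / ((m : ℝ≥0) + 1) : ℝ≥0) 0 with h0 | h0
    · rw [h0]
      exact Eventually.of_forall fun K => bot_le
    · have h3 : (0 : ℝ≥0) < 2 / 3 - 1 / ((m : ℝ≥0) + 1) := pos_iff_ne_zero.2 h0
      have h4 : (2 / 3 - 1 / ((m : ℝ≥0) + 1) : ℝ≥0) < 2 / 3 :=
        tsub_lt_self (by positivity) (by positivity)
      exact YR_alpha h hA hB hδ hδ0 hμ h3 h4
  filter_upwards [h2] with c hc
  rw [← h74]
  refine ENNReal.le_of_forall_pos_le_add fun ε hε _ => ?_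
  obtain ⟨m, hm⟩ := exists_nat_one_div_lt (K := ℝ≥0) hε
  calc ((2 / 3 : ℝ≥0) : ℝ≥0∞) ≤ (((2 / 3 - 1 / ((m : ℝ≥0) + 1)) + 1 / ((m : ℝ≥0) + 1) : ℝ≥0) : ℝ≥0∞) := by
        exact_mod_cast le_tsub_add
    _ ≤ dimH {x : Rect A B | x ∈ trace c ∧ (x.1 : ℝ) = A} + ε := by
        rw [ENNReal.coe_add]
        exact add_le_add (hc m) (by exact_mod_cast hm.le)

end DimLim
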