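import Pool.Agent.Lib.MP_216314_pr.EV.FMain
import Pool.Agent.Lib.MP_216314_pr.N.FEnd
import Pool.Agent.Lib.MP_216314_pr.IC.Y0

/-!
# Leaf YZ: the two inputs (medium-, needs the full closure; reserved for helper2)

`hp2`: `EV.pil_up (l := 2)`, `EV.al 2 = 15 / 12 = 5 / 4`. `hw4`: `FKF.law4_in` gives `c n ^ (-5/4) ≤ p4 (1/2) n`; `FKN.rec_out FKN.sepOut_all FKN.rswIn FKN.dualIn ε` with `rsc_half` gives `p4 (1/2) n ≤ C wO (1/2) (3 n)` for `1 ≤ n`. For a general scale `N ≥ 20000` let `n = N / 9`: `FKN.can_out` (N/DExtA, `rb_half`, `κ = 4`): `wO (1/2) (3 n) ≤ C' wO (1/2) N`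
(`1200 ≤ 3 n`, `3 (3 n) ≤ N ≤ 4 (3 n)`). `n ^ (-5/4) ≥ N ^ (-5/4)`.
-/

set_option autoImplicit false

noncomputable section

namespace DimLim

open Finset FKI FKP

theorem hp2 : HP2 := by
  obtain ⟨r0, C, hC, h⟩ := EV.pil_up (l := 2) (by norm_num)
  refine ⟨r0, C, hC, fun r n hr hn => ?_⟩
  have h1 := h r n hr hn
  have h2 : EV.al 2 = 5 / 4 := by
    unfold EV.al
    norm_num
  rw [h2] at h1
  exact h1

theorem hw4 : HW4 := by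
  obtain ⟨c, C, hc, hC, hlaw⟩ := FKF.law4_in
  obtain ⟨ε, hε, hRS⟩ := FKN.rsc_half
  obtain ⟨c1, hc1, hc1', hRB⟩ := FKN.rb_half
  obtain ⟨C1, hC1, hrec⟩ := FKN.rec_out FKN.sepOut_all FKN.rswIn FKN.dualIn ε hε
  obtain ⟨C2, hC2, hcan⟩ := FKN.can_out hc1 hc1' 4
  refine ⟨c / (C1 * C2), 20000, by positivity, fun n hn => ?_⟩
  obtain ⟨m, hm⟩ : ∃ m : ℕ, m = n / 9 := ⟨_, rfl⟩
  have h1 : 9 * m ≤ n := by omega
  have h2 : n ≤ 12 * m := by omega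
  have h3 : 1 ≤ m := by omega
  have e1 := (hlaw m h3).1
  have e2 := hrec (1 / 2) m (by norm_num) (by norm_num) (hRS m) h3
  have e3 := hcan (1 / 2) (3 * m) n n (by norm_num) (by norm_num) (hRB n) (by omega) (by omega) (by omega) (by omega)
  have hm0 : (0 : ℝ) < m := by exact_mod_cast h3
  have hmn : (m : ℝ) ≤ n := by exact_mod_cast (by omega : m ≤ n)
  have e4 : (n : ℝ) ^ (-(5 / 4) : ℝ) ≤ (m : ℝ) ^ (-(5 / 4) : ℝ) :=
    Real.rpow_le_rpow_of_nonpos hm0 hmn (by norm_num)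
  have e5 : c * (n : ℝ) ^ (-(5 / 4) : ℝ) ≤ C1 * C2 * FKN.wO (1 / 2) n := by
    calc c * (n : ℝ) ^ (-(5 / 4) : ℝ) ≤ c * (m : ℝ) ^ (-(5 / 4) : ℝ) := mul_le_mul_of_nonneg_left e4 hc.le
      _ ≤ C1 * FKN.wO (1 / 2) (3 * m) := e1.trans e2
      _ ≤ C1 * (C2 * FKN.wO (1 / 2) n) := mul_le_mul_of_nonneg_left e3 hC1.le
      _ = C1 * C2 * FKN.wO (1 / 2) n := by ring
  rw [div_mul_eq_mul_div, div_le_iff₀ (by positivity)]
  linarith

end DimLim
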